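import Mathlib

/-! LEAF Ga (medium-, MATHLIB ONLY, 2 theorems).  The derivation criterion for algebraic independence; derivations of a field with a transcendence basis.

PROOF.  `crit`: suppose `P(c) = 0` for some `P ≠ 0` in `MvPolynomial τ ℚ`; take one of minimal total degree.  For every derivation `D` of `K` (`ℚ`-linear): `0 = D (aeval c P) = ∑_t aeval c (pderiv t P) * D (c t)` (Mathlib: `Derivation.leibniz`, `MvPolynomial.induction_on`, or `der_aeval`/`mkDerivation`; there is also
`Derivation.mapCoeffs`.. ; model: `der_aeval` in Pool/Agent/Lib/MP_1e3e9c_agR/X4.lean), so by `h` `aeval c (pderiv t P) = 0` for all `t`.  `pderiv t P` has smaller total degree or is `0`, so by minimality `pderiv t P = 0` for all `t`; in characteristic `0` `P` is a constant (look at the coefficient of a monomial which contains `t`), `P = C q`, `q = P(c) = 0`: contradiction.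
`exists_der`: `K` is algebraic over `ℚ(z)`, `z` algebraically independent: `exists_ders` of X4.lean of MP_1e3e9c_agR (import it: `Pool.Agent.Lib.MP_1e3e9c_agR.X4`) gives for an algebraically independent family `z : Fin n → K` derivations `δ_j` with `δ_j z_l = 1` if `j = l` and `0` otherwise: number `τ` and take `∑ val_j δ_j`
(the algebraicity is not needed). -/

set_option autoImplicit false

namespace Pool.Agent.Lib.MP_1e3e9c_agY

open MvPolynomial in
private theorem Ga_derivation_poly {k L ι : Type*} [Field k] [Field L] [Algebra k L] (x : ι → L)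
    (δ : Derivation ℤ k L) (v : ι → L) :
    ∃ D : MvPolynomial ι k →+ L, (∀ p q, D (p * q) = aeval x p * D q + aeval x q * D p) ∧
      (∀ a, D (C a) = δ a) ∧ ∀ i, D (X i) = v i := by
  let c : k →+* TrivSqZeroExt L L :=
    { toFun := fun a => (algebraMap k L a, δ a)
      map_one' := TrivSqZeroExt.ext (map_one _) (Derivation.map_one_eq_zero δ)
      map_mul' := fun a b => TrivSqZeroExt.ext (map_mul _ a b) (by
        rw [TrivSqZeroExt.snd_mul]
        show δ (a * b) = algebraMap k L a • δ b + MulOpposite.op (algebraMap k L b) • δ a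
        rw [Derivation.leibniz, Algebra.smul_def, Algebra.smul_def, smul_eq_mul,
          op_smul_eq_mul, mul_comm (algebraMap k L b)])
      map_zero' := TrivSqZeroExt.ext (map_zero _) (map_zero δ)
      map_add' := fun a b => TrivSqZeroExt.ext (map_add _ a b) (map_add δ a b) }
  let φ : MvPolynomial ι k →+* TrivSqZeroExt L L := eval₂Hom c fun i => (x i, v i)
  have hfst : ∀ p, (φ p).fst = aeval x p := by
    intro p
    induction p using MvPolynomial.induction_on with
    | C a =>
      show (eval₂Hom c _ (C a)).fst = _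
      rw [eval₂Hom_C, aeval_C]
      rfl
    | add p q hp hq => rw [map_add, TrivSqZeroExt.fst_add, hp, hq, map_add]
    | mul_X p i hp =>
      rw [map_mul, TrivSqZeroExt.fst_mul, hp, map_mul, aeval_X]
      congr 1
      show (eval₂Hom c _ (X i)).fst = _
      rw [eval₂Hom_X']
      rfl
  refine ⟨{ toFun := fun p => (φ p).snd, map_zero' := ?_, map_add' := fun p q => ?_ },
    fun p q => ?_, fun a => ?_, fun i => ?_⟩
  · rw [map_zero, TrivSqZeroExt.snd_zero]
  · rw [map_add, TrivSqZeroExt.snd_add]
  · show (φ (p * q)).snd = aeval x p * (φ q).snd + aeval x q * (φ p).snd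
    rw [map_mul, TrivSqZeroExt.snd_mul, hfst, hfst, smul_eq_mul, op_smul_eq_mul,
      mul_comm (φ p).snd]
  · show (eval₂Hom c _ (C a)).snd = δ a
    rw [eval₂Hom_C]
    rfl
  · show (eval₂Hom c _ (X i)).snd = v i
    rw [eval₂Hom_X']
    rfl

open MvPolynomial in
open scoped IntermediateField.algebraAdjoinAdjoin in
private theorem Ga_derivation {k L ι : Type*} [Field k] [CharZero k] [Field L] [Algebra k L] (X : ι → L)
    (hX : AlgebraicIndependent k X)
    (hL : Algebra.IsAlgebraic (IntermediateField.adjoin k (Set.range X)) L)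
    (δ : Derivation ℤ k L) (v : ι → L) :
    ∃ D : Derivation ℤ L L, (∀ a : k, D (algebraMap k L a) = δ a) ∧ ∀ i, D (X i) = v i := by
  obtain ⟨D0, hD0, hD1, hD2⟩ := Ga_derivation_poly X δ v
  have hsep : Algebra.IsSeparable (IntermediateField.adjoin k (Set.range X)) L :=
    inferInstance
  have h1 : Algebra.FormallyEtale (Algebra.adjoin k (Set.range X))
      (IntermediateField.adjoin k (Set.range X)) :=
    Algebra.FormallyEtale.of_isLocalization
      (nonZeroDivisors (Algebra.adjoin k (Set.range X)))
  have h2 : Algebra.FormallyEtale (IntermediateField.adjoin k (Set.range X)) L :=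
    Algebra.FormallyEtale.of_isSeparable _ L
  have h3 : Algebra.FormallyEtale (Algebra.adjoin k (Set.range X)) L :=
    Algebra.FormallyEtale.comp _ (IntermediateField.adjoin k (Set.range X)) _
  have hbc : IsBaseChange L (KaehlerDifferential.map ℤ ℤ (Algebra.adjoin k (Set.range X)) L) :=
    KaehlerDifferential.isBaseChange_of_formallyEtale ℤ (Algebra.adjoin k (Set.range X)) L
  have hsm : ∀ s : Algebra.adjoin k (Set.range X), aeval X (hX.aevalEquiv.symm s) = (s : L) := by
    intro s
    rw [← hX.algebraMap_aevalEquiv, AlgEquiv.apply_symm_apply]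
    rfl
  let D1 : Algebra.adjoin k (Set.range X) →+ L :=
    D0.comp (hX.aevalEquiv.symm : Algebra.adjoin k (Set.range X) →+ MvPolynomial ι k)
  have hD1a : ∀ s, D1 s = D0 (hX.aevalEquiv.symm s) := fun _ => rfl
  let d : Derivation ℤ (Algebra.adjoin k (Set.range X)) L :=
    Derivation.mk' D1.toIntLinearMap (by
      intro a b
      change D1 (a * b) = (a : L) * D1 b + (b : L) * D1 a
      rw [hD1a, hD1a, hD1a, map_mul, hD0, hsm, hsm])
  have hd : ∀ s, d s = D0 (hX.aevalEquiv.symm s) := fun _ => rfl
  let D : Derivation ℤ L L :=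
    (hbc.lift d.liftKaehlerDifferential).compDer (KaehlerDifferential.D ℤ L)
  have hD : ∀ s : Algebra.adjoin k (Set.range X), D (s : L) = d s := by
    intro s
    have h4 : KaehlerDifferential.D ℤ L (algebraMap (Algebra.adjoin k (Set.range X)) L s)
        = KaehlerDifferential.map ℤ ℤ (Algebra.adjoin k (Set.range X)) L
          (KaehlerDifferential.D ℤ (Algebra.adjoin k (Set.range X)) s) := by
      rw [KaehlerDifferential.map_D]
    change hbc.lift d.liftKaehlerDifferential
      (KaehlerDifferential.D ℤ L (algebraMap (Algebra.adjoin k (Set.range X)) L s)) = _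
    rw [h4, hbc.lift_eq, Derivation.liftKaehlerDifferential_comp_D]
  refine ⟨D, ?_, ?_⟩
  · intro a
    have h5 := hD (algebraMap k (Algebra.adjoin k (Set.range X)) a)
    rw [hd, AlgEquiv.commutes, MvPolynomial.algebraMap_eq, hD1] at h5
    exact h5
  · intro i
    have h5 := hD (hX.aevalEquiv (MvPolynomial.X i))
    rw [hd, AlgEquiv.symm_apply_apply, hD2] at h5
    rw [← h5]
    congr 1
    have h6 := hX.algebraMap_aevalEquiv (MvPolynomial.X i)
    rw [aeval_X] at h6
    exact h6.symm

private theorem Ga_der_aeval {K τ : Type} [Field K] [CharZero K] [Fintype τ]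
    (d : Derivation ℚ K K) (f : τ → K) (P : MvPolynomial τ ℚ) :
    d (MvPolynomial.aeval f P) = ∑ i, MvPolynomial.aeval f (MvPolynomial.pderiv i P) * d (f i) := by
  classical
  induction P using MvPolynomial.induction_on with
  | C a =>
    rw [MvPolynomial.aeval_C, Derivation.map_algebraMap]
    refine (Finset.sum_eq_zero fun i _ => ?_).symm
    rw [MvPolynomial.pderiv_C, map_zero, zero_mul]
  | add p q hp hq =>
    rw [map_add, map_add, hp, hq, ← Finset.sum_add_distrib]
    refine Finset.sum_congr rfl fun i _ => ?_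
    rw [map_add, map_add, add_mul]
  | mul_X p j hp =>
    rw [map_mul, MvPolynomial.aeval_X, Derivation.leibniz, hp, smul_eq_mul, smul_eq_mul]
    have h : ∀ i : τ, MvPolynomial.aeval f (MvPolynomial.pderiv i (p * MvPolynomial.X j)) * d (f i) =
        (if i = j then MvPolynomial.aeval f p * d (f j) else 0) +
          f j * (MvPolynomial.aeval f (MvPolynomial.pderiv i p) * d (f i)) := by
      intro i
      rw [Derivation.leibniz, smul_eq_mul, smul_eq_mul, map_add, map_mul, map_mul, MvPolynomial.aeval_X,
        MvPolynomial.pderiv_X, Pi.single_apply]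
      by_cases hij : i = j
      · subst hij
        rw [if_pos rfl, if_pos rfl, map_one]
        ring
      · rw [if_neg hij, if_neg (Ne.symm hij), map_zero]
        ring
    rw [Finset.sum_congr rfl fun i _ => h i, Finset.sum_add_distrib, Finset.sum_ite_eq',
      if_pos (Finset.mem_univ _), ← Finset.mul_sum]

open MvPolynomial in
private theorem Ga_pderiv_degree {τ : Type} (P : MvPolynomial τ ℚ) (t : τ) (n : ℕ)
    (hP : P.totalDegree ≤ n + 1) : (pderiv t P).totalDegree ≤ n := by
  classical
  refine Finset.sup_le fun m hm => ?_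
  rw [mem_support_iff, coeff_pderiv] at hm
  have h1 : m + Finsupp.single t 1 ∈ P.support := by
    rw [mem_support_iff]
    exact left_ne_zero_of_mul hm
  have h2 := le_totalDegree h1
  rw [Finsupp.sum_add_index' (fun _ => rfl) (fun _ _ _ => rfl), Finsupp.sum_single_index rfl] at h2
  have h3 := h2.trans hP
  exact Nat.le_of_succ_le_succ h3

open MvPolynomial in
private theorem Ga_pderiv_zero {τ : Type} (P : MvPolynomial τ ℚ) (h : ∀ t, pderiv t P = 0) :
    P.totalDegree ≤ 0 := by
  classical
  refine Finset.sup_le fun m hm => ?_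
  have h0 : m = 0 := by
    by_contra hne
    obtain ⟨t, ht⟩ := Finsupp.ne_iff.1 hne
    rw [Finsupp.zero_apply] at ht
    have h1 := coeff_pderiv (i := t) P (m - Finsupp.single t 1)
    have h2 : m - Finsupp.single t 1 + Finsupp.single t 1 = m :=
      Finsupp.sub_add_single_one_cancel ht
    rw [h t, coeff_zero, h2] at h1
    rcases mul_eq_zero.1 h1.symm with h3 | h3
    · exact (mem_support_iff.1 hm) h3
    · have h4 : (0 : ℚ) < ((m - Finsupp.single t 1 : τ →₀ ℕ) t : ℚ) + 1 := by positivity
      exact h4.ne' h3
  rw [h0, Finsupp.sum_zero_index]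

theorem crit {K τ : Type} [Field K] [CharZero K] [Fintype τ] (c : τ → K)
    (h : ∀ γ : τ → K, (∀ D : Derivation ℚ K K, ∑ t, γ t * D (c t) = 0) → γ = 0) :
    AlgebraicIndependent ℚ c := by
  rw [algebraicIndependent_iff]
  have key : ∀ (n : ℕ) (P : MvPolynomial τ ℚ), P.totalDegree ≤ n →
      MvPolynomial.aeval c P = 0 → P = 0 := by
    intro n
    induction n with
    | zero =>
      intro P hP h0
      have h1 := MvPolynomial.totalDegree_eq_zero_iff_eq_C.1 (Nat.le_zero.1 hP)
      rw [h1, MvPolynomial.aeval_C] at h0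
      have h2 : MvPolynomial.coeff 0 P = 0 :=
        (algebraMap ℚ K).injective (h0.trans (map_zero _).symm)
      rw [h1, h2, MvPolynomial.C_0]
    | succ n ih =>
      intro P hP h0
      have h1 : (fun t => MvPolynomial.aeval c (MvPolynomial.pderiv t P)) = 0 := by
        refine h _ fun D => ?_
        rw [← Ga_der_aeval D c P, h0, map_zero]
      have h2 : ∀ t, MvPolynomial.pderiv t P = 0 := fun t =>
        ih _ (Ga_pderiv_degree P t n hP) (congrFun h1 t)
      exact ih P ((Ga_pderiv_zero P h2).trans (Nat.zero_le n)) h0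
  exact fun P hP => key _ P le_rfl hP

theorem exists_der {K τ : Type} [Field K] [CharZero K] [Fintype τ] (z : τ → K)
    (hz : AlgebraicIndependent ℚ z) (val : τ → K) :
    ∃ D : Derivation ℚ K K, ∀ t, D (z t) = val t := by
  classical
  have hinj : Function.Injective z := hz.injective
  have hind : AlgebraicIndepOn ℚ id (Set.range z) := hz.coe_range
  obtain ⟨t, hft, ht⟩ := exists_isTranscendenceBasis_superset hind
  have hmem : ∀ j, z j ∈ t := fun j => hft (Set.mem_range_self j)
  obtain ⟨D, hD, hDX⟩ := Ga_derivation ((↑) : t → K) ht.1 ht.isAlgebraic_field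
    (0 : Derivation ℤ ℚ K) (fun i => if h : ∃ j, z j = (i : K) then val h.choose else 0)
  have hD0 : ∀ a : ℚ, D (algebraMap ℚ K a) = 0 := fun a => by
    rw [hD]
    rfl
  have hsm : ∀ (a : ℚ) (x : K), D (a • x) = a • D x := fun a x => by
    rw [Algebra.smul_def a x, Derivation.leibniz, hD0, smul_zero, add_zero,
      Algebra.smul_def a (D x), smul_eq_mul]
  let E : K →ₗ[ℚ] K :=
    { toFun := fun x => D x
      map_add' := fun x y => map_add D x y
      map_smul' := hsm }
  refine ⟨Derivation.mk' E fun a b => Derivation.leibniz D a b, fun l => ?_⟩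
  have h3 := hDX ⟨z l, hmem l⟩
  have h5 : ∃ j, z j = z l := ⟨l, rfl⟩
  have h6 : (if h : ∃ j, z j = (((⟨z l, hmem l⟩ : t) : K)) then val h.choose else 0) = val l := by
    rw [dif_pos h5]
    exact congrArg val (hinj h5.choose_spec)
  exact h3.trans h6

end Pool.Agent.Lib.MP_1e3e9c_agY
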