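import Pool.Agent.Lib.MP_1e3e9c_agY.Ya

/-! LEAF Ni (medium-, 3 theorems).  Vectors orthogonal to integral vectors, over a field of characteristic `0`.

PROOF.  `int_field`: let `S` be a set of vectors in `ℤ^d` and `θ ∈ K^d` orthogonal to all of them.  `K` is a `ℚ`-vector space; let `β` be a basis (`Module.Basis.ofVectorSpace ℚ K`): `θ_l = ∑_t θ_(t,l) β_t` with `θ_(t,l) ∈ ℚ` (finitely supported); for `m ∈ S`: `0 = ∑_t (∑_l m_l θ_(t,l)) β_t`, so `θ_t = (θ_(t,l))_l ∈ ℚ^d` is orthogonal to `S` for all `t`.  A positive multiple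
`N_t θ_t` is integral, so by `h` it is `κ_t v` with `κ_t ∈ ℚ`, and `θ = (∑_t κ_t β_t / N_t) v`.  (Or: linear forms: if `ℚ`-linear maps ... any proof is fine.)  `full_field`: `S` = the differences `m - m'` of elements of `A`, `v = 0`: an integral `w` with `pr m w = pr m' w` for all `m, m' ∈ A` is `0` by `Full`.
`fct_field`: `S` = the differences of the points `m` with `Fa A v m`: `hv.2 w` gives `a w = b v`, `a ≠ 0`. -/

set_option autoImplicit false

namespace Pool.Agent.Lib.MP_1e3e9c_agY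

open Pool.Agent.Lib.MP_1e3e9c_agV

private theorem Ni_sub {d : ℕ} (m m' w : Fin d → ℤ) : pr (m - m') w = pr m w - pr m' w := by
  simp only [pr, Pi.sub_apply, sub_mul, Finset.sum_sub_distrib]

private theorem Ni_rat {d : ℕ} {S : Set (Fin d → ℤ)} {v : Fin d → ℤ}
    (h : ∀ w : Fin d → ℤ, (∀ m ∈ S, pr m w = 0) → ∃ a b : ℤ, a ≠ 0 ∧ a • w = b • v)
    {q : Fin d → ℚ} (hq : ∀ m ∈ S, ∑ l, (m l : ℚ) * q l = 0) : ∃ c : ℚ, ∀ l, q l = c * v l := by
  have hN : ∀ l, ∃ t : ℕ, ∏ i, (q i).den = (q l).den * t := fun l =>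
    Finset.dvd_prod_of_mem (fun i => (q i).den) (Finset.mem_univ l)
  have hN0 : ((∏ i, (q i).den : ℕ) : ℚ) ≠ 0 := by
    rw [Nat.cast_ne_zero]
    exact Finset.prod_ne_zero_iff.2 fun i _ => (q i).den_nz
  choose t ht using hN
  have hw : ∀ l, (((q l).num * t l : ℤ) : ℚ) = ((∏ i, (q i).den : ℕ) : ℚ) * q l := by
    intro l
    rw [ht l]
    push_cast
    have := Rat.mul_den_eq_num (q l)
    rw [← this]
    ring
  obtain ⟨a, b, ha, hab⟩ := h (fun l => (q l).num * t l) (fun m hm => by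
    have h1 : ((pr m (fun l => (q l).num * t l) : ℤ) : ℚ) = 0 := by
      rw [pr, Int.cast_sum]
      have h2 : ∀ l, ((m l * ((q l).num * (t l : ℤ)) : ℤ) : ℚ) =
          ((∏ i, (q i).den : ℕ) : ℚ) * ((m l : ℚ) * q l) := by
        intro l
        rw [Int.cast_mul, hw l]
        ring
      rw [Finset.sum_congr rfl fun l _ => h2 l, ← Finset.mul_sum, hq m hm, mul_zero]
    exact_mod_cast h1)
  refine ⟨(b : ℚ) / (a * (∏ i, (q i).den : ℕ)), fun l => ?_⟩
  have h3 := congrFun hab l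
  simp only [Pi.smul_apply, smul_eq_mul] at h3
  have h4 : (a : ℚ) * (((∏ i, (q i).den : ℕ) : ℚ) * q l) = b * v l := by
    rw [← hw l]
    exact_mod_cast h3
  have ha' : (a : ℚ) ≠ 0 := Int.cast_ne_zero.2 ha
  rw [div_mul_eq_mul_div, eq_div_iff (mul_ne_zero ha' hN0)]
  linear_combination h4

theorem int_field {d : ℕ} {S : Set (Fin d → ℤ)} {v : Fin d → ℤ}
    (h : ∀ w : Fin d → ℤ, (∀ m ∈ S, pr m w = 0) → ∃ a b : ℤ, a ≠ 0 ∧ a • w = b • v)
    {K : Type} [Field K] [CharZero K] {θ : Fin d → K}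
    (hθ : ∀ m ∈ S, ∑ l, (m l : K) * θ l = 0) : ∃ κ : K, ∀ l, θ l = κ * (v l : K) := by
  have hφ : ∀ φ : Module.Dual ℚ K, ∃ c : ℚ, ∀ l, φ (θ l) = c * v l := by
    intro φ
    refine Ni_rat h (fun m hm => ?_)
    have h1 := congrArg φ (hθ m hm)
    rw [map_sum, map_zero] at h1
    rw [← h1]
    refine Finset.sum_congr rfl fun l _ => ?_
    have h2 : (m l : K) * θ l = (m l : ℚ) • θ l := by
      rw [Rat.smul_def, Rat.cast_intCast]
    rw [h2, map_smul, smul_eq_mul]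
  by_cases hv : v = 0
  · refine ⟨0, fun l => ?_⟩
    rw [zero_mul]
    refine (Module.forall_dual_apply_eq_zero_iff ℚ (θ l)).1 fun φ => ?_
    obtain ⟨c, hc⟩ := hφ φ
    rw [hc l, hv]
    simp
  · obtain ⟨l0, hl0⟩ := Function.ne_iff.1 hv
    have hl0' : (v l0 : K) ≠ 0 := by
      rw [Int.cast_ne_zero]
      exact hl0
    refine ⟨θ l0 / v l0, fun l => ?_⟩
    have key : (v l0 : ℚ) • θ l - (v l : ℚ) • θ l0 = 0 := by
      refine (Module.forall_dual_apply_eq_zero_iff ℚ _).1 fun φ => ?_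
      obtain ⟨c, hc⟩ := hφ φ
      rw [map_sub, map_smul, map_smul, hc, hc, smul_eq_mul, smul_eq_mul]
      ring
    rw [Rat.smul_def, Rat.smul_def, Rat.cast_intCast, Rat.cast_intCast, sub_eq_zero] at key
    field_simp
    linear_combination key

theorem full_field {d : ℕ} {A : Finset (Fin d → ℤ)} (hA : Full A) {K : Type} [Field K] [CharZero K]
    {θ : Fin d → K} (hθ : ∀ m ∈ A, ∀ m' ∈ A, ∑ l, ((m l - m' l : ℤ) : K) * θ l = 0) : θ = 0 := by
  obtain ⟨κ, hκ⟩ := int_field (S := {x | ∃ m ∈ A, ∃ m' ∈ A, x = m - m'}) (v := 0) (θ := θ)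
    (fun w hw => by
      refine ⟨1, 0, one_ne_zero, ?_⟩
      rw [one_smul, zero_smul]
      by_contra hw0
      obtain ⟨m, hm, m', hm', hne⟩ := hA w hw0
      have h1 := hw (m - m') ⟨m, hm, m', hm', rfl⟩
      rw [Ni_sub, sub_eq_zero] at h1
      exact hne h1)
    (by
      rintro x ⟨m, hm, m', hm', rfl⟩
      exact hθ m hm m' hm')
  funext l
  rw [hκ l]
  simp

theorem fct_field {d : ℕ} {A : Finset (Fin d → ℤ)} {v : Fin d → ℤ} (hv : Fct A v) {K : Type}
    [Field K] [CharZero K] {θ : Fin d → K}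
    (hθ : ∀ m m', Fa A v m → Fa A v m' → ∑ l, ((m l - m' l : ℤ) : K) * θ l = 0) :
    ∃ κ : K, ∀ l, θ l = κ * (v l : K) := by
  refine int_field (S := {x | ∃ m m', Fa A v m ∧ Fa A v m' ∧ x = m - m'}) (v := v) (θ := θ)
    (fun w hw => hv.2 w fun m m' hm hm' => ?_) ?_
  · have h1 := hw (m - m') ⟨m, m', hm, hm', rfl⟩
    rw [Ni_sub, sub_eq_zero] at h1
    exact h1
  · rintro x ⟨m, m', hm, hm', rfl⟩
    exact hθ m m' hm hm'

end Pool.Agent.Lib.MP_1e3e9c_agY
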