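import Pool.Agent.Lib.MP_1e3e9c_agY.YDefs
import Pool.Agent.Lib.MP_1e3e9c_agV.V03a

/-!
# MP_1e3e9c_ag, project Y: definitions for the contact curves
-/

set_option autoImplicit false

namespace Pool.Agent.Lib.MP_1e3e9c_agY

open Polynomial Pool.Agent.Lib.MP_1e3e9c_agV

/-- The equation number `j` on the curve `x ∏ p_i^(v_i)`. -/
noncomputable def Ph {k K : Type} [Field k] [Field K] [Algebra k K] {d r s : ℕ}
    (A : Fin (s + 1) → Finset (Fin d → ℤ)) (c : Fin (s + 1) → (Fin d → ℤ) → k)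
    (v : Fin r → Fin d → ℤ) (x : Fin d → K) (p : Fin r → K[X]) (j : Fin (s + 1)) : K[X] :=
  Phi (A j) (c j) v (fun i => hs (A j) (v i)) x p

/-- A contact curve with base point `x` and end point `y` (at `t = ∞`; or all coordinates vanish at `t = ∞`), on which the equations `1, .., s` vanish, without
base points in the affine line. -/
structure GCY {k K : Type} [Field k] [Field K] [Algebra k K] {d r s : ℕ}
    (A : Fin (s + 1) → Finset (Fin d → ℤ)) (c : Fin (s + 1) → (Fin d → ℤ) → k)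
    (v : Fin r → Fin d → ℤ) (a : Fin r → ℕ) (g ν : ℕ) (y : (Fin d → ℤ) → k) (x : Fin d → K)
    (p : Fin r → K[X]) : Prop where
  ne : ∀ j, x j ≠ 0
  deg : ∀ i, (p i).natDegree ≤ a i
  zero : ∀ i, (p i).coeff 0 = 1
  van : ∀ j : Fin s, Ph A c v x p j.succ = 0
  dvd : X ^ ν ∣ Ph A c v x p 0
  phi : Ph A c v x p 0 ≠ 0
  rat : ∀ m ∈ A 0, ∀ m' ∈ A 0, ld v a (fun i => hs (A 0) (v i)) x p m * algebraMap k K (y m') =
    ld v a (fun i => hs (A 0) (v i)) x p m' * algebraMap k K (y m)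
  bez : ∃ H : (Fin d → ℤ) → K[X], (∀ m, (H m).natDegree ≤ 2 * g) ∧
    ∑ m ∈ A 0, H m * cd v (fun i => hs (A 0) (v i)) x p m 1 = 1

/-- The set `T` is dense in the zero set of the ideal `I`. -/
def DI {k : Type} [Field k] {d : ℕ} (I : Ideal (MvPolynomial (Fin d) k)) (T : Set (Fin d → k)) :
    Prop :=
  ∀ P : MvPolynomial (Fin d) k, (∀ x ∈ T, MvPolynomial.eval x P = 0) → P ∈ I

/-- The equations, in the weighted projective space, of the set of the zeros of the equations `1, .., s`. -/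
def SY {k : Type} [Field k] {d s n : ℕ} (A : Fin (s + 1) → Finset (Fin d → ℤ))
    (c : Fin (s + 1) → (Fin d → ℤ) → k) (e : Fin (n + 1) → Fin d → ℤ) (w : Fin (n + 1) → ℕ) :
    Set (MvPolynomial (Fin (n + 1)) k) :=
  {Q | (∃ μ, Q.IsWeightedHomogeneous w μ) ∧ ∀ x : Fin d → k, (∀ i, x i ≠ 0) →
    (∀ j : Fin s, ∑ m ∈ A j.succ, c j.succ m * mn x m = 0) →
    MvPolynomial.eval (fun j => mn x (e j)) Q = 0}

/-- A generic point of (a component of) the torus part of the complete intersection: the ideal of its relations; `l` = coordinates which are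
algebraically independent. -/
structure GP {E : Type} [Field E] {d s n : ℕ} (A : Fin (s + 1) → Finset (Fin d → ℤ))
    (c : Fin (s + 1) → (Fin d → ℤ) → E) (I : Ideal (MvPolynomial (Fin d) E))
    (l : Fin n → Fin d) : Prop where
  prime : I.IsPrime
  ne : ∀ i, MvPolynomial.X i ∉ I
  eq : ∀ j (σ : Fin d → ℤ), (∀ m ∈ A j, ∀ i, 0 ≤ m i + σ i) → FP (A j) (c j) σ ∈ I
  ind : ∀ P : MvPolynomial (Fin n) E, MvPolynomial.rename l P ∈ I → P = 0

end Pool.Agent.Lib.MP_1e3e9c_agY
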