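import Pool.Agent.Lib.MP_1e3e9c_agY.Ga
import Pool.Agent.Lib.MP_1e3e9c_agY.Ni
import Pool.Agent.Lib.MP_1e3e9c_agY.YG

/-! LEAF Gb (medium, 3 theorems).  The generic system with a zero at the generic point.

`τ = Fin d ⊕ {t : Σ j, {m // m ∈ A j} // t.2.1 ≠ m0 t.1}`, `z` = the coordinates `x_l` and the coefficients `c j m`, `m ≠ m0 j`, algebraically independent; `c j (m0 j)` is determined by `∑_(m ∈ A j) c j m x^m = 0`.

PROOF.  `der_of`: given `ξ`, `κ` with the linearised equations take `D` with `D x_l = ξ_l x_l`, `D (c j m) = κ j m` for `m ∈ A j`, `m ≠ m0 j` (`exists_der`).  `D` of the equation `hF j` is `∑_(m ∈ A j) (D (c j m) + c j m ∑_l m_l ξ_l) x^m = 0` (`D (mn x m) = mn x m * ∑_l m_l ξ_l`: `Derivation.leibniz`, zpow), and comparing with `hlin`: `D (c j (m0 j)) = κ j (m0 j)` (`mn x (m0 j) ≠ 0`).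
`grad_ind`: suppose `∑_j α_j G^j = 0` with `α j0 ≠ 0`, `G^j_l = ∑_m c_jm x^m m_l`.  For `m, m' ∈ A j0` let `D` be the derivation of `der_of` with `ξ = 0`, `κ j0 m = x^(-m)`, `κ j0 m' = - x^(-m')` (all other `κ = 0`; `m ≠ m'`; `mn x (-m) = (mn x m)⁻¹`): `0 = D (∑_j α_j G^j_l) = ∑_j D(α_j) G^j_l + α_j0 (m_l - m'_l)`.  So all the vectors `m - m'`, `m, m' ∈ A j0`, are in the
span `S` of the `G^j`, whose dimension is `≤ s` (they are dependent: `G^j0` is a combination of the others).  By `full_field` (Ni) the vectors `m - m'` span `K^d` (a proper subspace is killed by a nonzero linear form `θ`; `Submodule.exists_dual_map_eq_bot` or `Submodule.exists_le_ker_of_lt_top`), so `d ≤ s`: contradiction to `s + 1 ≤ d`.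
`gen_of`: `crit` (Ga): let `γ` be such that `∑_t γ_t D (c t) = 0` for all `D`.  (i) `ξ = 0`: for all `κ` with `∑_m κ_jm x^m = 0` (each `j`) `∑ γ κ = 0`: so `γ_(j,m) = α_j x^m` with `α_j = γ_(j, m0 j) x^(- m0 j)` (take `κ j m = x^(-m)`, `κ j (m0 j) = - x^(- m0 j)`).  (ii) For any `ξ` choose `κ j (m0 j)` such that the linearised equation `j` holds, other `κ = 0`:
`0 = ∑ γ D c = ∑_j α_j ∑_m κ_jm x^m = - ∑_j α_j ∑_l G^j_l ξ_l`, so `∑_j α_j G^j = 0`, `α = 0` by `grad_ind`, `γ = 0`. -/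

set_option autoImplicit false

namespace Pool.Agent.Lib.MP_1e3e9c_agY

open Pool.Agent.Lib.MP_1e3e9c_agV

variable {K : Type} [Field K] [CharZero K] {d s : ℕ} {A : Fin (s + 1) → Finset (Fin d → ℤ)}
  {m0 : Fin (s + 1) → Fin d → ℤ} {c : Fin (s + 1) → (Fin d → ℤ) → K} {x : Fin d → K}

private theorem Gb_der_prod {L ι : Type} [Field L] [CharZero L] (D : Derivation ℚ L L)
    (y : ι → L) (e : ι → L) (S : Finset ι) (h : ∀ i ∈ S, D (y i) = y i * e i) :
    D (∏ i ∈ S, y i) = (∏ i ∈ S, y i) * ∑ i ∈ S, e i := by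
  classical
  induction S using Finset.induction_on with
  | empty => simp
  | insert i S hi ih =>
    rw [Finset.prod_insert hi, Finset.sum_insert hi, D.leibniz,
      ih fun j hj => h j (Finset.mem_insert_of_mem hj), h i (Finset.mem_insert_self i S)]
    simp only [smul_eq_mul]
    ring

private theorem Gb_der_mn {L : Type} [Field L] [CharZero L] {n : ℕ} (D : Derivation ℚ L L)
    {y ξ : Fin n → L} (hy : ∀ l, y l ≠ 0) (hD : ∀ l, D (y l) = ξ l * y l) (m : Fin n → ℤ) :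
    D (mn y m) = mn y m * ∑ l, (m l : L) * ξ l := by
  unfold mn
  refine Gb_der_prod D _ _ _ fun i _ => ?_
  rw [D.leibniz_zpow, hD i, zpow_sub_one₀ (hy i)]
  simp only [zsmul_eq_mul, smul_eq_mul]
  have h := hy i
  field_simp

private theorem Gb_der_term {L : Type} [Field L] [CharZero L] {n : ℕ} (D : Derivation ℚ L L)
    {y ξ : Fin n → L} (hy : ∀ l, y l ≠ 0) (hD : ∀ l, D (y l) = ξ l * y l) (a : L)
    (m : Fin n → ℤ) :
    D (a * mn y m) = (D a + a * ∑ l, (m l : L) * ξ l) * mn y m := by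
  rw [D.leibniz, Gb_der_mn D hy hD]
  simp only [smul_eq_mul]
  ring

theorem der_of (hm0 : ∀ j, m0 j ∈ A j) (hx : ∀ l, x l ≠ 0)
    (hF : ∀ j, ∑ m ∈ A j, c j m * mn x m = 0)
    (hz : AlgebraicIndependent ℚ (Sum.elim x fun t : {t : (Σ j, {m // m ∈ A j}) // t.2.1 ≠ m0 t.1} =>
      c t.1.1 t.1.2.1))
    (ξ : Fin d → K) (κ : Fin (s + 1) → (Fin d → ℤ) → K)
    (hlin : ∀ j, ∑ m ∈ A j, (κ j m + c j m * ∑ l, (m l : K) * ξ l) * mn x m = 0) :
    ∃ D : Derivation ℚ K K, (∀ l, D (x l) = ξ l * x l) ∧ ∀ j, ∀ m ∈ A j, D (c j m) = κ j m := by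
  classical
  obtain ⟨D, hD⟩ := exists_der _ hz (Sum.elim (fun l => ξ l * x l)
    fun t : {t : (Σ j, {m // m ∈ A j}) // t.2.1 ≠ m0 t.1} => κ t.1.1 t.1.2.1)
  have h1 : ∀ l, D (x l) = ξ l * x l := fun l => hD (Sum.inl l)
  have h2 : ∀ j, ∀ m ∈ A j, m ≠ m0 j → D (c j m) = κ j m := fun j m hm hne =>
    hD (Sum.inr ⟨⟨j, ⟨m, hm⟩⟩, hne⟩)
  refine ⟨D, h1, fun j m hm => ?_⟩
  by_cases hne : m = m0 j
  · subst hne
    have h3 : ∑ m ∈ A j, (D (c j m) + c j m * ∑ l, (m l : K) * ξ l) * mn x m = 0 := by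
      have h4 := congrArg D (hF j)
      rw [map_sum, map_zero] at h4
      rw [← h4]
      exact Finset.sum_congr rfl fun m _ => (Gb_der_term D hx h1 (c j m) m).symm
    have h5 : ∑ m ∈ A j, (D (c j m) - κ j m) * mn x m = 0 := by
      have h6 := congrArg₂ (fun a b : K => a - b) h3 (hlin j)
      simp only [sub_self, ← Finset.sum_sub_distrib] at h6
      rw [← h6]
      exact Finset.sum_congr rfl fun m _ => by ring
    rw [Finset.sum_eq_single_of_mem (m0 j) (hm0 j) fun m hm hne => by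
      rw [h2 j m hm hne, sub_self, zero_mul]] at h5
    exact sub_eq_zero.mp ((mul_eq_zero.mp h5).resolve_right (mn_ne hx _))
  · exact h2 j m hm hne

private theorem Gb_delta {L : Type} [Field L] {n N : ℕ} {B : Fin N → Finset (Fin n → ℤ)}
    {j0 : Fin N} {m1 : Fin n → ℤ} (hm1 : m1 ∈ B j0) (u : L)
    (f : Fin N → (Fin n → ℤ) → L) (j : Fin N) :
    ∑ m ∈ B j, (if j = j0 ∧ m = m1 then u else 0) * f j m = if j = j0 then u * f j0 m1 else 0 := by
  classical
  by_cases hj : j = j0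
  · subst hj
    rw [Finset.sum_eq_single_of_mem m1 hm1 fun m _ hne => by simp [hne]]
    simp
  · simp [hj]

private theorem Gb_special (hm0 : ∀ j, m0 j ∈ A j) (hx : ∀ l, x l ≠ 0)
    (hF : ∀ j, ∑ m ∈ A j, c j m * mn x m = 0)
    (hz : AlgebraicIndependent ℚ (Sum.elim x fun t : {t : (Σ j, {m // m ∈ A j}) // t.2.1 ≠ m0 t.1} =>
      c t.1.1 t.1.2.1))
    (j0 : Fin (s + 1)) {m1 m2 : Fin d → ℤ} (h1 : m1 ∈ A j0) (h2 : m2 ∈ A j0) :
    ∃ D : Derivation ℚ K K, (∀ l, D (x l) = 0) ∧ ∀ j, ∀ m ∈ A j, D (c j m) =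
      (if j = j0 ∧ m = m1 then (mn x m1)⁻¹ else 0) -
      (if j = j0 ∧ m = m2 then (mn x m2)⁻¹ else 0) := by
  classical
  obtain ⟨D, hD1, hD2⟩ := der_of hm0 hx hF hz 0 (fun j m =>
      (if j = j0 ∧ m = m1 then (mn x m1)⁻¹ else 0) -
      (if j = j0 ∧ m = m2 then (mn x m2)⁻¹ else 0)) (fun j => by
    have e : ∀ m ∈ A j, (((if j = j0 ∧ m = m1 then (mn x m1)⁻¹ else 0) -
        (if j = j0 ∧ m = m2 then (mn x m2)⁻¹ else 0)) + c j m * ∑ l, (m l : K) *
        (0 : Fin d → K) l) * mn x m = (if j = j0 ∧ m = m1 then (mn x m1)⁻¹ else 0) * mn x m -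
        (if j = j0 ∧ m = m2 then (mn x m2)⁻¹ else 0) * mn x m := fun m _ => by
      simp only [Pi.zero_apply, mul_zero, Finset.sum_const_zero, add_zero]
      ring
    rw [Finset.sum_congr rfl e, Finset.sum_sub_distrib, Gb_delta h1 _ (fun _ m => mn x m),
      Gb_delta h2 _ (fun _ m => mn x m), inv_mul_cancel₀ (mn_ne hx _),
      inv_mul_cancel₀ (mn_ne hx _), sub_self])
  refine ⟨D, fun l => ?_, hD2⟩
  rw [hD1 l, Pi.zero_apply, zero_mul]

private theorem Gb_span {L : Type} [Field L] {n N : ℕ} (hn : N + 1 ≤ n)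
    {G : Fin (N + 1) → Fin n → L} {α : Fin (N + 1) → L} (hα : ∀ l, ∑ j, α j * G j l = 0)
    (hne : α ≠ 0) : ∃ θ : Fin n → L, θ ≠ 0 ∧
      ∀ w : Fin n → L, w ∈ Submodule.span L (Set.range G) → ∑ l, w l * θ l = 0 := by
  classical
  have h1 : ¬ LinearIndependent L G := fun hli => hne (funext fun j => by
    refine Fintype.linearIndependent_iff.mp hli α ?_ j
    ext l
    rw [Finset.sum_apply]
    simpa using hα l)
  rw [linearIndependent_iff_card_le_finrank_span, Fintype.card_fin, not_le] at h1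
  have h2 : Submodule.span L (Set.range G) < ⊤ := by
    rw [lt_top_iff_ne_top]
    intro h3
    unfold Set.finrank at h1
    rw [h3, finrank_top, Module.finrank_fin_fun] at h1
    omega
  obtain ⟨f, hf, hker⟩ := Submodule.exists_le_ker_of_lt_top _ h2
  have h3 : ∀ w : Fin n → L, f w = ∑ l, w l * f (fun j => if l = j then 1 else 0) :=
    fun w => f.pi_apply_eq_sum_univ w
  refine ⟨fun l => f (fun j => if l = j then 1 else 0), fun h => hf (LinearMap.ext fun w => ?_), fun w hw => ?_⟩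
  · rw [h3 w, LinearMap.zero_apply]
    refine Finset.sum_eq_zero fun l _ => ?_
    have := congrFun h l
    simp only [Pi.zero_apply] at this
    rw [this, mul_zero]
  · rw [← h3 w]
    exact hker hw

theorem grad_ind (hA : ∀ j, Full (A j)) (hd : s + 1 ≤ d) (hm0 : ∀ j, m0 j ∈ A j)
    (hx : ∀ l, x l ≠ 0) (hF : ∀ j, ∑ m ∈ A j, c j m * mn x m = 0)
    (hz : AlgebraicIndependent ℚ (Sum.elim x fun t : {t : (Σ j, {m // m ∈ A j}) // t.2.1 ≠ m0 t.1} =>
      c t.1.1 t.1.2.1))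
    {α : Fin (s + 1) → K} (hα : ∀ l, ∑ j, α j * ∑ m ∈ A j, c j m * mn x m * (m l : K) = 0) :
    α = 0 := by
  classical
  by_contra hne
  obtain ⟨θ, hθ, hort⟩ := Gb_span hd
    (G := fun j l => ∑ m ∈ A j, c j m * mn x m * (m l : K)) hα hne
  obtain ⟨j0, hj0⟩ := Function.ne_iff.mp hne
  refine hθ (full_field (hA j0) fun m1 h1 m2 h2 => hort (fun l => ((m1 l - m2 l : ℤ) : K)) ?_)
  obtain ⟨D, hD1, hD2⟩ := Gb_special hm0 hx hF hz j0 h1 h2
  have hmn : ∀ m, D (mn x m) = 0 := fun m => by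
    have := Gb_der_mn D hx (ξ := 0) (fun l => by rw [hD1 l, Pi.zero_apply, zero_mul]) m
    simpa using this
  have hG : ∀ j l, D (∑ m ∈ A j, c j m * mn x m * (m l : K)) =
      if j = j0 then ((m1 l - m2 l : ℤ) : K) else 0 := fun j l => by
    rw [map_sum]
    have e : ∀ m ∈ A j, D (c j m * mn x m * (m l : K)) =
        (if j = j0 ∧ m = m1 then (mn x m1)⁻¹ else 0) * (mn x m * (m l : K)) -
        (if j = j0 ∧ m = m2 then (mn x m2)⁻¹ else 0) * (mn x m * (m l : K)) := fun m hm => by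
      rw [D.leibniz, D.leibniz, hmn, hD2 j m hm, Derivation.map_intCast]
      simp only [smul_eq_mul]
      ring
    rw [Finset.sum_congr rfl e, Finset.sum_sub_distrib,
      Gb_delta h1 _ (fun _ m => mn x m * (m l : K)), Gb_delta h2 _ (fun _ m => mn x m * (m l : K))]
    split_ifs with hj
    · rw [inv_mul_cancel_left₀ (mn_ne hx _), inv_mul_cancel_left₀ (mn_ne hx _)]
      push_cast
      ring
    · rw [sub_zero]
  have hsum : ∀ l, ((m1 l - m2 l : ℤ) : K) =
      ∑ j, (-(α j0)⁻¹ * D (α j)) * ∑ m ∈ A j, c j m * mn x m * (m l : K) := fun l => by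
    have h3 := congrArg D (hα l)
    rw [map_sum, map_zero] at h3
    simp only [D.leibniz, smul_eq_mul, hG, Finset.sum_add_distrib, mul_ite, mul_zero,
      Finset.sum_ite_eq', Finset.mem_univ, if_true] at h3
    have h4 : ∑ j, (-(α j0)⁻¹ * D (α j)) * ∑ m ∈ A j, c j m * mn x m * (m l : K) =
        -(α j0)⁻¹ * ∑ j, (∑ m ∈ A j, c j m * mn x m * (m l : K)) * D (α j) := by
      rw [Finset.mul_sum]
      exact Finset.sum_congr rfl fun j _ => by ring
    rw [h4, eq_neg_of_add_eq_zero_right h3, neg_mul_neg, inv_mul_cancel_left₀ hj0]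
  have hvec : (fun l => ((m1 l - m2 l : ℤ) : K)) =
      ∑ j, (-(α j0)⁻¹ * D (α j)) • (fun l => ∑ m ∈ A j, c j m * mn x m * (m l : K)) := by
    ext l
    rw [hsum l, Finset.sum_apply]
    rfl
  rw [hvec]
  exact Submodule.sum_mem _ fun j _ => Submodule.smul_mem _ _ (Submodule.subset_span ⟨j, rfl⟩)

theorem gen_of (hA : ∀ j, Full (A j)) (hd : s + 1 ≤ d) (hm0 : ∀ j, m0 j ∈ A j)
    (hx : ∀ l, x l ≠ 0) (hF : ∀ j, ∑ m ∈ A j, c j m * mn x m = 0)
    (hz : AlgebraicIndependent ℚ (Sum.elim x fun t : {t : (Σ j, {m // m ∈ A j}) // t.2.1 ≠ m0 t.1} =>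
      c t.1.1 t.1.2.1)) : Gen A c := by
  classical
  refine crit _ fun γ hγ => ?_
  set g : Fin (s + 1) → (Fin d → ℤ) → K := fun j m =>
    if h : m ∈ A j then γ ⟨j, ⟨m, h⟩⟩ else 0 with hg
  have hsum : ∀ D : Derivation ℚ K K, ∑ j, ∑ m ∈ A j, g j m * D (c j m) = 0 := fun D => by
    rw [← hγ D, Fintype.sum_sigma]
    refine Finset.sum_congr rfl fun j _ => ?_
    rw [← Finset.sum_coe_sort]
    refine Finset.sum_congr rfl fun m _ => ?_
    simp [hg]
  have hα : ∀ j, ∀ m ∈ A j, g j m = (g j (m0 j) * (mn x (m0 j))⁻¹) * mn x m := fun j0 m1 h1 => by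
    obtain ⟨D, -, hD2⟩ := Gb_special hm0 hx hF hz j0 h1 (hm0 j0)
    have h3 := hsum D
    have e : ∀ j ∈ Finset.univ, ∑ m ∈ A j, g j m * D (c j m) =
        (if j = j0 then (mn x m1)⁻¹ * g j0 m1 else 0) -
        (if j = j0 then (mn x (m0 j0))⁻¹ * g j0 (m0 j0) else 0) := fun j _ => by
      rw [← Gb_delta h1 _ g, ← Gb_delta (hm0 j0) _ g, ← Finset.sum_sub_distrib]
      refine Finset.sum_congr rfl fun m hm => ?_
      rw [hD2 j m hm]
      ring
    rw [Finset.sum_congr rfl e, Finset.sum_sub_distrib] at h3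
    simp only [Finset.sum_ite_eq', Finset.mem_univ, if_true] at h3
    rw [mul_comm (g j0 (m0 j0)), ← sub_eq_zero.mp h3, mul_comm, mul_inv_cancel_left₀ (mn_ne hx _)]
  set α : Fin (s + 1) → K := fun j => g j (m0 j) * (mn x (m0 j))⁻¹ with hαdef
  have hα0 : α = 0 := by
    refine grad_ind hA hd hm0 hx hF hz fun l => ?_
    obtain ⟨D, -, hD2⟩ := der_of hm0 hx hF hz (Pi.single l 1) (fun j m =>
      if m = m0 j then -(∑ m ∈ A j, c j m * mn x m * (m l : K)) * (mn x (m0 j))⁻¹ else 0)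
      (fun j => by
        have e : ∀ m ∈ A j, ((if m = m0 j then -(∑ m ∈ A j, c j m * mn x m * (m l : K)) *
            (mn x (m0 j))⁻¹ else 0) + c j m * ∑ l', (m l' : K) * (Pi.single l 1 : Fin d → K) l') *
            mn x m = (if m = m0 j then -(∑ m ∈ A j, c j m * mn x m * (m l : K)) *
            (mn x (m0 j))⁻¹ * mn x m else 0) + c j m * mn x m * (m l : K) := fun m _ => by
          have e1 : ∑ l', (m l' : K) * (Pi.single l 1 : Fin d → K) l' = m l := by
            rw [Finset.sum_eq_single l (fun b _ hb => by rw [Pi.single_eq_of_ne hb, mul_zero])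
              (fun h => absurd (Finset.mem_univ l) h), Pi.single_eq_same, mul_one]
          rw [e1, add_mul, ite_mul, zero_mul]
          ring
        rw [Finset.sum_congr rfl e, Finset.sum_add_distrib, Finset.sum_ite_eq', if_pos (hm0 j),
          inv_mul_cancel_right₀ (mn_ne hx _), neg_add_cancel])
    have h3 := hsum D
    have e : ∀ j ∈ Finset.univ, ∑ m ∈ A j, g j m * D (c j m) =
        -(α j * ∑ m ∈ A j, c j m * mn x m * (m l : K)) := fun j _ => by
      rw [Finset.sum_congr rfl fun m hm => by rw [hD2 j m hm, mul_ite, mul_zero],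
        Finset.sum_ite_eq', if_pos (hm0 j), hαdef]
      ring
    rw [Finset.sum_congr rfl e, Finset.sum_neg_distrib] at h3
    exact neg_eq_zero.mp h3
  funext ⟨j, ⟨m, hm⟩⟩
  have h4 := hα j m hm
  have h5 : g j (m0 j) * (mn x (m0 j))⁻¹ = 0 := congrFun hα0 j
  rw [h5, zero_mul] at h4
  simpa [hg, hm] using h4

end Pool.Agent.Lib.MP_1e3e9c_agY
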