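import Pool.Agent.Lib.MP_1e3e9c_agY.YG

/-! LEAF Gc (easy+).  A field with a generic zero `x` of a system with free coefficients.

PROOF.  `τ` = the index type of the family `z` (a finite type), `K = AlgebraicClosure (FractionRing (MvPolynomial τ ℚ))` (in `Type`), `z t` = the image of `X t`: a transcendence basis of `K` over `ℚ` (the `X t` are algebraically independent in the fraction field, whose elements are algebraic over the algebra they generate; `K` is algebraic over the fraction field; Mathlib: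
`MvPolynomial.isTranscendenceBasis_X`, `IsTranscendenceBasis.of_comp`, `IsFractionRing`, `Algebra.IsAlgebraic.trans`).  `x l = z (inl l)`, `c j m = z (inr ⟨⟨j, m⟩, _⟩)` if `m ∈ A j` and `m ≠ m0 j`, `c j (m0 j) = - (∑_(m ∈ A j, m ≠ m0 j) c j m mn x m) / mn x (m0 j)`, `0` otherwise (`dite`).  `x l ≠ 0`: it is transcendental. -/

set_option autoImplicit false

namespace Pool.Agent.Lib.MP_1e3e9c_agY

open Pool.Agent.Lib.MP_1e3e9c_agV

private theorem Gc_tb (τ : Type) : ∃ (K : Type) (_ : Field K) (_ : CharZero K) (_ : IsAlgClosed K)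
    (z : τ → K), IsTranscendenceBasis ℚ z := by
  have h0 : CharZero (AlgebraicClosure (FractionRing (MvPolynomial τ ℚ))) :=
    charZero_of_injective_algebraMap (algebraMap ℚ _).injective
  have h1 : IsScalarTower ℚ (MvPolynomial τ ℚ)
      (AlgebraicClosure (FractionRing (MvPolynomial τ ℚ))) := inferInstance
  have h2 : Algebra.IsAlgebraic (MvPolynomial τ ℚ)
      (AlgebraicClosure (FractionRing (MvPolynomial τ ℚ))) := by
    have h4 : Algebra.IsAlgebraic (MvPolynomial τ ℚ) (FractionRing (MvPolynomial τ ℚ)) :=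
      IsLocalization.isAlgebraic _ (nonZeroDivisors (MvPolynomial τ ℚ))
    exact Algebra.IsAlgebraic.trans (MvPolynomial τ ℚ) (FractionRing (MvPolynomial τ ℚ)) _
  have h3 : FaithfulSMul (MvPolynomial τ ℚ)
      (AlgebraicClosure (FractionRing (MvPolynomial τ ℚ))) := by
    rw [faithfulSMul_iff_algebraMap_injective, IsScalarTower.algebraMap_eq (MvPolynomial τ ℚ)
      (FractionRing (MvPolynomial τ ℚ)) (AlgebraicClosure (FractionRing (MvPolynomial τ ℚ)))]
    exact (algebraMap (FractionRing (MvPolynomial τ ℚ)) _).injective.comp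
      (IsFractionRing.injective (MvPolynomial τ ℚ) (FractionRing (MvPolynomial τ ℚ)))
  refine ⟨AlgebraicClosure (FractionRing (MvPolynomial τ ℚ)), inferInstance, h0, inferInstance,
    algebraMap (MvPolynomial τ ℚ) _ ∘ MvPolynomial.X, ?_⟩
  exact (IsTranscendenceBasis.mvPolynomial τ ℚ).algebraMap_comp

theorem exists_free {d s : ℕ} {A : Fin (s + 1) → Finset (Fin d → ℤ)}
    {m0 : Fin (s + 1) → Fin d → ℤ} (hm0 : ∀ j, m0 j ∈ A j) :
    ∃ (K : Type) (_ : Field K) (_ : CharZero K) (_ : IsAlgClosed K) (x : Fin d → K)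
      (c : Fin (s + 1) → (Fin d → ℤ) → K), (∀ l, x l ≠ 0) ∧
      (∀ j, ∑ m ∈ A j, c j m * mn x m = 0) ∧
      IsTranscendenceBasis ℚ (Sum.elim x
        fun t : {t : (Σ j, {m // m ∈ A j}) // t.2.1 ≠ m0 t.1} => c t.1.1 t.1.2.1) := by
  classical
  obtain ⟨K, i1, i2, i3, z, hz⟩ :=
    Gc_tb (Fin d ⊕ {t : (Σ j, {m // m ∈ A j}) // t.2.1 ≠ m0 t.1})
  let x : Fin d → K := fun l => z (Sum.inl l)
  let c' : Fin (s + 1) → (Fin d → ℤ) → K := fun j m =>
    if h : m ∈ A j ∧ m ≠ m0 j then z (Sum.inr ⟨⟨j, ⟨m, h.1⟩⟩, h.2⟩) else 0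
  let c : Fin (s + 1) → (Fin d → ℤ) → K := fun j m =>
    if m = m0 j then -(∑ m' ∈ (A j).erase (m0 j), c' j m' * mn x m') / mn x (m0 j) else c' j m
  have hx : ∀ l, x l ≠ 0 := fun l => hz.1.ne_zero (Sum.inl l)
  refine ⟨K, i1, i2, i3, x, c, hx, fun j => ?_, ?_⟩
  · have hn : mn x (m0 j) ≠ 0 := by
      unfold Pool.Agent.Lib.MP_1e3e9c_agV.mn
      exact Finset.prod_ne_zero_iff.2 fun i _ => zpow_ne_zero _ (hx i)
    rw [← Finset.add_sum_erase _ _ (hm0 j)]
    have h1 : c j (m0 j) = -(∑ m' ∈ (A j).erase (m0 j), c' j m' * mn x m') / mn x (m0 j) :=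
      if_pos rfl
    have h2 : ∑ m ∈ (A j).erase (m0 j), c j m * mn x m =
        ∑ m' ∈ (A j).erase (m0 j), c' j m' * mn x m' := by
      refine Finset.sum_congr rfl fun m hm => ?_
      have h3 : c j m = c' j m := if_neg (Finset.ne_of_mem_erase hm)
      rw [h3]
    rw [h1, h2, div_mul_cancel₀ _ hn, neg_add_cancel]
  · have h : (Sum.elim x
        fun t : {t : (Σ j, {m // m ∈ A j}) // t.2.1 ≠ m0 t.1} => c t.1.1 t.1.2.1) = z := by
      funext t
      rcases t with l | ⟨⟨j, m, hm⟩, hne⟩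
      · rfl
      · change c j m = _
        have h3 : c j m = c' j m := if_neg hne
        rw [h3]
        exact dif_pos ⟨hm, hne⟩
    rw [h]
    exact hz

end Pool.Agent.Lib.MP_1e3e9c_agY
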