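import Pool.Agent.Lib.MP_1e3e9c_agY.Gb
import Pool.Agent.Lib.MP_1e3e9c_agY.Gc
import Pool.Agent.Lib.MP_1e3e9c_agV.V15c

/-! LEAF Gd (medium).  The generic system and the generic point of its complete intersection.

PROOF.  All `A j` are not empty (`ne_of_full`, `0 < d`): `m0`.  `exists_free` (Gc): `K`, `x`, `c`, `z`.  `gen_of` (Gb, `z` is algebraically independent): `Gen A c`, in `K`.  `F` = the subfield of `K` generated by all `c j m`, `m ∈ A j`, `j` (`IntermediateField.adjoin ℚ (range ..)`), `E = algebraicClosure F K` (an algebraically closed field in `Type`), with the coefficients `c' j m ∈ E` with image `c j m`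
for `m ∈ A j` (`0` otherwise; nothing else is used): `Gen A c'` (`AlgebraicIndependent.of_ringHom_of_comp_eq` or `AlgHom` injective: `AlgebraicIndependent.of_aeval`/`.map'`).  TRANSCENDENCE DEGREE: let `T = Σ j, {m // m ∈ A j}`.  `trdeg_ℚ E = |T|` (the `c'_t` are a transcendence basis: `E` is algebraic over `ℚ(c')`), `trdeg_ℚ K = |τ| = d + |T| - (s + 1)` (`z`), so
`trdeg_E K = d - s - 1 = n` (`Algebra.trdeg_add_eq`, cardinals; all are finite).  `K` is algebraic over `E(x)` (it is algebraic over `ℚ(z)`, and all `z` are in `E(x)`), so a subset of the `x_l` is a transcendence basis of `K` over `E` (`exists_isTranscendenceBasis_subset` / `exists_isTranscendenceBasis_between`), it has `n` elements: `l : Fin n → Fin d` (injective), `x ∘ l` algebraically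
independent over `E`.  `I` = the kernel of `MvPolynomial.aeval x : MvPolynomial (Fin d) E →ₐ[E] K` (`RingHom.ker_isPrime`).  `ne`: `x_i ≠ 0`.  `eq`: `aeval_FP` (V15c of agV; `x_j ≠ 0`) and the equation (`algebraMap E K (c' j m) = c j m`).  `ind`: `aeval x (rename l P) = aeval (x ∘ l) P`. -/

set_option autoImplicit false

namespace Pool.Agent.Lib.MP_1e3e9c_agY

open Pool.Agent.Lib.MP_1e3e9c_agV

private theorem Gd_card {d s : ℕ} {A : Fin (s + 1) → Finset (Fin d → ℤ)}
    {m0 : Fin (s + 1) → Fin d → ℤ} (hm0 : ∀ j, m0 j ∈ A j) :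
    Nat.card {t : (Σ j, {m // m ∈ A j}) // t.2.1 ≠ m0 t.1} + (s + 1) =
      Nat.card (Σ j, {m // m ∈ A j}) := by
  classical
  have h1 : Nat.card {t : (Σ j, {m // m ∈ A j}) // t.2.1 = m0 t.1} = s + 1 := by
    rw [Nat.card_congr (β := Fin (s + 1))
      { toFun := fun t => t.1.1
        invFun := fun j => ⟨⟨j, ⟨m0 j, hm0 j⟩⟩, rfl⟩
        left_inv := by
          rintro ⟨⟨j, ⟨m, hm⟩⟩, h⟩
          simp only at h
          subst h
          rfl
        right_inv := fun j => rfl }, Nat.card_eq_fintype_card, Fintype.card_fin]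
  have h2 := Nat.card_congr (Equiv.sumCompl (fun t : (Σ j, {m // m ∈ A j}) => t.2.1 = m0 t.1))
  rw [Nat.card_sum] at h2
  rw [← h2, h1, add_comm]

/-- Exchange: `n` of the `x` together with the independent family `c` are independent. -/
private theorem Gd_exch {K : Type} [Field K] [CharZero K] {d n : ℕ} {T τ : Type} [Finite T] [Finite τ]
    (x : Fin d → K) (c : T → K) (z : τ → K) (hz : IsTranscendenceBasis ℚ z)
    (hzx : Set.range z ⊆ Set.range c ∪ Set.range x) (hc : AlgebraicIndependent ℚ c)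
    (hcard : Nat.card T + n = Nat.card τ) :
    ∃ l : Fin n → Fin d, AlgebraicIndependent ℚ (Sum.elim (x ∘ l) c) := by
  classical
  have halg : Algebra.IsAlgebraic (Algebra.adjoin ℚ (Set.range c ∪ Set.range x)) K := by
    have h1 : Algebra.IsAlgebraic (Algebra.adjoin ℚ (Set.range z)) K := hz.isAlgebraic
    exact ⟨fun y => (h1.isAlgebraic y).tower_top_of_subalgebra_le (Algebra.adjoin_mono hzx)⟩
  obtain ⟨u, hcu, hux, hu⟩ := exists_isTranscendenceBasis_between (R := ℚ) (Set.range c)
    (Set.range c ∪ Set.range x) Set.subset_union_left hc.to_subtype_range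
  have hcard2 : Nat.card u = Nat.card τ := by
    have h1 := hu.cardinalMk_eq hz
    rw [Nat.card, Nat.card, h1]
  have hcinj : Function.Injective c := hc.injective
  have hfin : u.Finite := ((Set.finite_range c).union (Set.finite_range x)).subset hux
  have hcardc : (Set.range c).ncard = Nat.card T := by
    rw [← Set.image_univ, Set.ncard_image_of_injective _ hcinj, Set.ncard_univ]
  have hcardv : (u \ Set.range c).ncard = n := by
    have h1 := Set.ncard_sdiff_add_ncard_of_subset hcu hfin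
    have h2 : u.ncard = Nat.card u := rfl
    omega
  have hvx : ∀ y ∈ u \ Set.range c, ∃ l, x l = y := by
    rintro y ⟨hy, hy'⟩
    rcases hux hy with h | ⟨l, hl⟩
    · exact absurd h hy'
    · exact ⟨l, hl⟩
  have hvfin : Finite (↥(u \ Set.range c)) := (hfin.subset Set.sdiff_subset).to_subtype
  have hvc : Nat.card ↥(u \ Set.range c) = n := hcardv
  let e : Fin n ≃ ↥(u \ Set.range c) := (Finite.equivFinOfCardEq hvc).symm
  have hvx2 : ∀ i, ∃ l, x l = (e i).1 := fun i => hvx _ (e i).2
  choose lf hx1 using hvx2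
  refine ⟨lf, ?_⟩
  let g : Fin n ⊕ T → u := Sum.elim (fun i => ⟨(e i).1, (e i).2.1⟩)
    (fun t => ⟨c t, hcu ⟨t, rfl⟩⟩)
  have hg : Function.Injective g := by
    rintro (i | t) (i' | t') h
    · have h1 : (e i).1 = (e i').1 := congrArg (fun y : u => (y : K)) h
      rw [e.injective (Subtype.ext h1)]
    · have h1 : (e i).1 = c t' := congrArg (fun y : u => (y : K)) h
      exact absurd ⟨t', h1.symm⟩ (e i).2.2
    · have h1 : c t = (e i').1 := congrArg (fun y : u => (y : K)) h
      exact absurd ⟨t, h1⟩ (e i').2.2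
    · have h1 : c t = c t' := congrArg (fun y : u => (y : K)) h
      rw [hcinj h1]
  have h2 := hu.1.comp g hg
  have h3 : (Sum.elim (x ∘ lf) c) = (fun y : u => (y : K)) ∘ g := by
    funext t
    rcases t with i | t
    · exact hx1 i
    · rfl
  rw [h3]
  exact h2

/-- The base field. -/
private theorem Gd_base {K : Type} [Field K] [CharZero K] [IsAlgClosed K] {n : ℕ} {T : Type}
    (w : Fin n → K) (c : T → K) (h : AlgebraicIndependent ℚ (Sum.elim w c)) :
    ∃ (E : Type) (_ : Field E) (_ : CharZero E) (_ : IsAlgClosed E) (_ : Algebra E K)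
      (c' : T → E), (∀ t, algebraMap E K (c' t) = c t) ∧ AlgebraicIndependent ℚ c' ∧
        AlgebraicIndependent E w := by
  obtain ⟨hc, hw⟩ := AlgebraicIndependent.sumElim_iff.mp h
  have hw2 := (IntermediateField.algebraicIndependent_adjoin_iff (F := ℚ) (s := Set.range c) (x := w)).mpr hw
  have hw3 := hw2.algebraicClosure
  have hcm : ∀ t, c t ∈ algebraicClosure (IntermediateField.adjoin ℚ (Set.range c)) K := by
    intro t
    have h1 : c t ∈ IntermediateField.adjoin ℚ (Set.range c) :=
      IntermediateField.subset_adjoin _ _ ⟨t, rfl⟩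
    have h2 := (algebraicClosure (IntermediateField.adjoin ℚ (Set.range c)) K).algebraMap_mem ⟨c t, h1⟩
    exact h2
  have hcl : IsAlgClosed (algebraicClosure (IntermediateField.adjoin ℚ (Set.range c)) K) :=
    (IsAlgClosure.isAlgClosed (IntermediateField.adjoin ℚ (Set.range c)) :
      IsAlgClosed (algebraicClosure (IntermediateField.adjoin ℚ (Set.range c)) K))
  refine ⟨algebraicClosure (IntermediateField.adjoin ℚ (Set.range c)) K, inferInstance, inferInstance, hcl,
    inferInstance, fun t => ⟨c t, hcm t⟩, fun t => rfl, ?_, hw3⟩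
  let f : (algebraicClosure (IntermediateField.adjoin ℚ (Set.range c)) K) →ₐ[ℚ] K :=
    (algebraMap (algebraicClosure (IntermediateField.adjoin ℚ (Set.range c)) K) K).toRatAlgHom
  exact AlgebraicIndependent.of_comp f hc

theorem exists_gp {d s n : ℕ} (hd : n + 1 + s = d) {A : Fin (s + 1) → Finset (Fin d → ℤ)}
    (hA : ∀ j, Full (A j)) :
    ∃ (E : Type) (_ : Field E) (_ : CharZero E) (_ : IsAlgClosed E)
      (c : Fin (s + 1) → (Fin d → ℤ) → E) (I : Ideal (MvPolynomial (Fin d) E))
      (l : Fin n → Fin d), Gen A c ∧ GP A c I l := by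
  classical
  have hd0 : 0 < d := by omega
  have hne : ∀ j, ∃ m, m ∈ A j := by
    intro j
    have h1 : (fun _ => 1 : Fin d → ℤ) ≠ 0 := by
      intro h
      have h2 := congrFun h ⟨0, hd0⟩
      simp at h2
    obtain ⟨m, hm, -⟩ := hA j _ h1
    exact ⟨m, hm⟩
  choose m0 hm0 using hne
  obtain ⟨K, _, _, _, x, c, hx, hF, hz⟩ := exists_free hm0
  have hgen : Gen A c := gen_of hA (by omega) hm0 hx hF hz.1
  have hgen' : AlgebraicIndependent ℚ fun t : (Σ j, {m // m ∈ A j}) => c t.1 t.2.1 := hgen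
  have hcard : Nat.card (Σ j, {m // m ∈ A j}) + n =
      Nat.card (Fin d ⊕ {t : (Σ j, {m // m ∈ A j}) // t.2.1 ≠ m0 t.1}) := by
    rw [Nat.card_sum, Nat.card_eq_fintype_card (α := Fin d), Fintype.card_fin]
    have h1 := Gd_card (A := A) hm0
    omega
  have hsub : Set.range (Sum.elim x fun t : {t : (Σ j, {m // m ∈ A j}) // t.2.1 ≠ m0 t.1} =>
      c t.1.1 t.1.2.1) ⊆ Set.range (fun t : (Σ j, {m // m ∈ A j}) => c t.1 t.2.1) ∪ Set.range x := by
    rintro _ ⟨t, rfl⟩
    rcases t with i | t
    · exact Or.inr ⟨i, rfl⟩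
    · exact Or.inl ⟨t.1, rfl⟩
  obtain ⟨l, hl⟩ := Gd_exch x (fun t : (Σ j, {m // m ∈ A j}) => c t.1 t.2.1) _ hz hsub hgen' hcard
  obtain ⟨E, _, _, _, _, c', hc', hcE, hw⟩ := Gd_base (x ∘ l) _ hl
  refine ⟨E, inferInstance, inferInstance, inferInstance,
    fun j m => if h : m ∈ A j then c' ⟨j, ⟨m, h⟩⟩ else 0,
    RingHom.ker (MvPolynomial.aeval x : MvPolynomial (Fin d) E →ₐ[E] K), l, ?_, ?_⟩
  · have h1 : (fun t : (Σ j, {m // m ∈ A j}) =>
        (fun j m => if h : m ∈ A j then c' ⟨j, ⟨m, h⟩⟩ else 0 : Fin (s + 1) → (Fin d → ℤ) → E) t.1 t.2.1) = c' := by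
      funext t
      rcases t with ⟨j, ⟨m, hm⟩⟩
      simp only [hm, dif_pos]
    rw [Gen, h1]
    exact hcE
  · refine ⟨RingHom.ker_isPrime _, ?_, ?_, ?_⟩
    · intro i hi
      rw [RingHom.mem_ker, MvPolynomial.aeval_X] at hi
      exact hx i hi
    · intro j σ hσ
      rw [RingHom.mem_ker, aeval_FP hσ hx]
      have h1 : ∑ m ∈ A j, algebraMap E K (if h : m ∈ A j then c' ⟨j, ⟨m, h⟩⟩ else 0) * mn x m =
          ∑ m ∈ A j, c j m * mn x m := by
        apply Finset.sum_congr rfl
        intro m hm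
        rw [dif_pos hm, hc']
      rw [h1, hF j, mul_zero]
    · intro P hP
      rw [RingHom.mem_ker, MvPolynomial.aeval_rename] at hP
      exact hw.eq_zero_of_aeval_eq_zero P hP

end Pool.Agent.Lib.MP_1e3e9c_agY
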