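import Pool.Agent.Lib.MP_1e3e9c_agY.YG

/-! LEAF Ge (easy+, 4 theorems).  Dense subsets of the zero set of a prime ideal (copy of V09 of agV, proved there, with `P ∈ I` in place of `H ∣ P`).

PROOF.  `di_mono`: clear.  `di_union`: if `P` vanishes on `S`, `P ∉ I`, and `Q` on `T`, `Q ∉ I`, then `P Q` vanishes on `S ∪ T`, so `P Q ∈ I`.  `di_biUnion`: induction over the finite set with `di_union` (`DI I ∅` is false: `1 ∉ I`).  `di_torus`: let `P` vanish on the set, `R = ∏ X_i`.  `P R` vanishes on the zero set of `I`, so it is in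
the radical of `I` (`MvPolynomial.vanishingIdeal_zeroLocus_eq_radical`), which is `I`: `P ∈ I`, or `X_i ∈ I` for some `i`. -/

set_option autoImplicit false

namespace Pool.Agent.Lib.MP_1e3e9c_agY

variable {k : Type} [Field k] {d : ℕ} {I : Ideal (MvPolynomial (Fin d) k)}

theorem di_mono {S T : Set (Fin d → k)} (h : S ⊆ T) (hS : DI I S) : DI I T := by
  exact fun P hP => hS P fun x hx => hP x (h hx)

theorem di_union (hI : I.IsPrime) {S T : Set (Fin d → k)} (h : DI I (S ∪ T)) :
    DI I S ∨ DI I T := by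
  by_contra hcon
  rw [not_or] at hcon
  obtain ⟨h1, h2⟩ := hcon
  unfold DI at h1 h2
  push Not at h1 h2
  obtain ⟨P, hP, hHP⟩ := h1
  obtain ⟨Q, hQ, hHQ⟩ := h2
  have h3 : P * Q ∈ I := by
    refine h (P * Q) fun x hx => ?_
    rw [map_mul]
    rcases hx with hx | hx
    · rw [hP x hx, zero_mul]
    · rw [hQ x hx, mul_zero]
  rcases hI.mem_or_mem h3 with h4 | h4
  · exact hHP h4
  · exact hHQ h4

theorem di_biUnion (hI : I.IsPrime) {ι : Type} (Y : Finset ι) (T : ι → Set (Fin d → k))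
    (h : DI I (⋃ y ∈ Y, T y)) : ∃ y ∈ Y, DI I (T y) := by
  classical
  induction Y using Finset.induction_on with
  | empty =>
    exfalso
    have h1 : (1 : MvPolynomial (Fin d) k) ∈ I := by
      refine h 1 fun x hx => ?_
      simp at hx
    exact hI.ne_top ((Ideal.eq_top_iff_one I).2 h1)
  | insert a Y _ IH =>
    rw [Finset.set_biUnion_insert] at h
    rcases di_union hI h with h1 | h1
    · exact ⟨a, Finset.mem_insert_self _ _, h1⟩
    · obtain ⟨y, hy, h2⟩ := IH h1
      exact ⟨y, Finset.mem_insert_of_mem hy, h2⟩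

theorem di_torus [IsAlgClosed k] (hI : I.IsPrime) (hX : ∀ i, MvPolynomial.X i ∉ I) :
    DI I {x | (∀ i, x i ≠ 0) ∧ ∀ P ∈ I, MvPolynomial.eval x P = 0} := by
  intro P hP
  have h1 : P * ∏ i, MvPolynomial.X i ∈
      MvPolynomial.vanishingIdeal k (MvPolynomial.zeroLocus k I) := by
    rw [MvPolynomial.mem_vanishingIdeal_iff]
    intro x hx
    rw [MvPolynomial.mem_zeroLocus_iff] at hx
    have h2 : ∀ Q ∈ I, MvPolynomial.eval x Q = 0 := fun Q hQ => by
      rw [← MvPolynomial.aeval_eq_eval]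
      exact hx Q hQ
    rw [MvPolynomial.aeval_eq_eval, map_mul, map_prod]
    by_cases h3 : ∀ i, x i ≠ 0
    · rw [hP x ⟨h3, h2⟩, zero_mul]
    · push Not at h3
      obtain ⟨i, hi⟩ := h3
      rw [Finset.prod_eq_zero (Finset.mem_univ i) (by rw [MvPolynomial.eval_X, hi]), mul_zero]
  rw [MvPolynomial.vanishingIdeal_zeroLocus_eq_radical, hI.radical] at h1
  rcases hI.mem_or_mem h1 with h2 | h2
  · exact h2
  · obtain ⟨i, _, hi⟩ := (hI.prod_mem_iff).1 h2
    exact absurd hi (hX i)

end Pool.Agent.Lib.MP_1e3e9c_agY
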