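import Pool.Agent.Lib.MP_1e3e9c_agY.YG

/-! LEAF Gf (medium+, adaptation of V10 of agV, proved there).  The generic contact curve.

PROOF.  As V10, with `I` in place of `(H)` and more unknowns.  Unknowns `U = Fin d ⊕ (Σ i : Fin r, Fin (a i + 1)) ⊕ ({m // m ∈ A 0} × Fin (2 * g + 1))`; a point `u : U → k` gives `x_u`, `p_u i = ∑_l C (u (i,l)) X^l` and `H_u m = ∑_l C (u (m,l)) X^l`; the same over a `k`-algebra.  Let `s` be so large that `m + s ≥ 0` for all `m` in all `A j`: `x^s Ph j` has coefficients (in `t`) which are polynomials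
`Φ_(j,l) ∈ k[U]`, `l ≤ L` (`L` a bound of the degrees), `x^s ld m = λ_m ∈ k[U]`, and the coefficients of `x^s (∑_m H_m cd m - 1)` are polynomials `β_l ∈ k[U]`.  `Z` = the set of the `u` with `P(x_u) = 0` for all `P ∈ I` and: `x_u`, `p_u` have all the properties of `GCY`, the last one with `H_u`; `J` = the vanishing ideal of `Z`; it has finitely many minimal primes `Q` (`J` radical, noetherian) and every
`u ∈ Z` is a zero of one of them.  For a minimal prime `Q` and `l ≤ L` let `T_(Q,l)` = the set of the `x ∈ T` for which there is `u ∈ Z`, a zero of `Q`, `x_u = x`, `Φ_(0,l)(u) ≠ 0`.  `T ⊆ ⋃ T_(Q,l)` (`hTG`, `hTI`; `phi`: some coefficient of `Ph 0` is not `0`), a finite union, so one `T_(Q,l)` is dense (if not, multiply the polynomials `P_(Q,l) ∉ I` which vanish on them).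
`K` = the fraction field of `k[U]/Q`, `x`, `p`, `H` the images of the unknowns.  `aeval x P = 0` iff `P` (as a polynomial in `k[U]`) is in `Q`: if `P ∈ I` then `P ∈ J ⊆ Q`; if `P ∈ Q` then `P` vanishes on `T_(Q,l)`, so `P ∈ I`.  `ne`: `X_j ∉ Q`: `T_(Q,l)` is not empty (`1 ∉ I`), `x_j ≠ 0` there.  `zero`: `X_(i,0) - 1 ∈ J`.  `van`: `Φ_(j,l) ∈ J` for `j > 0`.  `dvd`: `Φ_(0,l') ∈ J` for `l' < ν`,
so the coefficients vanish over `K` (`x^s ≠ 0`).  `phi`: `Φ_(0,l) ∉ Q` (a point of `T_(Q,l)`).  `rat`: `λ_m y_m' - λ_m' y_m ∈ J`.  `bez`: `β_l ∈ J`. -/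

set_option autoImplicit false

namespace Pool.Agent.Lib.MP_1e3e9c_agY

open Polynomial Pool.Agent.Lib.MP_1e3e9c_agV

/-- The unknowns. -/
private abbrev Gf_U (d : ℕ) {r : ℕ} (a : Fin r → ℕ) (W : Type) : Type :=
  Fin d ⊕ ((Σ i : Fin r, Fin (a i + 1)) ⊕ W)

private def Gf_x {d r : ℕ} {K W : Type} (a : Fin r → ℕ) (u : Gf_U d a W → K) : Fin d → K :=
  fun j => u (Sum.inl j)

private noncomputable def Gf_p {d r : ℕ} {R W : Type} [CommRing R] (a : Fin r → ℕ) (u : Gf_U d a W → R)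
    (i : Fin r) : R[X] :=
  ∑ l : Fin (a i + 1), C (u (Sum.inr (Sum.inl ⟨i, l⟩))) * X ^ (l : ℕ)

private lemma Gf_p_map {d r : ℕ} {R S W : Type} [CommRing R] [CommRing S] (a : Fin r → ℕ) (f : R →+* S)
    (u : Gf_U d a W → R) (i : Fin r) :
    (Gf_p a u i).map f = Gf_p a (fun w => f (u w)) i := by
  unfold Gf_p
  rw [Polynomial.map_sum]
  refine Finset.sum_congr rfl fun l _ => ?_
  rw [Polynomial.map_mul, Polynomial.map_C, Polynomial.map_pow, Polynomial.map_X]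

private lemma Gf_p_coeff {d r : ℕ} {R W : Type} [CommRing R] (a : Fin r → ℕ)
    (u : Gf_U d a W → R) (i : Fin r) (l : Fin (a i + 1)) :
    (Gf_p a u i).coeff (l : ℕ) = u (Sum.inr (Sum.inl ⟨i, l⟩)) := by
  unfold Gf_p
  rw [Polynomial.finsetSum_coeff, Finset.sum_eq_single l]
  · rw [Polynomial.coeff_C_mul, Polynomial.coeff_X_pow, if_pos rfl, mul_one]
  · intro b _ hb
    rw [Polynomial.coeff_C_mul, Polynomial.coeff_X_pow, if_neg, mul_zero]
    intro hc
    exact hb (Fin.ext hc.symm)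
  · intro hc
    exact absurd (Finset.mem_univ _) hc

private lemma Gf_p_deg {d r : ℕ} {R W : Type} [CommRing R] (a : Fin r → ℕ)
    (u : Gf_U d a W → R) (i : Fin r) : (Gf_p a u i).natDegree ≤ a i := by
  unfold Gf_p
  refine Polynomial.natDegree_sum_le_of_forall_le _ _ fun l _ => ?_
  exact le_trans (Polynomial.natDegree_C_mul_X_pow_le _ _) (Fin.is_le l)

/-- A polynomial with given coefficients. -/
private noncomputable def Gf_q {R : Type} [CommRing R] (n : ℕ) (b : Fin (n + 1) → R) : R[X] :=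
  ∑ l : Fin (n + 1), C (b l) * X ^ (l : ℕ)

private lemma Gf_q_deg {R : Type} [CommRing R] (n : ℕ) (b : Fin (n + 1) → R) :
    (Gf_q n b).natDegree ≤ n := by
  unfold Gf_q
  refine Polynomial.natDegree_sum_le_of_forall_le _ _ fun l _ => ?_
  exact le_trans (Polynomial.natDegree_C_mul_X_pow_le _ _) (Fin.is_le l)

private lemma Gf_q_map {R S : Type} [CommRing R] [CommRing S] (n : ℕ) (f : R →+* S) (b : Fin (n + 1) → R) :
    (Gf_q n b).map f = Gf_q n (fun l => f (b l)) := by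
  unfold Gf_q
  rw [Polynomial.map_sum]
  refine Finset.sum_congr rfl fun l _ => ?_
  rw [Polynomial.map_mul, Polynomial.map_C, Polynomial.map_pow, Polynomial.map_X]

private lemma Gf_q_eq {R : Type} [CommRing R] (n : ℕ) (p : R[X]) (hp : p.natDegree ≤ n) :
    Gf_q n (fun l => p.coeff (l : ℕ)) = p := by
  unfold Gf_q
  ext m
  rw [Polynomial.finsetSum_coeff]
  by_cases hm : m < n + 1
  · rw [Finset.sum_eq_single (⟨m, hm⟩ : Fin (n + 1))]
    · rw [Polynomial.coeff_C_mul, Polynomial.coeff_X_pow, if_pos rfl, mul_one]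
    · intro b _ hb
      rw [Polynomial.coeff_C_mul, Polynomial.coeff_X_pow, if_neg, mul_zero]
      intro hc
      exact hb (Fin.ext hc.symm)
    · intro hc
      exact absurd (Finset.mem_univ _) hc
  · rw [Polynomial.coeff_eq_zero_of_natDegree_lt (by omega)]
    refine Finset.sum_eq_zero fun l _ => ?_
    rw [Polynomial.coeff_C_mul, Polynomial.coeff_X_pow, if_neg, mul_zero]
    intro hc
    have := l.2
    omega

private lemma Gf_p_eq {d r : ℕ} {R W : Type} [CommRing R] (a : Fin r → ℕ) (x : Fin d → R) (p : Fin r → R[X])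
    (hp : ∀ i, (p i).natDegree ≤ a i) (b : W → R) :
    ∃ u : Gf_U d a W → R, Gf_x a u = x ∧ Gf_p a u = p ∧ ∀ w, u (Sum.inr (Sum.inr w)) = b w := by
  refine ⟨fun w => Sum.elim x (Sum.elim (fun q => (p q.1).coeff (q.2 : ℕ)) b) w, rfl, ?_, fun _ => rfl⟩
  funext i
  exact Gf_q_eq (a i) (p i) (hp i)

private lemma Gf_mn {K : Type} [Field K] {d : ℕ} {x : Fin d → K} (hx : ∀ j, x j ≠ 0) (m s : Fin d → ℤ)
    (hs : ∀ j, 0 ≤ m j + s j) :
    ∏ j, x j ^ (m j + s j).toNat = Pool.Agent.Lib.MP_1e3e9c_agV.mn x s * Pool.Agent.Lib.MP_1e3e9c_agV.mn x m := by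
  unfold Pool.Agent.Lib.MP_1e3e9c_agV.mn
  rw [← Finset.prod_mul_distrib]
  refine Finset.prod_congr rfl fun j _ => ?_
  rw [← zpow_natCast, Int.toNat_of_nonneg (hs j), zpow_add₀ (hx j), mul_comm]

/-- `x^s cd m` with unknown coefficients. -/
private noncomputable def Gf_D (k : Type) [Field k] {d r : ℕ} {W : Type}
    (v : Fin r → Fin d → ℤ) (a : Fin r → ℕ) (h : Fin r → ℤ) (s : Fin d → ℤ) (m : Fin d → ℤ) :
    (MvPolynomial (Gf_U d a W) k)[X] :=
  C (∏ j, MvPolynomial.X (Sum.inl j) ^ (m j + s j).toNat) *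
    ∏ i, Gf_p a (MvPolynomial.X : Gf_U d a W → MvPolynomial (Gf_U d a W) k) i ^ ex v h m 1 i

private lemma Gf_D_map {k K W : Type} [Field k] [Field K] [Algebra k K] {d r : ℕ}
    (v : Fin r → Fin d → ℤ) (a : Fin r → ℕ) (h : Fin r → ℤ) (s m : Fin d → ℤ)
    (hs : ∀ j, 0 ≤ m j + s j) (u : Gf_U d a W → K) (hu : ∀ j, Gf_x a u j ≠ 0) :
    (Gf_D k v a h s m : (MvPolynomial (Gf_U d a W) k)[X]).map ((MvPolynomial.aeval u : MvPolynomial (Gf_U d a W) k →ₐ[k] K) :
      MvPolynomial (Gf_U d a W) k →+* K) =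
      C (Pool.Agent.Lib.MP_1e3e9c_agV.mn (Gf_x a u) s) * cd v h (Gf_x a u) (Gf_p a u) m 1 := by
  unfold Gf_D cd
  rw [Polynomial.map_mul, Polynomial.map_C, Polynomial.map_prod]
  have h1 : ((MvPolynomial.aeval u : MvPolynomial (Gf_U d a W) k →ₐ[k] K) :
      MvPolynomial (Gf_U d a W) k →+* K) (∏ j, MvPolynomial.X (Sum.inl j) ^ (m j + s j).toNat) =
      Pool.Agent.Lib.MP_1e3e9c_agV.mn (Gf_x a u) s * Pool.Agent.Lib.MP_1e3e9c_agV.mn (Gf_x a u) m := by
    rw [← Gf_mn hu m s hs, map_prod]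
    refine Finset.prod_congr rfl fun j _ => ?_
    rw [map_pow]
    congr 1
    exact MvPolynomial.aeval_X u (Sum.inl j)
  have h2 : ∀ i, Polynomial.map ((MvPolynomial.aeval u : MvPolynomial (Gf_U d a W) k →ₐ[k] K) :
      MvPolynomial (Gf_U d a W) k →+* K) (Gf_p a (MvPolynomial.X : Gf_U d a W → MvPolynomial (Gf_U d a W) k) i ^ ex v h m 1 i) =
      Gf_p a u i ^ ex v h m 1 i := by
    intro i
    rw [Polynomial.map_pow, Gf_p_map]
    congr 2
    funext w
    exact MvPolynomial.aeval_X u w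
  rw [h1, Finset.prod_congr rfl fun i _ => h2 i, C_mul]
  ring

/-- `x^s Phi` with unknown coefficients. -/
private noncomputable def Gf_F {k : Type} [Field k] {d r : ℕ} {W : Type} (A : Finset (Fin d → ℤ))
    (c : (Fin d → ℤ) → k) (v : Fin r → Fin d → ℤ) (a : Fin r → ℕ) (h : Fin r → ℤ) (s : Fin d → ℤ) :
    (MvPolynomial (Gf_U d a W) k)[X] :=
  ∑ m ∈ A, C (MvPolynomial.C (c m)) * Gf_D k v a h s m

private lemma Gf_F_map {k K W : Type} [Field k] [Field K] [Algebra k K] {d r : ℕ} (A : Finset (Fin d → ℤ))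
    (c : (Fin d → ℤ) → k) (v : Fin r → Fin d → ℤ) (a : Fin r → ℕ) (h : Fin r → ℤ) (s : Fin d → ℤ)
    (hs : ∀ m ∈ A, ∀ j, 0 ≤ m j + s j) (u : Gf_U d a W → K) (hu : ∀ j, Gf_x a u j ≠ 0) :
    (Gf_F A c v a h s : (MvPolynomial (Gf_U d a W) k)[X]).map ((MvPolynomial.aeval u : MvPolynomial (Gf_U d a W) k →ₐ[k] K) :
      MvPolynomial (Gf_U d a W) k →+* K) =
      C (Pool.Agent.Lib.MP_1e3e9c_agV.mn (Gf_x a u) s) * Phi A c v h (Gf_x a u) (Gf_p a u) := by
  unfold Gf_F Phi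
  rw [Polynomial.map_sum, Finset.mul_sum]
  refine Finset.sum_congr rfl fun m hm => ?_
  have h3 : ((MvPolynomial.aeval u : MvPolynomial (Gf_U d a W) k →ₐ[k] K) :
      MvPolynomial (Gf_U d a W) k →+* K) (MvPolynomial.C (c m)) = algebraMap k K (c m) :=
    MvPolynomial.aeval_C u (c m)
  rw [Polynomial.map_mul, Polynomial.map_C, Gf_D_map v a h s m (hs m hm) u hu, h3]
  ring

private lemma Gf_F_coeff {k K W : Type} [Field k] [Field K] [Algebra k K] {d r : ℕ} (A : Finset (Fin d → ℤ))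
    (c : (Fin d → ℤ) → k) (v : Fin r → Fin d → ℤ) (a : Fin r → ℕ) (h : Fin r → ℤ) (s : Fin d → ℤ)
    (hs : ∀ m ∈ A, ∀ j, 0 ≤ m j + s j) (u : Gf_U d a W → K) (hu : ∀ j, Gf_x a u j ≠ 0) (l : ℕ) :
    MvPolynomial.aeval u ((Gf_F A c v a h s : (MvPolynomial (Gf_U d a W) k)[X]).coeff l) =
      Pool.Agent.Lib.MP_1e3e9c_agV.mn (Gf_x a u) s * (Phi A c v h (Gf_x a u) (Gf_p a u)).coeff l := by
  rw [← Polynomial.coeff_C_mul, ← Gf_F_map A c v a h s hs u hu, Polynomial.coeff_map]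
  rfl

/-- `x^s ld m` with unknown coefficients. -/
private noncomputable def Gf_L (k : Type) [Field k] {d r : ℕ} {W : Type} (v : Fin r → Fin d → ℤ) (a : Fin r → ℕ)
    (h : Fin r → ℤ) (s : Fin d → ℤ) (m : Fin d → ℤ) : MvPolynomial (Gf_U d a W) k :=
  (∏ j, MvPolynomial.X (Sum.inl j) ^ (m j + s j).toNat) *
    ∏ i, MvPolynomial.X (Sum.inr (Sum.inl ⟨i, Fin.last (a i)⟩)) ^ ex v h m 1 i

private lemma Gf_L_aeval {k K W : Type} [Field k] [Field K] [Algebra k K] {d r : ℕ}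
    (v : Fin r → Fin d → ℤ) (a : Fin r → ℕ) (h : Fin r → ℤ) (s : Fin d → ℤ) (m : Fin d → ℤ)
    (hs : ∀ j, 0 ≤ m j + s j) (u : Gf_U d a W → K) (hu : ∀ j, Gf_x a u j ≠ 0) :
    MvPolynomial.aeval u (Gf_L k v a h s m : MvPolynomial (Gf_U d a W) k) =
      Pool.Agent.Lib.MP_1e3e9c_agV.mn (Gf_x a u) s * ld v a h (Gf_x a u) (Gf_p a u) m := by
  unfold Gf_L ld
  rw [map_mul, map_prod, map_prod, ← mul_assoc, ← Gf_mn hu m s hs]
  congr 1
  · refine Finset.prod_congr rfl fun j _ => ?_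
    rw [map_pow, MvPolynomial.aeval_X]
    rfl
  · refine Finset.prod_congr rfl fun i _ => ?_
    rw [map_pow, MvPolynomial.aeval_X, ← Gf_p_coeff a u i (Fin.last (a i))]
    rfl

private lemma Gf_mn_ne {K : Type} [Field K] {d : ℕ} {x : Fin d → K} (hx : ∀ j, x j ≠ 0) (s : Fin d → ℤ) :
    Pool.Agent.Lib.MP_1e3e9c_agV.mn x s ≠ 0 := by
  unfold Pool.Agent.Lib.MP_1e3e9c_agV.mn
  exact Finset.prod_ne_zero_iff.2 fun j _ => zpow_ne_zero _ (hx j)

/-- The polynomials `H_m`. -/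
private noncomputable def Gf_H {d r : ℕ} {R : Type} [CommRing R] {A : Finset (Fin d → ℤ)} (a : Fin r → ℕ) (n : ℕ)
    (u : Gf_U d a ({m // m ∈ A} × Fin (n + 1)) → R) (m : Fin d → ℤ) : R[X] := by
  classical
  exact if hm : m ∈ A then Gf_q n (fun l => u (Sum.inr (Sum.inr (⟨m, hm⟩, l)))) else 0

private lemma Gf_H_deg {d r : ℕ} {R : Type} [CommRing R] {A : Finset (Fin d → ℤ)} (a : Fin r → ℕ) (n : ℕ)
    (u : Gf_U d a ({m // m ∈ A} × Fin (n + 1)) → R) (m : Fin d → ℤ) : (Gf_H a n u m).natDegree ≤ n := by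
  classical
  unfold Gf_H
  split_ifs with hm
  · exact Gf_q_deg n _
  · rw [Polynomial.natDegree_zero]
    exact Nat.zero_le _

private lemma Gf_H_map {d r : ℕ} {R S : Type} [CommRing R] [CommRing S] {A : Finset (Fin d → ℤ)} (a : Fin r → ℕ) (n : ℕ)
    (f : R →+* S) (u : Gf_U d a ({m // m ∈ A} × Fin (n + 1)) → R) (m : Fin d → ℤ) :
    (Gf_H a n u m).map f = Gf_H a n (fun w => f (u w)) m := by
  classical
  unfold Gf_H
  split_ifs with hm
  · exact Gf_q_map n f _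
  · exact Polynomial.map_zero f

/-- `x^s (∑ H_m cd m - 1)` with unknown coefficients. -/
private noncomputable def Gf_B (k : Type) [Field k] {d r : ℕ} (A : Finset (Fin d → ℤ))
    (v : Fin r → Fin d → ℤ) (a : Fin r → ℕ) (h : Fin r → ℤ) (n : ℕ) (s : Fin d → ℤ) :
    (MvPolynomial (Gf_U d a ({m // m ∈ A} × Fin (n + 1))) k)[X] :=
  ∑ m ∈ A, Gf_H a n (MvPolynomial.X : _ → MvPolynomial (Gf_U d a ({m // m ∈ A} × Fin (n + 1))) k) m * Gf_D k v a h s m -
    C (∏ j, MvPolynomial.X (Sum.inl j) ^ ((0 : Fin d → ℤ) j + s j).toNat)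

private lemma Gf_B_map {k K : Type} [Field k] [Field K] [Algebra k K] {d r : ℕ} (A : Finset (Fin d → ℤ))
    (v : Fin r → Fin d → ℤ) (a : Fin r → ℕ) (h : Fin r → ℤ) (n : ℕ) (s : Fin d → ℤ)
    (hs : ∀ m ∈ A, ∀ j, 0 ≤ m j + s j) (hs0 : ∀ j, 0 ≤ (0 : Fin d → ℤ) j + s j)
    (u : Gf_U d a ({m // m ∈ A} × Fin (n + 1)) → K) (hu : ∀ j, Gf_x a u j ≠ 0) :
    (Gf_B k A v a h n s).map ((MvPolynomial.aeval u : MvPolynomial (Gf_U d a ({m // m ∈ A} × Fin (n + 1))) k →ₐ[k] K) :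
      MvPolynomial (Gf_U d a ({m // m ∈ A} × Fin (n + 1))) k →+* K) =
      C (Pool.Agent.Lib.MP_1e3e9c_agV.mn (Gf_x a u) s) *
        (∑ m ∈ A, Gf_H a n u m * cd v h (Gf_x a u) (Gf_p a u) m 1 - 1) := by
  unfold Gf_B
  have h1 : ((MvPolynomial.aeval u : MvPolynomial (Gf_U d a ({m // m ∈ A} × Fin (n + 1))) k →ₐ[k] K) :
      MvPolynomial (Gf_U d a ({m // m ∈ A} × Fin (n + 1))) k →+* K)
      (∏ j, MvPolynomial.X (Sum.inl j) ^ ((0 : Fin d → ℤ) j + s j).toNat) =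
      Pool.Agent.Lib.MP_1e3e9c_agV.mn (Gf_x a u) s := by
    have h2 : Pool.Agent.Lib.MP_1e3e9c_agV.mn (Gf_x a u) (0 : Fin d → ℤ) = 1 := by
      unfold Pool.Agent.Lib.MP_1e3e9c_agV.mn
      exact Finset.prod_eq_one fun j _ => zpow_zero _
    rw [← mul_one (Pool.Agent.Lib.MP_1e3e9c_agV.mn (Gf_x a u) s), ← h2, ← Gf_mn hu 0 s hs0, map_prod]
    refine Finset.prod_congr rfl fun j _ => ?_
    rw [map_pow]
    congr 1
    exact MvPolynomial.aeval_X u (Sum.inl j)
  rw [Polynomial.map_sub, Polynomial.map_sum, Polynomial.map_C, h1, mul_sub, mul_one, Finset.mul_sum]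
  congr 1
  refine Finset.sum_congr rfl fun m hm => ?_
  rw [Polynomial.map_mul, Gf_H_map, Gf_D_map v a h s m (hs m hm) u hu]
  have h3 : (fun w => ((MvPolynomial.aeval u : MvPolynomial (Gf_U d a ({m // m ∈ A} × Fin (n + 1))) k →ₐ[k] K) :
      MvPolynomial (Gf_U d a ({m // m ∈ A} × Fin (n + 1))) k →+* K) (MvPolynomial.X w)) = u := by
    funext w
    exact MvPolynomial.aeval_X u w
  rw [h3]
  ring

private lemma Gf_B_coeff {k K : Type} [Field k] [Field K] [Algebra k K] {d r : ℕ} (A : Finset (Fin d → ℤ))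
    (v : Fin r → Fin d → ℤ) (a : Fin r → ℕ) (h : Fin r → ℤ) (n : ℕ) (s : Fin d → ℤ)
    (hs : ∀ m ∈ A, ∀ j, 0 ≤ m j + s j) (hs0 : ∀ j, 0 ≤ (0 : Fin d → ℤ) j + s j)
    (u : Gf_U d a ({m // m ∈ A} × Fin (n + 1)) → K) (hu : ∀ j, Gf_x a u j ≠ 0) (l : ℕ) :
    MvPolynomial.aeval u ((Gf_B k A v a h n s).coeff l) =
      Pool.Agent.Lib.MP_1e3e9c_agV.mn (Gf_x a u) s *
        (∑ m ∈ A, Gf_H a n u m * cd v h (Gf_x a u) (Gf_p a u) m 1 - 1).coeff l := by
  rw [← Polynomial.coeff_C_mul, ← Gf_B_map (k := k) A v a h n s hs hs0 u hu, Polynomial.coeff_map]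
  rfl

theorem exists_genericY {k : Type} [Field k] {d r s : ℕ} {A : Fin (s + 1) → Finset (Fin d → ℤ)}
    {c : Fin (s + 1) → (Fin d → ℤ) → k} {v : Fin r → Fin d → ℤ} {a : Fin r → ℕ} {g ν : ℕ}
    {I : Ideal (MvPolynomial (Fin d) k)} (hI : I.IsPrime) {y : (Fin d → ℤ) → k}
    {T : Set (Fin d → k)} (hT : DI I T) (hTI : ∀ x ∈ T, ∀ P ∈ I, MvPolynomial.eval x P = 0)
    (hTG : ∀ x ∈ T, ∃ p : Fin r → k[X], GCY A c v a g ν y x p) :
    ∃ (K : Type) (_ : Field K) (_ : Algebra k K) (x : Fin d → K) (p : Fin r → K[X]),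
      GCY A c v a g ν y x p ∧ ∀ P : MvPolynomial (Fin d) k, MvPolynomial.aeval x P = 0 ↔ P ∈ I := by
  classical
  -- the shift
  obtain ⟨σ, hσ, hσ0⟩ : ∃ σ : Fin d → ℤ, (∀ j, ∀ m ∈ A j, ∀ i, 0 ≤ m i + σ i) ∧
      ∀ i, 0 ≤ (0 : Fin d → ℤ) i + σ i := by
    refine ⟨fun i => ∑ j, ∑ m ∈ A j, |m i|, fun j m hm i => ?_, fun i => ?_⟩
    · have h1 : |m i| ≤ ∑ m ∈ A j, |m i| :=
        Finset.single_le_sum (f := fun m : Fin d → ℤ => |m i|) (fun _ _ => abs_nonneg _) hm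
      have h3 : ∑ m ∈ A j, |m i| ≤ ∑ j, ∑ m ∈ A j, |m i| :=
        Finset.single_le_sum (f := fun j => ∑ m ∈ A j, |m i|)
          (fun _ _ => Finset.sum_nonneg fun _ _ => abs_nonneg _) (Finset.mem_univ j)
      have h2 := neg_abs_le (m i)
      simp only
      linarith
    · show 0 ≤ (0 : ℤ) + ∑ j, ∑ m ∈ A j, |m i|
      rw [zero_add]
      exact Finset.sum_nonneg fun _ _ => Finset.sum_nonneg fun _ _ => abs_nonneg _
  let W : Type := {m // m ∈ A 0} × Fin (2 * g + 1)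
  let η : Fin (s + 1) → Fin r → ℤ := fun j i => hs (A j) (v i)
  let F : Fin (s + 1) → (MvPolynomial (Gf_U d a W) k)[X] := fun j => Gf_F (A j) (c j) v a (η j) σ
  have hF : ∀ {K : Type} [Field K] [Algebra k K] (u : Gf_U d a W → K) (_ : ∀ j, Gf_x a u j ≠ 0) (j : Fin (s + 1)) (l : ℕ),
      MvPolynomial.aeval u ((F j).coeff l) =
      Pool.Agent.Lib.MP_1e3e9c_agV.mn (Gf_x a u) σ * (Ph A c v (Gf_x a u) (Gf_p a u) j).coeff l := by
    intro K _ _ u hu j l
    exact Gf_F_coeff (A j) (c j) v a (η j) σ (hσ j) u hu l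
  set Z : Set (Gf_U d a W → k) := {u | Gf_x a u ∈ T ∧ GCY A c v a g ν y (Gf_x a u) (Gf_p a u) ∧
    ∑ m ∈ A 0, Gf_H a (2 * g) u m * cd v (η 0) (Gf_x a u) (Gf_p a u) m 1 = 1} with hZ
  set J : Ideal (MvPolynomial (Gf_U d a W) k) := MvPolynomial.vanishingIdeal k Z with hJ
  have hmemJ : ∀ q : MvPolynomial (Gf_U d a W) k, (∀ u ∈ Z, MvPolynomial.aeval u q = 0) → q ∈ J := by
    intro q hq
    rw [hJ, MvPolynomial.mem_vanishingIdeal_iff]
    exact hq
  have hfin : J.minimalPrimes.Finite := J.finite_minimalPrimes_of_isNoetherianRing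
  set TQ : Ideal (MvPolynomial (Gf_U d a W) k) × ℕ → Set (Fin d → k) := fun q =>
    {x | ∃ u ∈ Z, (∀ p ∈ q.1, MvPolynomial.aeval u p = 0) ∧ Gf_x a u = x ∧
      MvPolynomial.aeval u ((F 0).coeff q.2) ≠ 0} with hTQ
  have hcov : ∀ x ∈ T, ∃ q ∈ hfin.toFinset ×ˢ (F 0).support, x ∈ TQ q := by
    intro x hx
    obtain ⟨p, hp⟩ := hTG x hx
    obtain ⟨H, hHd, hH⟩ := hp.bez
    obtain ⟨u, hux, hup, huH⟩ := Gf_p_eq a x p hp.deg (fun w : W => (H w.1.1).coeff (w.2 : ℕ))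
    have hHu : ∀ m ∈ A 0, Gf_H a (2 * g) u m = H m := by
      intro m hm
      unfold Gf_H
      rw [dif_pos hm]
      rw [← Gf_q_eq (2 * g) (H m) (hHd m)]
      congr 1
      funext l
      exact huH _
    have huZ : u ∈ Z := by
      refine ⟨?_, ?_, ?_⟩
      · rw [hux]; exact hx
      · rw [hux, hup]; exact hp
      · rw [hux, hup, ← hH]
        exact Finset.sum_congr rfl fun m hm => by rw [hHu m hm]
    have hker : J ≤ RingHom.ker (MvPolynomial.aeval (R := k) u).toRingHom := by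
      intro q hq
      rw [RingHom.mem_ker]
      rw [hJ, MvPolynomial.mem_vanishingIdeal_iff] at hq
      exact hq _ huZ
    have : (RingHom.ker (MvPolynomial.aeval (R := k) u).toRingHom).IsPrime := RingHom.ker_isPrime _
    obtain ⟨Q, hQ, hQle⟩ := Ideal.exists_minimalPrimes_le hker
    obtain ⟨l, hl⟩ : ∃ l, (Ph A c v (Gf_x a u) (Gf_p a u) 0).coeff l ≠ 0 := by
      by_contra hcon
      push Not at hcon
      exact huZ.2.1.phi (Polynomial.ext fun l => by rw [hcon l, Polynomial.coeff_zero])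
    have hl2 : MvPolynomial.aeval u ((F 0).coeff l) ≠ 0 := by
      rw [hF u huZ.2.1.ne 0 l]
      exact mul_ne_zero (Gf_mn_ne huZ.2.1.ne σ) hl
    refine ⟨(Q, l), ?_, u, huZ, ?_, hux, hl2⟩
    · rw [Finset.mem_product]
      refine ⟨hfin.mem_toFinset.2 hQ, ?_⟩
      rw [Polynomial.mem_support_iff]
      intro h0
      apply hl2
      rw [h0, map_zero]
    · intro q hq
      have h1 := hQle hq
      rw [RingHom.mem_ker] at h1
      exact h1
  obtain ⟨⟨Q, l⟩, hQl, hdn⟩ : ∃ q ∈ hfin.toFinset ×ˢ (F 0).support, DI I (TQ q) := by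
    by_contra hcon
    push Not at hcon
    have h1 : ∀ q, ∃ P : MvPolynomial (Fin d) k, q ∈ hfin.toFinset ×ˢ (F 0).support →
        (∀ x ∈ TQ q, MvPolynomial.eval x P = 0) ∧ P ∉ I := by
      intro q
      by_cases hq : q ∈ hfin.toFinset ×ˢ (F 0).support
      · have h2 := hcon q hq
        unfold DI at h2
        push Not at h2
        obtain ⟨P, hP1, hP2⟩ := h2
        exact ⟨P, fun _ => ⟨hP1, hP2⟩⟩
      · exact ⟨0, fun h3 => absurd h3 hq⟩
    choose P hP using h1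
    have h2 : ∏ q ∈ hfin.toFinset ×ˢ (F 0).support, P q ∈ I := by
      apply hT
      intro x hx
      obtain ⟨q, hq, hxq⟩ := hcov x hx
      rw [map_prod]
      exact Finset.prod_eq_zero hq ((hP q hq).1 x hxq)
    obtain ⟨q, hq, hq2⟩ := (Ideal.IsPrime.prod_mem_iff (hp := hI)).1 h2
    exact (hP q hq).2 hq2
  have hQ : Q ∈ J.minimalPrimes := hfin.mem_toFinset.1 (Finset.mem_product.1 hQl).1
  have hQp : Q.IsPrime := hQ.1.1
  have hJQ : J ≤ Q := hQ.1.2
  -- a point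
  obtain ⟨x₀, u₀, hu₀, hu₀Q, -, hu₀l⟩ : (TQ (Q, l)).Nonempty := by
    by_contra hcon
    rw [Set.not_nonempty_iff_eq_empty] at hcon
    apply hI.ne_top
    rw [Ideal.eq_top_iff_one]
    apply hdn
    intro x hx
    rw [hcon] at hx
    exact absurd hx (Set.notMem_empty x)
  have hdomain : IsDomain (MvPolynomial (Gf_U d a W) k ⧸ Q) := inferInstance
  let K : Type := FractionRing (MvPolynomial (Gf_U d a W) k ⧸ Q)
  let u : Gf_U d a W → K := fun w => algebraMap (MvPolynomial (Gf_U d a W) k ⧸ Q) K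
    (Ideal.Quotient.mk Q (MvPolynomial.X w))
  have hu : ∀ q : MvPolynomial (Gf_U d a W) k, MvPolynomial.aeval u q =
      algebraMap (MvPolynomial (Gf_U d a W) k ⧸ Q) K (Ideal.Quotient.mk Q q) := by
    intro q
    have h1 : (MvPolynomial.aeval u : MvPolynomial (Gf_U d a W) k →ₐ[k] K) =
        (IsScalarTower.toAlgHom k (MvPolynomial (Gf_U d a W) k ⧸ Q) K).comp (Ideal.Quotient.mkₐ k Q) := by
      apply MvPolynomial.algHom_ext
      intro w
      rw [MvPolynomial.aeval_X]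
      rfl
    rw [h1]
    rfl
  have hu0 : ∀ q : MvPolynomial (Gf_U d a W) k, MvPolynomial.aeval u q = 0 ↔ q ∈ Q := by
    intro q
    rw [hu, ← Ideal.Quotient.eq_zero_iff_mem]
    constructor
    · intro h1
      exact (IsFractionRing.injective (MvPolynomial (Gf_U d a W) k ⧸ Q) K) (by rw [h1, map_zero])
    · intro h1
      rw [h1, map_zero]
  have hne : ∀ j, Gf_x a u j ≠ 0 := by
    intro j h1
    have h2 : MvPolynomial.aeval u (MvPolynomial.X (Sum.inl j) : MvPolynomial (Gf_U d a W) k) = 0 := by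
      rw [MvPolynomial.aeval_X]
      exact h1
    have h3 := hu₀Q _ ((hu0 _).1 h2)
    rw [MvPolynomial.aeval_X] at h3
    exact hu₀.2.1.ne j h3
  have hsn := Gf_mn_ne hne σ
  -- coefficients which vanish on `Z`
  have hco : ∀ (j : Fin (s + 1)) (n : ℕ),
      (∀ u' ∈ Z, (Ph A c v (Gf_x a u') (Gf_p a u') j).coeff n = 0) →
      (Ph A c v (Gf_x a u) (Gf_p a u) j).coeff n = 0 := by
    intro j n h0
    have h1 : (F j).coeff n ∈ J := by
      apply hmemJ
      intro u' hu'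
      rw [hF u' hu'.2.1.ne j n, h0 u' hu', mul_zero]
    have h2 := (hu0 _).2 (hJQ h1)
    rw [hF u hne j n] at h2
    exact (mul_eq_zero.1 h2).resolve_left hsn
  refine ⟨K, inferInstance, inferInstance, Gf_x a u, Gf_p a u, ?_, ?_⟩
  · refine ⟨hne, Gf_p_deg a u, ?_, ?_, ?_, ?_, ?_, ?_⟩
    · intro i
      have h1 : MvPolynomial.X (Sum.inr (Sum.inl ⟨i, 0⟩)) - 1 ∈ J := by
        apply hmemJ
        intro u' hu'
        rw [map_sub, MvPolynomial.aeval_X, map_one, ← Gf_p_coeff a u' i 0]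
        have h2 := hu'.2.1.zero i
        rw [sub_eq_zero]
        exact h2
      have h2 := (hu0 _).2 (hJQ h1)
      rw [map_sub, MvPolynomial.aeval_X, map_one, sub_eq_zero, ← Gf_p_coeff a u i 0] at h2
      exact h2
    · intro j
      refine Polynomial.ext fun n => ?_
      rw [Polynomial.coeff_zero]
      exact hco j.succ n fun u' hu' => by rw [hu'.2.1.van j, Polynomial.coeff_zero]
    · rw [Polynomial.X_pow_dvd_iff]
      intro n hn
      exact hco 0 n fun u' hu' => Polynomial.X_pow_dvd_iff.1 hu'.2.1.dvd n hn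
    · intro h1
      apply hu₀l
      apply hu₀Q
      apply (hu0 _).1
      change MvPolynomial.aeval u ((F 0).coeff l) = 0
      rw [hF u hne 0 l, h1, Polynomial.coeff_zero, mul_zero]
    · intro m hm m' hm'
      have h1 : (Gf_L k v a (η 0) σ m : MvPolynomial (Gf_U d a W) k) * MvPolynomial.C (y m') -
          Gf_L k v a (η 0) σ m' * MvPolynomial.C (y m) ∈ J := by
        apply hmemJ
        intro u' hu'
        rw [map_sub, map_mul, map_mul, MvPolynomial.aeval_C, MvPolynomial.aeval_C,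
          Gf_L_aeval v a (η 0) σ m (hσ 0 m hm) u' hu'.2.1.ne,
          Gf_L_aeval v a (η 0) σ m' (hσ 0 m' hm') u' hu'.2.1.ne,
          mul_assoc, mul_assoc, hu'.2.1.rat m hm m' hm', sub_self]
      have h2 := (hu0 _).2 (hJQ h1)
      rw [map_sub, map_mul, map_mul, MvPolynomial.aeval_C, MvPolynomial.aeval_C,
          Gf_L_aeval v a (η 0) σ m (hσ 0 m hm) u hne, Gf_L_aeval v a (η 0) σ m' (hσ 0 m' hm') u hne,
          mul_assoc, mul_assoc, ← mul_sub] at h2
      exact sub_eq_zero.1 ((mul_eq_zero.1 h2).resolve_left hsn)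
    · refine ⟨Gf_H a (2 * g) u, Gf_H_deg a (2 * g) u, ?_⟩
      rw [← sub_eq_zero]
      refine Polynomial.ext fun n => ?_
      have h1 : (Gf_B k (A 0) v a (η 0) (2 * g) σ).coeff n ∈ J := by
        apply hmemJ
        intro u' hu'
        rw [Gf_B_coeff (A 0) v a (η 0) (2 * g) σ (hσ 0) hσ0 u' hu'.2.1.ne n, hu'.2.2, sub_self,
          Polynomial.coeff_zero, mul_zero]
      have h2 := (hu0 _).2 (hJQ h1)
      rw [Gf_B_coeff (A 0) v a (η 0) (2 * g) σ (hσ 0) hσ0 u hne n] at h2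
      rw [Polynomial.coeff_zero]
      exact (mul_eq_zero.1 h2).resolve_left hsn
  · intro P
    have hren : ∀ {K' : Type} [Field K'] [Algebra k K'] (w : Gf_U d a W → K') (P : MvPolynomial (Fin d) k),
        MvPolynomial.aeval w (MvPolynomial.rename Sum.inl P) = MvPolynomial.aeval (Gf_x a w) P := by
      intro K' _ _ w P
      rw [MvPolynomial.aeval_rename]
      rfl
    have h1 : MvPolynomial.aeval (Gf_x a u) P = 0 ↔ MvPolynomial.rename Sum.inl P ∈ Q := by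
      rw [← hren u P]
      exact hu0 _
    constructor
    · intro h2
      apply hdn
      rintro x ⟨u', hu', hu'Q, rfl, -⟩
      have h3 := hu'Q _ (h1.1 h2)
      rw [hren u' P, MvPolynomial.aeval_eq_eval] at h3
      exact h3
    · intro hP
      apply h1.2
      apply hJQ
      apply hmemJ
      intro u' hu'
      rw [hren u' P, MvPolynomial.aeval_eq_eval]
      exact hTI _ hu'.1 P hP

end Pool.Agent.Lib.MP_1e3e9c_agY
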