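import Pool.Agent.Lib.MP_1e3e9c_agY.YG
import Pool.Agent.Lib.MP_1e3e9c_agR.X4

/-! LEAF Gg (easy+, 2 theorems).  Extension of the field; derivations at the generic point.

PROOF.  `gcy_map`: apply the ring homomorphism `φ = algebraMap K K'` to everything: `mn (φ x) m = φ (mn x m)` (`map_zpow₀`), `cd .. (φ x) (p.map φ) m l = (cd .. x p m l).map φ`, `Phi`, `ld` in the same way (`algebraMap k K' = φ ∘ algebraMap k K`: `IsScalarTower.algebraMap_apply`); `natDegree_map`, `coeff_map`, `Polynomial.map_injective` (`phi`), `H m ↦ (H m).map φ`.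
`exists_dlogY`: the `x (l a)`, `a : Fin n`, are algebraically independent over `k` (`aeval (x ∘ l) P = aeval x (rename l P)`, `hg`, `hl`): `exists_ders` (X4 of agR) gives `δ a` with `δ a (x (l b)) = if a = b then 1 else 0`; the coordinates `l b` of the vectors form the diagonal matrix `1 / x (l b)`: independent (model: V11 of agV, `exists_dlog`). -/

set_option autoImplicit false

namespace Pool.Agent.Lib.MP_1e3e9c_agY

open Polynomial Pool.Agent.Lib.MP_1e3e9c_agV

private theorem Gg_mn {K K' : Type} [Field K] [Field K'] [Algebra K K'] {d : ℕ} (x : Fin d → K)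
    (m : Fin d → ℤ) :
    Pool.Agent.Lib.MP_1e3e9c_agV.mn (fun i => algebraMap K K' (x i)) m =
      algebraMap K K' (Pool.Agent.Lib.MP_1e3e9c_agV.mn x m) := by
  rw [Pool.Agent.Lib.MP_1e3e9c_agV.mn, Pool.Agent.Lib.MP_1e3e9c_agV.mn, map_prod]
  exact Finset.prod_congr rfl fun j _ => (map_zpow₀ (algebraMap K K') (x j) (m j)).symm

private theorem Gg_cd {K K' : Type} [Field K] [Field K'] [Algebra K K'] {d r : ℕ}
    (v : Fin r → Fin d → ℤ) (h : Fin r → ℤ) (x : Fin d → K) (p : Fin r → K[X]) (m : Fin d → ℤ)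
    (l : ℕ) :
    cd v h (fun i => algebraMap K K' (x i)) (fun i => (p i).map (algebraMap K K')) m l =
      (cd v h x p m l).map (algebraMap K K') := by
  rw [cd, cd, Gg_mn, Polynomial.map_mul, Polynomial.map_C, Polynomial.map_prod]
  congr 1
  exact Finset.prod_congr rfl fun i _ => (Polynomial.map_pow _ _).symm

private theorem Gg_Phi {k K K' : Type} [Field k] [Field K] [Field K'] [Algebra k K] [Algebra k K']
    [Algebra K K'] [IsScalarTower k K K'] {d r : ℕ} (A : Finset (Fin d → ℤ))
    (c : (Fin d → ℤ) → k) (v : Fin r → Fin d → ℤ) (h : Fin r → ℤ) (x : Fin d → K)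
    (p : Fin r → K[X]) :
    Phi A c v h (fun i => algebraMap K K' (x i)) (fun i => (p i).map (algebraMap K K')) =
      (Phi A c v h x p).map (algebraMap K K') := by
  rw [Phi, Phi, Polynomial.map_sum]
  refine Finset.sum_congr rfl fun m _ => ?_
  rw [Gg_cd, Polynomial.map_mul, Polynomial.map_C, IsScalarTower.algebraMap_apply k K K']

private theorem Gg_ld {K K' : Type} [Field K] [Field K'] [Algebra K K'] {d r : ℕ}
    (v : Fin r → Fin d → ℤ) (a : Fin r → ℕ) (h : Fin r → ℤ) (x : Fin d → K) (p : Fin r → K[X])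
    (m : Fin d → ℤ) :
    ld v a h (fun i => algebraMap K K' (x i)) (fun i => (p i).map (algebraMap K K')) m =
      algebraMap K K' (ld v a h x p m) := by
  rw [ld, ld, Gg_mn, map_mul, map_prod]
  congr 1
  refine Finset.prod_congr rfl fun i _ => ?_
  rw [Polynomial.coeff_map, map_pow]

theorem gcy_map {k K K' : Type} [Field k] [Field K] [Field K'] [Algebra k K] [Algebra k K']
    [Algebra K K'] [IsScalarTower k K K'] {d r s : ℕ} {A : Fin (s + 1) → Finset (Fin d → ℤ)}
    {c : Fin (s + 1) → (Fin d → ℤ) → k} {v : Fin r → Fin d → ℤ} {a : Fin r → ℕ} {g ν : ℕ}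
    {y : (Fin d → ℤ) → k} {x : Fin d → K} {p : Fin r → K[X]} (h : GCY A c v a g ν y x p) :
    GCY A c v a g ν y (fun i => algebraMap K K' (x i)) fun i => (p i).map (algebraMap K K') := by
  refine ⟨fun j => ?_, fun i => ?_, fun i => ?_, fun j => ?_, ?_, ?_, fun m hm m' hm' => ?_, ?_⟩
  · exact (map_ne_zero (algebraMap K K')).mpr (h.ne j)
  · rw [Polynomial.natDegree_map]
    exact h.deg i
  · rw [Polynomial.coeff_map, h.zero i, map_one]
  · have h1 := h.van j
    rw [Ph] at h1 ⊢
    rw [Gg_Phi, h1, Polynomial.map_zero]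
  · have h1 := h.dvd
    rw [Ph] at h1 ⊢
    rw [Gg_Phi]
    have h2 := Polynomial.map_dvd (algebraMap K K') h1
    rwa [Polynomial.map_pow, Polynomial.map_X] at h2
  · have h1 := h.phi
    rw [Ph] at h1 ⊢
    rw [Gg_Phi]
    exact (Polynomial.map_ne_zero_iff (algebraMap K K').injective).mpr h1
  · rw [Gg_ld, Gg_ld, IsScalarTower.algebraMap_apply k K K', IsScalarTower.algebraMap_apply k K K',
      ← map_mul, ← map_mul, h.rat m hm m' hm']
  · obtain ⟨H, hH, hH1⟩ := h.bez
    refine ⟨fun m => (H m).map (algebraMap K K'), fun m => ?_, ?_⟩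
    · rw [Polynomial.natDegree_map]
      exact hH m
    · have h2 := congrArg (Polynomial.map (algebraMap K K')) hH1
      rw [Polynomial.map_sum, Polynomial.map_one] at h2
      rw [← h2]
      refine Finset.sum_congr rfl fun m _ => ?_
      rw [Gg_cd, Polynomial.map_mul]

theorem exists_dlogY {k K : Type} [Field k] [CharZero k] [Field K] [Algebra k K] {d n : ℕ}
    {I : Ideal (MvPolynomial (Fin d) k)} {l : Fin n → Fin d}
    (hl : ∀ P : MvPolynomial (Fin n) k, MvPolynomial.rename l P ∈ I → P = 0) {x : Fin d → K}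
    (hx : ∀ j, x j ≠ 0)
    (hg : ∀ P : MvPolynomial (Fin d) k, MvPolynomial.aeval x P = 0 ↔ P ∈ I) :
    ∃ δ : Fin n → Derivation k K K,
      LinearIndependent K fun (j : Fin n) (i : Fin d) => δ j (x i) / x i := by
  have hz : AlgebraicIndependent k fun j : Fin n => x (l j) := by
    rw [algebraicIndependent_iff]
    intro P hP
    refine hl P ((hg _).mp ?_)
    rw [MvPolynomial.aeval_rename]
    exact hP
  obtain ⟨δ, hδ⟩ := Pool.Agent.Lib.MP_1e3e9c_agR.exists_ders _ hz
  refine ⟨δ, ?_⟩
  rw [Fintype.linearIndependent_iff]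
  intro g hg1 i
  have h1 := congrFun hg1 (l i)
  rw [Finset.sum_apply, Finset.sum_eq_single i] at h1
  · rw [Pi.smul_apply, hδ, if_pos rfl, smul_eq_mul, Pi.zero_apply] at h1
    rcases mul_eq_zero.mp h1 with h2 | h2
    · exact h2
    · exact absurd h2 (div_ne_zero one_ne_zero (hx _))
  · intro j _ hj
    rw [Pi.smul_apply, hδ, if_neg hj, zero_div, smul_zero]
  · intro h
    exact absurd (Finset.mem_univ i) h

end Pool.Agent.Lib.MP_1e3e9c_agY
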