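import Pool.Agent.Lib.MP_1e3e9c_agY.YG
import Pool.Agent.Lib.MP_1e3e9c_agR.R2

/-! LEAF Gi (medium, adaptation of V04 of agV, proved there).  Contact curves exist.

PROOF.  `N = ∑ a_i ≥ 2`, so `r > 0`; let `i₀ : Fin r`.  Unknowns: `U = Σ i : Fin r, Fin (a i)`, `p_i = 1 + ∑_l c_(i,l) t^(l+1)` (over `k`, and over `k[U]`: `P_i`).  Equations: for every `j` and `l = 1, .., M j` the coefficient `f_(j,l) ∈ k[U]` of `t^l` in `∑_m c_jm x^m ∏ P_i^(ex m 1 i)`, and `f_0 = X_(i₀, 0)` (the coefficient of `t` in `p_(i₀)`, `a i₀ > 0`):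
`∑_j M j + 1 < N` polynomials without constant term (at `c = 0` all `p_i = 1`, so `Ph j` is the constant `∑ c_jm x^m`).  As in V04 (`common_zero`) there is `c ≠ 0` with all `f(c) = 0`.  `X^(M j + 1)` divides `Ph j`: the coefficients `1 .. M j` vanish, and the coefficient `0` is `∑ c_jm x^m = 0` (`hF`).
Not `Tri`: if `p_i = (1 + b t)^(a_i)` for all `i` then the coefficient of `t` in `p_(i₀)` is `a_(i₀) b = 0`, so `b = 0` (characteristic `0`), all `p_i = 1` and `c = 0`. -/

set_option autoImplicit false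

namespace Pool.Agent.Lib.MP_1e3e9c_agY

open Polynomial Pool.Agent.Lib.MP_1e3e9c_agV Pool.Agent.Lib.MP_1e3e9c_agR

private theorem Gi_coeff0 {B : Type} [CommRing B] (n : ℕ) (f : MvPolynomial (Fin (n + 1)) B) :
    (MvPolynomial.constantCoeff : MvPolynomial (Fin n) B →+* B)
      (Polynomial.constantCoeff (MvPolynomial.finSuccEquiv B n f)) = MvPolynomial.constantCoeff f := by
  have h := MvPolynomial.finSuccEquiv_coeff_coeff (0 : Fin n →₀ ℕ) f 0
  rw [Finsupp.cons_zero_zero] at h
  exact h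

private theorem Gi_fin {B : Type} [CommRing B] [IsNoetherianRing B] (M : Ideal B) [M.IsMaximal]
    (n : ℕ) : (Ideal.comap (MvPolynomial.constantCoeff : MvPolynomial (Fin n) B →+* B) M).height =
      M.height + (n : ℕ∞) := by
  induction n with
  | zero =>
    have h1 : Ideal.comap (MvPolynomial.constantCoeff : MvPolynomial (Fin 0) B →+* B) M =
        Ideal.comap (MvPolynomial.isEmptyRingEquiv B (Fin 0)) M := by
      ext x
      rw [Ideal.mem_comap, Ideal.mem_comap]
      rfl
    rw [h1, RingEquiv.height_comap, Nat.cast_zero, add_zero]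
  | succ n ih =>
    have hs : Function.Surjective (MvPolynomial.constantCoeff : MvPolynomial (Fin n) B →+* B) := fun b =>
      ⟨MvPolynomial.C b, MvPolynomial.constantCoeff_C _ b⟩
    have hp : (Ideal.comap (MvPolynomial.constantCoeff : MvPolynomial (Fin n) B →+* B) M).IsMaximal :=
      Ideal.comap_isMaximal_of_surjective _ hs
    have hP : (Ideal.comap (Polynomial.constantCoeff :
        Polynomial (MvPolynomial (Fin n) B) →+* MvPolynomial (Fin n) B)
        (Ideal.comap (MvPolynomial.constantCoeff : MvPolynomial (Fin n) B →+* B) M)).IsMaximal :=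
      Ideal.comap_isMaximal_of_surjective _ Polynomial.constantCoeff_surjective
    have hl : (Ideal.comap (Polynomial.constantCoeff :
        Polynomial (MvPolynomial (Fin n) B) →+* MvPolynomial (Fin n) B)
        (Ideal.comap (MvPolynomial.constantCoeff : MvPolynomial (Fin n) B →+* B) M)).LiesOver
        (Ideal.comap (MvPolynomial.constantCoeff : MvPolynomial (Fin n) B →+* B) M) := by
      refine ⟨?_⟩
      ext x
      rw [Ideal.mem_comap]
      show _ ↔ MvPolynomial.constantCoeff (Polynomial.constantCoeff (Polynomial.C x)) ∈ M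
      rw [Polynomial.constantCoeff_apply, Polynomial.coeff_C_zero]
    have h2 := Polynomial.height_eq_height_add_one
      (Ideal.comap (MvPolynomial.constantCoeff : MvPolynomial (Fin n) B →+* B) M)
      (Ideal.comap (Polynomial.constantCoeff :
        Polynomial (MvPolynomial (Fin n) B) →+* MvPolynomial (Fin n) B)
        (Ideal.comap (MvPolynomial.constantCoeff : MvPolynomial (Fin n) B →+* B) M))
    have h3 : Ideal.comap (MvPolynomial.constantCoeff : MvPolynomial (Fin (n + 1)) B →+* B) M =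
        Ideal.comap (MvPolynomial.finSuccEquiv B n).toRingEquiv (Ideal.comap (Polynomial.constantCoeff :
        Polynomial (MvPolynomial (Fin n) B) →+* MvPolynomial (Fin n) B)
        (Ideal.comap (MvPolynomial.constantCoeff : MvPolynomial (Fin n) B →+* B) M)) := by
      ext x
      rw [Ideal.mem_comap, Ideal.mem_comap, Ideal.mem_comap, Ideal.mem_comap]
      show _ ↔ MvPolynomial.constantCoeff (Polynomial.constantCoeff (MvPolynomial.finSuccEquiv B n x)) ∈ M
      rw [Gi_coeff0]
    rw [h3, RingEquiv.height_comap, h2, ih, Nat.cast_add, Nat.cast_one, add_assoc]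

private theorem Gi_height {B : Type} [CommRing B] [IsNoetherianRing B] (M : Ideal B) [M.IsMaximal]
    (ι : Type) [Fintype ι] :
    (Ideal.comap (MvPolynomial.constantCoeff : MvPolynomial ι B →+* B) M).height =
      M.height + (Fintype.card ι : ℕ∞) := by
  have h3 : Ideal.comap (MvPolynomial.constantCoeff : MvPolynomial ι B →+* B) M =
      Ideal.comap (MvPolynomial.renameEquiv B (Fintype.equivFin ι)).toRingEquiv
        (Ideal.comap (MvPolynomial.constantCoeff : MvPolynomial (Fin (Fintype.card ι)) B →+* B) M) := by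
    ext x
    rw [Ideal.mem_comap, Ideal.mem_comap, Ideal.mem_comap]
    show _ ↔ MvPolynomial.constantCoeff (MvPolynomial.rename (Fintype.equivFin ι) x) ∈ M
    rw [MvPolynomial.constantCoeff_rename]
  rw [h3, RingEquiv.height_comap, Gi_fin]

private theorem Gi_dimAt {k U : Type} [Field k] [Fintype U] :
    dimAt (⊥ : Ideal (MvPolynomial U k)) = (Fintype.card U : ℕ∞) := by
  unfold dimAt
  have hM : (⊥ : Ideal k).IsMaximal := Ideal.bot_isMaximal
  have h1 : Ideal.map (Ideal.Quotient.mk (⊥ : Ideal (MvPolynomial U k)))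
      (RingHom.ker (MvPolynomial.constantCoeff : MvPolynomial U k →+* k)) =
      Ideal.comap (RingEquiv.quotientBot (MvPolynomial U k))
        (Ideal.comap (MvPolynomial.constantCoeff : MvPolynomial U k →+* k) ⊥) := by
    ext z
    obtain ⟨y, rfl⟩ := Ideal.Quotient.mk_surjective z
    rw [← Ideal.mem_comap, Ideal.comap_map_quotientMk, bot_sup_eq, Ideal.mem_comap]
    rfl
  rw [h1, RingEquiv.height_comap, Gi_height, Ideal.height_bot, zero_add]

private noncomputable def Gi_p {k : Type} [Field k] {r : ℕ} (a : Fin r → ℕ) (b : (Σ i : Fin r, Fin (a i)) → k)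
    (i : Fin r) : k[X] :=
  1 + ∑ l : Fin (a i), C (b ⟨i, l⟩) * X ^ ((l : ℕ) + 1)

private noncomputable def Gi_g (k : Type) [Field k] {r : ℕ} (a : Fin r → ℕ)
    (i : Fin r) : (MvPolynomial (Σ i : Fin r, Fin (a i)) k)[X] :=
  1 + ∑ l : Fin (a i), C (MvPolynomial.X (⟨i, l⟩ : Σ i : Fin r, Fin (a i))) * X ^ ((l : ℕ) + 1)

private theorem Gi_p_coeff0 {k : Type} [Field k] {r : ℕ} (a : Fin r → ℕ) (b : (Σ i : Fin r, Fin (a i)) → k)
    (i : Fin r) : (Gi_p a b i).coeff 0 = 1 := by
  unfold Gi_p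
  rw [Polynomial.coeff_add, Polynomial.coeff_one_zero, Polynomial.finsetSum_coeff, Finset.sum_eq_zero, add_zero]
  intro l _
  rw [Polynomial.coeff_C_mul, Polynomial.coeff_X_pow, if_neg (by omega), mul_zero]

private theorem Gi_p_coeff {k : Type} [Field k] {r : ℕ} (a : Fin r → ℕ) (b : (Σ i : Fin r, Fin (a i)) → k)
    (i : Fin r) (l : Fin (a i)) : (Gi_p a b i).coeff ((l : ℕ) + 1) = b ⟨i, l⟩ := by
  unfold Gi_p
  rw [Polynomial.coeff_add, Polynomial.coeff_one, if_neg (by omega), zero_add, Polynomial.finsetSum_coeff,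
    Finset.sum_eq_single l]
  · rw [Polynomial.coeff_C_mul, Polynomial.coeff_X_pow, if_pos rfl, mul_one]
  · intro m _ hm
    rw [Polynomial.coeff_C_mul, Polynomial.coeff_X_pow, if_neg, mul_zero]
    intro h
    exact hm (Fin.ext (by omega))
  · intro h
    exact absurd (Finset.mem_univ _) h

private theorem Gi_p_deg {k : Type} [Field k] {r : ℕ} (a : Fin r → ℕ) (b : (Σ i : Fin r, Fin (a i)) → k)
    (i : Fin r) : (Gi_p a b i).natDegree ≤ a i := by
  unfold Gi_p
  refine Polynomial.natDegree_add_le_of_degree_le ?_ ?_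
  · rw [Polynomial.natDegree_one]
    exact Nat.zero_le _
  · refine Polynomial.natDegree_sum_le_of_forall_le _ _ fun l _ => ?_
    exact (Polynomial.natDegree_C_mul_X_pow_le _ _).trans (by have := l.2; omega)

private noncomputable def Gi_G {k : Type} [Field k] {d r : ℕ} (a : Fin r → ℕ)
    (A : Finset (Fin d → ℤ)) (c : (Fin d → ℤ) → k) (v : Fin r → Fin d → ℤ) (h : Fin r → ℤ) (x : Fin d → k) :
    (MvPolynomial (Σ i : Fin r, Fin (a i)) k)[X] :=
  ∑ m ∈ A, C (MvPolynomial.C (c m)) * (C (MvPolynomial.C (mn x m)) * ∏ i, Gi_g k a i ^ ex v h m 1 i)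

private theorem Gi_map {k : Type} [Field k] {d r : ℕ} (a : Fin r → ℕ)
    (A : Finset (Fin d → ℤ)) (c : (Fin d → ℤ) → k) (v : Fin r → Fin d → ℤ) (h : Fin r → ℤ) (x : Fin d → k)
    (b : (Σ i : Fin r, Fin (a i)) → k) :
    Polynomial.map (MvPolynomial.eval b) (Gi_G a A c v h x) = Phi A c v h x (Gi_p a b) := by
  have hg : ∀ i, Polynomial.map (MvPolynomial.eval b) (Gi_g k a i) = Gi_p a b i := by
    intro i
    unfold Gi_g Gi_p
    simp only [Polynomial.map_add, Polynomial.map_one, Polynomial.map_sum, Polynomial.map_mul,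
      Polynomial.map_pow, Polynomial.map_C, Polynomial.map_X, MvPolynomial.eval_X]
  unfold Gi_G Phi cd
  simp only [Polynomial.map_sum, Polynomial.map_mul, Polynomial.map_prod,
    Polynomial.map_pow, Polynomial.map_C, MvPolynomial.eval_C, hg, Algebra.algebraMap_self, RingHom.id_apply]

private theorem Gi_map_coeff {k : Type} [Field k] {d r : ℕ} (a : Fin r → ℕ)
    (A : Finset (Fin d → ℤ)) (c : (Fin d → ℤ) → k) (v : Fin r → Fin d → ℤ) (h : Fin r → ℤ) (x : Fin d → k)
    (b : (Σ i : Fin r, Fin (a i)) → k) (j : ℕ) :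
    MvPolynomial.eval b ((Gi_G a A c v h x).coeff j) = (Phi A c v h x (Gi_p a b)).coeff j := by
  rw [← Gi_map, Polynomial.coeff_map]

private theorem Gi_const {k : Type} [Field k] {d r : ℕ} (a : Fin r → ℕ)
    (A : Finset (Fin d → ℤ)) (c : (Fin d → ℤ) → k) (v : Fin r → Fin d → ℤ) (h : Fin r → ℤ) (x : Fin d → k)
    (j : ℕ) : (Phi A c v h x (Gi_p a (0 : (Σ i : Fin r, Fin (a i)) → k))).coeff (j + 1) = 0 := by
  have h1 : Gi_p a (0 : (Σ i : Fin r, Fin (a i)) → k) = fun _ => 1 := by
    funext i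
    unfold Gi_p
    rw [Finset.sum_eq_zero, add_zero]
    intro l _
    rw [Pi.zero_apply, map_zero, zero_mul]
  rw [h1]
  unfold Phi cd
  rw [Polynomial.finsetSum_coeff]
  refine Finset.sum_eq_zero fun m _ => ?_
  simp only [one_pow, Finset.prod_const_one, mul_one]
  rw [← map_mul, Polynomial.coeff_C_succ]

private theorem Gi_lin {k : Type} [Field k] (b : k) (N : ℕ) :
    ((1 + C b * X : k[X]) ^ N).coeff 1 = N * b := by
  have h := Polynomial.coeff_derivative ((1 + Polynomial.C b * Polynomial.X : Polynomial k) ^ N) 0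
  rw [zero_add, Nat.cast_zero, zero_add, mul_one] at h
  rw [← h, Polynomial.coeff_zero_eq_eval_zero, Polynomial.derivative_pow]
  simp

theorem exists_contactY {k : Type} [Field k] [IsAlgClosed k] [CharZero k] {d r s : ℕ}
    {A : Fin (s + 1) → Finset (Fin d → ℤ)} {c : Fin (s + 1) → (Fin d → ℤ) → k}
    {v : Fin r → Fin d → ℤ} {a : Fin r → ℕ} (ha : ∀ i, 0 < a i) {M : Fin (s + 1) → ℕ}
    (hM : ∑ j, M j + 2 ≤ ∑ i, a i) {x : Fin d → k}
    (hF : ∀ j, ∑ m ∈ A j, c j m * mn x m = 0) :
    ∃ p : Fin r → k[X], (∀ i, (p i).natDegree ≤ a i) ∧ (∀ i, (p i).coeff 0 = 1) ∧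
      (∀ j, X ^ (M j + 1) ∣ Ph A c v x p j) ∧ ¬ Tri a p := by
  classical
  obtain ⟨i₀⟩ : Nonempty (Fin r) := by
    rcases Nat.eq_zero_or_pos r with h0 | h0
    · subst h0
      rw [Finset.univ_eq_empty (α := Fin 0), Finset.sum_empty] at hM
      omega
    · exact ⟨⟨0, h0⟩⟩
  obtain ⟨b, hb0, -, hbf⟩ := common_zero (κ := Option (Σ j : Fin (s + 1), Fin (M j)))
    (⊥ : Ideal (MvPolynomial (Σ i : Fin r, Fin (a i)) k))
    (fun q hq => by rw [(Ideal.mem_bot.1 hq), map_zero])
    (fun o => o.elim (MvPolynomial.X (⟨i₀, ⟨0, ha i₀⟩⟩ : Σ i : Fin r, Fin (a i))) fun jl =>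
      (Gi_G a (A jl.1) (c jl.1) v (fun i => hs (A jl.1) (v i)) x).coeff ((jl.2 : ℕ) + 1))
    (by
      rintro (_ | jl)
      · simp only [Option.elim_none, MvPolynomial.constantCoeff_X]
      · have h1 := Gi_map_coeff a (A jl.1) (c jl.1) v (fun i => hs (A jl.1) (v i)) x
          (0 : (Σ i : Fin r, Fin (a i)) → k) ((jl.2 : ℕ) + 1)
        rw [Gi_const, MvPolynomial.eval_zero] at h1
        exact h1)
    (by
      rw [Gi_dimAt, Nat.cast_lt, Fintype.card_option, Fintype.card_sigma, Fintype.card_sigma]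
      simp only [Fintype.card_fin]
      omega)
  have hb1 : b ⟨i₀, ⟨0, ha i₀⟩⟩ = 0 := by
    have h1 := hbf none
    simpa only [Option.elim_none, MvPolynomial.eval_X] using h1
  refine ⟨Gi_p a b, Gi_p_deg a b, Gi_p_coeff0 a b, ?_, ?_⟩
  · intro j
    unfold Ph
    rw [Polynomial.X_pow_dvd_iff]
    intro l hl
    rcases l with _ | l
    · unfold Phi
      rw [Polynomial.finsetSum_coeff, ← hF j]
      refine Finset.sum_congr rfl fun m _ => ?_
      rw [Polynomial.coeff_C_mul, coeff_cd x (Gi_p_coeff0 a b) m 1]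
      rfl
    · rw [← Gi_map_coeff]
      exact hbf (some ⟨j, ⟨l, by omega⟩⟩)
  · rintro ⟨e, he⟩
    have h1 : ((a i₀ : ℕ) : k) * e = 0 := by
      rw [← Gi_lin, ← he i₀]
      have h2 := Gi_p_coeff a b i₀ ⟨0, ha i₀⟩
      rw [hb1] at h2
      exact h2
    have he0 : e = 0 := by
      rcases mul_eq_zero.1 h1 with h2 | h2
      · exact absurd (Nat.cast_eq_zero.1 h2) (ha i₀).ne'
      · exact h2
    apply hb0
    funext z
    obtain ⟨i, l⟩ := z
    rw [← Gi_p_coeff a b i l, he i, he0, map_zero, zero_mul, add_zero, one_pow, Polynomial.coeff_one,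
      if_neg (by omega), Pi.zero_apply]

end Pool.Agent.Lib.MP_1e3e9c_agY
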