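import Pool.Agent.Lib.MP_1e3e9c_agY.YDefs
import Pool.Agent.Lib.MP_1e3e9c_agV.V03a

/-! LEAF Ya (easy+, 10 small lemmas).  Small facts on the support functions and on `RelY`.

PROOF.  `hs_ge`: `Finset.le_sup'` for `m ↦ - pr m u`.  `hs_min`: `Finset.exists_mem_eq_sup'`.  `ne_of_full`: `Full` for a vector `u ≠ 0` (e.g. `fun _ => 1`).  `d_pos`: `(hR.fct 0 ⟨0, hR.rpos⟩).1`: `v 0 ≠ 0`, for `d = 0` all vectors are equal (`Subsingleton`).  `rel0`: `hs_ge`.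
`g_pos'`: `DD A v a j = ∑ a_i (pr m (v i) + hs (v i)) ≥ 0` for every `m ∈ A j` (`∑ a_i pr m (v i) = 0` by `hR.rel`); if it is `0` then all `pr m (v i) + hs = 0` for all `m ∈ A j` (sum of numbers `≥ 0`, `a_i > 0`), so `pr m (v 0)` is constant on `A j`, against `hR.full j` and `v 0 ≠ 0`.
`ph_nonneg`: with `m` minimal for `u = ∑ e_i v_i` (`hs_min`): `hs u = - pr m u = - ∑ e_i pr m (v i) ≤ ∑ e_i hs (v i)`.  `ph_eq`: if `Fa (A j) u m` for `u = ∑ e_i v_i` then `ph = ∑ e_i (pr m (v i) + hs (v i))`.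
`fa_common`: `hR.fan 0 j` for `m`.  `ph_zero`: let `m` be minimal for `u` on `A 0`; by `ph_eq` all `e_i (pr m (v i) + hs (v i)) = 0`, so `Fa (A 0) (v i) m` if `e_i > 0`; `hR.fan 0 j` gives `m' ∈ A j` with `Fa (A j) u m'` and `Fa (A j) (v i) m'` for all `i` with `e_i > 0`: `ph_eq` for `m'`. -/

set_option autoImplicit false

namespace Pool.Agent.Lib.MP_1e3e9c_agY

open Polynomial Pool.Agent.Lib.MP_1e3e9c_agV

variable {d r s : ℕ}

private theorem Ya_pr {k : ℕ} (m : Fin d → ℤ) (w : Fin k → Fin d → ℤ) (e : Fin k → ℕ) :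
    pr m (fun l => ∑ i, (e i : ℤ) * w i l) = ∑ i, (e i : ℤ) * pr m (w i) := by
  unfold pr
  simp_rw [Finset.mul_sum]
  rw [Finset.sum_comm]
  exact Finset.sum_congr rfl fun i _ => Finset.sum_congr rfl fun j _ => by ring

private theorem Ya_zero {k : ℕ} {e : Fin k → ℕ} {f : Fin k → ℤ} (hf : ∀ i, 0 ≤ f i)
    (h : ∑ i, (e i : ℤ) * f i ≤ 0) (i : Fin k) (hi : 0 < e i) : f i = 0 := by
  have h0 : ∀ i ∈ Finset.univ, 0 ≤ (e i : ℤ) * f i := fun i _ =>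
    mul_nonneg (Nat.cast_nonneg _) (hf i)
  have h1 := (Finset.sum_eq_zero_iff_of_nonneg h0).1 (le_antisymm h (Finset.sum_nonneg h0)) i
    (Finset.mem_univ i)
  rcases mul_eq_zero.1 h1 with h2 | h2
  · exact absurd h2 (by exact_mod_cast hi.ne')
  · exact h2

theorem hs_ge {A : Finset (Fin d → ℤ)} {m : Fin d → ℤ} (hm : m ∈ A) (u : Fin d → ℤ) :
    0 ≤ pr m u + hs A u := by
  have hA : A.Nonempty := ⟨m, hm⟩
  have h := Finset.le_sup' (fun m => - pr m u) hm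
  unfold hs
  rw [dif_pos hA]
  have h' : - pr m u ≤ A.sup' hA (fun m => - pr m u) := h
  linarith

theorem hs_min {A : Finset (Fin d → ℤ)} (hA : A.Nonempty) (u : Fin d → ℤ) : ∃ m, Fa A u m := by
  obtain ⟨m, hm, h⟩ := Finset.exists_mem_eq_sup' hA (fun m => - pr m u)
  refine ⟨m, hm, ?_⟩
  unfold hs
  rw [dif_pos hA, h]
  ring

theorem ne_of_full {A : Finset (Fin d → ℤ)} (hA : Full A) (hd : 0 < d) : A.Nonempty := by
  obtain ⟨m, hm, -⟩ := hA (fun _ => 1) (by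
    intro h
    have := congrFun h ⟨0, hd⟩
    simp at this)
  exact ⟨m, hm⟩

variable {A : Fin (s + 1) → Finset (Fin d → ℤ)} {v : Fin r → Fin d → ℤ} {a : Fin r → ℕ}

theorem d_pos (hR : RelY A v a) : 0 < d := by
  rcases Nat.eq_zero_or_pos d with h | h
  · subst h
    exact absurd (Subsingleton.elim _ _) (hR.fct 0 ⟨0, hR.rpos⟩).1
  · exact h

theorem rel0 (hR : RelY A v a) (j : Fin (s + 1)) : Rel0 (A j) v a fun i => hs (A j) (v i) := by
  exact ⟨hR.pos, hR.rel, fun m hm i => hs_ge hm _⟩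

theorem g_pos' (hR : RelY A v a) (j : Fin (s + 1)) : 0 < DD A v a j := by
  have key : ∀ m, DD A v a j = ∑ i, (a i : ℤ) * (pr m (v i) + hs (A j) (v i)) := by
    intro m
    have h1 : ∑ i, (a i : ℤ) * pr m (v i) = 0 := by
      rw [← Ya_pr]
      unfold pr
      exact Finset.sum_eq_zero fun l _ => by
        show m l * ∑ i, (a i : ℤ) * v i l = 0
        rw [hR.rel l, mul_zero]
    unfold DD
    simp_rw [mul_add]
    rw [Finset.sum_add_distrib, h1, zero_add]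
  by_contra hc
  push Not at hc
  obtain ⟨m, hm, m', hm', hne⟩ := hR.full j _ (hR.fct 0 ⟨0, hR.rpos⟩).1
  have h1 := Ya_zero (e := a) (fun i => hs_ge hm (v i)) (by rw [← key m]; exact hc)
    ⟨0, hR.rpos⟩ (hR.pos _)
  have h2 := Ya_zero (e := a) (fun i => hs_ge hm' (v i)) (by rw [← key m']; exact hc)
    ⟨0, hR.rpos⟩ (hR.pos _)
  exact hne (by linarith)

/-- `u = ∑ e_i v_i`, `m` is minimal for `u`. -/
theorem ph_eq (e : Fin r → ℕ) {j : Fin (s + 1)} {m : Fin d → ℤ}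
    (hm : Fa (A j) (fun l => ∑ i, (e i : ℤ) * v i l) m) :
    ph A v e j = ∑ i, (e i : ℤ) * (pr m (v i) + hs (A j) (v i)) := by
  have h1 := hm.2
  rw [Ya_pr] at h1
  unfold ph
  simp_rw [mul_add]
  rw [Finset.sum_add_distrib]
  linarith

theorem ph_nonneg (hR : RelY A v a) (e : Fin r → ℕ) (j : Fin (s + 1)) : 0 ≤ ph A v e j := by
  obtain ⟨m, hm⟩ := hs_min (ne_of_full (hR.full j) (d_pos hR))
    (fun l => ∑ i, (e i : ℤ) * v i l)
  rw [ph_eq e hm]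
  exact Finset.sum_nonneg fun i _ => mul_nonneg (Nat.cast_nonneg _) (hs_ge hm.1 _)

theorem fa_common (hR : RelY A v a) {P : Fin r → Prop}
    (h : ∃ m ∈ A 0, ∀ i, P i → Fa (A 0) (v i) m) (j : Fin (s + 1)) :
    ∃ m ∈ A j, ∀ i, P i → Fa (A j) (v i) m := by
  obtain ⟨m, hm, h⟩ := h
  obtain ⟨m', hm', h'⟩ := hR.fan 0 j m hm
  exact ⟨m', hm', fun i hi => h' _ (h i hi)⟩

theorem ph_zero (hR : RelY A v a) {e : Fin r → ℕ} (h : ph A v e 0 = 0) (j : Fin (s + 1)) :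
    ph A v e j = 0 := by
  obtain ⟨m, hm⟩ := hs_min (ne_of_full (hR.full 0) (d_pos hR))
    (fun l => ∑ i, (e i : ℤ) * v i l)
  rw [ph_eq e hm] at h
  have h1 := Ya_zero (e := e) (fun i => hs_ge hm.1 (v i)) h.le
  obtain ⟨m', -, h'⟩ := hR.fan 0 j m hm.1
  rw [ph_eq e (h' _ hm)]
  refine Finset.sum_eq_zero fun i _ => ?_
  rcases Nat.eq_zero_or_pos (e i) with h0 | h0
  · rw [h0]
    simp
  · rw [(h' _ ⟨hm.1, h1 i h0⟩).2, mul_zero]

end Pool.Agent.Lib.MP_1e3e9c_agY
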