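import Pool.Agent.Lib.MP_1e3e9c_agY.YG
import Pool.Agent.Lib.MP_1e3e9c_agY.Ya

/-! LEAF Gj (medium, adaptation of V03 of agV, proved there).  The contact curve in `P(w)`.

PROOF.  `h = fun i => hs (A 0) (v i)`, `rel0 hR 0` (Ya).  All fields of `TwoC` except `base` as in V03 (`natDegree_cd`, `coeff_cd`, `aeval_GV`, `i + j = 1 * g`).  `base`: let `P ∈ SY A c e w`, weighted homogeneous of weight `μ`; the polynomial `Q = aeval (..) P` is `0`: it vanishes at all `t` with all `p_i(t) ≠ 0`, and these are all but finitely many `t` (`p_i ≠ 0` as `p_i(0) = 1`; `k` infinite).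
For such `t`: `y_l = x_l ∏ p_i(t)^(v_il) ≠ 0`; for `j : Fin s`: `∑_(m ∈ A j.succ) c mn y m = (∏ p_i(t)^(- hs (A j.succ) (v i))) * (Ph A c v x p j.succ).eval t = 0` (`rel0 hR j.succ`: `ex` is the integer `pr m (v i) + hs`; `hvan`).  Let `λ = ∏ p_i(t)^(h_i)` (`zpow`): the coordinate `j` at `t` is `λ^(w_j) mn y (e j)`, so `P(..) = λ^μ P(mn y (e j)) = 0`. -/

set_option autoImplicit false

namespace Pool.Agent.Lib.MP_1e3e9c_agY

open Polynomial Pool.Agent.Lib.MP_1e3e9c_agV Pool.Agent.Lib.MP_1e3e9c_agR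

private theorem Gj_mn {k : Type} [Field k] {d r : ℕ} (v : Fin r → Fin d → ℤ) (x : Fin d → k) {q : Fin r → k}
    (hq : ∀ i, q i ≠ 0) (m : Fin d → ℤ) :
    mn (fun j => x j * ∏ i, q i ^ v i j) m = mn x m * ∏ i, q i ^ pr m (v i) := by
  unfold Pool.Agent.Lib.MP_1e3e9c_agV.mn pr
  have h1 : ∀ j, (x j * ∏ i, q i ^ v i j) ^ m j = x j ^ m j * ∏ i, q i ^ (m j * v i j) := by
    intro j
    rw [mul_zpow, ← Finset.prod_zpow]
    refine congrArg (fun z => x j ^ m j * z) (Finset.prod_congr rfl fun i _ => ?_)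
    rw [← zpow_mul, mul_comm]
  rw [Finset.prod_congr rfl fun j _ => h1 j, Finset.prod_mul_distrib, Finset.prod_comm]
  refine congrArg (fun z => (∏ j, x j ^ m j) * z) (Finset.prod_congr rfl fun i _ => ?_)
  have h2 : ∀ s : Finset (Fin d), ∏ j ∈ s, q i ^ (m j * v i j) = q i ^ ∑ j ∈ s, m j * v i j := by
    intro s
    classical
    induction s using Finset.induction_on with
    | empty => rw [Finset.prod_empty, Finset.sum_empty, zpow_zero]
    | insert b s hb ih => rw [Finset.prod_insert hb, Finset.sum_insert hb, ih, zpow_add₀ (hq i)]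
  exact h2 _

private theorem Gj_eval {k : Type} [Field k] {d r : ℕ} {v : Fin r → Fin d → ℤ} {h : Fin r → ℤ} (x : Fin d → k)
    (p : Fin r → k[X]) {t : k} (hq : ∀ i, (p i).eval t ≠ 0) (m : Fin d → ℤ) (l : ℕ)
    (hm : ∀ i, 0 ≤ pr m (v i) + l * h i) :
    (cd v h x p m l).eval t = (∏ i, (p i).eval t ^ h i) ^ l *
      mn (fun j => x j * ∏ i, (p i).eval t ^ v i j) m := by
  rw [Gj_mn v x hq]
  unfold cd
  rw [eval_mul, eval_C, eval_prod]
  have h1 : ∀ i, (p i ^ ex v h m l i).eval t = (p i).eval t ^ pr m (v i) * ((p i).eval t ^ h i) ^ l := by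
    intro i
    rw [eval_pow, ← zpow_natCast ((p i).eval t) (ex v h m l i)]
    have h2 : ((ex v h m l i : ℕ) : ℤ) = pr m (v i) + l * h i := Int.toNat_of_nonneg (hm i)
    rw [h2, zpow_add₀ (hq i), mul_comm (l : ℤ), zpow_mul, zpow_natCast]
  rw [Finset.prod_congr rfl fun i _ => h1 i, Finset.prod_mul_distrib, Finset.prod_pow]
  ring

private theorem Gj_ge {d : ℕ} {A : Finset (Fin d → ℤ)} {m : Fin d → ℤ} (hm : m ∈ A) (u : Fin d → ℤ) :
    0 ≤ pr m u + hs A u := by
  unfold hs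
  rw [dif_pos ⟨m, hm⟩]
  have h1 := Finset.le_sup' (fun m => - pr m u) hm
  linarith

private theorem Gj_rel {d r s : ℕ} {A : Fin (s + 1) → Finset (Fin d → ℤ)} {v : Fin r → Fin d → ℤ}
    {a : Fin r → ℕ} (hR : RelY A v a) (j : Fin (s + 1)) : Rel0 (A j) v a fun i => hs (A j) (v i) :=
  ⟨hR.pos, hR.rel, fun _ hm i => Gj_ge hm (v i)⟩

/-- the equations hold at the points of the curve -/
private theorem Gj_eq {k : Type} [Field k] {d r s : ℕ} {A : Fin (s + 1) → Finset (Fin d → ℤ)}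
    {c : Fin (s + 1) → (Fin d → ℤ) → k} {v : Fin r → Fin d → ℤ}
    (x : Fin d → k) {p : Fin r → k[X]} {t : k} (hq : ∀ i, (p i).eval t ≠ 0) {j : Fin (s + 1)}
    (hvan : Ph A c v x p j = 0) :
    ∑ m ∈ A j, c j m * mn (fun l => x l * ∏ i, (p i).eval t ^ v i l) m = 0 := by
  have h1 : (Ph A c v x p j).eval t = (∏ i, (p i).eval t ^ hs (A j) (v i)) *
      ∑ m ∈ A j, c j m * mn (fun l => x l * ∏ i, (p i).eval t ^ v i l) m := by
    unfold Ph Phi
    rw [eval_finsetSum, Finset.mul_sum]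
    refine Finset.sum_congr rfl fun m hm => ?_
    have h2 : ∀ i, 0 ≤ pr m (v i) + ((1 : ℕ) : ℤ) * hs (A j) (v i) := by
      intro i
      rw [Nat.cast_one, one_mul]
      exact Gj_ge hm (v i)
    rw [eval_mul, eval_C, Gj_eval x p hq m 1 h2, pow_one]
    show c j m * _ = _
    ring
  rw [hvan, eval_zero] at h1
  exact (mul_eq_zero.1 h1.symm).resolve_left (Finset.prod_ne_zero_iff.2 fun i _ => zpow_ne_zero _ (hq i))

theorem two_cY {k : Type} [Field k] [IsAlgClosed k] {d r s n : ℕ}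
    {A : Fin (s + 1) → Finset (Fin d → ℤ)} {c : Fin (s + 1) → (Fin d → ℤ) → k}
    {v : Fin r → Fin d → ℤ} {a : Fin r → ℕ} {e : Fin (n + 1) → Fin d → ℤ} {w : Fin (n + 1) → ℕ}
    {o : (Fin d → ℤ) → Fin (n + 1)} (hR : RelY A v a) (hg : Gens (A 0) e w o) {g : ℕ}
    (hgg : (g : ℤ) = DD A v a 0) {x : Fin d → k} (hx : ∀ j, x j ≠ 0) {p : Fin r → k[X]}
    (hp : ∀ i, (p i).natDegree ≤ a i) (hp0 : ∀ i, (p i).coeff 0 = 1)
    (hvan : ∀ j : Fin s, Ph A c v x p j.succ = 0) (hne : Ph A c v x p 0 ≠ 0) {i j : ℕ} {α β : k}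
    (hij : i + j = g) (hPhi : Ph A c v x p 0 = X ^ i * (C α + C β * X) ^ j) :
    TwoC w (SY A c e w) (GV (A 0) (c 0) o) 1 g (fun j => mn x (e j))
      (fun j => cd v (fun i => hs (A 0) (v i)) x p (e j) (w j)) := by
  classical
  have hinf : Infinite k := IsAlgClosed.instInfinite
  have hR0 := Gj_rel hR 0
  have haev : MvPolynomial.aeval (fun j => cd v (fun i => hs (A 0) (v i)) x p (e j) (w j)) (GV (A 0) (c 0) o) =
      Ph A c v x p 0 := aeval_GV hg (c 0) x p
  refine ⟨fun i => natDegree_cd hR0 hgg x hp (hg.cone i), ?_, ?_, ?_, ⟨i, j, α, β, ?_, ?_⟩⟩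
  · funext l
    show (cd v (fun i => hs (A 0) (v i)) x p (e l) (w l)).eval 0 = _
    rw [← coeff_zero_eq_eval_zero, coeff_cd x hp0]
  · intro t P hP
    obtain ⟨⟨μ, hμ⟩, hP⟩ := hP
    rw [eval_val]
    have hQ : MvPolynomial.aeval (fun j => cd v (fun i => hs (A 0) (v i)) x p (e j) (w j)) P = 0 := by
      have h1 : (∏ i, p i) *
          MvPolynomial.aeval (fun j => cd v (fun i => hs (A 0) (v i)) x p (e j) (w j)) P = 0 := by
        refine Polynomial.funext fun s' => ?_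
        rw [eval_mul, eval_zero, eval_prod]
        by_cases hs' : ∀ i, (p i).eval s' ≠ 0
        · refine mul_eq_zero_of_right _ ?_
          rw [← eval_val]
          have h2 : val (fun j => cd v (fun i => hs (A 0) (v i)) x p (e j) (w j)) s' =
              fun j => (∏ i, (p i).eval s' ^ hs (A 0) (v i)) ^ w j *
              mn (fun l => x l * ∏ i, (p i).eval s' ^ v i l) (e j) := by
            funext l
            exact Gj_eval x p hs' (e l) (w l) fun i => cone_nonneg hR0 (hg.cone l) i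
          rw [h2, eval_smul_w hμ, hP _ (fun l => ?_) (fun j => Gj_eq x hs' (hvan j)), mul_zero]
          exact mul_ne_zero (hx l) (Finset.prod_ne_zero_iff.2 fun i _ => zpow_ne_zero _ (hs' i))
        · push Not at hs'
          obtain ⟨i, hi⟩ := hs'
          exact mul_eq_zero_of_left (Finset.prod_eq_zero (Finset.mem_univ i) hi) _
      refine (mul_eq_zero.1 h1).resolve_left (Finset.prod_ne_zero_iff.2 fun i _ h0 => ?_)
      have h2 := hp0 i
      rw [h0, coeff_zero] at h2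
      exact zero_ne_one h2
    rw [hQ, eval_zero]
  · rw [haev]
    exact hne
  · rw [one_mul]
    exact hij
  · rw [haev]
    exact hPhi

end Pool.Agent.Lib.MP_1e3e9c_agY
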