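import Pool.Agent.Lib.MP_1e3e9c_agY.Ya
import Pool.Agent.Lib.MP_1e3e9c_agV.V17

/-! LEAF Yc (easy+, 3 theorems).  The cone is given by the support function; cancellation.

PROOF.  `cone_iff'`, `→`: with `N' > 0`, `b` from `InCone`: `N' (pr u w + N hs A w) = ∑ b_a (pr a w + hs A w) ≥ 0` (`hs_ge`).  `←`: `N = 0`: `pr u w ≥ 0` for `w = - u` gives `u = 0`: `InCone A 0 0` (`N' = 1`, `b = 0`).  `N > 0`: number the elements of `A` (`A.equivFin`) and apply `alt_int` (V17 of agV) to the vectors `N m - u`, `m ∈ A`, and `b = 0`: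
(hb) for `w` take `m ∈ A` minimal for `w` (`hs_min`): `pr (N m - u) w = - N hs A w - pr u w ≤ 0`.  So there are `e_m : ℕ`, not all `0`, with `∑ e_m (N m - u) = 0`: `N' = ∑ e_m > 0` and `b_m = N e_m` (extended by `0` outside `A`): `∑ b_m = N' N`, `∑ b_m m = N' u`.
`cone_zero`: `InCone A u 0` gives `∑ b_a = 0`, all `b_a = 0`, `N' u = 0`.  `cone_cancel`: `l = 0`: all `m + m' = 0` (`cone_zero`), `m ∈ A`, so `A` has at most one element, against `Full` (for `u = fun _ => 1 ≠ 0`).  `l = l' + 1`: `cone_iff'`: for `w` let `m` be minimal for `w` on `A`: `0 ≤ pr (m + m') w + (l' + 1) hs A w = pr m' w + l' hs A w`. -/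

set_option autoImplicit false

namespace Pool.Agent.Lib.MP_1e3e9c_agY

open Pool.Agent.Lib.MP_1e3e9c_agV

private theorem Yc_add {d : ℕ} (m m' w : Fin d → ℤ) : pr (m + m') w = pr m w + pr m' w := by
  unfold pr
  rw [← Finset.sum_add_distrib]
  refine Finset.sum_congr rfl fun j _ => ?_
  rw [Pi.add_apply, add_mul]

private theorem Yc_sum {d : ℕ} {A : Finset (Fin d → ℤ)} {b : (Fin d → ℤ) → ℕ} {N : ℕ} {u : Fin d → ℤ}
    (h : ∀ j, ∑ a ∈ A, (b a : ℤ) * a j = N * u j) (w : Fin d → ℤ) :
    ∑ a ∈ A, (b a : ℤ) * pr a w = N * pr u w := by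
  unfold pr
  rw [Finset.mul_sum]
  have h1 : ∀ a ∈ A, (b a : ℤ) * ∑ j, a j * w j = ∑ j, ((b a : ℤ) * a j) * w j := by
    intro a _
    rw [Finset.mul_sum]
    exact Finset.sum_congr rfl fun j _ => by ring
  rw [Finset.sum_congr rfl h1, Finset.sum_comm]
  refine Finset.sum_congr rfl fun j _ => ?_
  rw [← Finset.sum_mul, h j]
  ring

private theorem Yc_zero {d : ℕ} (A : Finset (Fin d → ℤ)) : InCone A 0 0 := by
  refine ⟨1, fun _ => 0, one_pos, ?_, fun j => ?_⟩
  · simp
  · simp

theorem cone_iff' {d : ℕ} {A : Finset (Fin d → ℤ)} (hA : A.Nonempty) {u : Fin d → ℤ} {N : ℕ} :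
    InCone A u N ↔ ∀ w, 0 ≤ pr u w + N * hs A w := by
  classical
  constructor
  · rintro ⟨N', b, hN', hl, hj⟩ w
    have h1 := Yc_sum hj w
    have h2 : ∑ a ∈ A, (b a : ℤ) = (N' : ℤ) * N := by exact_mod_cast hl
    have h3 : 0 ≤ ∑ a ∈ A, (b a : ℤ) * (pr a w + hs A w) :=
      Finset.sum_nonneg fun a ha => mul_nonneg (Int.natCast_nonneg _) (hs_ge ha w)
    have h4 : ∑ a ∈ A, (b a : ℤ) * (pr a w + hs A w) = N' * (pr u w + N * hs A w) := by
      have h5 : ∀ a ∈ A, (b a : ℤ) * (pr a w + hs A w) = (b a : ℤ) * pr a w + (b a : ℤ) * hs A w :=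
        fun a _ => mul_add _ _ _
      rw [Finset.sum_congr rfl h5, Finset.sum_add_distrib, h1, ← Finset.sum_mul, h2]
      ring
    rw [h4] at h3
    have hN'' : (0 : ℤ) < N' := by exact_mod_cast hN'
    exact nonneg_of_mul_nonneg_right h3 hN''
  · intro h
    rcases Nat.eq_zero_or_pos N with hN | hN
    · subst hN
      have h1 := h (-u)
      have h2 : pr u (-u) = - ∑ j, u j * u j := by
        unfold pr
        rw [← Finset.sum_neg_distrib]
        exact Finset.sum_congr rfl fun j _ => by rw [Pi.neg_apply]; ring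
      rw [h2] at h1
      have h3 : ∑ j, u j * u j ≤ 0 := by
        push_cast at h1
        linarith
      have h4 : ∀ j, u j = 0 := by
        intro j
        have h5 := Finset.single_le_sum (f := fun j => u j * u j) (fun i _ => mul_self_nonneg (u i))
          (Finset.mem_univ j)
        have h6 : u j * u j ≤ 0 := h5.trans h3
        exact mul_self_eq_zero.1 (le_antisymm h6 (mul_self_nonneg _))
      have h5 : u = 0 := funext h4
      rw [h5]
      exact Yc_zero A
    · let e := A.equivFin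
      obtain ⟨ε, hε0, hε1, -⟩ := alt_int (fun (i : Fin A.card) (j : Fin d) => (N : ℤ) * (e.symm i).1 j - u j)
        (fun _ => 0) (by
          intro M w _
          obtain ⟨m, hm, hm'⟩ := hs_min hA w
          refine ⟨e ⟨m, hm⟩, ?_⟩
          have h1 := h w
          have h2 : ∑ j, w j * ((N : ℤ) * (e.symm (e ⟨m, hm⟩)).1 j - u j) = N * pr m w - pr u w := by
            rw [Equiv.symm_apply_apply]
            unfold pr
            rw [Finset.mul_sum, ← Finset.sum_sub_distrib]
            exact Finset.sum_congr rfl fun j _ => by ring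
          rw [h2]
          have h3 : pr m w = - hs A w := by linarith
          rw [h3]
          linarith)
      obtain ⟨b, hb⟩ : ∃ b : (Fin d → ℤ) → ℕ, ∀ i : Fin A.card, b (e.symm i).1 = N * ε i := by
        refine ⟨fun m => if hm : m ∈ A then N * ε (e ⟨m, hm⟩) else 0, fun i => ?_⟩
        have hm : ((e.symm i).1 : Fin d → ℤ) ∈ A := (e.symm i).2
        show (if hm : ((e.symm i).1 : Fin d → ℤ) ∈ A then N * ε (e ⟨(e.symm i).1, hm⟩) else 0) = _
        rw [dif_pos hm]
        have h1 : (⟨(e.symm i).1, hm⟩ : {x // x ∈ A}) = e.symm i := rfl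
        rw [h1, Equiv.apply_symm_apply]
      have hsum : ∀ f : (Fin d → ℤ) → ℤ, ∑ a ∈ A, f a = ∑ i : Fin A.card, f (e.symm i).1 := by
        intro f
        rw [← Finset.sum_coe_sort A f]
        exact (Equiv.sum_comp e.symm fun a : {x // x ∈ A} => f a.1).symm
      have hpos : 0 < ∑ i, ε i := by
        rcases Nat.eq_zero_or_pos (∑ i, ε i) with h0 | h0
        · exfalso
          apply hε0
          funext i
          exact (Finset.sum_eq_zero_iff.1 h0) i (Finset.mem_univ i)
        · exact h0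
      refine ⟨∑ i, ε i, b, hpos, ?_, fun j => ?_⟩
      · have h1 := hsum fun a => (b a : ℤ)
        have h2 : ∑ i : Fin A.card, (b (e.symm i).1 : ℤ) = (∑ i, (ε i : ℤ)) * N := by
          rw [Finset.sum_mul]
          refine Finset.sum_congr rfl fun i _ => ?_
          rw [hb]
          push_cast
          ring
        rw [h2] at h1
        exact_mod_cast h1
      · have h1 := hsum fun a => (b a : ℤ) * a j
        rw [h1]
        have h2 : ∑ i : Fin A.card, (b (e.symm i).1 : ℤ) * (e.symm i).1 j =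
            ∑ i, (ε i : ℤ) * ((N : ℤ) * (e.symm i).1 j - u j) + (∑ i, (ε i : ℤ)) * u j := by
          rw [Finset.sum_mul, ← Finset.sum_add_distrib]
          refine Finset.sum_congr rfl fun i _ => ?_
          rw [hb]
          push_cast
          ring
        rw [h2, hε1 j, zero_add]
        push_cast
        rfl

theorem cone_zero {d : ℕ} {A : Finset (Fin d → ℤ)} {u : Fin d → ℤ} (h : InCone A u 0) :
    u = 0 := by
  obtain ⟨N, b, hN, hl, hj⟩ := h
  rw [mul_zero] at hl
  have h1 := Finset.sum_eq_zero_iff.1 hl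
  funext j
  have h2 := hj j
  have h3 : ∑ a ∈ A, (b a : ℤ) * a j = 0 := Finset.sum_eq_zero fun a ha => by
    rw [h1 a ha]
    simp
  rw [h3] at h2
  have hN' : (N : ℤ) ≠ 0 := by exact_mod_cast hN.ne'
  exact (mul_eq_zero.1 h2.symm).resolve_left hN'

theorem cone_cancel {d : ℕ} {A : Finset (Fin d → ℤ)} (hA : Full A) (hd : 0 < d)
    {m' : Fin d → ℤ} {l : ℕ} (h : ∀ m ∈ A, InCone A (m + m') l) :
    ∃ l', l = l' + 1 ∧ InCone A m' l' := by
  have hne := ne_of_full hA hd
  cases l with
  | zero =>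
    exfalso
    have hu : (fun _ => 1 : Fin d → ℤ) ≠ 0 := fun h0 => by
      have h1 : (1 : ℤ) = 0 := congrFun h0 ⟨0, hd⟩
      exact absurd h1 one_ne_zero
    obtain ⟨m, hm, m2, hm2, h1⟩ := hA _ hu
    have h2 := cone_zero (h m hm)
    have h3 := cone_zero (h m2 hm2)
    apply h1
    rw [add_right_cancel (h2.trans h3.symm)]
  | succ l' =>
    refine ⟨l', rfl, (cone_iff' hne).2 fun w => ?_⟩
    obtain ⟨m, hm, hm'⟩ := hs_min hne w
    have h1 := (cone_iff' hne).1 (h m hm) w
    rw [Yc_add] at h1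
    push_cast at h1
    linarith

end Pool.Agent.Lib.MP_1e3e9c_agY
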