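import Pool.Agent.Lib.MP_1e3e9c_agY.YG
import Pool.Agent.Lib.MP_1e3e9c_agY.Yc

/-! LEAF Gk (medium+, adaptation of V02 of agV, proved there).  A rational curve in `P(w)` gives a curve in the sense of `IsCv`.

PROOF.  As V02 (the definition of `z`, `one`, `mul`, `nonconst` word by word; the binomials `∏ X_j^(b_j) - ∏ X_j^(b'_j)` are in `SY A c e w` as they vanish at `(mn x (e j))` for all `x` in the torus).  New: `eq`.  `j.succ`: let `m + m' ∈ cone` of level `l` for all `m ∈ A j.succ`; choose `b_m` with `∑_i (b_m)_i w_i = l`, `∑_i (b_m)_i e_i = m + m'` (`hg.gen`).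
`Q = ∑_(m ∈ A j.succ) C (c j.succ m) ∏ X_i^((b_m)_i)` is weighted homogeneous of weight `l`, and at `(mn x (e i))` its value is `∑ c mn x (m + m') = mn x m' * ∑ c mn x m = 0` for all `x` in the torus with the equations: `Q ∈ SY`, so `Q` vanishes on the curve, and so (by the binomials) `∑ C (c m) z (m + m') l = 0`.
`0`: `cone_cancel` (Yc; `hA`, `hd`): `l = l' + 1`, `InCone (A 0) m' l'`: `z (m + m') (l' + 1) = z m 1 * z m' l'` (`mul`, `cone_one`), and `∑ C (c 0 m) z m 1 = 0` from `GV` as in V02. -/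

set_option autoImplicit false

namespace Pool.Agent.Lib.MP_1e3e9c_agY

open Pool.Agent.Lib.MP_1e3e9c_agV Pool.Agent.Lib.MP_1e3e9c_agR

private theorem Gk_add {d : ℕ} {A : Finset (Fin d → ℤ)} {m m' : Fin d → ℤ} {l l' : ℕ}
    (h : InCone A m l) (h' : InCone A m' l') : InCone A (m + m') (l + l') := by
  obtain ⟨N, b, hN, h1, h2⟩ := h
  obtain ⟨N', b', hN', h1', h2'⟩ := h'
  refine ⟨N * N', fun a => N' * b a + N * b' a, Nat.mul_pos hN hN', ?_, fun j => ?_⟩
  · rw [Finset.sum_add_distrib, ← Finset.mul_sum, ← Finset.mul_sum, h1, h1']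
    ring
  · have e : ∑ a ∈ A, ((N' * b a + N * b' a : ℕ) : ℤ) * a j =
        N' * ∑ a ∈ A, (b a : ℤ) * a j + N * ∑ a ∈ A, (b' a : ℤ) * a j := by
      rw [Finset.mul_sum, Finset.mul_sum, ← Finset.sum_add_distrib]
      refine Finset.sum_congr rfl fun a _ => ?_
      push_cast
      ring
    rw [e, h2, h2', Pi.add_apply]
    push_cast
    ring

private theorem Gk_zero {d : ℕ} {A : Finset (Fin d → ℤ)} : InCone A 0 0 :=
  ⟨1, 0, Nat.one_pos, by simp, fun j => by simp⟩

private theorem Gk_smul {d : ℕ} {A : Finset (Fin d → ℤ)} {m : Fin d → ℤ} {l : ℕ}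
    (h : InCone A m l) (r : ℕ) : InCone A (fun i => (r : ℤ) * m i) (r * l) := by
  induction r with
  | zero =>
    have h1 : (fun i => ((0 : ℕ) : ℤ) * m i) = 0 := by
      funext i
      simp
    rw [h1, zero_mul]
    exact Gk_zero
  | succ r ih =>
    have h1 : (fun i => ((r + 1 : ℕ) : ℤ) * m i) = (fun i => (r : ℤ) * m i) + m := by
      funext i
      rw [Pi.add_apply]
      push_cast
      ring
    rw [h1, Nat.add_mul, one_mul]
    exact Gk_add ih h

private theorem Gk_cone {d n : ℕ} {A : Finset (Fin d → ℤ)} {e : Fin (n + 1) → Fin d → ℤ}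
    {w : Fin (n + 1) → ℕ} (h : ∀ j, InCone A (e j) (w j)) (b : Fin (n + 1) → ℕ)
    (T : Finset (Fin (n + 1))) :
    InCone A (fun i => ∑ j ∈ T, (b j : ℤ) * e j i) (∑ j ∈ T, b j * w j) := by
  classical
  induction T using Finset.induction_on with
  | empty =>
    simp only [Finset.sum_empty]
    exact Gk_zero
  | insert a T ha ih =>
    simp only [Finset.sum_insert ha]
    exact Gk_add (Gk_smul (h a) (b a)) ih

private theorem Gk_hm {k : Type} [Field k] {d n : ℕ} (e : Fin (n + 1) → Fin d → ℤ)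
    (b : Fin (n + 1) → ℕ) (x : Fin d → k) (hx : ∀ i, x i ≠ 0) :
    ∏ j, Pool.Agent.Lib.MP_1e3e9c_agV.mn x (e j) ^ b j = ∏ i, x i ^ (∑ j, (b j : ℤ) * e j i) := by
  classical
  have h3 : ∀ j, Pool.Agent.Lib.MP_1e3e9c_agV.mn x (e j) ^ b j = ∏ i, x i ^ ((b j : ℤ) * e j i) := by
    intro j
    unfold Pool.Agent.Lib.MP_1e3e9c_agV.mn
    rw [← Finset.prod_pow]
    refine Finset.prod_congr rfl fun i _ => ?_
    rw [mul_comm, zpow_mul, zpow_natCast]
  rw [Finset.prod_congr rfl fun j _ => h3 j, Finset.prod_comm]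
  refine Finset.prod_congr rfl fun i _ => ?_
  have h4 : ∀ T : Finset (Fin (n + 1)), ∏ j ∈ T, x i ^ ((b j : ℤ) * e j i) =
      x i ^ (∑ j ∈ T, (b j : ℤ) * e j i) := by
    intro T
    induction T using Finset.induction_on with
    | empty => simp
    | insert a T ha ih => rw [Finset.prod_insert ha, Finset.sum_insert ha, zpow_add₀ (hx i), ih]
  exact h4 _

private theorem Gk_mn_add {k : Type} [Field k] {d : ℕ} (x : Fin d → k) (hx : ∀ i, x i ≠ 0)
    (m m' : Fin d → ℤ) : Pool.Agent.Lib.MP_1e3e9c_agV.mn x (m + m') =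
      Pool.Agent.Lib.MP_1e3e9c_agV.mn x m * Pool.Agent.Lib.MP_1e3e9c_agV.mn x m' := by
  unfold Pool.Agent.Lib.MP_1e3e9c_agV.mn
  rw [← Finset.prod_mul_distrib]
  refine Finset.prod_congr rfl fun i _ => ?_
  rw [Pi.add_apply, zpow_add₀ (hx i)]

private theorem Gk_hw {k : Type} [Field k] {n : ℕ} (w : Fin (n + 1) → ℕ) (b : Fin (n + 1) → ℕ) :
    (∏ j, (MvPolynomial.X j : MvPolynomial (Fin (n + 1)) k) ^ b j).IsWeightedHomogeneous
      w (∑ j, b j * w j) := by
  refine MvPolynomial.IsWeightedHomogeneous.prod _ _ _ fun j _ => ?_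
  have h3 := (MvPolynomial.isWeightedHomogeneous_X k w j).pow (b j)
  rwa [smul_eq_mul] at h3

/-- the relations of the curve -/
private theorem Gk_bin {k : Type} [Field k] [Infinite k] {d s n : ℕ}
    {A : Fin (s + 1) → Finset (Fin d → ℤ)} {c : Fin (s + 1) → (Fin d → ℤ) → k} {e : Fin (n + 1) → Fin d → ℤ}
    {w : Fin (n + 1) → ℕ} {p : Fin (n + 1) → Polynomial k}
    (hp : ∀ t, ∀ P ∈ SY A c e w, MvPolynomial.eval (val p t) P = 0)
    {b b' : Fin (n + 1) → ℕ} (h1 : ∑ j, b j * w j = ∑ j, b' j * w j)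
    (h2 : ∀ i, ∑ j, (b j : ℤ) * e j i = ∑ j, (b' j : ℤ) * e j i) :
    ∏ j, p j ^ b j = ∏ j, p j ^ b' j := by
  classical
  have hQ : (∏ j, (MvPolynomial.X j : MvPolynomial (Fin (n + 1)) k) ^ b j) -
      ∏ j, MvPolynomial.X j ^ b' j ∈ SY A c e w := by
    refine ⟨⟨∑ j, b j * w j, ?_⟩, fun x hx _ => ?_⟩
    · have h3 := Gk_hw (k := k) w b
      have h4 := Gk_hw (k := k) w b'
      rw [← h1] at h4
      exact h3.sub h4
    · rw [map_sub, map_prod, map_prod]
      simp only [map_pow, MvPolynomial.eval_X]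
      rw [Gk_hm e b x hx, Gk_hm e b' x hx, sub_eq_zero]
      refine Finset.prod_congr rfl fun i _ => by rw [h2 i]
  refine Polynomial.funext fun t => ?_
  have h3 := hp t _ hQ
  rw [map_sub, map_prod, map_prod, sub_eq_zero] at h3
  simp only [map_pow, MvPolynomial.eval_X, val] at h3
  rw [Polynomial.eval_prod, Polynomial.eval_prod]
  simp only [Polynomial.eval_pow]
  exact h3

theorem rat_ofY {k : Type} [Field k] [IsAlgClosed k] {d s n : ℕ} (hd : 0 < d)
    {A : Fin (s + 1) → Finset (Fin d → ℤ)} (hA : Full (A 0))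
    {c : Fin (s + 1) → (Fin d → ℤ) → k} {e : Fin (n + 1) → Fin d → ℤ} {w : Fin (n + 1) → ℕ}
    {o : (Fin d → ℤ) → Fin (n + 1)} (hg : Gens (A 0) e w o)
    (hr : HasRat w (insert (GV (A 0) (c 0) o) (SY A c e w))) : ∃ z, IsCv (A 0) A c z := by
  classical
  have hinf : Infinite k := IsAlgClosed.instInfinite
  obtain ⟨p, hp, s, t, hs, ht, hne⟩ := hr
  have hpS : ∀ t, ∀ P ∈ SY A c e w, MvPolynomial.eval (val p t) P = 0 :=
    fun t P hP => hp t P (Set.mem_insert_of_mem _ hP)
  obtain ⟨B, hB⟩ : ∃ B : (Fin d → ℤ) → ℕ → Fin (n + 1) → ℕ, ∀ m l, InCone (A 0) m l →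
      ∑ j, B m l j * w j = l ∧ ∀ i, ∑ j, (B m l j : ℤ) * e j i = m i := by
    have h1 : ∀ m l, ∃ b : Fin (n + 1) → ℕ, InCone (A 0) m l →
        ∑ j, b j * w j = l ∧ ∀ i, ∑ j, (b j : ℤ) * e j i = m i := by
      intro m l
      by_cases h : InCone (A 0) m l
      · obtain ⟨b, hb⟩ := hg.gen m l h
        exact ⟨b, fun _ => hb⟩
      · exact ⟨0, fun h' => absurd h' h⟩
    choose B hB using h1
    exact ⟨B, hB⟩
  obtain ⟨z, hz⟩ : ∃ z : (Fin d → ℤ) → ℕ → RatFunc k, z = fun m l =>
      algebraMap (Polynomial k) (RatFunc k) (∏ j, p j ^ B m l j) := ⟨_, rfl⟩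
  -- every representation can be used
  have hK : ∀ (b : Fin (n + 1) → ℕ) (m : Fin d → ℤ) (l : ℕ), InCone (A 0) m l → ∑ j, b j * w j = l →
      (∀ i, ∑ j, (b j : ℤ) * e j i = m i) →
      z m l = algebraMap (Polynomial k) (RatFunc k) (∏ j, p j ^ b j) := by
    intro b m l hml h1 h2
    rw [hz]
    show algebraMap (Polynomial k) (RatFunc k) (∏ j, p j ^ B m l j) = _
    rw [Gk_bin hpS (b := B m l) (b' := b) ((hB m l hml).1.trans h1.symm)
      (fun i => ((hB m l hml).2 i).trans (h2 i).symm)]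
  have hA1 : ∀ a ∈ A 0, InCone (A 0) a 1 := fun a ha => by
    have h1 := hg.cone (o a)
    rwa [(hg.one a ha).1, (hg.one a ha).2] at h1
  have hza : ∀ a ∈ A 0, z a 1 = algebraMap (Polynomial k) (RatFunc k) (p (o a)) := by
    intro a ha
    rw [hK (Pi.single (o a) 1) a 1 (hA1 a ha)]
    · congr 1
      rw [Finset.prod_eq_single (o a)]
      · rw [Pi.single_eq_same, pow_one]
      · intro j _ hj
        rw [Pi.single_eq_of_ne hj, pow_zero]
      · intro h
        exact absurd (Finset.mem_univ _) h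
    · rw [Finset.sum_eq_single (o a)]
      · rw [Pi.single_eq_same, one_mul, (hg.one a ha).2]
      · intro j _ hj
        rw [Pi.single_eq_of_ne hj, zero_mul]
      · intro h
        exact absurd (Finset.mem_univ _) h
    · intro i
      rw [Finset.sum_eq_single (o a)]
      · rw [Pi.single_eq_same, Nat.cast_one, one_mul, (hg.one a ha).1]
      · intro j _ hj
        rw [Pi.single_eq_of_ne hj, Nat.cast_zero, zero_mul]
      · intro h
        exact absurd (Finset.mem_univ _) h
  have hmul : ∀ m l m' l', InCone (A 0) m l → InCone (A 0) m' l' → z (m + m') (l + l') = z m l * z m' l' := by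
    intro m l m' l' h h'
    rw [hK (B m l + B m' l') (m + m') (l + l') (Gk_add h h')]
    · rw [hz]
      show _ = algebraMap (Polynomial k) (RatFunc k) (∏ j, p j ^ B m l j) *
        algebraMap (Polynomial k) (RatFunc k) (∏ j, p j ^ B m' l' j)
      rw [← map_mul, ← Finset.prod_mul_distrib]
      congr 1
      refine Finset.prod_congr rfl fun j _ => ?_
      rw [Pi.add_apply, pow_add]
    · simp only [Pi.add_apply, Nat.add_mul, Finset.sum_add_distrib]
      rw [(hB m l h).1, (hB m' l' h').1]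
    · intro i
      simp only [Pi.add_apply, Nat.cast_add, add_mul, Finset.sum_add_distrib]
      rw [(hB m l h).2 i, (hB m' l' h').2 i]
  have heq0 : ∑ a ∈ A 0, RatFunc.C (c 0 a) * z a 1 = 0 := by
    have h1 : ∑ a ∈ A 0, Polynomial.C (c 0 a) * p (o a) = 0 := by
      refine Polynomial.funext fun t => ?_
      have h2 := hp t _ (Set.mem_insert _ _)
      unfold GV at h2
      rw [map_sum] at h2
      rw [Polynomial.eval_finsetSum, Polynomial.eval_zero, ← h2]
      refine Finset.sum_congr rfl fun a _ => ?_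
      rw [map_mul, MvPolynomial.eval_C, MvPolynomial.eval_X, Polynomial.eval_mul, Polynomial.eval_C]
      rfl
    have h2 := congrArg (algebraMap (Polynomial k) (RatFunc k)) h1
    rw [map_sum, map_zero] at h2
    rw [← h2]
    refine Finset.sum_congr rfl fun a ha => ?_
    rw [hza a ha, map_mul, RatFunc.algebraMap_C]
  have heqs : ∀ (j : Fin _) (m' : Fin d → ℤ) (l : ℕ), (∀ m ∈ A j.succ, InCone (A 0) (m + m') l) →
      ∑ m ∈ A j.succ, RatFunc.C (c j.succ m) * z (m + m') l = 0 := by
    intro j m' l h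
    have hQ : (∑ m ∈ A j.succ, MvPolynomial.C (c j.succ m) *
        ∏ i, (MvPolynomial.X i : MvPolynomial (Fin (n + 1)) k) ^ B (m + m') l i) ∈ SY A c e w := by
      refine ⟨⟨l, ?_⟩, fun x hx hx2 => ?_⟩
      · refine MvPolynomial.IsWeightedHomogeneous.sum _ _ _ fun m hm => ?_
        have h3 := Gk_hw (k := k) w (B (m + m') l)
        rw [(hB _ _ (h m hm)).1] at h3
        have h4 := (MvPolynomial.isWeightedHomogeneous_C w (c j.succ m)).mul h3
        rwa [zero_add] at h4
      · rw [map_sum]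
        have h3 : ∀ m ∈ A j.succ, MvPolynomial.eval (fun i => Pool.Agent.Lib.MP_1e3e9c_agV.mn x (e i))
            (MvPolynomial.C (c j.succ m) *
              ∏ i, (MvPolynomial.X i : MvPolynomial (Fin (n + 1)) k) ^ B (m + m') l i) =
            c j.succ m * Pool.Agent.Lib.MP_1e3e9c_agV.mn x m * Pool.Agent.Lib.MP_1e3e9c_agV.mn x m' := by
          intro m hm
          rw [map_mul, MvPolynomial.eval_C, map_prod]
          simp only [map_pow, MvPolynomial.eval_X]
          rw [Gk_hm e _ x hx, mul_assoc, ← Gk_mn_add x hx]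
          congr 1
          unfold Pool.Agent.Lib.MP_1e3e9c_agV.mn
          refine Finset.prod_congr rfl fun i _ => ?_
          rw [(hB _ _ (h m hm)).2 i]
        rw [Finset.sum_congr rfl h3, ← Finset.sum_mul, hx2 j, zero_mul]
    have h1 : ∑ m ∈ A j.succ, Polynomial.C (c j.succ m) * ∏ i, p i ^ B (m + m') l i = 0 := by
      refine Polynomial.funext fun t => ?_
      have h2 := hpS t _ hQ
      rw [map_sum] at h2
      rw [Polynomial.eval_finsetSum, Polynomial.eval_zero, ← h2]
      refine Finset.sum_congr rfl fun m _ => ?_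
      rw [map_mul, MvPolynomial.eval_C, map_prod, Polynomial.eval_mul, Polynomial.eval_C, Polynomial.eval_prod]
      simp only [map_pow, MvPolynomial.eval_X, Polynomial.eval_pow]
      rfl
    have h2 := congrArg (algebraMap (Polynomial k) (RatFunc k)) h1
    rw [map_sum, map_zero] at h2
    rw [← h2]
    refine Finset.sum_congr rfl fun m _ => ?_
    rw [hz, map_mul, RatFunc.algebraMap_C]
  refine ⟨z, ⟨?_, hmul, ?_, ?_⟩⟩
  · rw [hK 0 0 0 Gk_zero (by simp) (by simp)]
    simp
  · intro j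
    induction j using Fin.cases with
    | zero =>
      intro m' l h
      obtain ⟨l', rfl, hm'⟩ := cone_cancel hA hd h
      have h1 : ∀ m ∈ A 0, RatFunc.C (c 0 m) * z (m + m') (l' + 1) = RatFunc.C (c 0 m) * z m 1 * z m' l' := by
        intro m hm
        rw [add_comm l' 1, hmul m 1 m' l' (hA1 m hm) hm', mul_assoc]
      rw [Finset.sum_congr rfl h1, ← Finset.sum_mul, heq0, zero_mul]
    | succ j =>
      intro m' l h
      exact heqs j m' l h
  · by_contra hcon
    push Not at hcon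
    -- the monomials of the same level are proportional
    have hC : ∀ b b' : Fin (n + 1) → ℕ, ∑ j, b j * w j = ∑ j, b' j * w j → ∏ j, p j ^ b' j ≠ 0 →
        ∃ β : k, ∏ j, p j ^ b j = Polynomial.C β * ∏ j, p j ^ b' j := by
      intro b b' h1 h2
      have hc := Gk_cone hg.cone b Finset.univ
      have hc' := Gk_cone hg.cone b' Finset.univ
      rw [h1] at hc
      have e1 := hK b _ _ hc h1 (fun i => rfl)
      have e2 := hK b' _ _ hc' rfl (fun i => rfl)
      obtain ⟨β, hβ⟩ := hcon _ _ _ hc hc' (by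
        rw [e2]
        exact (map_ne_zero_iff _ (RatFunc.algebraMap_injective k)).2 h2)
      refine ⟨β, RatFunc.algebraMap_injective k ?_⟩
      rw [map_mul, RatFunc.algebraMap_C, ← e1, ← e2, hβ]
    -- nonzero values
    have hval : ∀ s, val p s ≠ 0 → ∀ i, p i ≠ 0 → (p i).eval s ≠ 0 := by
      intro s hs i hi
      obtain ⟨j, hj⟩ := Function.ne_iff.1 hs
      have hj' : (p j).eval s ≠ 0 := hj
      have hpj : p j ≠ 0 := fun h => hj' (by rw [h, Polynomial.eval_zero])
      have hsg : ∀ (i : Fin (n + 1)) (r : ℕ), ∏ a, p a ^ (Pi.single i r : Fin (n + 1) → ℕ) a = p i ^ r := by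
        intro i r
        rw [Finset.prod_eq_single i]
        · rw [Pi.single_eq_same]
        · intro a _ ha
          rw [Pi.single_eq_of_ne ha, pow_zero]
        · intro h
          exact absurd (Finset.mem_univ _) h
      have hsw : ∀ (i : Fin (n + 1)) (r : ℕ), ∑ a, (Pi.single i r : Fin (n + 1) → ℕ) a * w a = r * w i := by
        intro i r
        rw [Finset.sum_eq_single i]
        · rw [Pi.single_eq_same]
        · intro a _ ha
          rw [Pi.single_eq_of_ne ha, zero_mul]
        · intro h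
          exact absurd (Finset.mem_univ _) h
      obtain ⟨β, hβ⟩ := hC (Pi.single i (w j)) (Pi.single j (w i)) (by rw [hsw, hsw, mul_comm])
        (by rw [hsg]; exact pow_ne_zero _ hpj)
      rw [hsg, hsg] at hβ
      have hβ0 : β ≠ 0 := by
        intro h
        rw [h, Polynomial.C_0, zero_mul] at hβ
        exact pow_ne_zero _ hi hβ
      intro h
      have h1 := congrArg (Polynomial.eval s) hβ
      rw [Polynomial.eval_pow, Polynomial.eval_mul, Polynomial.eval_pow, Polynomial.eval_C, h,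
        zero_pow (hg.pos j).ne'] at h1
      exact mul_ne_zero hβ0 (pow_ne_zero _ hj') h1.symm
    obtain ⟨J, hJ⟩ : ∃ J : Finset (Fin (n + 1)), J = Finset.univ.filter fun j => p j ≠ 0 := ⟨_, rfl⟩
    have hmem : ∀ j, j ∈ J ↔ p j ≠ 0 := fun j => by
      rw [hJ, Finset.mem_filter]
      simp
    have hJne : J.Nonempty := by
      obtain ⟨j, hj⟩ := Function.ne_iff.1 hs
      refine ⟨j, (hmem j).2 fun h => hj ?_⟩
      show (p j).eval s = 0
      rw [h, Polynomial.eval_zero]
    obtain ⟨θ, hθ⟩ : ∃ θ : Fin (n + 1) → k, θ = fun j => (p j).eval t / (p j).eval s := ⟨_, rfl⟩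
    have hθ0 : ∀ j ∈ J, θ j ≠ 0 := fun j hj => by
      rw [hθ]
      exact div_ne_zero (hval t ht j ((hmem j).1 hj)) (hval s hs j ((hmem j).1 hj))
    have hpr : ∀ b : Fin (n + 1) → ℕ, (∀ j, j ∉ J → b j = 0) → ∏ j, p j ^ b j ≠ 0 := by
      intro b hb
      refine Finset.prod_ne_zero_iff.2 fun j _ => ?_
      by_cases hj : j ∈ J
      · exact pow_ne_zero _ ((hmem j).1 hj)
      · rw [hb j hj, pow_zero]
        exact one_ne_zero
    have hev : ∀ s, val p s ≠ 0 → ∀ b : Fin (n + 1) → ℕ, (∀ j, j ∉ J → b j = 0) →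
        ∏ j, (p j).eval s ^ b j ≠ 0 := by
      intro s hs b hb
      refine Finset.prod_ne_zero_iff.2 fun j _ => ?_
      by_cases hj : j ∈ J
      · exact pow_ne_zero _ (hval s hs j ((hmem j).1 hj))
      · rw [hb j hj, pow_zero]
        exact one_ne_zero
    have hT : ∀ b b' : Fin (n + 1) → ℕ, (∀ j, j ∉ J → b j = 0) → (∀ j, j ∉ J → b' j = 0) →
        ∑ j, b j * w j = ∑ j, b' j * w j → ∏ j, θ j ^ b j = ∏ j, θ j ^ b' j := by
      intro b b' hb hb' hbb
      obtain ⟨β, hβ⟩ := hC b b' hbb (hpr b' hb')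
      have h1 : ∀ s, ∏ j, (p j).eval s ^ b j = β * ∏ j, (p j).eval s ^ b' j := by
        intro s
        have h2 := congrArg (Polynomial.eval s) hβ
        rw [Polynomial.eval_mul, Polynomial.eval_C, Polynomial.eval_prod, Polynomial.eval_prod] at h2
        simpa only [Polynomial.eval_pow] using h2
      have h3 : ∀ b : Fin (n + 1) → ℕ, ∏ j, θ j ^ b j =
          (∏ j, (p j).eval t ^ b j) / ∏ j, (p j).eval s ^ b j := by
        intro b
        rw [hθ, ← Finset.prod_div_distrib]
        refine Finset.prod_congr rfl fun j _ => div_pow _ _ _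
      have h4 := hev s hs b hb
      have h5 := hev s hs b' hb'
      rw [h3, h3, div_eq_div_iff h4 h5, h1 t, h1 s]
      ring
    obtain ⟨M₀, hM₀⟩ := exists_gamma w hg.pos J
    obtain ⟨M, hM1, hM2⟩ : ∃ M, M₀ ≤ M ∧ (∏ i, w i) ∣ M := by
      refine ⟨M₀ * ∏ i, w i, Nat.le_mul_of_pos_right _ (Finset.prod_pos fun i _ => hg.pos i), ?_⟩
      exact Dvd.intro_left _ rfl
    obtain ⟨γ, β, hγ, hβ, hγM, hβM, hab⟩ := hM₀ M hM1 hM2 hJne
    obtain ⟨a, ha, haJ⟩ := hab k θ hθ0
    apply hne
    refine ⟨a⁻¹, inv_ne_zero ha, fun i => ?_⟩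
    show (p i).eval t = a⁻¹ ^ w i * (p i).eval s
    by_cases hi : i ∈ J
    · have h1 := haJ i hi
      have h2 := hT (β i) γ (hβ i hi) hγ (by
        have h3 : ∑ j, β i j * w j = M := by
          rw [← hβM i hi]
          exact Finset.sum_congr rfl fun j _ => mul_comm _ _
        have h4 : ∑ j, γ j * w j = M := by
          rw [← hγM]
          exact Finset.sum_congr rfl fun j _ => mul_comm _ _
        rw [h3, h4])
      have h3 : ∏ j, θ j ^ γ j ≠ 0 := by
        refine Finset.prod_ne_zero_iff.2 fun j _ => ?_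
        by_cases hj : j ∈ J
        · exact pow_ne_zero _ (hθ0 j hj)
        · rw [hγ j hj, pow_zero]
          exact one_ne_zero
      have h4 : a ^ w i * θ i = 1 := by
        rw [h2] at h1
        have h5 : (a ^ w i * θ i - 1) * ∏ j, θ j ^ γ j = 0 := by
          rw [sub_mul, one_mul, ← h1, sub_self]
        exact sub_eq_zero.1 ((mul_eq_zero.1 h5).resolve_right h3)
      have h5 : (p i).eval s ≠ 0 := hval s hs i ((hmem i).1 hi)
      have h6 : θ i * (p i).eval s = (p i).eval t := by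
        rw [hθ]
        exact div_mul_cancel₀ _ h5
      rw [← h6, inv_pow]
      congr 1
      exact eq_inv_of_mul_eq_one_right h4
    · have h1 : p i = 0 := by
        by_contra h
        exact hi ((hmem i).2 h)
      rw [h1, Polynomial.eval_zero, Polynomial.eval_zero, mul_zero]

end Pool.Agent.Lib.MP_1e3e9c_agY
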