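import Pool.Agent.Lib.MP_1e3e9c_agY.YG
import Pool.Agent.Lib.MP_1e3e9c_agY.Ya
import Pool.Agent.Lib.MP_1e3e9c_agV.V12a

/-! LEAF Gl (medium, adaptation of V12b of agV, proved there).  Moving a point of the curve to `t = ∞`.

PROOF.  `σ = s'` (a point of the projective line, `σ_1 ≠ 0`).  `q_i = ∑_(j ≤ a_i) (p_i)_j (1 + σ_0 t)^(a_i - j) (σ_1 t)^j` as in V12b: degree, `q_i(0) = 1`, the coefficient of `t^(a_i)` is `hb a p σ i`, so the formula for `ld`.  For every `j`: `Ph .. q j = ∑_(l ≤ g_j) (Ph .. p j)_l (1 + σ_0 t)^(g_j - l) (σ_1 t)^l` (`rel0 hR j`, `g_j = DD A v a j` as a natural number, V12b), so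
`Ph .. q j.succ = 0`, `X^ν ∣ Ph .. q 0`, and it is not `0` as in V12b.  Last claim: `τ : k`, `s'' = (1 + σ_0 τ, σ_1 τ)`; `s'' ≠ 0`: if `σ_1 τ = 0` then `τ = 0` and `1 + σ_0 τ = 1`.  The value at `τ` of `q_i` is `hb a p s'' i` (definition), and `(cd .. q m 1).eval τ = mn x m * ∏ (q_i.eval τ)^(ex)`. -/

set_option autoImplicit false

namespace Pool.Agent.Lib.MP_1e3e9c_agY

open Polynomial Pool.Agent.Lib.MP_1e3e9c_agV Pool.Agent.Lib.MP_1e3e9c_agR

/-- the homogeneous substitution `t ↦ s_1 t / (1 + s_0 t)` -/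
private noncomputable def Gl_S {k : Type} [Field k] (s : Fin 2 → k) (N : ℕ) (u : k[X]) : k[X] :=
  MvPolynomial.aeval (![C (s 1) * X, 1 + C (s 0) * X] : Fin 2 → k[X]) (homogenize u N)

private theorem Gl_sum {k : Type} [Field k] (s : Fin 2 → k) (N : ℕ) (u : k[X]) :
    Gl_S s N u = ∑ kl ∈ Finset.HasAntidiagonal.antidiagonal N, C (u.coeff kl.1) *
      ((C (s 1) * X) ^ kl.1 * (1 + C (s 0) * X) ^ kl.2) := by
  unfold Gl_S homogenize
  rw [map_sum]
  refine Finset.sum_congr rfl fun kl _ => ?_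
  rw [MvPolynomial.aeval_monomial, Polynomial.algebraMap_eq]
  refine congrArg _ ?_
  rw [Finsupp.prod_fintype _ _ (fun i => pow_zero _), Fin.prod_univ_two]
  simp

private theorem Gl_prod {k : Type} [Field k] (s : Fin 2 → k) {r : ℕ} {p : Fin r → k[X]} {a e : Fin r → ℕ}
    (hp : ∀ i, (p i).natDegree ≤ a i) :
    Gl_S s (∑ i, a i * e i) (∏ i, p i ^ e i) = ∏ i, Gl_S s (a i) (p i) ^ e i := by
  have h1 : ∀ (i : Fin r) (m : ℕ), homogenize (p i ^ m) (a i * m) = homogenize (p i) (a i) ^ m := by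
    intro i m
    induction m with
    | zero => rw [pow_zero, pow_zero, Nat.mul_zero, homogenize_one, pow_zero]
    | succ m ih =>
      rw [pow_succ, pow_succ, Nat.mul_succ, homogenize_mul _ _ _ (hp i), ih]
      refine natDegree_pow_le.trans ?_
      rw [Nat.mul_comm]
      exact Nat.mul_le_mul_right _ (hp i)
  unfold Gl_S
  rw [homogenize_finsetProd, map_prod]
  · refine Finset.prod_congr rfl fun i _ => ?_
    rw [h1, map_pow]
  · intro i _
    refine natDegree_pow_le.trans ?_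
    rw [Nat.mul_comm]
    exact Nat.mul_le_mul_right _ (hp i)

private theorem Gl_C {k : Type} [Field k] (s : Fin 2 → k) (N : ℕ) (c : k) (u : k[X]) :
    Gl_S s N (C c * u) = C c * Gl_S s N u := by
  unfold Gl_S
  rw [homogenize_C_mul, map_mul, MvPolynomial.aeval_C, Polynomial.algebraMap_eq]

private theorem Gl_add {k : Type} [Field k] (s : Fin 2 → k) (N : ℕ) {ι : Type} (t : Finset ι)
    (u : ι → k[X]) : Gl_S s N (∑ i ∈ t, u i) = ∑ i ∈ t, Gl_S s N (u i) := by
  unfold Gl_S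
  rw [homogenize_finsetSum, map_sum]

private theorem Gl_degA {k : Type} [Field k] (s : Fin 2 → k) : (C (s 1) * X : k[X]).natDegree ≤ 1 :=
  (natDegree_C_mul_le _ _).trans natDegree_X_le

private theorem Gl_degB {k : Type} [Field k] (s : Fin 2 → k) : (1 + C (s 0) * X : k[X]).natDegree ≤ 1 := by
  refine (natDegree_add_le _ _).trans (max_le ?_ ((natDegree_C_mul_le _ _).trans natDegree_X_le))
  rw [natDegree_one]
  exact Nat.zero_le _

private theorem Gl_deg {k : Type} [Field k] (s : Fin 2 → k) (N : ℕ) (u : k[X]) :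
    (Gl_S s N u).natDegree ≤ N := by
  rw [Gl_sum]
  refine natDegree_sum_le_of_forall_le _ _ fun kl hkl => ?_
  have h1 := Finset.HasAntidiagonal.mem_antidiagonal.1 hkl
  refine (natDegree_C_mul_le _ _).trans (natDegree_mul_le.trans ?_)
  have h2 := natDegree_pow_le_of_le kl.1 (Gl_degA s)
  have h3 := natDegree_pow_le_of_le kl.2 (Gl_degB s)
  omega

private theorem Gl_zero {k : Type} [Field k] (s : Fin 2 → k) (N : ℕ) (u : k[X]) :
    (Gl_S s N u).coeff 0 = u.coeff 0 := by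
  rw [Gl_sum, coeff_zero_eq_eval_zero, eval_finsetSum, Finset.sum_eq_single (0, N)]
  · simp
  · rintro ⟨i, j⟩ hij hne
    have h1 : i ≠ 0 := by
      rintro rfl
      apply hne
      have h2 := Finset.HasAntidiagonal.mem_antidiagonal.1 hij
      have h3 : j = N := by simpa using h2
      rw [h3]
    simp [h1]
  · intro h
    exact absurd (Finset.HasAntidiagonal.mem_antidiagonal.2 (Nat.zero_add N)) h

private theorem Gl_top {k : Type} [Field k] (s : Fin 2 → k) (N : ℕ) (u : k[X]) :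
    (Gl_S s N u).coeff N = ∑ j ∈ Finset.range (N + 1), u.coeff j * s 0 ^ (N - j) * s 1 ^ j := by
  rw [Gl_sum, finsetSum_coeff, Finset.Nat.sum_antidiagonal_eq_sum_range_succ_mk]
  refine Finset.sum_congr rfl fun j hj => ?_
  have hjN : j ≤ N := Nat.lt_succ_iff.1 (Finset.mem_range.1 hj)
  rw [coeff_C_mul]
  have h1 : (((C (s 1) * X : k[X]) ^ j) * (1 + C (s 0) * X) ^ (N - j)).coeff (j * 1 + (N - j) * 1) =
      ((C (s 1) * X : k[X]) ^ j).coeff (j * 1) * ((1 + C (s 0) * X : k[X]) ^ (N - j)).coeff ((N - j) * 1) :=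
    coeff_mul_add_eq_of_natDegree_le (natDegree_pow_le_of_le j (Gl_degA s))
      (natDegree_pow_le_of_le (N - j) (Gl_degB s))
  rw [coeff_pow_of_natDegree_le (Gl_degA s), coeff_pow_of_natDegree_le (Gl_degB s)] at h1
  have h2 : j * 1 + (N - j) * 1 = N := by omega
  have h3 : (C (s 1) * X : k[X]).coeff 1 = s 1 := by
    rw [coeff_C_mul, coeff_X_one, mul_one]
  have h4 : (1 + C (s 0) * X : k[X]).coeff 1 = s 0 := by
    rw [coeff_add, coeff_C_mul, coeff_X_one, mul_one, coeff_one, if_neg one_ne_zero, zero_add]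
  rw [h2, h3, h4] at h1
  rw [h1]
  ring

private theorem Gl_dvd {k : Type} [Field k] (s : Fin 2 → k) (N M : ℕ) (u : k[X]) (h : X ^ M ∣ u) :
    X ^ M ∣ Gl_S s N u := by
  rw [X_pow_dvd_iff] at h
  rw [Gl_sum]
  refine Finset.dvd_sum fun kl _ => ?_
  by_cases hk : kl.1 < M
  · rw [h kl.1 hk, C_0, zero_mul]
    exact dvd_zero _
  · rw [mul_pow]
    have h1 : (X : k[X]) ^ M ∣ X ^ kl.1 := pow_dvd_pow _ (not_lt.1 hk)
    exact Dvd.dvd.mul_left (Dvd.dvd.mul_right (Dvd.dvd.mul_left h1 _) _) _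

private theorem Gl_ne {k : Type} [Field k] (s : Fin 2 → k) (hs : s 1 ≠ 0) (N : ℕ) (u : k[X]) (hu : u ≠ 0)
    (hN : u.natDegree ≤ N) : Gl_S s N u ≠ 0 := by
  have hμ : u.natTrailingDegree ≤ N := (natTrailingDegree_le_natDegree u).trans hN
  have h1 : (Gl_S s N u).coeff u.natTrailingDegree =
      u.coeff u.natTrailingDegree * s 1 ^ u.natTrailingDegree := by
    rw [Gl_sum, finsetSum_coeff, Finset.sum_eq_single (u.natTrailingDegree, N - u.natTrailingDegree)]
    · show (C (u.coeff u.natTrailingDegree) * ((C (s 1) * X) ^ u.natTrailingDegree *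
        (1 + C (s 0) * X) ^ (N - u.natTrailingDegree))).coeff u.natTrailingDegree = _
      rw [coeff_C_mul, mul_pow, ← C_pow, mul_assoc, coeff_C_mul, coeff_X_pow_mul', if_pos le_rfl, Nat.sub_self,
        coeff_zero_eq_eval_zero]
      simp
    · rintro ⟨i, j⟩ hij hne
      have h2 := Finset.HasAntidiagonal.mem_antidiagonal.1 hij
      simp only at h2
      show (C (u.coeff i) * ((C (s 1) * X) ^ i * (1 + C (s 0) * X) ^ j)).coeff u.natTrailingDegree = 0
      rcases lt_trichotomy i u.natTrailingDegree with h3 | h3 | h3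
      · rw [coeff_eq_zero_of_lt_natTrailingDegree h3, C_0, zero_mul, coeff_zero]
      · exfalso
        apply hne
        rw [← h3]
        have h4 : N - i = j := by omega
        rw [h4]
      · rw [coeff_C_mul, mul_pow, ← C_pow, mul_assoc, coeff_C_mul, coeff_X_pow_mul', if_neg (not_le.2 h3),
          mul_zero, mul_zero]
    · intro h
      exact absurd (Finset.HasAntidiagonal.mem_antidiagonal.2 (by simp only; omega)) h
  intro h0
  rw [h0, coeff_zero] at h1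
  have h2 : u.coeff u.natTrailingDegree ≠ 0 := trailingCoeff_nonzero_iff_nonzero.2 hu
  exact (mul_ne_zero h2 (pow_ne_zero _ hs)) h1.symm

private theorem Gl_eval {k : Type} [Field k] (s : Fin 2 → k) {r : ℕ} (a : Fin r → ℕ) (p : Fin r → k[X])
    (τ : k) (i : Fin r) :
    (Gl_S s (a i) (p i)).eval τ = hb a p ![1 + s 0 * τ, s 1 * τ] i := by
  rw [Gl_sum, eval_finsetSum, Finset.Nat.sum_antidiagonal_eq_sum_range_succ_mk]
  unfold hb
  refine Finset.sum_congr rfl fun j _ => ?_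
  simp only [eval_mul, eval_C, eval_pow, eval_X, eval_add, eval_one, Matrix.cons_val_zero,
    Matrix.cons_val_one]
  ring

private theorem Gl_Phi {k : Type} [Field k] {d r : ℕ} {A : Finset (Fin d → ℤ)} (c : (Fin d → ℤ) → k)
    {v : Fin r → Fin d → ℤ} {a : Fin r → ℕ} {h : Fin r → ℤ} (hR : Rel0 A v a h) {g : ℕ}
    (hgg : (g : ℤ) = ∑ i, (a i : ℤ) * h i) (x : Fin d → k)
    {p : Fin r → k[X]} (hp : ∀ i, (p i).natDegree ≤ a i) (s : Fin 2 → k) :
    Phi A c v h x (fun i => Gl_S s (a i) (p i)) = Gl_S s g (Phi A c v h x p) := by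
  unfold Phi
  rw [Gl_add]
  refine Finset.sum_congr rfl fun m hm => ?_
  unfold cd
  rw [Gl_C, Gl_C]
  have h1 := sum_ex hR hgg (cone_one hm)
  rw [one_mul] at h1
  rw [← h1, Gl_prod s hp]

theorem norm_gcY {k : Type} [Field k] {d r s : ℕ} {A : Fin (s + 1) → Finset (Fin d → ℤ)}
    {c : Fin (s + 1) → (Fin d → ℤ) → k} {v : Fin r → Fin d → ℤ} {a : Fin r → ℕ}
    (hR : RelY A v a) {ν : ℕ} {x : Fin d → k} (hx : ∀ j, x j ≠ 0)
    {p : Fin r → k[X]} (hp : ∀ i, (p i).natDegree ≤ a i) (hp0 : ∀ i, (p i).coeff 0 = 1)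
    (hvan : ∀ j : Fin s, Ph A c v x p j.succ = 0)
    (hdvd : X ^ ν ∣ Ph A c v x p 0) (hne : Ph A c v x p 0 ≠ 0) {s' : Fin 2 → k}
    (hs : s' 1 ≠ 0) :
    ∃ q : Fin r → k[X], (∀ i, (q i).natDegree ≤ a i) ∧ (∀ i, (q i).coeff 0 = 1) ∧
      (∀ j : Fin s, Ph A c v x q j.succ = 0) ∧ X ^ ν ∣ Ph A c v x q 0 ∧ Ph A c v x q 0 ≠ 0 ∧
      (∀ m ∈ A 0, ld v a (fun i => MP_1e3e9c_agY.hs (A 0) (v i)) x q m =
        mn x m * ∏ i, hb a p s' i ^ ex v (fun i => MP_1e3e9c_agY.hs (A 0) (v i)) m 1 i) ∧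
      ∀ τ : k, ∃ s'' : Fin 2 → k, s'' ≠ 0 ∧ ∀ m ∈ A 0,
        (cd v (fun i => MP_1e3e9c_agY.hs (A 0) (v i)) x q m 1).eval τ =
          mn x m * ∏ i, hb a p s'' i ^ ex v (fun i => MP_1e3e9c_agY.hs (A 0) (v i)) m 1 i := by
  have hg : ∀ j, ∃ g : ℕ, (g : ℤ) = ∑ i, (a i : ℤ) * MP_1e3e9c_agY.hs (A j) (v i) := fun j =>
    ⟨(DD A v a j).toNat, Int.toNat_of_nonneg (g_pos' hR j).le⟩
  have hPh : ∀ j, ∃ g : ℕ, (Ph A c v x p j).natDegree ≤ g ∧
      Ph A c v x (fun i => Gl_S s' (a i) (p i)) j = Gl_S s' g (Ph A c v x p j) := by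
    intro j
    obtain ⟨g, hgg⟩ := hg j
    exact ⟨g, natDegree_Phi (rel0 hR j) hgg (c j) x hp, Gl_Phi (c j) (rel0 hR j) hgg x hp s'⟩
  refine ⟨fun i => Gl_S s' (a i) (p i), fun i => Gl_deg s' _ _, fun i => ?_, fun j => ?_, ?_, ?_,
    fun m _ => ?_, fun τ => ?_⟩
  · rw [Gl_zero, hp0]
  · obtain ⟨g, _, h2⟩ := hPh j.succ
    rw [h2, hvan j, Gl_sum]
    refine Finset.sum_eq_zero fun kl _ => ?_
    rw [coeff_zero, C_0, zero_mul]
  · obtain ⟨g, _, h2⟩ := hPh 0
    rw [h2]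
    exact Gl_dvd s' _ _ _ hdvd
  · obtain ⟨g, h1, h2⟩ := hPh 0
    rw [h2]
    exact Gl_ne s' hs _ _ hne h1
  · unfold ld
    refine congrArg _ (Finset.prod_congr rfl fun i _ => ?_)
    rw [Gl_top s' (a i) (p i)]
    rfl
  · refine ⟨![1 + s' 0 * τ, s' 1 * τ], fun h0 => ?_, fun m _ => ?_⟩
    · have h1 : 1 + s' 0 * τ = 0 := by
        have h3 := congrFun h0 0
        simpa using h3
      have h2 : s' 1 * τ = 0 := by
        have h3 := congrFun h0 1
        simpa using h3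
      have h3 : τ = 0 := (mul_eq_zero.1 h2).resolve_left hs
      rw [h3, mul_zero, add_zero] at h1
      exact one_ne_zero h1
    · unfold cd
      rw [eval_mul, eval_C, eval_prod]
      refine congrArg _ (Finset.prod_congr rfl fun i _ => ?_)
      rw [eval_pow, Gl_eval s' a p τ i]

end Pool.Agent.Lib.MP_1e3e9c_agY
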