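import Mathlib

/-! LEAF Gm (medium-, MATHLIB ONLY).  Bezout with a bound of the degrees.

PROOF.  If `s` is empty the hypothesis at `τ = 0` fails.  Some `f i₀ ≠ 0` (`i₀ ∈ s`).  If `f i₀` is a constant take `H i₀ = C (f i₀)⁻¹` and `0` otherwise.  Otherwise let `ρ_1, .., ρ_q` be its roots; for every `ρ` the linear form `λ ↦ ∑_(i ∈ s) λ_i f_i(ρ)` is not `0` (`h`), so (`k` is infinite) some `λ` is not a zero of any of these finitely many forms (e.g. `λ_i = b^(n_i)`, `n` injective on `s`, and `b` not a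
root of the product of the nonzero polynomials `∑ f_i(ρ) X^(n_i)`): `G = ∑ λ_i f_i` has no common root with `f i₀`, so they are coprime (`k` algebraically closed: `Polynomial.isCoprime_of_dvd`, or `Polynomial.isCoprime_iff_aeval_ne_zero`..): `A f_(i₀) + B G = 1`; replace `B` by `B % f_(i₀)` (degree `< D`): then `A f_(i₀) = 1 - B G` has degree `≤ 2 D`, so `deg A ≤ 2 D`.
`H i = λ_i B` for `i ≠ i₀`, `H i₀ = A + λ_(i₀) B`. -/

set_option autoImplicit false

namespace Pool.Agent.Lib.MP_1e3e9c_agY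

open Polynomial

/-- A combination without common roots. -/
private theorem Gm_comb {k ι : Type} [Field k] [Infinite k] (s : Finset ι) (f : ι → k[X])
    (R : Finset k) (h : ∀ τ ∈ R, ∃ i ∈ s, (f i).eval τ ≠ 0) :
    ∃ l : ι → k, ∀ τ ∈ R, (∑ i ∈ s, C (l i) * f i).eval τ ≠ 0 := by
  classical
  let φ : k → (ι → k) →ₗ[k] k := fun τ =>
    { toFun := fun l => ∑ i ∈ s, l i * (f i).eval τ
      map_add' := fun a b => by
        rw [← Finset.sum_add_distrib]
        exact Finset.sum_congr rfl fun i _ => by rw [Pi.add_apply, add_mul]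
      map_smul' := fun c a => by
        rw [RingHom.id_apply, smul_eq_mul, Finset.mul_sum]
        exact Finset.sum_congr rfl fun i _ => by rw [Pi.smul_apply, smul_eq_mul, mul_assoc] }
  have h1 : (⊤ : Submodule k (ι → k)) ∉ R.image fun τ => LinearMap.ker (φ τ) := by
    intro h2
    rw [Finset.mem_image] at h2
    obtain ⟨τ, hτ, h3⟩ := h2
    obtain ⟨i, hi, h4⟩ := h τ hτ
    have h5 : (Pi.single i 1 : ι → k) ∈ LinearMap.ker (φ τ) := by
      rw [h3]
      exact Submodule.mem_top
    rw [LinearMap.mem_ker] at h5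
    apply h4
    have h6 : φ τ (Pi.single i 1) = (f i).eval τ := by
      show ∑ j ∈ s, (Pi.single i 1 : ι → k) j * (f j).eval τ = _
      rw [Finset.sum_eq_single i]
      · rw [Pi.single_eq_same, one_mul]
      · intro j _ hj
        rw [Pi.single_eq_of_ne hj, zero_mul]
      · intro h7
        exact absurd hi h7
    rw [← h6, h5]
  have h2 := Subspace.biUnion_ne_univ_of_top_notMem h1
  rw [Set.ne_univ_iff_exists_notMem] at h2
  obtain ⟨l, hl⟩ := h2
  refine ⟨l, fun τ hτ h0 => hl ?_⟩
  rw [Set.mem_iUnion₂]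
  refine ⟨LinearMap.ker (φ τ), Finset.mem_image_of_mem _ hτ, ?_⟩
  show φ τ l = 0
  rw [← h0, eval_finsetSum]
  refine Finset.sum_congr rfl fun i _ => ?_
  rw [eval_mul, eval_C]

theorem bez_bound {k ι : Type} [Field k] [IsAlgClosed k] (s : Finset ι) (f : ι → k[X]) (D : ℕ)
    (hf : ∀ i ∈ s, (f i).natDegree ≤ D) (h : ∀ τ : k, ∃ i ∈ s, (f i).eval τ ≠ 0) :
    ∃ H : ι → k[X], (∀ i, (H i).natDegree ≤ 2 * D) ∧ ∑ i ∈ s, H i * f i = 1 := by
  classical
  obtain ⟨i₀, hi₀, h0⟩ := h 0
  have hF : f i₀ ≠ 0 := by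
    intro h1
    rw [h1, eval_zero] at h0
    exact h0 rfl
  have hinf : Infinite k := IsAlgClosed.instInfinite
  obtain ⟨l, hl⟩ := Gm_comb s f (f i₀).roots.toFinset fun τ _ => h τ
  obtain ⟨G, hG⟩ : ∃ G, G = ∑ i ∈ s, C (l i) * f i := ⟨_, rfl⟩
  rw [← hG] at hl
  have hGD : G.natDegree ≤ D := by
    rw [hG]
    refine natDegree_sum_le_of_forall_le _ _ fun i hi => ?_
    exact (natDegree_C_mul_le _ _).trans (hf i hi)
  have hco : IsCoprime (f i₀) G := by
    rw [isCoprime_iff_aeval_ne_zero_of_isAlgClosed k k]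
    intro a
    rw [coe_aeval_eq_eval]
    by_cases h1 : (f i₀).eval a = 0
    · right
      refine hl a ?_
      rw [Multiset.mem_toFinset, mem_roots hF]
      exact h1
    · exact Or.inl h1
  obtain ⟨A', B', hAB⟩ := hco
  obtain ⟨B, hB⟩ : ∃ B, B = B' % f i₀ := ⟨_, rfl⟩
  obtain ⟨A, hA⟩ : ∃ A, A = A' + B' / f i₀ * G := ⟨_, rfl⟩
  have h1 : A * f i₀ + B * G = 1 := by
    have h2 := EuclideanDomain.div_add_mod B' (f i₀)
    rw [hA, hB, ← hAB]
    linear_combination G * h2
  have hBD : B.natDegree ≤ D := by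
    refine (natDegree_le_natDegree ?_).trans (hf i₀ hi₀)
    rw [hB]
    exact (EuclideanDomain.mod_lt B' hF).le
  have hAD : A.natDegree ≤ 2 * D := by
    by_cases hA0 : A = 0
    · rw [hA0, natDegree_zero]
      exact Nat.zero_le _
    · have h2 : A * f i₀ = 1 - B * G := by rw [← h1]; ring
      have h3 : (A * f i₀).natDegree = A.natDegree + (f i₀).natDegree := natDegree_mul hA0 hF
      have h4 : (1 - B * G).natDegree ≤ 2 * D := by
        refine (natDegree_sub_le _ _).trans (max_le ?_ ?_)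
        · rw [natDegree_one]
          exact Nat.zero_le _
        · refine natDegree_mul_le.trans ?_
          omega
      rw [← h2, h3] at h4
      omega
  refine ⟨fun i => C (l i) * B + if i = i₀ then A else 0, fun i => ?_, ?_⟩
  · refine (natDegree_add_le _ _).trans (max_le ?_ ?_)
    · refine (natDegree_C_mul_le _ _).trans ?_
      omega
    · split_ifs
      · exact hAD
      · rw [natDegree_zero]
        exact Nat.zero_le _
  · have h2 : ∀ i ∈ s, (C (l i) * B + if i = i₀ then A else 0) * f i =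
        B * (C (l i) * f i) + (if i = i₀ then A * f i else 0) := by
      intro i _
      split_ifs <;> ring
    rw [Finset.sum_congr rfl h2, Finset.sum_add_distrib, ← Finset.mul_sum, ← hG,
      Finset.sum_ite_eq' s i₀ fun i => A * f i, if_pos hi₀, ← h1]
    ring

end Pool.Agent.Lib.MP_1e3e9c_agY
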