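import Pool.Agent.Lib.MP_1e3e9c_agY.Yb
import Pool.Agent.Lib.MP_1e3e9c_agY.Gi
import Pool.Agent.Lib.MP_1e3e9c_agY.Gj
import Pool.Agent.Lib.MP_1e3e9c_agY.Gk
import Pool.Agent.Lib.MP_1e3e9c_agY.Gl
import Pool.Agent.Lib.MP_1e3e9c_agY.Gm
import Pool.Agent.Lib.MP_1e3e9c_agR.X0

/-! LEAF Gn (medium+, 2 theorems; model: V13 of agV, proved there).  Through every point of the torus on `X`, outside a small set, there is a contact curve whose end point is one of finitely many.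

PROOF.  `gc_of`: let `p` be given, `σ` with `σ_1 ≠ 0`; `norm_gcY` (Gl): `q`.  `rat`: the formula for `ld` and `hy` (`algebraMap k k = id`).  `bez`: `bez_bound` (Gm) for `s = A 0`, `f m = cd .. x q m 1` (`natDegree_cd`: degree `≤ 1 * g`), the hypothesis is `hnb q`.
`kpointY`: `N = ∑ a_i`, `g_j = DD A v a j` as natural numbers (`g_pos'`), `ν + ∑_(j : Fin s) g_(j.succ) + 1 = N`, and `g_0 ≤ ν + 1` (`hR.le`).  `two_points` (B8 of agR) for `S = SY A c e w`, `G = GV (A 0) (c 0) o` (weighted homogeneous of weight `1`: `hg.one`), `g := 1`, `D := g`; `hX`: `rat_ofY` (Gk) and `hno`.  It gives `Y₀`, and `E` is the set of its statement.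
`Y` = the filter `∃ m ∈ A 0, y m ≠ 0` of `insert (fun _ => 1) (Y₀.image (fun y' m => y' (o m)))`.  Let `x` be given.  `exists_contactY` (Gi) with `M 0 = ν - 1`, `M j.succ = g_(j.succ)`: `p`; `deg Ph j ≤ g_j` (`natDegree_Phi`, `rel0 hR j`), so `Ph j.succ = 0`.  `Ph 0 = 0`: `of_phi_zeroY` (Yb), against `hno`.  `Ph 0 ≠ 0`: `X^ν ∣ Ph 0`, `deg ≤ g ≤ ν + 1`: so `g ≥ ν`, and either `g = ν + 1`,
`Ph 0 = X^ν (α + β X)^1`, or `g = ν`, `Ph 0 = X^(ν-1) (0 + α X)^1` (`ν ≥ 1`): `two_cY` (Gj) gives `TwoC .. 1 g (mn x (e j)) P`.  So `(mn x (e j))` is in `E` or there is `y' ∈ Y₀` with `OnC w P y'`.  Let `F(σ)_m = mn x m ∏ hb a p σ i ^ ex m 1 i`, the value at `σ` of the coordinate `(m, 1)` (`form_cd`, `hv_cd` of V12a of agV).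
BASE POINT: suppose `F(σ)_m = 0` for all `m ∈ A 0` for some `σ ≠ 0`.  `σ_1 ≠ 0` (for `σ_1 = 0`: `hb a p σ i = σ_0^(a_i)` as `(p_i)_0 = 1`).  `gc_of`-like with `y = 1`: `q` of `norm_gcY` has `ld m = 0` for all `m ∈ A 0`, `rat` is clear.  No base point of `q` at a finite `τ`: the coefficient of `X^g` of `Ph .. q 0` is `∑ c_m ld m = 0` (`deg q_i ≤ a_i`, the top coefficient; V12b or `form_cd` for `σ = (0, 1)`), so
`deg Ph .. q 0 < g ≤ ν + 1` and (`X^ν ∣`, `≠ 0`) `Ph .. q 0 = C α' * X^ν`, `α' ≠ 0`; if all `(cd .. q m 1).eval τ = 0` then `(Ph .. q 0).eval τ = 0`, so `τ = 0`, but `(cd .. q m 1).eval 0 = mn x m ≠ 0` (`A 0` is not empty).  OTHERWISE (`F(σ) ≠ 0` for all `σ ≠ 0`): `hv w g P σ ≠ 0` for all `σ ≠ 0` (`hg.one`, `hv_cd`) and `on_curve` (X0 of agR): `hv w g P σ j = y' j` for some `σ`;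
`σ_1 ≠ 0`: otherwise `y' j = σ_0^(w_j g) mn x (e j)` and `GV(y') = σ_0^g GV(..) = 0`, but `GV(y') ≠ 0`.  `y m = y' (o m) = F(σ)_m`; `q` of `norm_gcY` has no base point at `τ`: its coordinates at `τ` are `F(s'')_m` with `s'' ≠ 0`.  `y ∈ Y`: `GV(y') = ∑ c_m y'(o m) ≠ 0`, so some `y'(o m) ≠ 0`. -/

set_option autoImplicit false

namespace Pool.Agent.Lib.MP_1e3e9c_agY

open Polynomial Pool.Agent.Lib.MP_1e3e9c_agV Pool.Agent.Lib.MP_1e3e9c_agR

private theorem Gn_hom {k : Type} [Field k] {d n : ℕ} {A : Finset (Fin d → ℤ)}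
    {c : (Fin d → ℤ) → k} {e : Fin (n + 1) → Fin d → ℤ} {w : Fin (n + 1) → ℕ}
    {o : (Fin d → ℤ) → Fin (n + 1)} (hg : Gens A e w o) :
    (GV A c o).IsWeightedHomogeneous w 1 := by
  rw [← MvPolynomial.mem_weightedHomogeneousSubmodule]
  unfold GV
  refine Submodule.sum_mem _ fun m hm => ?_
  rw [MvPolynomial.mem_weightedHomogeneousSubmodule]
  have h1 := (MvPolynomial.isWeightedHomogeneous_C w (c m)).mul
    (MvPolynomial.isWeightedHomogeneous_X k w (o m))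
  rw [(hg.one m hm).2, zero_add] at h1
  exact h1

private theorem Gn_eval {k : Type} [Field k] {d n : ℕ} {A : Finset (Fin d → ℤ)}
    {c : (Fin d → ℤ) → k} {o : (Fin d → ℤ) → Fin (n + 1)} (y : Fin (n + 1) → k) :
    MvPolynomial.eval y (GV A c o) = ∑ m ∈ A, c m * y (o m) := by
  unfold GV
  rw [map_sum]
  refine Finset.sum_congr rfl fun m _ => ?_
  rw [map_mul, MvPolynomial.eval_C, MvPolynomial.eval_X]

private theorem Gn_hb {k : Type} [Field k] {r : ℕ} {a : Fin r → ℕ} {p : Fin r → k[X]}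
    (hp0 : ∀ i, (p i).coeff 0 = 1) {s : Fin 2 → k} (hs : s 1 = 0) (i : Fin r) :
    hb a p s i = s 0 ^ a i := by
  unfold hb
  rw [Finset.sum_eq_single 0]
  · rw [hp0, Nat.sub_zero, pow_zero, mul_one, one_mul]
  · intro j _ hj
    rw [hs, zero_pow hj, mul_zero]
  · intro h
    exact absurd (Finset.mem_range.2 (Nat.succ_pos _)) h

private theorem Gn_hb1 {k : Type} [Field k] {r : ℕ} {a : Fin r → ℕ} {p : Fin r → k[X]}
    (i : Fin r) : hb a p ![0, 1] i = (p i).coeff (a i) := by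
  unfold hb
  rw [Finset.sum_eq_single (a i)]
  · simp
  · intro j hj hja
    have h1 := Finset.mem_range.1 hj
    have h2 : a i - j ≠ 0 := by omega
    simp [h2]
  · intro h
    exact absurd (Finset.mem_range.2 (Nat.lt_succ_self _)) h

private theorem Gn_form {k : Type} [Field k] {N g : ℕ} (hN : 2 ≤ N) (hgN : g ≤ N) {F : k[X]}
    (hF : F ≠ 0) (hd : X ^ (N - 1) ∣ F) (hdeg : F.natDegree ≤ g) :
    ∃ (i j : ℕ) (α β : k), i + j = g ∧ F = X ^ i * (C α + C β * X) ^ j := by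
  obtain ⟨q, rfl⟩ := hd
  have hq : q ≠ 0 := fun h => hF (by rw [h, mul_zero])
  have h1 : (X ^ (N - 1) * q).natDegree = (N - 1) + q.natDegree := by
    rw [natDegree_mul (pow_ne_zero _ X_ne_zero) hq, natDegree_X_pow]
  rw [h1] at hdeg
  rcases Nat.lt_or_ge g N with h2 | h2
  · have h3 : q.natDegree = 0 := by omega
    obtain ⟨b, hb⟩ := natDegree_eq_zero.1 h3
    refine ⟨N - 2, 1, 0, b, by omega, ?_⟩
    rw [← hb, show N - 1 = (N - 2) + 1 by omega, pow_succ, C_0, zero_add, pow_one]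
    ring
  · have h3 : q.natDegree ≤ 1 := by omega
    refine ⟨N - 1, 1, q.coeff 0, q.coeff 1, by omega, ?_⟩
    rw [pow_one]
    congr 1
    have h4 := eq_X_add_C_of_natDegree_le_one h3
    conv_lhs => rw [h4]
    ring

private theorem Gn_coeff {k : Type} [Field k] {d r : ℕ} {A : Finset (Fin d → ℤ)}
    {v : Fin r → Fin d → ℤ} {a : Fin r → ℕ} {h : Fin r → ℤ} (hR : Rel0 A v a h) {g : ℕ}
    (hgg : (g : ℤ) = ∑ i, (a i : ℤ) * h i) (x : Fin d → k) {p : Fin r → k[X]}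
    (hp : ∀ i, (p i).natDegree ≤ a i) {m : Fin d → ℤ} (hm : m ∈ A) :
    (cd v h x p m 1).coeff g = ld v a h x p m := by
  have h1 := form_cd hR hgg x hp ![0, 1] (cone_one hm)
  rw [one_mul, Finset.sum_eq_single g] at h1
  · simp only [Gn_hb1] at h1
    unfold ld
    simpa using h1
  · intro j hj hja
    have h1 := Finset.mem_range.1 hj
    have h2 : g - j ≠ 0 := by omega
    simp [h2]
  · intro h
    exact absurd (Finset.mem_range.2 (Nat.lt_succ_self _)) h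

/-- If all coordinates vanish at infinity there is no base point at a finite point. -/
private theorem Gn_nb {k : Type} [Field k] {d r : ℕ} {A : Finset (Fin d → ℤ)}
    {c : (Fin d → ℤ) → k}
    {v : Fin r → Fin d → ℤ} {a : Fin r → ℕ} {h : Fin r → ℤ} (hR : Rel0 A v a h) {g ν : ℕ}
    (hgg : (g : ℤ) = ∑ i, (a i : ℤ) * h i) (hgν : g ≤ ν + 1) (hν1 : 1 ≤ ν) (hA : A.Nonempty)
    {x : Fin d → k} (hx : ∀ j, x j ≠ 0) {p : Fin r → k[X]}
    (hp : ∀ i, (p i).natDegree ≤ a i) (hp0 : ∀ i, (p i).coeff 0 = 1)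
    (hdvd : X ^ ν ∣ Phi A c v h x p) (hne : Phi A c v h x p ≠ 0)
    (hld : ∀ m ∈ A, ld v a h x p m = 0) (τ : k) : ∃ m ∈ A, (cd v h x p m 1).eval τ ≠ 0 := by
  by_contra hcon
  push Not at hcon
  have hdeg := natDegree_Phi hR hgg c x hp
  have hco : (Phi A c v h x p).coeff g = 0 := by
    unfold Phi
    rw [finsetSum_coeff]
    refine Finset.sum_eq_zero fun m hm => ?_
    rw [coeff_C_mul, Gn_coeff hR hgg x hp hm, hld m hm, mul_zero]
  have hlt : (Phi A c v h x p).natDegree < g := by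
    rcases Nat.lt_or_ge (Phi A c v h x p).natDegree g with h1 | h1
    · exact h1
    · exfalso
      have h2 : (Phi A c v h x p).natDegree = g := le_antisymm hdeg h1
      have h3 : (Phi A c v h x p).leadingCoeff = 0 := by
        unfold leadingCoeff
        rw [h2]
        exact hco
      exact hne (leadingCoeff_eq_zero.1 h3)
  have hev : (Phi A c v h x p).eval τ = 0 := by
    unfold Phi
    rw [eval_finsetSum]
    refine Finset.sum_eq_zero fun m hm => ?_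
    rw [eval_mul, hcon m hm, mul_zero]
  obtain ⟨q, hq⟩ := hdvd
  rw [hq] at hne hlt hev
  have hq0 : q ≠ 0 := fun h => hne (by rw [h, mul_zero])
  rw [natDegree_mul (pow_ne_zero _ X_ne_zero) hq0, natDegree_X_pow] at hlt
  obtain ⟨b, hb⟩ := natDegree_eq_zero.1 (show q.natDegree = 0 by omega)
  have hb0 : b ≠ 0 := by
    rintro rfl
    rw [C_0] at hb
    exact hq0 hb.symm
  rw [← hb, eval_mul, eval_pow, eval_X, eval_C] at hev
  have hτ : τ = 0 := by
    rcases mul_eq_zero.1 hev with h1 | h1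
    · exact pow_eq_zero_iff (by omega) |>.1 h1
    · exact absurd h1 hb0
  obtain ⟨m, hm⟩ := hA
  have h2 := hcon m hm
  rw [hτ, ← coeff_zero_eq_eval_zero, coeff_cd x hp0] at h2
  exact mn_ne hx m h2

/-- From `norm_gcY`: a contact curve with end point `y`, if there are no base points. -/
theorem gc_of {k : Type} [Field k] [IsAlgClosed k] {d r s : ℕ}
    {A : Fin (s + 1) → Finset (Fin d → ℤ)} {c : Fin (s + 1) → (Fin d → ℤ) → k}
    {v : Fin r → Fin d → ℤ} {a : Fin r → ℕ} (hR : RelY A v a) {g ν : ℕ}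
    (hgg : (g : ℤ) = DD A v a 0) {x : Fin d → k} (hx : ∀ j, x j ≠ 0) {p : Fin r → k[X]}
    (hp : ∀ i, (p i).natDegree ≤ a i) (hp0 : ∀ i, (p i).coeff 0 = 1)
    (hvan : ∀ j : Fin s, Ph A c v x p j.succ = 0)
    (hdvd : X ^ ν ∣ Ph A c v x p 0) (hne : Ph A c v x p 0 ≠ 0) {y : (Fin d → ℤ) → k}
    (hy : ∀ m ∈ A 0, ∀ m' ∈ A 0, ld v a (fun i => hs (A 0) (v i)) x p m * y m' =
      ld v a (fun i => hs (A 0) (v i)) x p m' * y m)
    (hnb : ∀ τ : k, ∃ m ∈ A 0, (cd v (fun i => hs (A 0) (v i)) x p m 1).eval τ ≠ 0) :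
    GCY A c v a g ν y x p := by
  have hR0 := rel0 hR 0
  refine ⟨hx, hp, hp0, hvan, hdvd, hne, hy, ?_⟩
  refine bez_bound (A 0) (fun m => cd v (fun i => hs (A 0) (v i)) x p m 1) g (fun m hm => ?_) hnb
  have h1 := natDegree_cd hR0 hgg x hp (cone_one hm)
  rwa [one_mul] at h1

theorem kpointY {k : Type} [Field k] [IsAlgClosed k] [CharZero k] {d r s n : ℕ}
    {A : Fin (s + 1) → Finset (Fin d → ℤ)} {c : Fin (s + 1) → (Fin d → ℤ) → k}
    {v : Fin r → Fin d → ℤ} {a : Fin r → ℕ} {e : Fin (n + 1) → Fin d → ℤ} {w : Fin (n + 1) → ℕ}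
    {o : (Fin d → ℤ) → Fin (n + 1)} (hR : RelY A v a) {g ν : ℕ}
    (hgg : (g : ℤ) = DD A v a 0)
    (hν : (ν : ℤ) + 1 + ∑ j : Fin s, DD A v a j.succ = ∑ i, (a i : ℤ)) (hν1 : 1 ≤ ν)
    (hg : Gens (A 0) e w o) (hno : ¬ ∃ z, IsCv (A 0) A c z) :
    ∃ (Y : Finset ((Fin d → ℤ) → k)) (E : Set (Fin (n + 1) → k)),
      (∀ y ∈ Y, ∃ m ∈ A 0, y m ≠ 0) ∧ wdm w E ≤ (3 : ℕ) ∧
      ∀ x : Fin d → k, (∀ j, x j ≠ 0) → (∀ j, ∑ m ∈ A j, c j m * mn x m = 0) →
        (fun j => mn x (e j)) ∈ E ∨ ∃ y ∈ Y, ∃ q : Fin r → k[X], GCY A c v a g ν y x q := by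
  classical
  have hR0 := rel0 hR 0
  have hgg' : (g : ℤ) = ∑ i, (a i : ℤ) * hs (A 0) (v i) := hgg
  have hd := d_pos hR
  have hA0 : (A 0).Nonempty := ne_of_full (hR.full 0) hd
  obtain ⟨m₀, hm₀⟩ := hA0
  have hg0 : 0 < g := by
    have h1 := g_pos' hR 0
    rw [← hgg] at h1
    exact_mod_cast h1
  obtain ⟨G, hG⟩ : ∃ G : Fin s → ℕ, ∀ j, (G j : ℤ) = DD A v a j.succ := by
    refine ⟨fun j => (DD A v a j.succ).toNat, fun j => ?_⟩
    exact Int.toNat_of_nonneg (g_pos' hR j.succ).le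
  have hsum : ν + 1 + ∑ j, G j = ∑ i, a i := by
    have h1 : ((ν + 1 + ∑ j, G j : ℕ) : ℤ) = ((∑ i, a i : ℕ) : ℤ) := by
      push_cast
      rw [← hν]
      refine congrArg _ (Finset.sum_congr rfl fun j _ => hG j)
    exact_mod_cast h1
  have hgν : g ≤ ν + 1 := by
    have h1 := hR.le
    rw [Fin.sum_univ_succ, ← hgg, ← hν] at h1
    have h2 : (g : ℤ) ≤ (ν : ℤ) + 1 := by linarith
    exact_mod_cast h2
  obtain ⟨Y₀, hY₀, hE⟩ := two_points hg.pos one_pos (S := SY A c e w) (fun P hP => hP.1)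
    (Gn_hom (c := c 0) hg) (fun hrat => hno (rat_ofY hd (hR.full 0) hg hrat)) g
  refine ⟨(insert (fun _ => (1 : k)) (Y₀.image fun y' m => y' (o m))).filter
    fun y => ∃ m ∈ A 0, y m ≠ 0, _, fun y hy => (Finset.mem_filter.1 hy).2, hE,
    fun x hx hF => ?_⟩
  obtain ⟨p, hp, hp0, hdvd, hnt⟩ := exists_contactY (A := A) (c := c) (v := v) hR.pos
    (M := Fin.cons (ν - 1) G) (by
      rw [Fin.sum_univ_succ]
      simp only [Fin.cons_zero, Fin.cons_succ]
      omega) hF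
  have hdvd0 : X ^ ν ∣ Ph A c v x p 0 := by
    have h1 := hdvd 0
    simp only [Fin.cons_zero] at h1
    have e1 : ν - 1 + 1 = ν := by omega
    rwa [e1] at h1
  have hvan : ∀ j : Fin s, Ph A c v x p j.succ = 0 := by
    intro j
    have h1 := hdvd j.succ
    simp only [Fin.cons_succ] at h1
    have h2 : (Ph A c v x p j.succ).natDegree ≤ G j :=
      natDegree_Phi (rel0 hR j.succ) (hG j) (c j.succ) x hp
    by_contra hne
    have h3 := natDegree_le_of_dvd h1 hne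
    rw [natDegree_X_pow] at h3
    omega
  have hne : Ph A c v x p 0 ≠ 0 := fun h0 => hno (of_phi_zeroY hR hx hp hp0
    (fun j => Fin.cases h0 (fun j => hvan j) j) hnt)
  obtain ⟨i, j, α, β, hij, hPhi⟩ := Gn_form (N := ν + 1) (by omega) hgν hne hdvd0
    (natDegree_Phi hR0 hgg' (c 0) x hp)
  have hC := two_cY hR hg hgg hx hp hp0 hvan hne hij hPhi
  obtain ⟨P, hPdef⟩ : ∃ P : Fin (n + 1) → k[X],
    P = fun j => cd v (fun i => hs (A 0) (v i)) x p (e j) (w j) := ⟨_, rfl⟩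
  rw [← hPdef] at hC
  have hv0 : (fun j => mn x (e j)) ≠ (0 : Fin (n + 1) → k) := fun h0 =>
    mn_ne hx (e (o m₀)) (congrFun h0 (o m₀))
  have hv1 : MvPolynomial.eval (fun j => mn x (e j)) (GV (A 0) (c 0) o) = 0 := by
    rw [Gn_eval, ← hF 0]
    refine Finset.sum_congr rfl fun m hm => ?_
    rw [(hg.one m hm).1]
  rw [or_iff_not_imp_left]
  intro hnE
  obtain ⟨y', hy', hon⟩ : ∃ y ∈ Y₀, OnC w P y := by
    by_contra hcon
    push Not at hcon
    exact hnE ⟨hv0, hv1, g, le_rfl, P, hC, hcon⟩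
  obtain ⟨F, hFdef⟩ : ∃ F : (Fin 2 → k) → (Fin d → ℤ) → k, F = fun s m =>
    mn x m * ∏ i, hb a p s i ^ ex v (fun i => hs (A 0) (v i)) m 1 i := ⟨_, rfl⟩
  have hcdm : ∀ (s : Fin 2 → k), ∀ m ∈ A 0, hv w g P s (o m) = F s m := by
    intro s m hm
    rw [hPdef, hv_cd hR0 hg hgg' x hp s (o m), (hg.one m hm).1, (hg.one m hm).2, hFdef]
  have hF1 : ∀ s : Fin 2 → k, s 1 = 0 → ∀ m ∈ A 0, F s m = s 0 ^ g * mn x m := by
    intro s h1 m hm
    have h3 : ∏ i, hb a p s i ^ ex v (fun i => hs (A 0) (v i)) m 1 i = s 0 ^ g := by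
      have h4 : ∀ i, hb a p s i ^ ex v (fun i => hs (A 0) (v i)) m 1 i =
          s 0 ^ (a i * ex v (fun i => hs (A 0) (v i)) m 1 i) := fun i => by
        rw [Gn_hb hp0 h1, pow_mul]
      rw [Finset.prod_congr rfl fun i _ => h4 i, Finset.prod_pow_eq_pow_sum,
        sum_ex hR0 hgg' (cone_one hm), one_mul]
    rw [hFdef]
    show mn x m * ∏ i, hb a p s i ^ ex v (fun i => hs (A 0) (v i)) m 1 i = _
    rw [h3, mul_comm]
  by_cases hbase : ∃ s : Fin 2 → k, s ≠ 0 ∧ ∀ m ∈ A 0, F s m = 0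
  · obtain ⟨s, hs, hs0⟩ := hbase
    have hs1 : s 1 ≠ 0 := by
      intro h1
      have h2 : s 0 ≠ 0 := by
        intro h0
        apply hs
        funext l
        fin_cases l
        · exact h0
        · exact h1
      have h3 := hs0 m₀ hm₀
      rw [hF1 s h1 m₀ hm₀] at h3
      exact mul_ne_zero (pow_ne_zero _ h2) (mn_ne hx m₀) h3
    obtain ⟨q, hq, hq0, hqvan, hqdvd, hqne, hqld, -⟩ :=
      norm_gcY hR hx hp hp0 hvan hdvd0 hne hs1
    have hld0 : ∀ m ∈ A 0, ld v a (fun i => MP_1e3e9c_agY.hs (A 0) (v i)) x q m = 0 := by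
      intro m hm
      rw [hqld m hm]
      have h1 := hs0 m hm
      rw [hFdef] at h1
      exact h1
    refine ⟨fun _ => 1, ?_, q, ?_⟩
    · rw [Finset.mem_filter]
      exact ⟨Finset.mem_insert_self _ _, m₀, hm₀, one_ne_zero⟩
    · refine gc_of hR hgg hx hq hq0 hqvan hqdvd hqne (fun m hm m' hm' => ?_) ?_
      · rw [hld0 m hm, hld0 m' hm']
      · exact Gn_nb hR0 hgg' hgν hν1 ⟨m₀, hm₀⟩ hx hq hq0 hqdvd hqne hld0
  · have hfree' : ∀ s : Fin 2 → k, s ≠ 0 → ∃ m ∈ A 0, F s m ≠ 0 := by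
      intro s hs
      by_contra hcon
      push Not at hcon
      exact hbase ⟨s, hs, hcon⟩
    have hfree : ∀ s : Fin 2 → k, s ≠ 0 → ∃ i, hv w g P s i ≠ 0 := by
      intro s hs
      obtain ⟨m, hm, h1⟩ := hfree' s hs
      exact ⟨o m, by rw [hcdm s m hm]; exact h1⟩
    obtain ⟨s, hs⟩ := on_curve hg.pos hg0 hC.deg hfree hon
    have hs1 : s 1 ≠ 0 := by
      intro h1
      apply (hY₀ y' hy').2
      rw [Gn_eval]
      have h2 : ∀ m ∈ A 0, c 0 m * y' (o m) = s 0 ^ g * (c 0 m * mn x m) := by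
        intro m hm
        rw [← hs, hcdm s m hm, hF1 s h1 m hm]
        ring
      rw [Finset.sum_congr rfl h2, ← Finset.mul_sum, hF 0, mul_zero]
    obtain ⟨q, hq, hq0, hqvan, hqdvd, hqne, hqld, hqτ⟩ :=
      norm_gcY hR hx hp hp0 hvan hdvd0 hne hs1
    have hldy : ∀ m ∈ A 0, ld v a (fun i => MP_1e3e9c_agY.hs (A 0) (v i)) x q m = y' (o m) := by
      intro m hm
      rw [hqld m hm, ← hs, hcdm s m hm, hFdef]
    refine ⟨fun m => y' (o m), ?_, q, ?_⟩
    · rw [Finset.mem_filter]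
      refine ⟨Finset.mem_insert_of_mem (Finset.mem_image_of_mem (fun y' m => y' (o m)) hy'), ?_⟩
      by_contra hcon
      push Not at hcon
      apply (hY₀ y' hy').2
      rw [Gn_eval]
      refine Finset.sum_eq_zero fun m hm => ?_
      rw [hcon m hm, mul_zero]
    · refine gc_of hR hgg hx hq hq0 hqvan hqdvd hqne (fun m hm m' hm' => ?_) (fun τ => ?_)
      · rw [hldy m hm, hldy m' hm']
        exact mul_comm _ _
      · obtain ⟨s'', hs'', h1⟩ := hqτ τ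
        obtain ⟨m, hm, h2⟩ := hfree' s'' hs''
        refine ⟨m, hm, ?_⟩
        rw [h1 m hm]
        rw [hFdef] at h2
        exact h2

end Pool.Agent.Lib.MP_1e3e9c_agY
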