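import Mathlib

/-! LEAF Nc (medium, MATHLIB ONLY).  Determinants of two matrices which differ only in the columns `f t`.

PROOF.  (1) First let `det M ≠ 0`.  Over the fraction field `F` of `R` (the map is injective; or avoid it with `adjugate`): `P = M⁻¹ M'`, so `M' = M P` and the columns `c ∉ range f` of `P` are unit vectors (`M'` and `M` have the same column `c`).  So `det P = det κ`, `κ = P.submatrix f f` (block triangular after an equivalence `ι ≃ (range f)ᶜ ⊕ β`: `Equiv.sumCompl`, `Equiv.ofInjective`;
`Matrix.det_fromBlocks_zero₂₁`).  `Ω M' = (Ω M) P`, and the columns `c ∉ range f` of `Ω M` are `0`: so the columns `f t` give `(Ω M').submatrix id f = (Ω M).submatrix id f * κ`.  So `det M' = det M det κ`, `det ((Ω M').submatrix id f) = det ((Ω M).submatrix id f) det κ`: the claim.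
(2) If `det M = 0` and `det M' ≠ 0`: (1) for `M'`, `M` (`Ω M'` has the zero columns, too: the columns are equal) gives `det M' * det ((Ω M).submatrix id f) = det M * .. = 0`: the claim.  (3) Both `0`: clear. -/

set_option autoImplicit false

namespace Pool.Agent.Lib.MP_1e3e9c_agY

open Matrix

private theorem Nc_det {R ι β : Type} [CommRing R] [Fintype ι] [DecidableEq ι] [Fintype β]
    [DecidableEq β] (f : β → ι) (hf : Function.Injective f) (D : R) (N : Matrix ι ι R)
    (hN : ∀ i c, c ∉ Set.range f → N i c = if i = c then D else 0) :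
    ∃ a : ℕ, a + Fintype.card β = Fintype.card ι ∧ N.det = D ^ a * (N.submatrix f f).det := by
  classical
  have h1 := Matrix.twoBlockTriangular_det N (fun c => c ∉ Set.range f) (by
    intro i hi j hj
    rw [hN i j hj, if_neg]
    rintro rfl
    exact hi hj)
  refine ⟨Fintype.card {c // c ∉ Set.range f}, ?_, ?_⟩
  · have h2 : Fintype.card β = Fintype.card {c // c ∈ Set.range f} :=
      Fintype.card_congr (Equiv.ofInjective f hf)
    have h3 := Fintype.card_subtype_compl fun c => c ∈ Set.range f
    have h4 := Fintype.card_subtype_le fun c => c ∈ Set.range f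
    rw [h2]
    omega
  · rw [h1]
    congr 1
    · have e : N.toSquareBlockProp (fun c => c ∉ Set.range f) = D • (1 : Matrix {c // c ∉ Set.range f} {c // c ∉ Set.range f} R) := by
        ext i j
        rw [Matrix.toSquareBlockProp_def, Matrix.of_apply, hN _ _ j.2, Matrix.smul_apply, Matrix.one_apply, smul_eq_mul,
          mul_ite, mul_one, mul_zero]
        exact if_congr Subtype.ext_iff.symm rfl rfl
      rw [e, Matrix.det_smul, Matrix.det_one, mul_one]
    · obtain ⟨e, he⟩ : ∃ e : β ≃ {c // ¬ c ∉ Set.range f}, ∀ t, ((e t : ι)) = f t :=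
        ⟨(Equiv.ofInjective f hf).trans (Equiv.subtypeEquivRight fun c => not_not.symm), fun t => rfl⟩
      rw [← Matrix.det_submatrix_equiv_self e]
      congr 1
      ext s t
      rw [Matrix.submatrix_apply, Matrix.submatrix_apply, Matrix.toSquareBlockProp_def, Matrix.of_apply, he, he]

private theorem Nc_main {R ι β : Type} [CommRing R] [IsDomain R] [Fintype ι] [DecidableEq ι] [Fintype β]
    [DecidableEq β] (f : β → ι) (hf : Function.Injective f) (M M' : Matrix ι ι R)
    (Ω : Matrix β ι R) (hM : ∀ i c, c ∉ Set.range f → M i c = M' i c)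
    (hΩ : ∀ b c, c ∉ Set.range f → (Ω * M) b c = 0) (h0 : M.det ≠ 0) :
    M.det * ((Ω * M').submatrix id f).det = M'.det * ((Ω * M).submatrix id f).det := by
  obtain ⟨N, hN⟩ : ∃ N, N = M.adjugate * M' := ⟨_, rfl⟩
  have hN1 : ∀ i c, c ∉ Set.range f → N i c = if i = c then M.det else 0 := by
    intro i c hc
    have e : N i c = (M.adjugate * M) i c := by
      rw [hN, Matrix.mul_apply, Matrix.mul_apply]
      exact Finset.sum_congr rfl fun j _ => by rw [hM j c hc]
    rw [e, Matrix.adjugate_mul, Matrix.smul_apply, Matrix.one_apply, smul_eq_mul, mul_ite, mul_one, mul_zero]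
  obtain ⟨a, ha, hdet⟩ := Nc_det f hf M.det N hN1
  have h2 : M.det * N.det = M.det ^ Fintype.card ι * M'.det := by
    rw [hN, Matrix.det_mul, ← mul_assoc, ← Matrix.det_mul, Matrix.mul_adjugate, Matrix.det_smul, Matrix.det_one, mul_one]
  have h3 : (Ω * M).submatrix id f * N.submatrix f f = M.det • (Ω * M').submatrix id f := by
    have e1 : (Ω * M) * N = M.det • (Ω * M') := by
      rw [hN, Matrix.mul_assoc, ← Matrix.mul_assoc M, Matrix.mul_adjugate, Matrix.smul_mul, Matrix.one_mul,
        Matrix.mul_smul]
    ext b t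
    have e2 := congrFun (congrFun e1 b) (f t)
    rw [Matrix.smul_apply, Matrix.submatrix_apply, id, ← Matrix.smul_apply, ← e2, Matrix.mul_apply, Matrix.mul_apply]
    refine Finset.sum_of_injOn f hf.injOn (fun _ _ => Finset.mem_coe.2 (Finset.mem_univ _)) ?_ ?_
    · intro c _ hc
      rw [hΩ b c, zero_mul]
      rintro ⟨t, rfl⟩
      exact hc ⟨t, Finset.mem_coe.2 (Finset.mem_univ _), rfl⟩
    · intro s _
      rfl
  have h4 : ((Ω * M).submatrix id f).det * (N.submatrix f f).det =
      M.det ^ Fintype.card β * ((Ω * M').submatrix id f).det := by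
    rw [← Matrix.det_mul, h3, Matrix.det_smul]
  have h5 : M.det ^ Fintype.card ι ≠ 0 := pow_ne_zero _ h0
  refine mul_left_cancel₀ h5 ?_
  calc M.det ^ Fintype.card ι * (M.det * ((Ω * M').submatrix id f).det)
      = M.det * M.det ^ a * (M.det ^ Fintype.card β * ((Ω * M').submatrix id f).det) := by
        rw [← ha, pow_add]
        ring
    _ = ((Ω * M).submatrix id f).det * (M.det * (M.det ^ a * (N.submatrix f f).det)) := by
        rw [← h4]
        ring
    _ = M.det ^ Fintype.card ι * (M'.det * ((Ω * M).submatrix id f).det) := by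
        rw [← hdet, h2]
        ring

theorem det_ratio {R ι β : Type} [CommRing R] [IsDomain R] [Fintype ι] [DecidableEq ι] [Fintype β]
    [DecidableEq β] (f : β → ι) (hf : Function.Injective f) (M M' : Matrix ι ι R)
    (Ω : Matrix β ι R) (hM : ∀ i c, c ∉ Set.range f → M i c = M' i c)
    (hΩ : ∀ b c, c ∉ Set.range f → (Ω * M) b c = 0) :
    M.det * ((Ω * M').submatrix id f).det = M'.det * ((Ω * M).submatrix id f).det := by
  by_cases h0 : M.det = 0
  · by_cases h0' : M'.det = 0
    · rw [h0, h0', zero_mul, zero_mul]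
    · refine (Nc_main f hf M' M Ω (fun i c hc => (hM i c hc).symm) ?_ h0').symm
      intro b c hc
      rw [← hΩ b c hc, Matrix.mul_apply, Matrix.mul_apply]
      exact Finset.sum_congr rfl fun i _ => by rw [hM i c hc]
  · exact Nc_main f hf M M' Ω hM hΩ h0

end Pool.Agent.Lib.MP_1e3e9c_agY
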