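import Pool.Agent.Lib.MP_1e3e9c_agY.YG
import Pool.Agent.Lib.MP_1e3e9c_agY.Ya
import Pool.Agent.Lib.MP_1e3e9c_agV.MDefs

/-!
# MP_1e3e9c_ag, project Y: the matrix of the logarithmic derivatives, with `s` constant columns
-/

set_option autoImplicit false

namespace Pool.Agent.Lib.MP_1e3e9c_agY

open Polynomial Pool.Agent.Lib.MP_1e3e9c_agV

/-- The square matrix with the columns `∂_t`, `δ_1, .., δ_n` (logarithmic derivatives of `x`, derivatives of `p_i`), the `s` constant columns `z_t` and the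
`r` columns `(- v_i, p_i)`. `Δ j` is the coefficientwise extension of `δ j`; the rows `inl b` belong to the coordinates `e b`. -/
noncomputable def BY {k K : Type} [Field k] [Field K] [Algebra k K] {d n r s : ℕ}
    (e : Fin (n + 1) ⊕ Fin s ≃ Fin d) (v : Fin r → Fin d → ℤ) (δ : Fin n → Derivation k K K)
    (Δ : Fin n → Derivation k K[X] K[X]) (x : Fin d → K) (p : Fin r → K[X])
    (z : Fin s → Fin d → K) :
    Matrix ((Fin (n + 1) ⊕ Fin s) ⊕ Fin r) ((Fin (n + 1) ⊕ Fin s) ⊕ Fin r) K[X] :=
  Matrix.fromBlocks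
    (Matrix.of fun b b' => (Sum.elim
      (Fin.cons 0 (fun j => C (δ j (x (e b)) / x (e b))) : Fin (n + 1) → K[X])
      (fun t => C (z t (e b))) : Fin (n + 1) ⊕ Fin s → K[X]) b')
    (Matrix.of fun b i => - C ((v i (e b) : ℤ) : K))
    (Matrix.of fun i b' => (Sum.elim
      (Fin.cons (derivative (p i)) (fun j => Δ j (p i)) : Fin (n + 1) → K[X])
      (fun _ => 0) : Fin (n + 1) ⊕ Fin s → K[X]) b')
    (Matrix.diagonal p)

/-- The logarithmic gradient of the equation number `j` on the curve. -/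
noncomputable def GY {k K : Type} [Field k] [Field K] [Algebra k K] {d r s : ℕ}
    (A : Fin (s + 1) → Finset (Fin d → ℤ)) (c : Fin (s + 1) → (Fin d → ℤ) → k)
    (v : Fin r → Fin d → ℤ) (x : Fin d → K) (p : Fin r → K[X]) (j : Fin (s + 1)) (l : Fin d) :
    K[X] :=
  Ga (A j) (c j) v (fun i => hs (A j) (v i)) x p l

/-- The determinant of the products of the gradients of the equations `1, .., s` and the constant vectors `z_t`. -/
noncomputable def WY {k K : Type} [Field k] [Field K] [Algebra k K] {d r s : ℕ}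
    (A : Fin (s + 1) → Finset (Fin d → ℤ)) (c : Fin (s + 1) → (Fin d → ℤ) → k)
    (v : Fin r → Fin d → ℤ) (x : Fin d → K) (p : Fin r → K[X]) (z : Fin s → Fin d → K) : K[X] :=
  (Matrix.of fun t t' : Fin s => ∑ l, GY A c v x p t.succ l * C (z t' l)).det

end Pool.Agent.Lib.MP_1e3e9c_agY
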