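import Pool.Agent.Lib.MP_1e3e9c_agY.Nd
import Pool.Agent.Lib.MP_1e3e9c_agY.YN

/-! LEAF Nf (medium).  `WY` has no common zero in the affine line.

PROOF.  `h_j i = hs (A j) (v i)`, `P i` = the statement `(p i).eval τ = 0`.  From `hnb`: `m ∈ A 0` with `∏ (p i).eval τ ^ ex m 1 i ≠ 0`, so `ex v (h_0) m 1 i = 0` for all `i` with `P i`, that is `Fa (A 0) (v i) m` (`rel0 hR 0`: the number `pr m (v i) + h_0 i` is `≥ 0`).  By `fa_common` (Ya) for all `j` the set `B j` = {`m ∈ A j` | `ex v (h_j) m 1 i = 0` for all `i` with `P i`} is not empty.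
`q_l = x_l ∏_(i, not P i) ((p i).eval τ)^(v_il) ≠ 0` and `λ_j = ∏_(i, not P i) ((p i).eval τ)^(h_j i) ≠ 0` (`zpow`).  For `m ∈ A j`: `(cd v h_j x p m 1).eval τ = λ_j mn q m` if `m ∈ B j`, and `0` otherwise.  So `(Ph j).eval τ = λ_j ∑_(B j) c_jm mn q m` and `(GY j l).eval τ = λ_j ∑_(B j) c_jm mn q m m_l` (`c_jm` = the image in `K`).
For `j = t.succ` the first is `0` (`hvan`), so by `nd` (Nd; `gen_map hc`, `J` = the image of `Fin.succ`) the vectors `(GY t.succ l).eval τ)_l`, `t : Fin s`, are linearly independent; `exists_dual` (Nd) gives `z` with the matrix `∑_l (GY t.succ l).eval τ * z t' l = 1`, and `(WY z).eval τ = det 1 = 1` (`Polynomial.eval` is a ring homomorphism: `RingHom.map_det`). -/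

set_option autoImplicit false

namespace Pool.Agent.Lib.MP_1e3e9c_agY

open Polynomial Pool.Agent.Lib.MP_1e3e9c_agV

private theorem Nf_zs {K ι : Type} [Field K] {a : K} (ha : a ≠ 0) (s : Finset ι) (f : ι → ℤ) :
    ∏ i ∈ s, a ^ f i = a ^ ∑ i ∈ s, f i := by
  classical
  induction s using Finset.induction_on with
  | empty => rw [Finset.prod_empty, Finset.sum_empty, zpow_zero]
  | insert i s hi ih => rw [Finset.prod_insert hi, Finset.sum_insert hi, zpow_add₀ ha, ih]

private theorem Nf_mn {K : Type} [Field K] {d r : ℕ} (v : Fin r → Fin d → ℤ) {x : Fin d → K}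
    {w : Fin r → K} (hw : ∀ i, w i ≠ 0) (h : Fin r → ℤ) (m : Fin d → ℤ) :
    (∏ i, w i ^ h i) * mn (fun l => x l * ∏ i, w i ^ v i l) m =
      mn x m * ∏ i, w i ^ (pr m (v i) + h i) := by
  have h1 : mn (fun l => x l * ∏ i, w i ^ v i l) m = mn x m * ∏ i, w i ^ pr m (v i) := by
    unfold Pool.Agent.Lib.MP_1e3e9c_agV.mn
    rw [Finset.prod_congr rfl fun l _ => mul_zpow _ _ _, Finset.prod_mul_distrib]
    congr 1
    rw [Finset.prod_congr rfl fun l _ => (Finset.prod_zpow _ _ _).symm, Finset.prod_comm]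
    refine Finset.prod_congr rfl fun i _ => ?_
    rw [Finset.prod_congr rfl fun l _ => (zpow_mul (w i) (v i l) (m l)).symm, Nf_zs (hw i)]
    unfold pr
    congr 1
    exact Finset.sum_congr rfl fun l _ => mul_comm _ _
  rw [h1, mul_left_comm, ← Finset.prod_mul_distrib]
  congr 1
  refine Finset.prod_congr rfl fun i _ => ?_
  rw [← zpow_add₀ (hw i), add_comm]

private theorem Nf_cd {K : Type} [Field K] {d r : ℕ} {A : Finset (Fin d → ℤ)}
    (v : Fin r → Fin d → ℤ) {x : Fin d → K} {p : Fin r → K[X]} {τ : K} {w : Fin r → K}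
    (hw : ∀ i, w i ≠ 0) (hwe : ∀ i, (p i).eval τ ≠ 0 → w i = (p i).eval τ)
    (hw1 : ∀ i, (p i).eval τ = 0 → w i = 1) {m : Fin d → ℤ} (hm : m ∈ A)
    (hmB : ∀ i, (p i).eval τ = 0 → pr m (v i) + hs A (v i) = 0) :
    (cd v (fun i => hs A (v i)) x p m 1).eval τ =
      (∏ i, w i ^ hs A (v i)) * mn (fun l => x l * ∏ i, w i ^ v i l) m := by
  rw [Nf_mn v hw]
  unfold cd
  rw [eval_mul, eval_C, eval_prod]
  congr 1
  refine Finset.prod_congr rfl fun i _ => ?_
  rw [eval_pow]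
  unfold ex
  have h0 := hs_ge hm (v i)
  by_cases hi : (p i).eval τ = 0
  · rw [hmB i hi, hw1 i hi, one_zpow, Nat.cast_one, one_mul, hmB i hi, Int.toNat_zero, pow_zero]
  · rw [hwe i hi, Nat.cast_one, one_mul, ← zpow_natCast, Int.toNat_of_nonneg h0]

private theorem Nf_cd0 {K : Type} [Field K] {d r : ℕ} {A : Finset (Fin d → ℤ)}
    (v : Fin r → Fin d → ℤ) {x : Fin d → K} {p : Fin r → K[X]} {τ : K} {m : Fin d → ℤ} (hm : m ∈ A)
    {i : Fin r} (hi : (p i).eval τ = 0) (hi0 : pr m (v i) + hs A (v i) ≠ 0) :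
    (cd v (fun i => hs A (v i)) x p m 1).eval τ = 0 := by
  have h0 := hs_ge hm (v i)
  have h1 : ex v (fun i => hs A (v i)) m 1 i ≠ 0 := by
    unfold ex
    rw [Nat.cast_one, one_mul]
    show (pr m (v i) + hs A (v i)).toNat ≠ 0
    omega
  unfold cd
  rw [eval_mul, eval_C, eval_prod, Finset.prod_eq_zero (Finset.mem_univ i) (by
    rw [eval_pow, hi, zero_pow h1]), mul_zero]

private theorem Nf_sum {K ι : Type} [Field K] {A B : Finset ι} (hB : B ⊆ A) (u w : ι → K) (L : K)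
    {f : ι → K} (h1 : ∀ m ∈ B, f m = L * w m) (h0 : ∀ m ∈ A, m ∉ B → f m = 0) :
    ∑ m ∈ A, u m * f m = L * ∑ m ∈ B, u m * w m := by
  rw [← Finset.sum_subset hB fun m hm hmB => by rw [h0 m hm hmB, mul_zero], Finset.mul_sum]
  refine Finset.sum_congr rfl fun m hm => ?_
  rw [h1 m hm]
  ring

theorem wy_eval {E K : Type} [Field E] [CharZero E] [Field K] [CharZero K] [Algebra E K]
    {d r s : ℕ} {A : Fin (s + 1) → Finset (Fin d → ℤ)} {c : Fin (s + 1) → (Fin d → ℤ) → E}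
    (hc : Gen A c) {v : Fin r → Fin d → ℤ} {a : Fin r → ℕ} (hR : RelY A v a) {x : Fin d → K}
    (hx : ∀ j, x j ≠ 0) {p : Fin r → K[X]} (hvan : ∀ j : Fin s, Ph A c v x p j.succ = 0) {τ : K}
    (hnb : ∃ m ∈ A 0, (cd v (fun i => hs (A 0) (v i)) x p m 1).eval τ ≠ 0) :
    ∃ z : Fin s → Fin d → K, (WY A c v x p z).eval τ ≠ 0 := by
  classical
  obtain ⟨m0, hm0, hm0e⟩ := hnb
  have hP0 : ∀ i, (p i).eval τ = 0 → Fa (A 0) (v i) m0 := by
    intro i hi
    refine ⟨hm0, ?_⟩
    by_contra hne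
    exact hm0e (Nf_cd0 v hm0 hi hne)
  obtain ⟨B, hBe⟩ : ∃ B : Fin (s + 1) → Finset (Fin d → ℤ), B = fun j =>
      (A j).filter fun m => ∀ i, (p i).eval τ = 0 → pr m (v i) + hs (A j) (v i) = 0 := ⟨_, rfl⟩
  have hB : ∀ j, B j ⊆ A j := fun j => by
    rw [hBe]
    exact Finset.filter_subset _ _
  have hBn : ∀ j, (B j).Nonempty := fun j => by
    obtain ⟨m, hm, hm'⟩ := fa_common hR (P := fun i => (p i).eval τ = 0) ⟨m0, hm0, hP0⟩ j
    refine ⟨m, ?_⟩
    rw [hBe]
    exact Finset.mem_filter.2 ⟨hm, fun i hi => (hm' i hi).2⟩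
  obtain ⟨w, hwd⟩ : ∃ w : Fin r → K, w = fun i => if (p i).eval τ = 0 then 1 else (p i).eval τ :=
    ⟨_, rfl⟩
  have hw1 : ∀ i, (p i).eval τ = 0 → w i = 1 := fun i hi => by
    rw [hwd]
    exact if_pos hi
  have hwe : ∀ i, (p i).eval τ ≠ 0 → w i = (p i).eval τ := fun i hi => by
    rw [hwd]
    exact if_neg hi
  have hw : ∀ i, w i ≠ 0 := fun i => by
    by_cases hi : (p i).eval τ = 0
    · rw [hw1 i hi]
      exact one_ne_zero
    · rw [hwe i hi]
      exact hi
  obtain ⟨q, hqd⟩ : ∃ q : Fin d → K, q = fun l => x l * ∏ i, w i ^ v i l := ⟨_, rfl⟩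
  have hq : ∀ l, q l ≠ 0 := fun l => by
    rw [hqd]
    exact mul_ne_zero (hx l) (Finset.prod_ne_zero_iff.2 fun i _ => zpow_ne_zero _ (hw i))
  obtain ⟨L, hLd⟩ : ∃ L : Fin (s + 1) → K, L = fun j => ∏ i, w i ^ hs (A j) (v i) := ⟨_, rfl⟩
  have hL : ∀ j, L j ≠ 0 := fun j => by
    rw [hLd]
    exact Finset.prod_ne_zero_iff.2 fun i _ => zpow_ne_zero _ (hw i)
  have hcd1 : ∀ j, ∀ m ∈ B j, (cd v (fun i => hs (A j) (v i)) x p m 1).eval τ = L j * mn q m := by
    intro j m hm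
    rw [hBe] at hm
    rw [hqd, hLd]
    exact Nf_cd v hw hwe hw1 (Finset.mem_filter.1 hm).1 (Finset.mem_filter.1 hm).2
  have hcd0 : ∀ j, ∀ m ∈ A j, m ∉ B j → (cd v (fun i => hs (A j) (v i)) x p m 1).eval τ = 0 := by
    intro j m hm hmB
    rw [hBe] at hmB
    have h1 : ∃ i, (p i).eval τ = 0 ∧ pr m (v i) + hs (A j) (v i) ≠ 0 := by
      by_contra hne
      push Not at hne
      exact hmB (Finset.mem_filter.2 ⟨hm, hne⟩)
    obtain ⟨i, hi, hi0⟩ := h1
    exact Nf_cd0 v hm hi hi0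
  have hPh : ∀ j, (Ph A c v x p j).eval τ =
      L j * ∑ m ∈ B j, algebraMap E K (c j m) * mn q m := by
    intro j
    unfold Ph Phi
    rw [eval_finsetSum]
    rw [← Nf_sum (hB j) (fun m => algebraMap E K (c j m)) (fun m => mn q m) (L j) (hcd1 j) (hcd0 j)]
    refine Finset.sum_congr rfl fun m _ => ?_
    rw [eval_mul, eval_C]
  have hGY : ∀ j l, (GY A c v x p j l).eval τ =
      L j * ∑ m ∈ B j, algebraMap E K (c j m) * mn q m * (m l : K) := by
    intro j l
    unfold GY Ga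
    rw [eval_finsetSum]
    have h1 := Nf_sum (hB j) (fun m => algebraMap E K (c j m) * (m l : K)) (fun m => mn q m) (L j)
      (hcd1 j) (hcd0 j)
    have h2 : ∑ m ∈ B j, algebraMap E K (c j m) * mn q m * (m l : K) =
        ∑ m ∈ B j, algebraMap E K (c j m) * (m l : K) * mn q m :=
      Finset.sum_congr rfl fun m _ => by ring
    rw [h2, ← h1]
    refine Finset.sum_congr rfl fun m _ => ?_
    rw [eval_mul, eval_C]
  have hzero : ∀ t : Fin s, ∑ m ∈ B t.succ, algebraMap E K (c t.succ m) * mn q m = 0 := by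
    intro t
    have h1 := hPh t.succ
    rw [hvan t, eval_zero] at h1
    exact (mul_eq_zero.1 h1.symm).resolve_left (hL t.succ)
  have hG : LinearIndependent K fun (t : Fin s) (l : Fin d) => (GY A c v x p t.succ l).eval τ := by
    rw [Fintype.linearIndependent_iff]
    intro g hg t
    have h1 := nd (gen_map (K := K) hc) hq hB hBn (J := Finset.univ.image Fin.succ)
      (fun j hj => by
        obtain ⟨t', -, rfl⟩ := Finset.mem_image.1 hj
        exact hzero t')
      (μ := Fin.cons 0 fun t' => g t' * L t'.succ) (fun l => by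
        rw [Finset.sum_image (Fin.succ_injective s).injOn]
        have h2 := congrFun hg l
        rw [Finset.sum_apply] at h2
        rw [← h2.trans (Pi.zero_apply l)]
        refine Finset.sum_congr rfl fun t' _ => ?_
        rw [Fin.cons_succ, Pi.smul_apply, smul_eq_mul, hGY, mul_assoc])
      t.succ (Finset.mem_image_of_mem _ (Finset.mem_univ t))
    rw [Fin.cons_succ] at h1
    exact (mul_eq_zero.1 h1).resolve_right (hL t.succ)
  obtain ⟨z, hz⟩ := exists_dual hG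
  refine ⟨z, ?_⟩
  have h1 : (WY A c v x p z).eval τ = (Matrix.of fun t t' : Fin s =>
      ∑ l, (GY A c v x p t.succ l).eval τ * z t' l).det := by
    unfold WY
    rw [← coe_evalRingHom, RingHom.map_det]
    congr 1
    refine Matrix.ext fun t t' => ?_
    show evalRingHom τ (∑ l, GY A c v x p t.succ l * C (z t' l)) =
      ∑ l, (GY A c v x p t.succ l).eval τ * z t' l
    rw [map_sum]
    refine Finset.sum_congr rfl fun l _ => ?_
    rw [coe_evalRingHom, eval_mul, eval_C]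
  rw [h1, hz, Matrix.det_one]
  exact one_ne_zero

end Pool.Agent.Lib.MP_1e3e9c_agY
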