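import Pool.Agent.Lib.MP_1e3e9c_agY.Nd
import Pool.Agent.Lib.MP_1e3e9c_agY.Na

/-! LEAF Ng (medium).  The determinant is divisible by a power of `X`.

PROOF.  `B = BY e v δ Δ x p z`, `w^j = (GY j, Psi j)` the row vector of `vecMul_BY` (Na).  `Γ` = the matrix of `WY` (`Γ t t' = ∑_l GY t.succ l * C (z t' l)`, `det Γ = WY`), `γ t' = ∑_l GY 0 l * C (z t' l)`, `κ = γ ᵥ* adjugate Γ`, so `κ ᵥ* Γ = WY • γ` (`Matrix.adjugate_mul`).  `w = WY • w^0 - ∑_t κ t • w^(t.succ)`.  The entries of `w ᵥ* B`: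
`inl (inl 0)`: `WY * derivative (Ph 0)`; `inl (inl j.succ)`: `WY * Δ j (Ph 0)`; `inl (inr t')`: `WY γ t' - (κ ᵥ* Γ) t' = 0`; `inr i`: `WY * C _ * Ph 0` (`hvan`; `derivative 0 = 0`, `Δ 0 = 0`).  All are divisible by `X^M` (`hdvd`: `X^M ∣ derivative (Ph 0)`; the coefficients of `Δ j (Ph 0)` vanish below `M + 1`: `hΔ`).
`det B • w = (w ᵥ* B) ᵥ* adjugate B`, so `X^M ∣ det B * w_b` for all entries `b`.  Claim: `X ∤ w_(inl b)` for some `b`; then `X^M ∣ det B` (`Polynomial.prime_X`, `Prime.pow_dvd_of_dvd_mul_right`).  At `X = 0`: `(GY j l).eval 0 = ∑_(m ∈ A j) c_jm mn x m m_l` (`coeff_cd`: `p_i(0) = 1`) and `0 = (Ph j).eval 0 = ∑_(m ∈ A j) c_jm mn x m` for all `j` (`hvan`, `X ∣ Ph 0`).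
If all `w_(inl b)(0) = 0` then `∑_j μ_j ∑_(m ∈ A j) c_jm mn x m m_l = 0` for all `l` with `μ_0 = WY(0) ≠ 0`, `μ_(t.succ) = - κ_t(0)` (`e` is a bijection), against `nd` (Nd) for `B = A`, `J = univ`, `gen_map hc` (`A j` is not empty: `ne_of_full`, `d_pos`). -/

set_option autoImplicit false

namespace Pool.Agent.Lib.MP_1e3e9c_agY

open Polynomial Matrix Pool.Agent.Lib.MP_1e3e9c_agV

private theorem Ng_cd {K : Type} [Field K] {d r : ℕ} {v : Fin r → Fin d → ℤ} {h : Fin r → ℤ}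
    {x : Fin d → K} {p : Fin r → K[X]} (hp0 : ∀ i, (p i).coeff 0 = 1) (m : Fin d → ℤ) :
    (cd v h x p m 1).eval 0 = Pool.Agent.Lib.MP_1e3e9c_agV.mn x m := by
  unfold cd
  rw [eval_mul, eval_C, eval_prod, Finset.prod_eq_one, mul_one]
  intro i _
  rw [eval_pow, ← coeff_zero_eq_eval_zero, hp0, one_pow]

private theorem Ng_GY {k K : Type} [Field k] [Field K] [Algebra k K] {d r s : ℕ}
    {A : Fin (s + 1) → Finset (Fin d → ℤ)} {c : Fin (s + 1) → (Fin d → ℤ) → k} {v : Fin r → Fin d → ℤ}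
    {x : Fin d → K} {p : Fin r → K[X]} (hp0 : ∀ i, (p i).coeff 0 = 1) (j : Fin (s + 1)) (l : Fin d) :
    (GY A c v x p j l).eval 0 =
      ∑ m ∈ A j, algebraMap k K (c j m) * Pool.Agent.Lib.MP_1e3e9c_agV.mn x m * (m l : K) := by
  unfold GY Ga
  rw [eval_finsetSum]
  refine Finset.sum_congr rfl fun m _ => ?_
  rw [eval_mul, eval_C, Ng_cd hp0]
  ring

private theorem Ng_Ph {k K : Type} [Field k] [Field K] [Algebra k K] {d r s : ℕ}
    {A : Fin (s + 1) → Finset (Fin d → ℤ)} {c : Fin (s + 1) → (Fin d → ℤ) → k} {v : Fin r → Fin d → ℤ}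
    {x : Fin d → K} {p : Fin r → K[X]} (hp0 : ∀ i, (p i).coeff 0 = 1) (j : Fin (s + 1)) :
    (Ph A c v x p j).eval 0 =
      ∑ m ∈ A j, algebraMap k K (c j m) * Pool.Agent.Lib.MP_1e3e9c_agV.mn x m := by
  unfold Ph Phi
  rw [eval_finsetSum]
  refine Finset.sum_congr rfl fun m _ => ?_
  rw [eval_mul, eval_C, Ng_cd hp0]

private theorem Ng_lin {R ι β : Type} [CommRing R] [Fintype ι] [Fintype β] (a : R) (u : ι → R) (κ : β → R)
    (w : β → ι → R) (B : Matrix ι ι R) (b : ι) :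
    (Matrix.vecMul (a • u - ∑ t, κ t • w t) B) b =
      a * (Matrix.vecMul u B) b - ∑ t, κ t * (Matrix.vecMul (w t) B) b := by
  rw [Matrix.sub_vecMul, Matrix.smul_vecMul, Matrix.sum_vecMul, Pi.sub_apply, Pi.smul_apply, smul_eq_mul,
    Finset.sum_apply]
  refine congrArg _ (Finset.sum_congr rfl fun t _ => ?_)
  rw [Matrix.smul_vecMul, Pi.smul_apply, smul_eq_mul]

theorem dvd_BY {E K : Type} [Field E] [CharZero E] [Field K] [CharZero K] [Algebra E K]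
    {d n r s : ℕ} {e : Fin (n + 1) ⊕ Fin s ≃ Fin d} {A : Fin (s + 1) → Finset (Fin d → ℤ)}
    {c : Fin (s + 1) → (Fin d → ℤ) → E} (hc : Gen A c) {v : Fin r → Fin d → ℤ} {a : Fin r → ℕ}
    (hR : RelY A v a) {δ : Fin n → Derivation E K K}
    {Δ : Fin n → Derivation E K[X] K[X]} (hΔ : ∀ j (q : K[X]) i, (Δ j q).coeff i = δ j (q.coeff i))
    {x : Fin d → K} (hx : ∀ j, x j ≠ 0) {p : Fin r → K[X]} (hp0 : ∀ i, (p i).coeff 0 = 1)
    (hvan : ∀ j : Fin s, Ph A c v x p j.succ = 0) {M : ℕ}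
    (hdvd : X ^ (M + 1) ∣ Ph A c v x p 0) {z : Fin s → Fin d → K}
    (hW : (WY A c v x p z).eval 0 ≠ 0) : X ^ M ∣ (BY e v δ Δ x p z).det := by
  obtain ⟨w, hw⟩ : ∃ w : Fin (s + 1) → (Fin (n + 1) ⊕ Fin s) ⊕ Fin r → K[X], w = fun j =>
    Sum.elim (fun b => GY A c v x p j (e b)) (Psi (A j) (c j) v (fun i => hs (A j) (v i)) x p) := ⟨_, rfl⟩
  obtain ⟨γ, hγ⟩ : ∃ γ : Fin (s + 1) → Fin s → K[X], γ = fun j t => ∑ l, GY A c v x p j l * C (z t l) :=
    ⟨_, rfl⟩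
  have hwB : ∀ j, Matrix.vecMul (w j) (BY e v δ Δ x p z) =
      Sum.elim (Sum.elim (Fin.cons (derivative (Ph A c v x p j)) fun i => Δ i (Ph A c v x p j)) (γ j))
        (fun i => C ((hs (A j) (v i) : ℤ) : K) * Ph A c v x p j) := by
    intro j
    rw [hw, hγ]
    exact vecMul_BY hR hΔ hx p z j
  obtain ⟨Γ, hΓ⟩ : ∃ Γ : Matrix (Fin s) (Fin s) K[X], Γ = Matrix.of fun t t' => γ t.succ t' := ⟨_, rfl⟩
  have hdet : Γ.det = WY A c v x p z := by
    rw [hΓ, hγ]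
    rfl
  obtain ⟨κ, hκ⟩ : ∃ κ : Fin s → K[X], κ = Matrix.vecMul (γ 0) Γ.adjugate := ⟨_, rfl⟩
  have hκΓ : ∀ t', ∑ t, κ t * γ t.succ t' = WY A c v x p z * γ 0 t' := by
    intro t'
    have h1 : Matrix.vecMul κ Γ = WY A c v x p z • γ 0 := by
      rw [hκ, Matrix.vecMul_vecMul, Matrix.adjugate_mul, hdet, Matrix.vecMul_smul, Matrix.vecMul_one]
    have h2 := congrFun h1 t'
    rw [Pi.smul_apply, smul_eq_mul] at h2
    rw [← h2, hΓ]
    rfl
  obtain ⟨W, hW'⟩ : ∃ W : (Fin (n + 1) ⊕ Fin s) ⊕ Fin r → K[X],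
    W = WY A c v x p z • w 0 - ∑ t : Fin s, κ t • w t.succ := ⟨_, rfl⟩
  have hWB : ∀ b, X ^ M ∣ (Matrix.vecMul W (BY e v δ Δ x p z)) b := by
    intro b
    rw [hW', Ng_lin]
    simp only [hwB]
    rcases b with (b | t') | i
    · simp only [Sum.elim_inl]
      refine Fin.cases ?_ (fun j => ?_) b
      · simp only [Fin.cons_zero, hvan, derivative_zero, mul_zero, Finset.sum_const_zero, sub_zero]
        have h3 := Polynomial.pow_sub_one_dvd_derivative_of_pow_dvd hdvd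
        rw [Nat.add_sub_cancel] at h3
        exact h3.mul_left _
      · simp only [Fin.cons_succ, hvan, map_zero, mul_zero, Finset.sum_const_zero, sub_zero]
        refine Dvd.dvd.mul_left ?_ _
        rw [X_pow_dvd_iff]
        intro i hi
        rw [hΔ, X_pow_dvd_iff.1 hdvd i (by omega), map_zero]
    · simp only [Sum.elim_inl, Sum.elim_inr, hκΓ, sub_self, dvd_zero]
    · simp only [Sum.elim_inr, hvan, mul_zero, Finset.sum_const_zero, sub_zero]
      exact (((pow_dvd_pow X (Nat.le_succ M)).trans hdvd).mul_left _).mul_left _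
  have hdW : ∀ b, X ^ M ∣ (BY e v δ Δ x p z).det * W b := by
    intro b
    have h1 : (BY e v δ Δ x p z).det • W =
        Matrix.vecMul (Matrix.vecMul W (BY e v δ Δ x p z)) (BY e v δ Δ x p z).adjugate := by
      rw [Matrix.vecMul_vecMul, Matrix.mul_adjugate, Matrix.vecMul_smul, Matrix.vecMul_one]
    have h2 := congrFun h1 b
    rw [Pi.smul_apply, smul_eq_mul] at h2
    rw [h2]
    unfold Matrix.vecMul dotProduct at hWB ⊢
    exact Finset.dvd_sum fun b' _ => (hWB b').mul_right _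
  by_contra hcon
  have hall : ∀ b : Fin (n + 1) ⊕ Fin s, (W (Sum.inl b)).eval 0 = 0 := by
    intro b
    by_contra h1
    refine hcon (Polynomial.prime_X.pow_dvd_of_dvd_mul_right M ?_ (hdW (Sum.inl b)))
    intro h2
    rw [X_dvd_iff, coeff_zero_eq_eval_zero] at h2
    exact h1 h2
  obtain ⟨μ, hμ⟩ : ∃ μ : Fin (s + 1) → K, μ = Fin.cons ((WY A c v x p z).eval 0) fun t => -(κ t).eval 0 :=
    ⟨_, rfl⟩
  have hsum : ∀ l, ∑ j, μ j * (GY A c v x p j l).eval 0 = 0 := by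
    intro l
    obtain ⟨b, rfl⟩ := e.surjective l
    have h1 := hall b
    rw [hW', Pi.sub_apply, Pi.smul_apply, smul_eq_mul, Finset.sum_apply, eval_sub, eval_mul, eval_finsetSum] at h1
    rw [Fin.sum_univ_succ, hμ, Fin.cons_zero]
    simp only [Fin.cons_succ]
    rw [hw] at h1
    simp only [Pi.smul_apply, smul_eq_mul, eval_mul, Sum.elim_inl] at h1
    simp only [neg_mul, Finset.sum_neg_distrib]
    linear_combination h1
  have hd := d_pos hR
  have hz := nd (gen_map (K := K) hc) hx (B := A) (fun j => Finset.Subset.refl _)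
    (fun j => ne_of_full (hR.full j) hd) (J := Finset.univ) (μ := μ) (fun j _ => ?_) (fun l => ?_) 0 (Finset.mem_univ 0)
  · rw [hμ, Fin.cons_zero] at hz
    exact hW hz
  · rw [← Ng_Ph hp0 (v := v)]
    refine Fin.cases ?_ (fun t => ?_) j
    · obtain ⟨q, hq⟩ := hdvd
      rw [hq, eval_mul, eval_pow, eval_X, zero_pow (Nat.succ_ne_zero M), zero_mul]
    · rw [hvan, eval_zero]
  · rw [← hsum l]
    refine Finset.sum_congr rfl fun j _ => ?_
    rw [Ng_GY hp0]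

end Pool.Agent.Lib.MP_1e3e9c_agY
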