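import Pool.Agent.Lib.MP_1e3e9c_agY.Nd
import Pool.Agent.Lib.MP_1e3e9c_agY.YN
import Pool.Agent.Lib.MP_1e3e9c_agV.M3

/-! LEAF Nh (medium).  The degree of `WY` for suitable `z`.

PROOF.  `h_j i = hs (A j) (v i)`, `b i = (p i).natDegree`, `e i = a i - b i`, `u_l = ∑ e_i v_il`, `L i = (p i).leadingCoeff ≠ 0`.  For `m ∈ A j`: `cd v h_j x p m 1` has degree `∑ b_i ex m 1 i = ∑ (a_i - e_i) (pr m (v i) + h_j i) = DD j - ∑ e_i h_j i - pr m u = ρ_j - (pr m u + hs (A j) u)` with `ρ_j = DD A v a j - ph A v e j` (an integer; `∑ a_i pr m (v i) = 0`) and leading coefficient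
`mn x m ∏ L_i^(ex m 1 i)`.  For `m` minimal for `u` (`hs_min`) the degree is `ρ_j`, so `ρ_j ≥ 0`; all terms have degree `≤ ρ_j` (`hs_ge`), and the coefficient of degree `ρ_j` is `mn x m ∏ L_i^(ex m 1 i) = λ_j mn q m` for `m ∈ B j = {m ∈ A j | pr m u + hs (A j) u = 0}` (not empty) and `0` otherwise, with `q_l = x_l ∏ L_i^(v_il)`, `λ_j = ∏ L_i^(h_j i) ≠ 0` (`zpow`).
For `j = t.succ`: the coefficient of degree `ρ_j` of `Ph j = 0` is `λ_j ∑_(B j) c_jm mn q m = 0`, that of `GY j l` is `λ_j ∑_(B j) c_jm mn q m m_l =: G t l`.  By `nd` (Nd; `J` = the image of `Fin.succ`, `gen_map hc`) the `G t` are linearly independent, `exists_dual` (Nd) gives `z` with `∑_l G t l * z t' l = 1` (the identity matrix).  `det_coeff` (M3 of agV) for the matrix of `WY`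
(entries in row `t` of degree `≤ ρ_(t.succ)`): the coefficient of degree `∑_t ρ_(t.succ)` of `WY` is `det 1 = 1`. -/

set_option autoImplicit false

namespace Pool.Agent.Lib.MP_1e3e9c_agY

open Polynomial Pool.Agent.Lib.MP_1e3e9c_agV

private theorem Nh_mn {K : Type} [Field K] {d : ℕ} {x : Fin d → K} (hx : ∀ j, x j ≠ 0)
    (m : Fin d → ℤ) : Pool.Agent.Lib.MP_1e3e9c_agV.mn x m ≠ 0 := by
  unfold Pool.Agent.Lib.MP_1e3e9c_agV.mn
  exact Finset.prod_ne_zero_iff.2 fun j _ => zpow_ne_zero _ (hx j)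

private theorem Nh_pr {d r : ℕ} (f : Fin r → ℤ) (v : Fin r → Fin d → ℤ) (m : Fin d → ℤ) :
    pr m (fun l => ∑ i, f i * v i l) = ∑ i, f i * pr m (v i) := by
  unfold pr
  simp only [Finset.mul_sum]
  rw [Finset.sum_comm]
  refine Finset.sum_congr rfl fun i _ => Finset.sum_congr rfl fun l _ => ?_
  ring

private theorem Nh_deg {K : Type} [Field K] {d r : ℕ} (v : Fin r → Fin d → ℤ) (h : Fin r → ℤ)
    {x : Fin d → K} (hx : ∀ j, x j ≠ 0) {p : Fin r → K[X]} (hp : ∀ i, p i ≠ 0) (m : Fin d → ℤ) :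
    (cd v h x p m 1).natDegree = ∑ i, ex v h m 1 i * (p i).natDegree := by
  unfold cd
  rw [natDegree_C_mul (Nh_mn hx m), natDegree_prod _ _ fun i _ => pow_ne_zero _ (hp i)]
  exact Finset.sum_congr rfl fun i _ => natDegree_pow _ _

private theorem Nh_lead {K : Type} [Field K] {d r : ℕ} (v : Fin r → Fin d → ℤ) (h : Fin r → ℤ)
    {x : Fin d → K} {p : Fin r → K[X]} (m : Fin d → ℤ) :
    (cd v h x p m 1).leadingCoeff =
      Pool.Agent.Lib.MP_1e3e9c_agV.mn x m * ∏ i, (p i).leadingCoeff ^ ex v h m 1 i := by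
  unfold cd
  rw [leadingCoeff_mul, leadingCoeff_C, leadingCoeff_prod]
  congr 1
  exact Finset.prod_congr rfl fun i _ => leadingCoeff_pow _ _

private theorem Nh_zs {K ι : Type} [Field K] {L : K} (hL : L ≠ 0) (s : Finset ι) (f : ι → ℤ) :
    ∏ l ∈ s, L ^ f l = L ^ ∑ l ∈ s, f l := by
  classical
  induction s using Finset.induction_on with
  | empty => rw [Finset.prod_empty, Finset.sum_empty, zpow_zero]
  | insert a s ha ih => rw [Finset.prod_insert ha, Finset.sum_insert ha, zpow_add₀ hL, ih]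

private theorem Nh_q {K : Type} [Field K] {d r : ℕ} (v : Fin r → Fin d → ℤ) (h : Fin r → ℤ)
    (x : Fin d → K) {L : Fin r → K} (hL : ∀ i, L i ≠ 0) (m : Fin d → ℤ)
    (hm : ∀ i, 0 ≤ pr m (v i) + h i) :
    Pool.Agent.Lib.MP_1e3e9c_agV.mn x m * ∏ i, L i ^ ex v h m 1 i = (∏ i, L i ^ h i) *
      Pool.Agent.Lib.MP_1e3e9c_agV.mn (fun l => x l * ∏ i, L i ^ v i l) m := by
  have h1 : ∀ i, L i ^ ex v h m 1 i = L i ^ h i * L i ^ pr m (v i) := by
    intro i
    rw [← zpow_natCast, ← zpow_add₀ (hL i)]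
    congr 1
    unfold ex
    rw [Nat.cast_one, one_mul, Int.toNat_of_nonneg (hm i), add_comm]
  have h2 : Pool.Agent.Lib.MP_1e3e9c_agV.mn (fun l => x l * ∏ i, L i ^ v i l) m =
      Pool.Agent.Lib.MP_1e3e9c_agV.mn x m * ∏ i, L i ^ pr m (v i) := by
    unfold Pool.Agent.Lib.MP_1e3e9c_agV.mn
    rw [Finset.prod_congr rfl fun l _ => mul_zpow (x l) (∏ i, L i ^ v i l) (m l),
      Finset.prod_mul_distrib]
    congr 1
    rw [Finset.prod_congr rfl fun l _ => (Finset.prod_zpow (fun i => L i ^ v i l) (m l)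
      (s := Finset.univ)).symm, Finset.prod_comm]
    refine Finset.prod_congr rfl fun i _ => ?_
    unfold pr
    rw [Finset.prod_congr rfl fun l _ => (zpow_mul (L i) (v i l) (m l)).symm, Nh_zs (hL i)]
    congr 1
    exact Finset.sum_congr rfl fun l _ => mul_comm _ _
  rw [Finset.prod_congr rfl fun i _ => h1 i, Finset.prod_mul_distrib, h2]
  ring

theorem wy_deg {E K : Type} [Field E] [CharZero E] [Field K] [CharZero K] [Algebra E K]
    {d r s : ℕ} {A : Fin (s + 1) → Finset (Fin d → ℤ)} {c : Fin (s + 1) → (Fin d → ℤ) → E}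
    (hc : Gen A c) {v : Fin r → Fin d → ℤ} {a : Fin r → ℕ} (hR : RelY A v a) {x : Fin d → K}
    (hx : ∀ j, x j ≠ 0) {p : Fin r → K[X]} (hp : ∀ i, (p i).natDegree ≤ a i)
    (hp0 : ∀ i, (p i).coeff 0 = 1) (hvan : ∀ j : Fin s, Ph A c v x p j.succ = 0) :
    ∃ (z : Fin s → Fin d → K) (ρ : ℕ),
      (ρ : ℤ) = ∑ t : Fin s, (DD A v a t.succ - ph A v (fun i => a i - (p i).natDegree) t.succ) ∧
      (WY A c v x p z).coeff ρ ≠ 0 := by
  classical
  have hd := d_pos hR
  obtain ⟨e, he⟩ : ∃ e : Fin r → ℕ, e = fun i => a i - (p i).natDegree := ⟨_, rfl⟩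
  obtain ⟨u, hu⟩ : ∃ u : Fin d → ℤ, u = fun l => ∑ i, (e i : ℤ) * v i l := ⟨_, rfl⟩
  have hei : ∀ i, (e i : ℤ) = (a i : ℤ) - ((p i).natDegree : ℤ) := by
    intro i
    rw [he]
    exact Nat.cast_sub (hp i)
  have hp1 : ∀ i, p i ≠ 0 := by
    intro i h
    have h1 := hp0 i
    rw [h, coeff_zero] at h1
    exact zero_ne_one h1
  have hL : ∀ i, (p i).leadingCoeff ≠ 0 := fun i => leadingCoeff_ne_zero.2 (hp1 i)
  obtain ⟨q, hq⟩ : ∃ q : Fin d → K, q = fun l => x l * ∏ i, (p i).leadingCoeff ^ v i l :=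
    ⟨_, rfl⟩
  have hq0 : ∀ l, q l ≠ 0 := by
    intro l
    rw [hq]
    exact mul_ne_zero (hx l) (Finset.prod_ne_zero_iff.2 fun i _ => zpow_ne_zero _ (hL i))
  obtain ⟨lam, hlam⟩ : ∃ lam : Fin (s + 1) → K,
      ∀ j, lam j = ∏ i, (p i).leadingCoeff ^ hs (A j) (v i) := ⟨_, fun _ => rfl⟩
  have hlam0 : ∀ j, lam j ≠ 0 := by
    intro j
    rw [hlam]
    exact Finset.prod_ne_zero_iff.2 fun i _ => zpow_ne_zero _ (hL i)
  obtain ⟨B, hB⟩ : ∃ B : Fin (s + 1) → Finset (Fin d → ℤ),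
      ∀ j, B j = (A j).filter fun m => pr m u + hs (A j) u = 0 := ⟨_, fun _ => rfl⟩
  have hBA : ∀ j, B j ⊆ A j := by
    intro j
    rw [hB]
    exact Finset.filter_subset _ _
  have hBn : ∀ j, (B j).Nonempty := by
    intro j
    obtain ⟨m, hm1, hm2⟩ := hs_min (ne_of_full (hR.full j) hd) u
    exact ⟨m, by rw [hB, Finset.mem_filter]; exact ⟨hm1, hm2⟩⟩
  -- the degrees
  have hdeg : ∀ j, ∀ m ∈ A j, ((cd v (fun i => hs (A j) (v i)) x p m 1).natDegree : ℤ) =
      DD A v a j - ph A v e j - (pr m u + hs (A j) u) := by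
    intro j m hm
    rw [Nh_deg v _ hx hp1, Nat.cast_sum]
    have h1 : ∀ i, ((ex v (fun i => hs (A j) (v i)) m 1 i * (p i).natDegree : ℕ) : ℤ) =
        (a i : ℤ) * pr m (v i) + (a i : ℤ) * hs (A j) (v i) - (e i : ℤ) * hs (A j) (v i) -
          (e i : ℤ) * pr m (v i) := by
      intro i
      have h2 : ((ex v (fun i => hs (A j) (v i)) m 1 i : ℕ) : ℤ) =
          pr m (v i) + hs (A j) (v i) := by
        unfold ex
        rw [Nat.cast_one, one_mul, Int.toNat_of_nonneg (hs_ge hm (v i))]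
      rw [Nat.cast_mul, h2, hei]
      ring
    rw [Finset.sum_congr rfl fun i _ => h1 i, Finset.sum_sub_distrib, Finset.sum_sub_distrib,
      Finset.sum_add_distrib, ← Nh_pr (fun i => (a i : ℤ)), ← Nh_pr (fun i => (e i : ℤ)), ← hu]
    have h3 : pr m (fun l => ∑ i, (a i : ℤ) * v i l) = 0 := by
      unfold pr
      refine Finset.sum_eq_zero fun l _ => ?_
      show m l * ∑ i, (a i : ℤ) * v i l = 0
      rw [hR.rel l, mul_zero]
    rw [h3]
    unfold DD ph
    rw [← hu]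
    ring
  obtain ⟨R, hRj⟩ : ∃ R : Fin (s + 1) → ℕ, ∀ j, (R j : ℤ) = DD A v a j - ph A v e j := by
    refine ⟨fun j => (DD A v a j - ph A v e j).toNat, fun j => ?_⟩
    obtain ⟨m, hm⟩ := hBn j
    have h1 := hdeg j m (hBA j hm)
    rw [hB, Finset.mem_filter] at hm
    rw [hm.2, sub_zero] at h1
    exact Int.toNat_of_nonneg (h1 ▸ Int.natCast_nonneg _)
  have hle : ∀ j, ∀ m ∈ A j, (cd v (fun i => hs (A j) (v i)) x p m 1).natDegree ≤ R j := by
    intro j m hm
    have h1 := hdeg j m hm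
    rw [← hRj] at h1
    have h2 := hs_ge hm u
    omega
  have hco : ∀ j, ∀ m ∈ A j, (cd v (fun i => hs (A j) (v i)) x p m 1).coeff (R j) =
      if pr m u + hs (A j) u = 0 then lam j * Pool.Agent.Lib.MP_1e3e9c_agV.mn q m else 0 := by
    intro j m hm
    have h1 := hdeg j m hm
    rw [← hRj] at h1
    split_ifs with h
    · rw [h, sub_zero] at h1
      have h2 : (cd v (fun i => hs (A j) (v i)) x p m 1).natDegree = R j := by
        exact_mod_cast h1
      rw [← h2, coeff_natDegree, Nh_lead, Nh_q v _ x hL m fun i => hs_ge hm (v i), hlam, hq]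
    · refine coeff_eq_zero_of_natDegree_lt ?_
      have h2 := hs_ge hm u
      omega
  -- the sums over `B`
  have hsum : ∀ (j : Fin (s + 1)) (f : (Fin d → ℤ) → K),
      (∑ m ∈ A j, C (f m) * cd v (fun i => hs (A j) (v i)) x p m 1).coeff (R j) =
        lam j * ∑ m ∈ B j, f m * Pool.Agent.Lib.MP_1e3e9c_agV.mn q m := by
    intro j f
    rw [finsetSum_coeff, hB, Finset.sum_filter, Finset.mul_sum]
    refine Finset.sum_congr rfl fun m hm => ?_
    rw [coeff_C_mul, hco j m hm]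
    split_ifs with h
    · ring
    · rw [mul_zero, mul_zero]
  have hnat : ∀ (j : Fin (s + 1)) (f : (Fin d → ℤ) → K),
      (∑ m ∈ A j, C (f m) * cd v (fun i => hs (A j) (v i)) x p m 1).natDegree ≤ R j := by
    intro j f
    refine natDegree_sum_le_of_forall_le _ _ fun m hm => ?_
    exact (natDegree_C_mul_le _ _).trans (hle j m hm)
  obtain ⟨G, hG⟩ : ∃ G : Fin s → Fin d → K, ∀ t l, G t l = lam t.succ *
      ∑ m ∈ B t.succ, algebraMap E K (c t.succ m) * (m l : K) *
        Pool.Agent.Lib.MP_1e3e9c_agV.mn q m := ⟨_, fun _ _ => rfl⟩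
  have hvan' : ∀ t : Fin s, ∑ m ∈ B t.succ, algebraMap E K (c t.succ m) *
      Pool.Agent.Lib.MP_1e3e9c_agV.mn q m = 0 := by
    intro t
    have h1 := hsum t.succ fun m => algebraMap E K (c t.succ m)
    have h2 := hvan t
    unfold Ph Phi at h2
    rw [h2, coeff_zero] at h1
    exact (mul_eq_zero.1 h1.symm).resolve_left (hlam0 _)
  have hind : LinearIndependent K G := by
    rw [Fintype.linearIndependent_iff]
    intro g hg t
    obtain ⟨μ, hμ⟩ : ∃ μ : Fin (s + 1) → K, ∀ t, μ t.succ = g t * lam t.succ :=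
      ⟨Fin.cons 0 fun t => g t * lam t.succ, fun t => Fin.cons_succ _ _ _⟩
    have h1 := nd (gen_map (K := K) hc) hq0 hBA hBn
      (J := Finset.univ.image (Fin.succ : Fin s → Fin (s + 1))) (fun j hj => by
        obtain ⟨t, -, rfl⟩ := Finset.mem_image.1 hj
        exact hvan' t) (μ := μ) (fun l => by
        rw [Finset.sum_image fun t _ t' _ h => Fin.succ_injective s h]
        have h2 := congrFun hg l
        rw [Finset.sum_apply] at h2
        refine Eq.trans (Finset.sum_congr rfl fun t _ => ?_) h2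
        rw [Pi.smul_apply, smul_eq_mul, hG, hμ, mul_assoc]
        congr 2
        exact Finset.sum_congr rfl fun m _ => by ring) t.succ
      (Finset.mem_image_of_mem _ (Finset.mem_univ t))
    rw [hμ] at h1
    exact (mul_eq_zero.1 h1).resolve_right (hlam0 _)
  obtain ⟨z, hz⟩ := exists_dual hind
  refine ⟨z, ∑ t : Fin s, R t.succ, ?_, ?_⟩
  · rw [Nat.cast_sum]
    refine Finset.sum_congr rfl fun t _ => ?_
    rw [hRj, he]
  · have hdet := (Pool.Agent.Lib.MP_1e3e9c_agV.det_coeff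
      (Matrix.of fun t t' : Fin s => ∑ l, GY A c v x p t.succ l * C (z t' l))
      (fun t => R t.succ) (fun t t' => by
        show (∑ l, GY A c v x p t.succ l * C (z t' l)).natDegree ≤ R t.succ
        refine natDegree_sum_le_of_forall_le _ _ fun l _ => ?_
        refine (natDegree_mul_C_le _ _).trans ?_
        exact hnat t.succ fun m => algebraMap E K (c t.succ m) * (m l : K))).2
    unfold WY
    rw [hdet]
    have h1 : (Matrix.of fun t t' : Fin s => ((Matrix.of fun t t' : Fin s =>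
        ∑ l, GY A c v x p t.succ l * C (z t' l)) t t').coeff (R t.succ)) =
        Matrix.of fun t t' : Fin s => ∑ l, G t l * z t' l := by
      ext t t'
      show (∑ l, GY A c v x p t.succ l * C (z t' l)).coeff (R t.succ) = ∑ l, G t l * z t' l
      rw [finsetSum_coeff]
      refine Finset.sum_congr rfl fun l _ => ?_
      rw [coeff_mul_C, hG]
      congr 1
      exact hsum t.succ fun m => algebraMap E K (c t.succ m) * (m l : K)
    rw [h1, hz, Matrix.det_one]
    exact one_ne_zero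

end Pool.Agent.Lib.MP_1e3e9c_agY
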