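import Pool.Agent.Lib.MP_1e3e9c_agY.YN
import Pool.Agent.Lib.MP_1e3e9c_agY.Ni
import Pool.Agent.Lib.MP_1e3e9c_agY.Nj
import Pool.Agent.Lib.MP_1e3e9c_agV.M3

/-! LEAF Nl (medium).  The degree of the determinant if exactly one `p_i` has degree `a_i - 1`.

PROOF.  `b i = (p i).natDegree` (`b i0 + 1 = a i0`, `b i = a i` for the others), `L i = (p i).leadingCoeff ≠ 0` (`p i ≠ 0` as `(p i).coeff 0 = 1`).  Let `B'` be `B = BY ..` with the column `inl (inl 0)` multiplied by `X` (`Matrix.updateCol`, `Matrix.det_updateCol_smul`): `det B' = X * det B`.  `det_coeff` (M3 of agV) for `B'`, `ρ (inl _) = 0`, `ρ (inr i) = b i` (`X * derivative (p i)` has degree `≤ b i`, coefficient `b i * L i` of degree `b i`):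
the coefficient of degree `∑ b_i` of `X * det B` is the determinant of the matrix `M` with the columns: `inl (inl 0)`: `(0; b_i L_i)`; `inl (inl j.succ)`: `(δ_j x_l / x_l; δ_j L_i)`; `inl (inr t)`: `(z_t; 0)`; `inr i`: `(- v_i; L_i)`.  Claim: `det M = 0`; then (as in Nk) `1 + deg det B < ∑ b_i`.  `Matrix.exists_mulVec_eq_zero_iff`: it is enough to find a vector `ξ ≠ 0` with `M ξ = 0`.
Column `inl (inl 0)` minus `∑ b_i` (column `inr i`) is `(∑ b_i v_i; 0) = (- v_i0; 0)` (`∑ a_i v_i = 0`).  Let `j : Fin n` (`n ≥ 1`): column `inl (inl j.succ)` minus `∑_i (δ_j L_i / L_i)` (column `inr i`) is `(θ; 0)`, `θ_l = δ_j x_l / x_l + ∑_i v_il δ_j L_i / L_i`.  For `m, m'` with `Fa (A 0) (v i0) m`, `Fa (A 0) (v i0) m'`: `∑_l (m_l - m'_l) θ_l = 0`: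
this is `dlog_ratY` (Nj) (`(p i).coeff (a i)` is `L i` for `i ≠ i0` and `0` for `i = i0`, where `0 / 0 = 0` and `pr m (v i0) - pr m' (v i0) = 0`; `h0`: only `i = i0` occurs, as `L i ≠ 0`).  By `fct_field` (Ni, `hR.fct 0 i0`) `θ = κ v_i0`.  So `(column inl (inl j.succ) - ∑_i (δ_j L_i / L_i) column inr i) + κ (column inl (inl 0) - ∑ b_i column inr i) = 0`; the coefficient of the column `inl (inl j.succ)` is `1`. -/

set_option autoImplicit false

namespace Pool.Agent.Lib.MP_1e3e9c_agY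

open Polynomial Matrix Pool.Agent.Lib.MP_1e3e9c_agV

/-- The matrix with the first column multiplied by `X`. -/
private noncomputable def Nl_C {k K : Type} [Field k] [Field K] [Algebra k K] {d n r s : ℕ}
    (e : Fin (n + 1) ⊕ Fin s ≃ Fin d) (v : Fin r → Fin d → ℤ) (δ : Fin n → Derivation k K K)
    (Δ : Fin n → Derivation k K[X] K[X]) (x : Fin d → K) (p : Fin r → K[X])
    (z : Fin s → Fin d → K) :
    Matrix ((Fin (n + 1) ⊕ Fin s) ⊕ Fin r) ((Fin (n + 1) ⊕ Fin s) ⊕ Fin r) K[X] :=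
  (BY e v δ Δ x p z).updateCol (Sum.inl (Sum.inl 0))
    (Sum.elim (fun _ => 0) (fun i => X * derivative (p i)))

private theorem Nl_det {k K : Type} [Field k] [Field K] [Algebra k K] {d n r s : ℕ}
    (e : Fin (n + 1) ⊕ Fin s ≃ Fin d) (v : Fin r → Fin d → ℤ) (δ : Fin n → Derivation k K K)
    (Δ : Fin n → Derivation k K[X] K[X]) (x : Fin d → K) (p : Fin r → K[X])
    (z : Fin s → Fin d → K) : (Nl_C e v δ Δ x p z).det = X * (BY e v δ Δ x p z).det := by
  classical
  have h1 := det_updateCol_smul (BY e v δ Δ x p z) (Sum.inl (Sum.inl 0)) X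
    (fun c => BY e v δ Δ x p z c (Sum.inl (Sum.inl 0)))
  rw [updateCol_eq_self] at h1
  rw [← h1, Nl_C]
  congr 2
  funext c
  rw [Pi.smul_apply, smul_eq_mul]
  rcases c with b | i
  · simp only [Sum.elim_inl, BY, fromBlocks_apply₁₁, of_apply, Fin.cons_zero, mul_zero]
  · simp only [Sum.elim_inr, BY, fromBlocks_apply₂₁, of_apply, Sum.elim_inl, Fin.cons_zero]

private theorem Nl_coeff {K : Type} [Field K] (q : K[X]) (m : ℕ) :
    (X * derivative q).coeff m = (m : K) * q.coeff m := by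
  rcases m with _ | m
  · rw [coeff_X_mul_zero]
    push_cast
    ring
  · rw [coeff_X_mul, coeff_derivative]
    push_cast
    ring

private theorem Nl_deg {K : Type} [Field K] (q : K[X]) :
    (X * derivative q).natDegree ≤ q.natDegree := by
  rw [natDegree_le_iff_coeff_eq_zero]
  intro N hN
  rw [Nl_coeff, coeff_eq_zero_of_natDegree_lt hN, mul_zero]

private theorem Nl_Δ {K : Type} [Field K] {k : Type} [Field k] [Algebra k K]
    (δ : Derivation k K K) (Δ : Derivation k K[X] K[X])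
    (hΔ : ∀ (q : K[X]) i, (Δ q).coeff i = δ (q.coeff i)) (q : K[X]) :
    (Δ q).natDegree ≤ q.natDegree := by
  rw [natDegree_le_iff_coeff_eq_zero]
  intro N hN
  rw [hΔ, coeff_eq_zero_of_natDegree_lt hN, map_zero]

/-- The matrix of the leading coefficients is singular. -/
private theorem Nl_sing {K : Type} [Field K] {d n r s : ℕ} (e : Fin (n + 1) ⊕ Fin s ≃ Fin d)
    (v : Fin r → Fin d → ℤ) (D : Fin n → Fin d → K) (Z : Fin s → Fin d → K) (L : Fin r → K)
    (E : Fin n → Fin r → K) (b : Fin r → K) (hL : ∀ i, L i ≠ 0) (j : Fin n) (κ : K)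
    (h : ∀ l, D j l + ∑ i, ((v i l : ℤ) : K) * (E j i / L i) +
      κ * ∑ i, b i * ((v i l : ℤ) : K) = 0) :
    (Matrix.fromBlocks
      (Matrix.of fun c c' => (Sum.elim (Fin.cons 0 (fun j => D j (e c)) : Fin (n + 1) → K)
        (fun t => Z t (e c)) : Fin (n + 1) ⊕ Fin s → K) c')
      (Matrix.of fun c i => - ((v i (e c) : ℤ) : K))
      (Matrix.of fun i c' => (Sum.elim (Fin.cons (b i * L i) (fun j => E j i) : Fin (n + 1) → K)
        (fun _ => 0) : Fin (n + 1) ⊕ Fin s → K) c')
      (Matrix.diagonal L)).det = 0 := by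
  classical
  refine Matrix.exists_mulVec_eq_zero_iff.1 ⟨Sum.elim (Sum.elim (Fin.cons κ (Pi.single j 1))
    (fun _ => 0)) (fun i => - (E j i / L i) - κ * b i), ?_, ?_⟩
  · intro h1
    have h2 := congrFun h1 (Sum.inl (Sum.inl j.succ))
    rw [Sum.elim_inl, Sum.elim_inl, Fin.cons_succ, Pi.single_eq_same] at h2
    exact one_ne_zero h2
  · have hs : ∀ f : Fin n → K, ∑ j', f j' * (Pi.single j 1 : Fin n → K) j' = f j := by
      intro f
      rw [Finset.sum_eq_single j]
      · rw [Pi.single_eq_same, mul_one]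
      · intro j' _ hj'
        rw [Pi.single_eq_of_ne hj', mul_zero]
      · intro h1
        exact absurd (Finset.mem_univ j) h1
    rw [Matrix.fromBlocks_mulVec, Sum.elim_comp_inl, Sum.elim_comp_inr]
    funext c
    rcases c with c | i
    · simp only [Sum.elim_inl, Pi.add_apply, Matrix.mulVec, dotProduct, Matrix.of_apply,
        Fintype.sum_sum_type, Sum.elim_inr, Fin.sum_univ_succ, Fin.cons_zero, Fin.cons_succ,
        zero_mul, mul_zero, Finset.sum_const_zero, zero_add, add_zero, hs, Pi.zero_apply]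
      rw [← h (e c), add_assoc]
      congr 1
      rw [Finset.mul_sum, ← Finset.sum_add_distrib]
      exact Finset.sum_congr rfl fun i _ => by ring
    · simp only [Sum.elim_inr, Pi.add_apply, Matrix.mulVec, dotProduct, Matrix.of_apply,
        Fintype.sum_sum_type, Sum.elim_inl, Fin.sum_univ_succ, Fin.cons_zero, Fin.cons_succ,
        mul_zero, Finset.sum_const_zero, add_zero, hs, Pi.zero_apply, Matrix.diagonal_apply,
        ite_mul, zero_mul, Finset.sum_ite_eq, Finset.mem_univ, if_true]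
      have h1 := hL i
      field_simp
      ring

theorem deg_two {k K : Type} [Field k] [Field K] [CharZero K] [Algebra k K] {d n r s : ℕ}
    (hn : 1 ≤ n) {e : Fin (n + 1) ⊕ Fin s ≃ Fin d} {A : Fin (s + 1) → Finset (Fin d → ℤ)}
    {v : Fin r → Fin d → ℤ} {a : Fin r → ℕ} (hR : RelY A v a) {y : (Fin d → ℤ) → k}
    (hy : ∃ m ∈ A 0, y m ≠ 0) {δ : Fin n → Derivation k K K}
    {Δ : Fin n → Derivation k K[X] K[X]} (hΔ : ∀ j (q : K[X]) i, (Δ j q).coeff i = δ j (q.coeff i))
    {x : Fin d → K} (hx : ∀ j, x j ≠ 0) {p : Fin r → K[X]} (hp0 : ∀ i, (p i).coeff 0 = 1)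
    (hrat : ∀ m ∈ A 0, ∀ m' ∈ A 0, ld v a (fun i => hs (A 0) (v i)) x p m * algebraMap k K (y m') =
      ld v a (fun i => hs (A 0) (v i)) x p m' * algebraMap k K (y m))
    {z : Fin s → Fin d → K} {i0 : Fin r} (h0 : (p i0).natDegree + 1 = a i0)
    (h1 : ∀ i, i ≠ i0 → (p i).natDegree = a i) (hd : (BY e v δ Δ x p z).det ≠ 0) :
    (BY e v δ Δ x p z).det.natDegree + 2 ≤ ∑ i, (p i).natDegree := by
  classical
  have hpne : ∀ i, p i ≠ 0 := by
    intro i h
    have h1 := hp0 i
    rw [h, coeff_zero] at h1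
    exact zero_ne_one h1
  have hL : ∀ i, (p i).leadingCoeff ≠ 0 := fun i => leadingCoeff_ne_zero.2 (hpne i)
  -- the linear algebra
  have hR0 := rel0 hR 0
  obtain ⟨j, -⟩ : ∃ j : Fin n, j.1 = 0 := ⟨⟨0, hn⟩, rfl⟩
  have hpr : ∀ (m m' : Fin d → ℤ) (i : Fin r), ∑ l, ((m l - m' l : ℤ) : K) * ((v i l : ℤ) : K) =
      ((pr m (v i) - pr m' (v i) : ℤ) : K) := by
    intro m m' i
    unfold pr
    rw [← Finset.sum_sub_distrib]
    push_cast
    exact Finset.sum_congr rfl fun l _ => by ring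
  have hθ : ∀ m m', Fa (A 0) (v i0) m → Fa (A 0) (v i0) m' →
      ∑ l, ((m l - m' l : ℤ) : K) * (δ j (x l) / x l +
        ∑ i, ((v i l : ℤ) : K) * (δ j (p i).leadingCoeff / (p i).leadingCoeff)) = 0 := by
    intro m m' hm hm'
    have h2 := dlog_ratY hR0 hy hx hrat (δ j) hm.1 hm'.1 (fun i hi => by
      by_cases h : i = i0
      · rw [h]
        exact ⟨hm.2, hm'.2⟩
      · rw [← h1 i h] at hi
        exact absurd hi (hL i))
    rw [← h2]
    simp only [mul_add, Finset.sum_add_distrib]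
    congr 1
    simp only [Finset.mul_sum]
    rw [Finset.sum_comm]
    refine Finset.sum_congr rfl fun i _ => ?_
    have h3 : ∑ l, ((m l - m' l : ℤ) : K) * (((v i l : ℤ) : K) *
        (δ j (p i).leadingCoeff / (p i).leadingCoeff)) =
        ((pr m (v i) - pr m' (v i) : ℤ) : K) *
          (δ j (p i).leadingCoeff / (p i).leadingCoeff) := by
      rw [← hpr, Finset.sum_mul]
      exact Finset.sum_congr rfl fun l _ => by ring
    rw [h3]
    by_cases h : i = i0
    · have h4 : pr m (v i) - pr m' (v i) = 0 := by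
        rw [h]
        have h5 := hm.2
        have h6 := hm'.2
        omega
      rw [h4, Int.cast_zero, zero_mul, zero_mul]
    · rw [← h1 i h]
      rfl
  obtain ⟨κ, hκ⟩ := fct_field (hR.fct 0 i0) hθ
  have hbv : ∀ l, ∑ i, ((p i).natDegree : K) * ((v i l : ℤ) : K) = - ((v i0 l : ℤ) : K) := by
    intro l
    have h2 := hR.rel l
    have h3 : ∑ i, ((p i).natDegree : ℤ) * v i l + v i0 l = 0 := by
      rw [← h2, ← Finset.add_sum_erase _ _ (Finset.mem_univ i0),
        ← Finset.add_sum_erase _ _ (Finset.mem_univ i0), ← h0]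
      have h4 : ∑ i ∈ Finset.univ.erase i0, ((p i).natDegree : ℤ) * v i l =
          ∑ i ∈ Finset.univ.erase i0, (a i : ℤ) * v i l :=
        Finset.sum_congr rfl fun i hi => by rw [h1 i (Finset.ne_of_mem_erase hi)]
      rw [h4]
      push_cast
      ring
    have h5 : ((∑ i, ((p i).natDegree : ℤ) * v i l + v i0 l : ℤ) : K) = 0 := by
      rw [h3, Int.cast_zero]
    push_cast at h5
    exact eq_neg_of_add_eq_zero_left h5
  have hsing := Nl_sing e v (fun j l => δ j (x l) / x l) z (fun i => (p i).leadingCoeff)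
    (fun j i => δ j (p i).leadingCoeff) (fun i => ((p i).natDegree : K)) hL j κ (fun l => by
      have h2 := hκ l
      simp only [hbv]
      rw [h2]
      ring)
  -- the matrix
  obtain ⟨ρ, hρ⟩ : ∃ ρ : (Fin (n + 1) ⊕ Fin s) ⊕ Fin r → ℕ,
    ρ = Sum.elim (fun _ => 0) (fun i => (p i).natDegree) := ⟨_, rfl⟩
  have hC00 : ∀ b, Nl_C e v δ Δ x p z (Sum.inl b) (Sum.inl (Sum.inl 0)) = 0 := by
    intro b
    rw [Nl_C, updateCol_self, Sum.elim_inl]
  have hC01 : ∀ b (j : Fin n), Nl_C e v δ Δ x p z (Sum.inl b) (Sum.inl (Sum.inl j.succ)) =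
      C (δ j (x (e b)) / x (e b)) := by
    intro b j
    rw [Nl_C, updateCol_ne (by simp [Fin.succ_ne_zero])]
    simp only [BY, fromBlocks_apply₁₁, of_apply, Sum.elim_inl, Fin.cons_succ]
  have hC0z : ∀ b t, Nl_C e v δ Δ x p z (Sum.inl b) (Sum.inl (Sum.inr t)) = C (z t (e b)) := by
    intro b t
    rw [Nl_C, updateCol_ne (by simp)]
    simp only [BY, fromBlocks_apply₁₁, of_apply, Sum.elim_inr]
  have hC02 : ∀ b i, Nl_C e v δ Δ x p z (Sum.inl b) (Sum.inr i) = - C ((v i (e b) : ℤ) : K) := by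
    intro b i
    rw [Nl_C, updateCol_ne (by simp)]
    simp only [BY, fromBlocks_apply₁₂, of_apply]
  have hC10 : ∀ i, Nl_C e v δ Δ x p z (Sum.inr i) (Sum.inl (Sum.inl 0)) =
      X * derivative (p i) := by
    intro i
    rw [Nl_C, updateCol_self, Sum.elim_inr]
  have hC11 : ∀ i (j : Fin n), Nl_C e v δ Δ x p z (Sum.inr i) (Sum.inl (Sum.inl j.succ)) =
      Δ j (p i) := by
    intro i j
    rw [Nl_C, updateCol_ne (by simp [Fin.succ_ne_zero])]
    simp only [BY, fromBlocks_apply₂₁, of_apply, Sum.elim_inl, Fin.cons_succ]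
  have hC1z : ∀ i t, Nl_C e v δ Δ x p z (Sum.inr i) (Sum.inl (Sum.inr t)) = 0 := by
    intro i t
    rw [Nl_C, updateCol_ne (by simp)]
    simp only [BY, fromBlocks_apply₂₁, of_apply, Sum.elim_inr]
  have hC12 : ∀ i i', Nl_C e v δ Δ x p z (Sum.inr i) (Sum.inr i') = diagonal p i i' := by
    intro i i'
    rw [Nl_C, updateCol_ne (by simp)]
    simp only [BY, fromBlocks_apply₂₂]
  have hdeg : ∀ b c, (Nl_C e v δ Δ x p z b c).natDegree ≤ ρ b := by
    intro b c
    rw [hρ]
    rcases b with b | i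
    · rw [Sum.elim_inl]
      rcases c with (j | t) | i
      · refine Fin.cases ?_ (fun j => ?_) j
        · rw [hC00, natDegree_zero]
        · rw [hC01, natDegree_C]
      · rw [hC0z, natDegree_C]
      · rw [hC02, natDegree_neg, natDegree_C]
    · rw [Sum.elim_inr]
      rcases c with (j | t) | i'
      · refine Fin.cases ?_ (fun j => ?_) j
        · rw [hC10]
          exact Nl_deg (p i)
        · rw [hC11]
          exact Nl_Δ (δ j) (Δ j) (hΔ j) (p i)
      · rw [hC1z, natDegree_zero]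
        exact Nat.zero_le _
      · rw [hC12, diagonal_apply]
        split_ifs
        · exact le_rfl
        · rw [natDegree_zero]
          exact Nat.zero_le _
  obtain ⟨h2, h3⟩ := det_coeff (Nl_C e v δ Δ x p z) ρ hdeg
  have hsum : ∑ b, ρ b = ∑ i, (p i).natDegree := by
    rw [hρ, Fintype.sum_sum_type]
    simp only [Sum.elim_inl, Sum.elim_inr, Finset.sum_const_zero, zero_add]
  have h4 : (Matrix.of fun b c => (Nl_C e v δ Δ x p z b c).coeff (ρ b)) =
      Matrix.fromBlocks
      (Matrix.of fun c c' => (Sum.elim (Fin.cons 0 (fun j => δ j (x (e c)) / x (e c)) :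
        Fin (n + 1) → K) (fun t => z t (e c)) : Fin (n + 1) ⊕ Fin s → K) c')
      (Matrix.of fun c i => - ((v i (e c) : ℤ) : K))
      (Matrix.of fun i c' => (Sum.elim (Fin.cons (((p i).natDegree : K) * (p i).leadingCoeff)
        (fun j => δ j (p i).leadingCoeff) : Fin (n + 1) → K)
        (fun _ => 0) : Fin (n + 1) ⊕ Fin s → K) c')
      (Matrix.diagonal fun i => (p i).leadingCoeff) := by
    ext b c
    rw [hρ, of_apply]
    rcases b with b | i
    · rw [Sum.elim_inl]
      rcases c with (j | t) | i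
      · rw [fromBlocks_apply₁₁, of_apply, Sum.elim_inl]
        refine Fin.cases ?_ (fun j => ?_) j
        · rw [hC00, coeff_zero, Fin.cons_zero]
        · rw [hC01, coeff_C_zero, Fin.cons_succ]
      · rw [fromBlocks_apply₁₁, of_apply, Sum.elim_inr, hC0z, coeff_C_zero]
      · rw [fromBlocks_apply₁₂, of_apply, hC02, coeff_neg, coeff_C_zero]
    · rw [Sum.elim_inr]
      rcases c with (j | t) | i'
      · rw [fromBlocks_apply₂₁, of_apply, Sum.elim_inl]
        refine Fin.cases ?_ (fun j => ?_) j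
        · rw [hC10, Fin.cons_zero, Nl_coeff]
          rfl
        · rw [hC11, Fin.cons_succ, hΔ]
          rfl
      · rw [fromBlocks_apply₂₁, of_apply, Sum.elim_inr, hC1z, coeff_zero]
      · rw [fromBlocks_apply₂₂, hC12, diagonal_apply, diagonal_apply]
        split_ifs
        · rfl
        · rw [coeff_zero]
  rw [h4, hsing, hsum, Nl_det] at h3
  rw [hsum, Nl_det] at h2
  have h5 : (X * (BY e v δ Δ x p z).det).natDegree = (BY e v δ Δ x p z).det.natDegree + 1 := by
    rw [natDegree_mul X_ne_zero hd, natDegree_X, Nat.add_comm]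
  have h6 : X * (BY e v δ Δ x p z).det ≠ 0 := mul_ne_zero X_ne_zero hd
  have h7 : (X * (BY e v δ Δ x p z).det).natDegree ≠ ∑ i, (p i).natDegree := by
    intro h8
    rw [← h8, coeff_natDegree, leadingCoeff_eq_zero] at h3
    exact h6 h3
  omega

end Pool.Agent.Lib.MP_1e3e9c_agY
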