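import Pool.Agent.Lib.MP_1e3e9c_agY.YN
import Pool.Agent.Lib.MP_1e3e9c_agY.Ni
import Pool.Agent.Lib.MP_1e3e9c_agY.Nj
import Pool.Agent.Lib.MP_1e3e9c_agV.M3

/-! LEAF Nm (medium; model: `natDegree_det` in M6 of agV, proved there).  The degree of the determinant if all `p_i` have degree `a_i`.

PROOF.  `L i = (p i).leadingCoeff = (p i).coeff (a i) ≠ 0`.  Let `B'` be `B = BY ..` with the column `inl (inl 0)` replaced by: `0` in the rows `inl _`, `X * (X * derivative (p i) - C (a i) * p i)` in the rows `inr i`.  `det B' = X^2 det B`: the new column is `X^2 * (column inl (inl 0)) - ∑_i C (a_i) X * (column inr i)` (rows `inl b`: `∑_i a_i v_i (e b) = 0`, `hR.rel`) (as in M6).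
`det_coeff` (M3 of agV) for `B'`, `ρ (inl _) = 0`, `ρ (inr i) = a i`: all entries have such degrees (`deg (X p' - a p) ≤ a - 1`); the coefficient of degree `∑ a_i` of `X^2 det B` is the determinant of the matrix `M` with the columns `inl (inl 0)`: `(0; - ϖ_i)`, `inl (inl j.succ)`: `(δ_j x_l / x_l; δ_j L_i)`, `inl (inr t)`: `(z_t; 0)`, `inr i`: `(- v_i; L_i)`.
Claim: `det M = 0`; then `2 + deg det B < ∑ a_i` (as `X^2 det B ≠ 0`).  `Matrix.exists_mulVec_eq_zero_iff`: for `j : Fin n` (`n ≥ 1`) column `inl (inl j.succ)` minus `∑_i (δ_j L_i / L_i)` (column `inr i`) is `(θ; 0)`, `θ_l = δ_j x_l / x_l + ∑_i v_il δ_j L_i / L_i`; for all `m, m' ∈ A 0`: `∑_l (m_l - m'_l) θ_l = 0` (`dlog_ratY`, Nj; `h0` is empty as `L i ≠ 0`),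
so `θ = 0` by `full_field` (Ni, `hR.full 0`): the column `inl (inl j.succ)` is a combination of the columns `inr i`. -/

set_option autoImplicit false

namespace Pool.Agent.Lib.MP_1e3e9c_agY

open Polynomial Matrix Pool.Agent.Lib.MP_1e3e9c_agV

private theorem Nm_coeff {K : Type} [Field K] (q : K[X]) (a m : ℕ) :
    (X * (X * derivative q - C (a : K) * q)).coeff (m + 1) = ((m : K) - a) * q.coeff m := by
  rw [coeff_X_mul, coeff_sub, coeff_C_mul]
  rcases m with _ | m
  · rw [coeff_X_mul_zero]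
    push_cast
    ring
  · rw [coeff_X_mul, coeff_derivative]
    push_cast
    ring

private theorem Nm_deg {K : Type} [Field K] (q : K[X]) {a : ℕ} (hq : q.natDegree ≤ a) :
    (X * (X * derivative q - C (a : K) * q)).natDegree ≤ a := by
  rw [natDegree_le_iff_coeff_eq_zero]
  intro N hN
  obtain ⟨m, rfl⟩ : ∃ m, N = m + 1 := ⟨N - 1, by omega⟩
  rw [Nm_coeff]
  rcases Nat.lt_or_ge a m with h | h
  · rw [coeff_eq_zero_of_natDegree_lt (by omega), mul_zero]
  · have h1 : m = a := by omega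
    rw [h1, sub_self, zero_mul]

private theorem Nm_top {K : Type} [Field K] (q : K[X]) {a : ℕ} (ha : 0 < a) :
    (X * (X * derivative q - C (a : K) * q)).coeff a = - q.coeff (a - 1) := by
  obtain ⟨m, rfl⟩ : ∃ m, a = m + 1 := ⟨a - 1, by omega⟩
  rw [Nm_coeff, Nat.add_sub_cancel]
  push_cast
  ring

private theorem Nm_Δ {K : Type} [Field K] {k : Type} [Field k] [Algebra k K]
    (δ : Derivation k K K) (Δ : Derivation k K[X] K[X])
    (hΔ : ∀ (q : K[X]) i, (Δ q).coeff i = δ (q.coeff i)) (q : K[X]) {a : ℕ} (hq : q.natDegree ≤ a) :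
    (Δ q).natDegree ≤ a := by
  rw [natDegree_le_iff_coeff_eq_zero]
  intro N hN
  rw [hΔ, coeff_eq_zero_of_natDegree_lt (by omega), map_zero]

/-- The matrix with the new first column. -/
private noncomputable def Nm_C {k K : Type} [Field k] [Field K] [Algebra k K] {d n r s : ℕ}
    (e : Fin (n + 1) ⊕ Fin s ≃ Fin d) (v : Fin r → Fin d → ℤ) (a : Fin r → ℕ)
    (δ : Fin n → Derivation k K K) (Δ : Fin n → Derivation k K[X] K[X]) (x : Fin d → K)
    (p : Fin r → K[X]) (z : Fin s → Fin d → K) :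
    Matrix ((Fin (n + 1) ⊕ Fin s) ⊕ Fin r) ((Fin (n + 1) ⊕ Fin s) ⊕ Fin r) K[X] :=
  (BY e v δ Δ x p z).updateCol (Sum.inl (Sum.inl 0)) (Sum.elim (fun _ => 0)
    (fun i => X * (X * derivative (p i) - C (a i : K) * p i)))

private theorem Nm_det {k K : Type} [Field k] [Field K] [Algebra k K] {d n r s : ℕ}
    (e : Fin (n + 1) ⊕ Fin s ≃ Fin d) {v : Fin r → Fin d → ℤ} {a : Fin r → ℕ}
    (hrel : ∀ j, ∑ i, (a i : ℤ) * v i j = 0) (δ : Fin n → Derivation k K K)
    (Δ : Fin n → Derivation k K[X] K[X]) (x : Fin d → K) (p : Fin r → K[X])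
    (z : Fin s → Fin d → K) :
    (Nm_C e v a δ Δ x p z).det = X ^ 2 * (BY e v δ Δ x p z).det := by
  have h1 := det_updateCol_sum (BY e v δ Δ x p z) (Sum.inl (Sum.inl 0))
    (Sum.elim (Sum.elim (Fin.cons (X ^ 2) (fun _ => 0) : Fin (n + 1) → K[X]) (fun _ => 0))
      (fun i => -(C (a i : K) * X)))
  rw [Sum.elim_inl, Sum.elim_inl, Fin.cons_zero, smul_eq_mul] at h1
  rw [← h1, Nm_C]
  refine congrArg Matrix.det (congrArg _ ?_)
  funext c
  rw [Fintype.sum_sum_type, Fintype.sum_sum_type, Fin.sum_univ_succ]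
  simp only [Sum.elim_inl, Sum.elim_inr, Fin.cons_zero, Fin.cons_succ, smul_eq_mul, zero_mul,
    Finset.sum_const_zero, add_zero]
  rcases c with l | i
  · simp only [Sum.elim_inl, BY, fromBlocks_apply₁₁, fromBlocks_apply₁₂, of_apply, Fin.cons_zero,
      mul_zero, zero_add]
    have h2 : ∀ i : Fin r, -(C (a i : K) * X) * -C ((v i (e l) : ℤ) : K) =
        C ((((a i : ℤ) * v i (e l) : ℤ)) : K) * X := by
      intro i
      rw [Int.cast_mul, Int.cast_natCast, C_mul]
      ring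
    rw [Finset.sum_congr rfl fun i _ => h2 i, ← Finset.sum_mul, ← map_sum, ← Int.cast_sum,
      hrel (e l), Int.cast_zero, C_0, zero_mul]
  · simp only [Sum.elim_inr, Sum.elim_inl, BY, fromBlocks_apply₂₁, fromBlocks_apply₂₂, of_apply,
      Fin.cons_zero]
    rw [Finset.sum_eq_single i]
    · rw [diagonal_apply_eq]
      ring
    · intro i' _ hi'
      rw [diagonal_apply_ne _ (Ne.symm hi'), mul_zero]
    · intro h
      exact absurd (Finset.mem_univ i) h

private theorem Nm_theta {k K : Type} [Field k] [Field K] [CharZero K] [Algebra k K] {d r s : ℕ}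
    {A : Fin (s + 1) → Finset (Fin d → ℤ)}
    {v : Fin r → Fin d → ℤ} {a : Fin r → ℕ} (hR : RelY A v a) {y : (Fin d → ℤ) → k}
    (hy : ∃ m ∈ A 0, y m ≠ 0) (δ : Derivation k K K)
    {x : Fin d → K} (hx : ∀ j, x j ≠ 0) {p : Fin r → K[X]}
    (hrat : ∀ m ∈ A 0, ∀ m' ∈ A 0, ld v a (fun i => hs (A 0) (v i)) x p m * algebraMap k K (y m') =
      ld v a (fun i => hs (A 0) (v i)) x p m' * algebraMap k K (y m))
    (hL : ∀ i, (p i).coeff (a i) ≠ 0) (l : Fin d) :
    δ (x l) / x l + ∑ i, ((v i l : ℤ) : K) * (δ ((p i).coeff (a i)) / (p i).coeff (a i)) = 0 := by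
  have h1 := full_field (hR.full 0) (K := K) (θ := fun l => δ (x l) / x l +
    ∑ i, ((v i l : ℤ) : K) * (δ ((p i).coeff (a i)) / (p i).coeff (a i))) ?_
  · exact congrFun h1 l
  · intro m hm m' hm'
    have h2 := dlog_ratY (rel0 hR 0) hy hx hrat δ hm hm' fun i hi => absurd hi (hL i)
    have h3 : ∀ i, ((pr m (v i) - pr m' (v i) : ℤ) : K) =
        ∑ l, ((m l - m' l : ℤ) : K) * ((v i l : ℤ) : K) := by
      intro i
      unfold pr
      rw [← Finset.sum_sub_distrib, Int.cast_sum]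
      refine Finset.sum_congr rfl fun l _ => ?_
      push_cast
      ring
    have h4 : ∑ i, ((pr m (v i) - pr m' (v i) : ℤ) : K) *
        (δ ((p i).coeff (a i)) / (p i).coeff (a i)) =
        ∑ i, (∑ l, ((m l - m' l : ℤ) : K) * ((v i l : ℤ) : K)) *
          (δ ((p i).coeff (a i)) / (p i).coeff (a i)) :=
      Finset.sum_congr rfl fun i _ => by rw [h3 i]
    rw [h4] at h2
    rw [← h2]
    simp only [mul_add, Finset.sum_add_distrib]
    refine congrArg _ ?_
    simp only [Finset.mul_sum, Finset.sum_mul]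
    rw [Finset.sum_comm]
    exact Finset.sum_congr rfl fun i _ => Finset.sum_congr rfl fun l _ => by ring

theorem deg_three {k K : Type} [Field k] [Field K] [CharZero K] [Algebra k K] {d n r s : ℕ}
    (hn : 1 ≤ n) {e : Fin (n + 1) ⊕ Fin s ≃ Fin d} {A : Fin (s + 1) → Finset (Fin d → ℤ)}
    {v : Fin r → Fin d → ℤ} {a : Fin r → ℕ} (hR : RelY A v a) {y : (Fin d → ℤ) → k}
    (hy : ∃ m ∈ A 0, y m ≠ 0) {δ : Fin n → Derivation k K K}
    {Δ : Fin n → Derivation k K[X] K[X]} (hΔ : ∀ j (q : K[X]) i, (Δ j q).coeff i = δ j (q.coeff i))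
    {x : Fin d → K} (hx : ∀ j, x j ≠ 0) {p : Fin r → K[X]} (hp0 : ∀ i, (p i).coeff 0 = 1)
    (hrat : ∀ m ∈ A 0, ∀ m' ∈ A 0, ld v a (fun i => hs (A 0) (v i)) x p m * algebraMap k K (y m') =
      ld v a (fun i => hs (A 0) (v i)) x p m' * algebraMap k K (y m))
    {z : Fin s → Fin d → K} (h1 : ∀ i, (p i).natDegree = a i)
    (hd : (BY e v δ Δ x p z).det ≠ 0) :
    (BY e v δ Δ x p z).det.natDegree + 3 ≤ ∑ i, a i := by
  classical
  have hL : ∀ i, (p i).coeff (a i) ≠ 0 := by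
    intro i h
    rw [← h1 i, coeff_natDegree, leadingCoeff_eq_zero] at h
    have h2 := hp0 i
    rw [h, coeff_zero] at h2
    exact zero_ne_one h2
  obtain ⟨ρ, hρ⟩ : ∃ ρ : (Fin (n + 1) ⊕ Fin s) ⊕ Fin r → ℕ, ρ = Sum.elim (fun _ => 0) a :=
    ⟨_, rfl⟩
  have hC00 : ∀ b, Nm_C e v a δ Δ x p z (Sum.inl b) (Sum.inl (Sum.inl 0)) = 0 := by
    intro b
    rw [Nm_C, updateCol_self, Sum.elim_inl]
  have hC01 : ∀ b (j : Fin n), Nm_C e v a δ Δ x p z (Sum.inl b) (Sum.inl (Sum.inl j.succ)) =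
      C (δ j (x (e b)) / x (e b)) := by
    intro b j
    rw [Nm_C, updateCol_ne (by simp [Fin.succ_ne_zero])]
    simp only [BY, fromBlocks_apply₁₁, of_apply, Sum.elim_inl, Fin.cons_succ]
  have hC0z : ∀ b (t : Fin s), Nm_C e v a δ Δ x p z (Sum.inl b) (Sum.inl (Sum.inr t)) =
      C (z t (e b)) := by
    intro b t
    rw [Nm_C, updateCol_ne (by simp)]
    simp only [BY, fromBlocks_apply₁₁, of_apply, Sum.elim_inr]
  have hC02 : ∀ b i, Nm_C e v a δ Δ x p z (Sum.inl b) (Sum.inr i) =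
      - C ((v i (e b) : ℤ) : K) := by
    intro b i
    rw [Nm_C, updateCol_ne (by simp)]
    simp only [BY, fromBlocks_apply₁₂, of_apply]
  have hC10 : ∀ i, Nm_C e v a δ Δ x p z (Sum.inr i) (Sum.inl (Sum.inl 0)) =
      X * (X * derivative (p i) - C (a i : K) * p i) := by
    intro i
    rw [Nm_C, updateCol_self, Sum.elim_inr]
  have hC11 : ∀ i (j : Fin n), Nm_C e v a δ Δ x p z (Sum.inr i) (Sum.inl (Sum.inl j.succ)) =
      Δ j (p i) := by
    intro i j
    rw [Nm_C, updateCol_ne (by simp [Fin.succ_ne_zero])]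
    simp only [BY, fromBlocks_apply₂₁, of_apply, Sum.elim_inl, Fin.cons_succ]
  have hC1z : ∀ i (t : Fin s), Nm_C e v a δ Δ x p z (Sum.inr i) (Sum.inl (Sum.inr t)) = 0 := by
    intro i t
    rw [Nm_C, updateCol_ne (by simp)]
    simp only [BY, fromBlocks_apply₂₁, of_apply, Sum.elim_inr]
  have hC12 : ∀ i i', Nm_C e v a δ Δ x p z (Sum.inr i) (Sum.inr i') = diagonal p i i' := by
    intro i i'
    rw [Nm_C, updateCol_ne (by simp)]
    simp only [BY, fromBlocks_apply₂₂]
  have hdeg : ∀ b c, (Nm_C e v a δ Δ x p z b c).natDegree ≤ ρ b := by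
    intro b c
    rw [hρ]
    rcases b with b | i
    · rw [Sum.elim_inl]
      rcases c with (j | t) | i
      · refine Fin.cases ?_ (fun j => ?_) j
        · rw [hC00, natDegree_zero]
        · rw [hC01, natDegree_C]
      · rw [hC0z, natDegree_C]
      · rw [hC02, natDegree_neg, natDegree_C]
    · rw [Sum.elim_inr]
      rcases c with (j | t) | i'
      · refine Fin.cases ?_ (fun j => ?_) j
        · rw [hC10]
          exact Nm_deg (p i) (h1 i).le
        · rw [hC11]
          exact Nm_Δ (δ j) (Δ j) (hΔ j) (p i) (h1 i).le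
      · rw [hC1z, natDegree_zero]
        exact Nat.zero_le _
      · rw [hC12, diagonal_apply]
        split_ifs
        · exact (h1 i).le
        · rw [natDegree_zero]
          exact Nat.zero_le _
  obtain ⟨g1, g2⟩ := det_coeff (Nm_C e v a δ Δ x p z) ρ hdeg
  have hsum : ∑ b, ρ b = ∑ i, a i := by
    rw [hρ, Fintype.sum_sum_type]
    simp
  have g3 : (Matrix.of fun b c => (Nm_C e v a δ Δ x p z b c).coeff (ρ b)).det = 0 := by
    rw [← exists_mulVec_eq_zero_iff]
    refine ⟨Sum.elim (Sum.elim (Pi.single (Fin.succ ⟨0, hn⟩) 1) (fun _ => 0))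
      (fun i => -(δ ⟨0, hn⟩ ((p i).coeff (a i)) / (p i).coeff (a i))), fun h => ?_, ?_⟩
    · have h2 := congrFun h (Sum.inl (Sum.inl (Fin.succ ⟨0, hn⟩)))
      rw [Sum.elim_inl, Sum.elim_inl, Pi.single_eq_same] at h2
      exact one_ne_zero h2
    · funext b
      rw [Pi.zero_apply, mulVec, dotProduct, Fintype.sum_sum_type, Fintype.sum_sum_type]
      simp only [Sum.elim_inl, Sum.elim_inr, mul_zero, Finset.sum_const_zero, add_zero, of_apply]
      rw [Finset.sum_eq_single (Fin.succ ⟨0, hn⟩) (fun j _ hj => by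
        rw [Pi.single_eq_of_ne hj, mul_zero]) (fun h => absurd (Finset.mem_univ _) h),
        Pi.single_eq_same, mul_one, hρ]
      rcases b with b | i
      · rw [Sum.elim_inl, hC01, coeff_C_zero, ← Nm_theta hR hy (δ ⟨0, hn⟩) hx hrat hL (e b)]
        refine congrArg _ (Finset.sum_congr rfl fun i _ => ?_)
        rw [hC02, coeff_neg, coeff_C_zero]
        ring
      · rw [Sum.elim_inr, hC11, hΔ, Finset.sum_eq_single i (fun i' _ hi' => by
          rw [hC12, diagonal_apply_ne _ (Ne.symm hi'), coeff_zero, zero_mul])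
          (fun h => absurd (Finset.mem_univ _) h), hC12, diagonal_apply_eq, mul_neg,
          mul_div_cancel₀ _ (hL i), add_neg_cancel]
  rw [hsum, Nm_det e hR.rel] at g1
  rw [g3, hsum, Nm_det e hR.rel] at g2
  have h4 : (X ^ 2 * (BY e v δ Δ x p z).det).natDegree = (BY e v δ Δ x p z).det.natDegree + 2 := by
    rw [natDegree_mul (pow_ne_zero _ X_ne_zero) hd, natDegree_X_pow, Nat.add_comm]
  have h5 : X ^ 2 * (BY e v δ Δ x p z).det ≠ 0 := mul_ne_zero (pow_ne_zero _ X_ne_zero) hd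
  have h6 : (X ^ 2 * (BY e v δ Δ x p z).det).natDegree ≠ ∑ i, a i := by
    intro h7
    rw [← h7, coeff_natDegree, leadingCoeff_eq_zero] at g2
    exact h5 g2
  omega

end Pool.Agent.Lib.MP_1e3e9c_agY
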