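import Pool.Agent.Lib.MP_1e3e9c_agY.Nk
import Pool.Agent.Lib.MP_1e3e9c_agY.Nl
import Pool.Agent.Lib.MP_1e3e9c_agY.Nm

/-! LEAF Nn (medium-).  The degree of the determinant: all cases.

PROOF.  `b i = (p i).natDegree ≤ a i`, `e i = a i - b i`, `∑ b_i = N - ∑ e_i`, `φ_j = ph A v e j ≥ 0` (`ph_nonneg`, Ya).  (0) `e = 0`: all `b i = a i`: `deg_three` (Nm) and `φ_j = 0` (`ph` of `e = 0`: `- hs (A j) 0 = 0`; or `ph_eq` with any minimal `m`).  (1) `e ≠ 0`.  `e ≠ a`: otherwise all `p i` are constants `1` (`coeff 0 = 1`, degree `0`), so `Ph 0` is the constant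
`∑ c_m mn x m`, divisible by `X^ν`, `ν ≥ 1`: it is `0`, against `hne`.  So (`hR.mini`, `e ≤ a`) `∑ e_i v_i ≠ 0` (some coordinate).  (2) If `φ_0 > 0`: then `g ≤ ν` is impossible: every term of `Ph 0` has degree `∑ b_i (pr m (v i) + hs (v i)) = g - φ_0 - (pr m u + hs (A 0) u) ≤ g - φ_0` (`u = ∑ e_i v_i`; see Nh; or: all `ld m = 0`, so the coefficient of `X^g` is `0` and `deg Ph 0 ≤ g - 1`;
here only `deg Ph 0 < g` is needed: `natDegree_cd`, and for every `m ∈ A 0` there is `i` with `e_i > 0` and `pr m (v i) + hs (v i) > 0`: otherwise `φ_0 = 0` by `ph_eq`..: for that `m` `∑ e_i (pr m (v i) + hs) = 0` gives `- hs u ≤ pr m u = - ∑ e_i hs (v i)`, `φ_0 ≤ 0`); and `X^ν ∣ Ph 0 ≠ 0` gives `ν ≤ deg Ph 0 < g`.  So (`hν`, `hgg`) `∑_j DD j = g + ∑_t DD t.succ ≥ ν + 1 + ∑_t DD t.succ = N`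
and with `hR.le` equality: `hR.eqB` for `e`: `1 + φ_0 + ∑_t φ_(t.succ) ≤ ∑ e_i`, so `∑ e_i ≥ 2 + ∑_t φ_(t.succ)`, and `deg_one` (Nk): `deg det + 1 ≤ N - ∑ e_i ≤ N - 2 - ∑_t φ_(t.succ)`.  (3) If `φ_0 = 0`: all `φ_j = 0` (`ph_zero`, Ya).  If `∑ e_i ≥ 2`: `deg_one`.  If `∑ e_i = 1`: exactly one `i0` with `e_(i0) = 1`: `deg_two` (Nl): `deg det + 2 ≤ N - 1`. -/

set_option autoImplicit false

namespace Pool.Agent.Lib.MP_1e3e9c_agY

open Polynomial Matrix Pool.Agent.Lib.MP_1e3e9c_agV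

private theorem Nn_nat {d r s : ℕ} {A : Fin (s + 1) → Finset (Fin d → ℤ)}
    {v : Fin r → Fin d → ℤ} {a : Fin r → ℕ} (hR : RelY A v a) {b : Fin r → ℕ}
    (hb : ∀ i, b i ≤ a i) {m : Fin d → ℤ} (hm : m ∈ A 0) :
    ((∑ i, ex v (fun i => hs (A 0) (v i)) m 1 i * b i : ℕ) : ℤ) ≤
      DD A v a 0 - ph A v (fun i => a i - b i) 0 := by
  have hsum := sum_ex (rel0 hR 0) (g := (DD A v a 0).toNat)
    (by rw [Int.toNat_of_nonneg (g_pos' hR 0).le]; rfl) (cone_one hm)
  have hD : (((DD A v a 0).toNat : ℕ) : ℤ) = DD A v a 0 := Int.toNat_of_nonneg (g_pos' hR 0).le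
  have hex : ∀ i, ((ex v (fun i => hs (A 0) (v i)) m 1 i : ℕ) : ℤ) =
      pr m (v i) + hs (A 0) (v i) := by
    intro i
    unfold ex
    rw [Int.toNat_of_nonneg]
    · push_cast
      ring
    · have h := hs_ge hm (v i)
      push_cast
      linarith
  have h1 : ∑ i, (a i : ℤ) * (pr m (v i) + hs (A 0) (v i)) = DD A v a 0 := by
    have h2 : ((∑ i, a i * ex v (fun i => hs (A 0) (v i)) m 1 i : ℕ) : ℤ) =
        ((1 * (DD A v a 0).toNat : ℕ) : ℤ) := by rw [hsum]
    rw [one_mul, hD] at h2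
    rw [← h2]
    push_cast
    exact Finset.sum_congr rfl fun i _ => by rw [hex i]
  have h3 : ∑ i, (((a i - b i : ℕ)) : ℤ) * pr m (v i) =
      pr m (fun l => ∑ i, (((a i - b i : ℕ)) : ℤ) * v i l) := by
    unfold pr
    simp_rw [Finset.mul_sum]
    rw [Finset.sum_comm]
    refine Finset.sum_congr rfl fun l _ => Finset.sum_congr rfl fun i _ => by ring
  have h4 := hs_ge hm (fun l => ∑ i, (((a i - b i : ℕ)) : ℤ) * v i l)
  have h5 : ph A v (fun i => a i - b i) 0 ≤
      ∑ i, (((a i - b i : ℕ)) : ℤ) * (pr m (v i) + hs (A 0) (v i)) := by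
    have h6 : ∑ i, (((a i - b i : ℕ)) : ℤ) * (pr m (v i) + hs (A 0) (v i)) =
        ∑ i, (((a i - b i : ℕ)) : ℤ) * pr m (v i) +
          ∑ i, (((a i - b i : ℕ)) : ℤ) * hs (A 0) (v i) := by
      rw [← Finset.sum_add_distrib]
      exact Finset.sum_congr rfl fun i _ => by ring
    rw [h6, h3]
    unfold ph
    linarith
  have h7 : ((∑ i, ex v (fun i => hs (A 0) (v i)) m 1 i * b i : ℕ) : ℤ) =
      DD A v a 0 - ∑ i, (((a i - b i : ℕ)) : ℤ) * (pr m (v i) + hs (A 0) (v i)) := by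
    rw [← h1, ← Finset.sum_sub_distrib]
    push_cast
    refine Finset.sum_congr rfl fun i _ => ?_
    rw [hex i, Nat.cast_sub (hb i)]
    ring
  rw [h7]
  linarith

private theorem Nn_deg {k K : Type} [Field k] [Field K] [Algebra k K] {d r s : ℕ}
    {A : Fin (s + 1) → Finset (Fin d → ℤ)} {c : Fin (s + 1) → (Fin d → ℤ) → k}
    {v : Fin r → Fin d → ℤ} {a : Fin r → ℕ} (hR : RelY A v a) {x : Fin d → K}
    {p : Fin r → K[X]} (hp : ∀ i, (p i).natDegree ≤ a i) {N : ℕ}
    (hN : DD A v a 0 - ph A v (fun i => a i - (p i).natDegree) 0 ≤ N) :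
    (Ph A c v x p 0).natDegree ≤ N := by
  unfold Ph Phi
  refine natDegree_sum_le_of_forall_le _ _ fun m hm => ?_
  refine (natDegree_C_mul_le _ _).trans ?_
  unfold cd
  refine (natDegree_C_mul_le _ _).trans ?_
  refine (natDegree_prod_le _ _).trans ?_
  refine (Finset.sum_le_sum fun i _ => natDegree_pow_le).trans ?_
  have h1 := (Nn_nat hR hp hm).trans hN
  exact_mod_cast h1

private theorem Nn_one {r : ℕ} {e : Fin r → ℕ} (h : ∑ i, e i = 1) :
    ∃ i0, e i0 = 1 ∧ ∀ i, i ≠ i0 → e i = 0 := by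
  have h1 : ∃ i0, e i0 ≠ 0 := by
    by_contra hc
    push Not at hc
    rw [Finset.sum_eq_zero fun i _ => hc i] at h
    exact zero_ne_one h
  obtain ⟨i0, hi0⟩ := h1
  have h2 := Finset.add_sum_erase Finset.univ e (Finset.mem_univ i0)
  rw [h] at h2
  have h3 : e i0 = 1 := by omega
  have h4 : ∑ i ∈ Finset.univ.erase i0, e i = 0 := by omega
  refine ⟨i0, h3, fun i hi => ?_⟩
  exact Finset.sum_eq_zero_iff.mp h4 i (Finset.mem_erase.mpr ⟨hi, Finset.mem_univ i⟩)

theorem natDegree_BY {k K : Type} [Field k] [Field K] [CharZero K] [Algebra k K] {d n r s : ℕ}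
    (hn : 1 ≤ n) {e : Fin (n + 1) ⊕ Fin s ≃ Fin d} {A : Fin (s + 1) → Finset (Fin d → ℤ)}
    {c : Fin (s + 1) → (Fin d → ℤ) → k}
    {v : Fin r → Fin d → ℤ} {a : Fin r → ℕ} (hR : RelY A v a) {g ν : ℕ}
    (hgg : (g : ℤ) = DD A v a 0)
    (hν : (ν : ℤ) + 1 + ∑ j : Fin s, DD A v a j.succ = ∑ i, (a i : ℤ)) (hν1 : 1 ≤ ν)
    {y : (Fin d → ℤ) → k} (hy : ∃ m ∈ A 0, y m ≠ 0) {δ : Fin n → Derivation k K K}
    {Δ : Fin n → Derivation k K[X] K[X]} (hΔ : ∀ j (q : K[X]) i, (Δ j q).coeff i = δ j (q.coeff i))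
    {x : Fin d → K} {p : Fin r → K[X]} (hG : GCY A c v a g ν y x p)
    {z : Fin s → Fin d → K} (hd : (BY e v δ Δ x p z).det ≠ 0) :
    ((BY e v δ Δ x p z).det.natDegree : ℤ) + 3 +
      ∑ t : Fin s, ph A v (fun i => a i - (p i).natDegree) t.succ ≤ ∑ i, (a i : ℤ) := by
  have hb : ∀ i, (p i).natDegree ≤ a i := hG.deg
  have hsum : ∑ i, (p i).natDegree + ∑ i, (a i - (p i).natDegree) = ∑ i, a i := by
    rw [← Finset.sum_add_distrib]
    exact Finset.sum_congr rfl fun i _ => Nat.add_sub_cancel' (hb i)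
  have hsumZ : (∑ i, (a i : ℤ)) = ((∑ i, a i : ℕ) : ℤ) := by push_cast; rfl
  rw [hsumZ]
  by_cases he : ∀ i, (p i).natDegree = a i
  · have h3 := deg_three hn hR hy hΔ hG.ne hG.zero hG.rat he hd
    have h4 : ∀ t : Fin s, ph A v (fun i => a i - (p i).natDegree) t.succ = 0 := by
      intro t
      obtain ⟨m, hm⟩ := hs_min (ne_of_full (hR.full t.succ) (d_pos hR))
        (fun l => ∑ i, (((fun i => a i - (p i).natDegree) i : ℕ) : ℤ) * v i l)
      rw [ph_eq _ hm]
      refine Finset.sum_eq_zero fun i _ => ?_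
      have h5 : a i - (p i).natDegree = 0 := by rw [he i, Nat.sub_self]
      rw [h5, Nat.cast_zero, zero_mul]
    rw [Finset.sum_eq_zero fun t _ => h4 t, add_zero]
    exact_mod_cast h3
  · -- the vector is not zero
    have h1 := deg_one hΔ hd
    have hne : ∃ l, ∑ i, (((fun i => a i - (p i).natDegree) i : ℕ) : ℤ) * v i l ≠ 0 := by
      by_contra hc
      push Not at hc
      rcases hR.mini (fun i => a i - (p i).natDegree) (fun i => Nat.sub_le _ _) hc with h | h
      · refine he fun i => ?_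
        have h2 := congrFun h i
        have h3 : a i - (p i).natDegree = 0 := h2
        have h4 := hb i
        omega
      · have h2 : ∀ i, p i = 1 := by
          intro i
          have h3 := congrFun h i
          have h4 : a i - (p i).natDegree = a i := h3
          have h5 := hb i
          have h6 := hR.pos i
          have h7 : (p i).natDegree = 0 := by omega
          rw [eq_C_of_natDegree_eq_zero h7, hG.zero i, C_1]
        have h3 : (Ph A c v x p 0) = C ((Ph A c v x p 0).coeff 0) := by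
          refine eq_C_of_natDegree_eq_zero ?_
          refine Nat.le_zero.mp ?_
          unfold Ph Phi
          refine natDegree_sum_le_of_forall_le _ _ fun m hm => ?_
          refine (natDegree_C_mul_le _ _).trans ?_
          unfold cd
          refine (natDegree_C_mul_le _ _).trans ?_
          rw [Finset.prod_eq_one fun i _ => by rw [h2 i, one_pow], natDegree_one]
        have h4 : (Ph A c v x p 0).coeff 0 = 0 :=
          X_pow_dvd_iff.mp hG.dvd 0 (by omega)
        rw [h4, C_0] at h3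
        exact hG.phi h3
    by_cases h0 : ph A v (fun i => a i - (p i).natDegree) 0 = 0
    · have h4 : ∀ t : Fin s, ph A v (fun i => a i - (p i).natDegree) t.succ = 0 :=
        fun t => ph_zero hR h0 t.succ
      rw [Finset.sum_eq_zero fun t _ => h4 t, add_zero]
      have h5 : ∑ i, (a i - (p i).natDegree) ≠ 0 := by
        intro h6
        refine he fun i => ?_
        have h7 := Finset.sum_eq_zero_iff.mp h6 i (Finset.mem_univ i)
        have h8 := hb i
        omega
      by_cases h6 : ∑ i, (a i - (p i).natDegree) = 1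
      · obtain ⟨i0, hi0, hi⟩ := Nn_one h6
        have h7 : (p i0).natDegree + 1 = a i0 := by
          have h8 := hb i0
          omega
        have h9 : ∀ i, i ≠ i0 → (p i).natDegree = a i := by
          intro i hii
          have h8 := hb i
          have h10 := hi i hii
          omega
        have h11 := deg_two hn hR hy hΔ hG.ne hG.zero hG.rat h7 h9 hd
        have h12 : (BY e v δ Δ x p z).det.natDegree + 3 ≤ ∑ i, a i := by omega
        exact_mod_cast h12
      · have h12 : (BY e v δ Δ x p z).det.natDegree + 3 ≤ ∑ i, a i := by omega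
        exact_mod_cast h12
    · have h2 : 1 ≤ ph A v (fun i => a i - (p i).natDegree) 0 := by
        have h3 := ph_nonneg hR (fun i => a i - (p i).natDegree) 0
        omega
      have hg1 : 0 < DD A v a 0 := g_pos' hR 0
      have hg2 : 1 ≤ g := by omega
      have h3 : (Ph A c v x p 0).natDegree ≤ g - 1 := by
        refine Nn_deg hR hb ?_
        rw [← hgg, Nat.cast_sub hg2]
        push_cast
        linarith
      have h4 : ν ≤ (Ph A c v x p 0).natDegree := by
        have h5 := natDegree_le_of_dvd hG.dvd hG.phi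
        rwa [natDegree_X_pow] at h5
      have h5 : ν + 1 ≤ g := by omega
      have h6 : ∑ j, DD A v a j = ∑ i, (a i : ℤ) := by
        refine le_antisymm hR.le ?_
        rw [← hν, Fin.sum_univ_succ, ← hgg]
        have h7 : (ν : ℤ) + 1 ≤ g := by exact_mod_cast h5
        linarith
      have h7 := hR.eqB h6 (fun i => a i - (p i).natDegree) (fun i => Nat.sub_le _ _) hne
      rw [Fin.sum_univ_succ] at h7
      have h8 : (∑ i, (((fun i => a i - (p i).natDegree) i : ℕ) : ℤ)) =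
          ((∑ i, (a i - (p i).natDegree) : ℕ) : ℤ) := by push_cast; rfl
      have h9 : ((∑ i, (p i).natDegree : ℕ) : ℤ) + ((∑ i, (a i - (p i).natDegree) : ℕ) : ℤ) =
          ((∑ i, a i : ℕ) : ℤ) := by exact_mod_cast hsum
      have h10 : ((BY e v δ Δ x p z).det.natDegree : ℤ) + 1 ≤ ((∑ i, (p i).natDegree : ℕ) : ℤ) := by
        exact_mod_cast h1
      rw [h8] at h7
      linarith

end Pool.Agent.Lib.MP_1e3e9c_agY
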