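import Mathlib

/-! LEAF No (easy+, MATHLIB ONLY).  A quotient without poles is a polynomial.

PROOF.  Let `d = gcd (f z0) (g z0)` (`EuclideanDomain.gcd`), `f z0 = d P`, `g z0 = d Q`, `P`, `Q` coprime, `Q ≠ 0`.  `hfg z`: `f z * Q = P * g z` (cancel `d ≠ 0`).  If `Q` is not a constant it has a root `τ` (`IsAlgClosed.exists_root`); take `z` with `(g z).eval τ ≠ 0`: `0 = P(τ) g_z(τ)`, so `P(τ) = 0`, against the coprimality.  So `Q = C q`, `q ≠ 0`, and `D = C q⁻¹ * P`. -/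

set_option autoImplicit false

namespace Pool.Agent.Lib.MP_1e3e9c_agY

open Polynomial

theorem div_of {K Z : Type} [Field K] [IsAlgClosed K] (f g : Z → K[X]) {z0 : Z} (h0 : g z0 ≠ 0)
    (hfg : ∀ z, f z * g z0 = f z0 * g z) (hz : ∀ τ : K, ∃ z, (g z).eval τ ≠ 0) :
    ∃ D : K[X], ∀ z, f z = D * g z := by
  classical
  obtain ⟨P, hP⟩ := EuclideanDomain.gcd_dvd_left (f z0) (g z0)
  obtain ⟨Q, hQ⟩ := EuclideanDomain.gcd_dvd_right (f z0) (g z0)
  have hd : EuclideanDomain.gcd (f z0) (g z0) ≠ 0 := by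
    intro h
    rw [h, zero_mul] at hQ
    exact h0 hQ
  have hQ0 : Q ≠ 0 := by
    intro h
    rw [h, mul_zero] at hQ
    exact h0 hQ
  have hbez := EuclideanDomain.gcd_eq_gcd_ab (f z0) (g z0)
  generalize EuclideanDomain.gcdA (f z0) (g z0) = A at hbez
  generalize EuclideanDomain.gcdB (f z0) (g z0) = B at hbez
  generalize EuclideanDomain.gcd (f z0) (g z0) = d at hP hQ hd hbez
  have h1 : P * A + Q * B = 1 := by
    apply mul_left_cancel₀ hd
    rw [hP, hQ] at hbez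
    linear_combination -hbez
  have h2 : ∀ z, f z * Q = P * g z := by
    intro z
    apply mul_left_cancel₀ hd
    have h3 := hfg z
    rw [hP, hQ] at h3
    linear_combination h3
  have h3 : Q.degree = 0 := by
    by_contra hne
    obtain ⟨τ, hτ⟩ := IsAlgClosed.exists_root Q hne
    have hτ' : Q.eval τ = 0 := hτ
    obtain ⟨z, hz'⟩ := hz τ
    have h4 := congrArg (Polynomial.eval τ) (h2 z)
    rw [eval_mul, eval_mul, hτ', mul_zero] at h4
    have h5 : P.eval τ = 0 := (mul_eq_zero.1 h4.symm).resolve_right hz'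
    have h6 := congrArg (Polynomial.eval τ) h1
    rw [eval_add, eval_mul, eval_mul, hτ', h5, zero_mul, zero_mul, add_zero, eval_one] at h6
    exact zero_ne_one h6
  have h4 : Q = C (Q.coeff 0) := eq_C_of_degree_eq_zero h3
  have h5 : Q.coeff 0 ≠ 0 := by
    intro h
    rw [h, C_0] at h4
    exact hQ0 h4
  refine ⟨C (Q.coeff 0)⁻¹ * P, fun z => ?_⟩
  have h6 : C (Q.coeff 0)⁻¹ * Q = 1 := by
    nth_rw 2 [h4]
    rw [← C_mul, inv_mul_cancel₀ h5, C_1]
  have h7 := h2 z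
  calc f z = C (Q.coeff 0)⁻¹ * Q * f z := by rw [h6, one_mul]
    _ = C (Q.coeff 0)⁻¹ * (f z * Q) := by ring
    _ = C (Q.coeff 0)⁻¹ * P * g z := by rw [h7]; ring

end Pool.Agent.Lib.MP_1e3e9c_agY
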