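import Pool.Agent.Lib.MP_1e3e9c_agY.Nb
import Pool.Agent.Lib.MP_1e3e9c_agY.Nc
import Pool.Agent.Lib.MP_1e3e9c_agY.Nf
import Pool.Agent.Lib.MP_1e3e9c_agY.Ng
import Pool.Agent.Lib.MP_1e3e9c_agY.Nh
import Pool.Agent.Lib.MP_1e3e9c_agY.Nn
import Pool.Agent.Lib.MP_1e3e9c_agY.No
import Pool.Agent.Lib.MP_1e3e9c_agR.X4

/-! LEAF Np (medium, 2 theorems).  There is no generic contact curve.

PROOF.  `ratio`: `det_ratio` (Nc) for `M = BY z0`, `M' = BY z`, `f t = inl (inr t)`, `Ω t = Sum.elim (fun b => GY t.succ (e b)) (Psi ..)`: `(Ω * M) t` is the vector of `vecMul_BY` (Na), its entries outside the columns `f t'` are `0` (`hvan`; `derivative 0 = 0`, `Δ 0 = 0`), and the `f`-part is the matrix of `WY`; the columns of `BY` outside `range f` do not depend on `z`.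
`no_genericY`: `exists_mapD` (X4 of agR) gives `Δ`.  `ν = M + 1`.  By `wy_eval` (Nf) for `τ = 0` (`hnb`: any `m ∈ A 0`, the value at `0` is `mn x m ≠ 0`) there is `z0` with `(WY z0).eval 0 ≠ 0`; `det BY z0 ≠ 0` (`det_neY`, Nb).  `div_of` (No) for `f z = det BY z`, `g z = WY z`, `z0` (`ratio`; `hz`: `wy_eval` for `τ`, with `hG.bez`: if all `(cd .. m 1).eval τ = 0` then `1 = 0`): `D` with
`det BY z = D * WY z` for all `z`.  `D ≠ 0` (`z0`).  `dvd_BY` (Ng) for `z0`: `X^M ∣ D * WY z0`, `X ∤ WY z0`, so `X^M ∣ D`, `M ≤ deg D`.  `wy_deg` (Nh): `z1`, `ρ` with `ρ ≤ deg WY z1` and `WY z1 ≠ 0`: `det BY z1 = D * WY z1 ≠ 0` has degree `deg D + deg WY z1 ≥ M + ρ`.  `natDegree_BY` (Nn) for `z1`: `M + ρ + 3 + ∑_t ph t.succ ≤ N`,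
with `ρ = ∑_t (DD t.succ - ph t.succ)`: `M + 3 + ∑_t DD t.succ ≤ N = M + 2 + ∑_t DD t.succ`: contradiction. -/

set_option autoImplicit false

namespace Pool.Agent.Lib.MP_1e3e9c_agY

open Polynomial Matrix Pool.Agent.Lib.MP_1e3e9c_agV

theorem ratio {k K : Type} [Field k] [Field K] [Algebra k K] {d n r s : ℕ}
    {e : Fin (n + 1) ⊕ Fin s ≃ Fin d} {A : Fin (s + 1) → Finset (Fin d → ℤ)}
    {c : Fin (s + 1) → (Fin d → ℤ) → k} {v : Fin r → Fin d → ℤ} {a : Fin r → ℕ}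
    (hR : RelY A v a) {δ : Fin n → Derivation k K K}
    {Δ : Fin n → Derivation k K[X] K[X]} (hΔ : ∀ j (q : K[X]) i, (Δ j q).coeff i = δ j (q.coeff i))
    {x : Fin d → K} (hx : ∀ j, x j ≠ 0) {p : Fin r → K[X]}
    (hvan : ∀ j : Fin s, Ph A c v x p j.succ = 0) (z0 z : Fin s → Fin d → K) :
    (BY e v δ Δ x p z).det * WY A c v x p z0 = (BY e v δ Δ x p z0).det * WY A c v x p z := by
  have hrow : ∀ (z : Fin s → Fin d → K) (t : Fin s),
      ((Matrix.of fun t : Fin s => Sum.elim (fun b => GY A c v x p t.succ (e b))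
        (Psi (A t.succ) (c t.succ) v (fun i => hs (A t.succ) (v i)) x p)) * BY e v δ Δ x p z) t =
      Sum.elim (Sum.elim (Fin.cons (derivative (Ph A c v x p t.succ)) fun i => Δ i (Ph A c v x p t.succ))
        (fun t' => ∑ l, GY A c v x p t.succ l * C (z t' l)))
        (fun i => C ((hs (A t.succ) (v i) : ℤ) : K) * Ph A c v x p t.succ) := by
    intro z t
    rw [Matrix.mul_apply_eq_vecMul]
    exact vecMul_BY hR hΔ hx p z t.succ
  have hsub : ∀ z : Fin s → Fin d → K,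
      (((Matrix.of fun t : Fin s => Sum.elim (fun b => GY A c v x p t.succ (e b))
        (Psi (A t.succ) (c t.succ) v (fun i => hs (A t.succ) (v i)) x p)) * BY e v δ Δ x p z).submatrix id
          (fun t : Fin s => (Sum.inl (Sum.inr t) : (Fin (n + 1) ⊕ Fin s) ⊕ Fin r))).det = WY A c v x p z := by
    intro z
    unfold WY
    refine congrArg Matrix.det (Matrix.ext fun t t' => ?_)
    rw [Matrix.submatrix_apply, hrow z (id t)]
    rfl
  have h := det_ratio (fun t : Fin s => (Sum.inl (Sum.inr t) : (Fin (n + 1) ⊕ Fin s) ⊕ Fin r))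
    (fun t t' ht => Sum.inr_injective (Sum.inl_injective ht)) (BY e v δ Δ x p z) (BY e v δ Δ x p z0)
    (Matrix.of fun t : Fin s => Sum.elim (fun b => GY A c v x p t.succ (e b))
        (Psi (A t.succ) (c t.succ) v (fun i => hs (A t.succ) (v i)) x p)) ?_ ?_
  · rw [hsub, hsub] at h
    exact h
  · intro i b hb
    rcases b with (b | t) | i'
    · rcases i with i | i <;> rfl
    · exact absurd ⟨t, rfl⟩ hb
    · rcases i with i | i <;> rfl
  · intro t b hb
    rw [hrow z t, hvan t]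
    rcases b with (b | t') | i'
    · refine Fin.cases ?_ (fun j => ?_) b
      · simp
      · simp
    · exact absurd ⟨t', rfl⟩ hb
    · simp

theorem no_genericY {E K : Type} [Field E] [CharZero E] [Field K] [CharZero K] [IsAlgClosed K]
    [Algebra E K] {d n r s : ℕ} (hn : 1 ≤ n) (e : Fin (n + 1) ⊕ Fin s ≃ Fin d)
    {A : Fin (s + 1) → Finset (Fin d → ℤ)} {c : Fin (s + 1) → (Fin d → ℤ) → E} (hc : Gen A c)
    {v : Fin r → Fin d → ℤ} {a : Fin r → ℕ} (hR : RelY A v a) {g ν : ℕ}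
    (hgg : (g : ℤ) = DD A v a 0)
    (hν : (ν : ℤ) + 1 + ∑ j : Fin s, DD A v a j.succ = ∑ i, (a i : ℤ)) (hν1 : 1 ≤ ν)
    {y : (Fin d → ℤ) → E} (hy : ∃ m ∈ A 0, y m ≠ 0) {x : Fin d → K} {p : Fin r → K[X]}
    (hG : GCY A c v a g ν y x p) (δ : Fin n → Derivation E K K)
    (hind : LinearIndependent K fun (j : Fin n) (l : Fin d) => δ j (x l) / x l) : False := by
  classical
  choose Δ hΔ using fun j => Pool.Agent.Lib.MP_1e3e9c_agR.exists_mapD (δ j)
  obtain ⟨M, rfl⟩ : ∃ M, ν = M + 1 := ⟨ν - 1, by omega⟩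
  have hmn : ∀ m : Fin d → ℤ, Pool.Agent.Lib.MP_1e3e9c_agV.mn x m ≠ 0 := fun m =>
    Finset.prod_ne_zero_iff.mpr fun j _ => zpow_ne_zero _ (hG.ne j)
  have hnb0 : ∃ m ∈ A 0, (cd v (fun i => hs (A 0) (v i)) x p m 1).eval 0 ≠ 0 := by
    obtain ⟨m, hm, -⟩ := hy
    refine ⟨m, hm, ?_⟩
    unfold cd
    rw [eval_mul, eval_C, eval_prod]
    refine mul_ne_zero (hmn m) (Finset.prod_ne_zero_iff.mpr fun i _ => ?_)
    rw [eval_pow, ← coeff_zero_eq_eval_zero, hG.zero i, one_pow]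
    exact one_ne_zero
  have hnb : ∀ τ : K, ∃ m ∈ A 0, (cd v (fun i => hs (A 0) (v i)) x p m 1).eval τ ≠ 0 := by
    intro τ
    by_contra hcon
    push Not at hcon
    obtain ⟨H, -, hH⟩ := hG.bez
    have h1 := congrArg (eval τ) hH
    rw [eval_finsetSum, eval_one, Finset.sum_eq_zero] at h1
    · exact zero_ne_one h1
    · intro m hm
      rw [eval_mul, hcon m hm, mul_zero]
  obtain ⟨z0, hz0⟩ := wy_eval hc hR hG.ne hG.van hnb0
  have hW0 : WY A c v x p z0 ≠ 0 := by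
    intro h
    rw [h, eval_zero] at hz0
    exact hz0 rfl
  have hX : X ∣ Ph A c v x p 0 := (dvd_pow_self X (Nat.succ_ne_zero M)).trans hG.dvd
  have hdet0 : (BY e v δ Δ x p z0).det ≠ 0 :=
    det_neY hR hΔ hG.ne hG.zero hG.van hX hG.phi hind hW0
  obtain ⟨D, hD⟩ := div_of (fun z : Fin s → Fin d → K => (BY e v δ Δ x p z).det)
    (fun z => WY A c v x p z) hW0 (fun z => ratio hR hΔ hG.ne hG.van z0 z)
    (fun τ => wy_eval hc hR hG.ne hG.van (hnb τ))
  have hD0 : D ≠ 0 := by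
    intro h
    have h1 := hD z0
    simp only [h, zero_mul] at h1
    exact hdet0 h1
  have hMD : M ≤ D.natDegree := by
    have h1 : X ^ M ∣ D * WY A c v x p z0 := by
      have h2 := dvd_BY (e := e) hc hR hΔ hG.ne hG.zero hG.van hG.dvd hz0
      have h3 : (BY e v δ Δ x p z0).det = D * WY A c v x p z0 := hD z0
      rwa [h3] at h2
    have h2 : ¬ (X : K[X]) ∣ WY A c v x p z0 := by
      rw [X_dvd_iff, coeff_zero_eq_eval_zero]
      exact hz0
    have h3 : X ^ M ∣ D := (prime_X (R := K)).pow_dvd_of_dvd_mul_right M h2 h1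
    have h4 := natDegree_le_of_dvd h3 hD0
    rwa [natDegree_X_pow] at h4
  obtain ⟨z1, ρ, hρ, hco⟩ := wy_deg hc hR hG.ne hG.deg hG.zero hG.van
  have hW1 : WY A c v x p z1 ≠ 0 := by
    intro h
    rw [h, coeff_zero] at hco
    exact hco rfl
  have hρd : ρ ≤ (WY A c v x p z1).natDegree := le_natDegree_of_ne_zero hco
  have hdet1 : (BY e v δ Δ x p z1).det = D * WY A c v x p z1 := hD z1
  have hne1 : (BY e v δ Δ x p z1).det ≠ 0 := by
    rw [hdet1]
    exact mul_ne_zero hD0 hW1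
  have hdeg := natDegree_BY hn hR hgg hν hν1 hy hΔ hG hne1
  rw [hdet1, natDegree_mul hD0 hW1] at hdeg
  rw [Finset.sum_sub_distrib] at hρ
  push_cast at hdeg hν
  have h1 : (M : ℤ) ≤ D.natDegree := by exact_mod_cast hMD
  have h2 : (ρ : ℤ) ≤ (WY A c v x p z1).natDegree := by exact_mod_cast hρd
  linarith

end Pool.Agent.Lib.MP_1e3e9c_agY
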