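import Pool.Agent.Lib.MP_1e3e9c_agY.Gd
import Pool.Agent.Lib.MP_1e3e9c_agY.Ge
import Pool.Agent.Lib.MP_1e3e9c_agY.Gf
import Pool.Agent.Lib.MP_1e3e9c_agY.Gg
import Pool.Agent.Lib.MP_1e3e9c_agY.Gh
import Pool.Agent.Lib.MP_1e3e9c_agY.Gn
import Pool.Agent.Lib.MP_1e3e9c_agY.Np
import Pool.Agent.Lib.MP_1e3e9c_agV.V01

/-! # MP_1e3e9c_ag, project Y: the generic complete intersection contains a rational curve (contact order `≥ 1`) -/

set_option autoImplicit false

namespace Pool.Agent.Lib.MP_1e3e9c_agY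

open Polynomial Pool.Agent.Lib.MP_1e3e9c_agV Pool.Agent.Lib.MP_1e3e9c_agR

private theorem Go_dm {k : Type} [Field k] {n : ℕ} {B B' : Set (Fin (n + 1) → k)} (hB : B ⊆ B') :
    dm B ≤ dm B' := by
  unfold dm
  refine ringKrullDim_le_of_surjective
    (Ideal.Quotient.factor (MvPolynomial.vanishingIdeal_anti_mono hB)) ?_
  exact Ideal.Quotient.factor_surjective _

private theorem Go_wdm {k : Type} [Field k] {n : ℕ} {w : Fin (n + 1) → ℕ} {B B' : Set (Fin (n + 1) → k)}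
    (hB : B ⊆ B') : wdm w B ≤ wdm w B' := by
  unfold wdm
  refine Go_dm ?_
  rintro x ⟨a, ha, v, hv, hx⟩
  exact ⟨a, ha, v, hB hv, hx⟩

private theorem Go_eval {k : Type} [Field k] {d : ℕ} {A : Finset (Fin d → ℤ)} {c : (Fin d → ℤ) → k}
    {s : Fin d → ℤ} (hs : ∀ m ∈ A, ∀ j, 0 ≤ m j + s j) {x : Fin d → k} (hx : ∀ j, x j ≠ 0) :
    MvPolynomial.eval x (FP A c s) = mn x s * ∑ m ∈ A, c m * mn x m := by
  unfold FP
  rw [map_sum, Finset.mul_sum]
  refine Finset.sum_congr rfl fun m hm => ?_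
  rw [map_mul, MvPolynomial.eval_C, map_prod]
  have h1 : ∏ j, MvPolynomial.eval x (MvPolynomial.X j ^ (m j + s j).toNat) = mn x s * mn x m := by
    unfold Pool.Agent.Lib.MP_1e3e9c_agV.mn
    rw [← Finset.prod_mul_distrib]
    refine Finset.prod_congr rfl fun j _ => ?_
    rw [map_pow, MvPolynomial.eval_X, ← zpow_add₀ (hx j), add_comm (s j), ← zpow_natCast,
      Int.toNat_of_nonneg (hs m hm j)]
  rw [h1]
  ring

private theorem Go_shift {d : ℕ} (A : Finset (Fin d → ℤ)) :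
    ∃ s : Fin d → ℤ, ∀ m ∈ A, ∀ j, 0 ≤ m j + s j := by
  refine ⟨fun j => ∑ m ∈ A, |m j|, fun m hm j => ?_⟩
  have h1 : |m j| ≤ ∑ m ∈ A, |m j| :=
    Finset.single_le_sum (f := fun m : Fin d → ℤ => |m j|) (fun _ _ => abs_nonneg _) hm
  have h2 := neg_abs_le (m j)
  show 0 ≤ m j + ∑ m ∈ A, |m j|
  linarith

theorem gen_curve0 {d r s : ℕ} (hd : s + 4 ≤ d) {A : Fin (s + 1) → Finset (Fin d → ℤ)}
    {v : Fin r → Fin d → ℤ} {a : Fin r → ℕ} (hR : RelY A v a)
    (hν : 2 + ∑ j : Fin s, DD A v a j.succ ≤ ∑ i, (a i : ℤ)) : GenC (A 0) A := by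
  classical
  obtain ⟨n, hn⟩ : ∃ n, n + 1 + s = d := ⟨d - 1 - s, by omega⟩
  have hn3 : 3 ≤ n := by omega
  obtain ⟨E, _, _, _, c, I, l, hc, hP⟩ := exists_gp hn hR.full
  refine ⟨E, _, ‹_›, c, hc, ?_⟩
  by_contra hno
  have hd0 : 0 < d := by omega
  obtain ⟨N, e, w, o, hg⟩ := exists_gens (A 0) (ne_of_full (hR.full 0) hd0)
  obtain ⟨g, hgg⟩ : ∃ g : ℕ, (g : ℤ) = DD A v a 0 :=
    ⟨(DD A v a 0).toNat, Int.toNat_of_nonneg (g_pos' hR 0).le⟩
  obtain ⟨ν, hν'⟩ : ∃ ν : ℕ, (ν : ℤ) + 1 + ∑ j : Fin s, DD A v a j.succ = ∑ i, (a i : ℤ) := by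
    refine ⟨(∑ i, (a i : ℤ) - 1 - ∑ j : Fin s, DD A v a j.succ).toNat, ?_⟩
    rw [Int.toNat_of_nonneg (by linarith)]
    ring
  have hν1 : 1 ≤ ν := by
    have : (1 : ℤ) ≤ ν := by linarith
    exact_mod_cast this
  obtain ⟨Y, Ex, hY, hE, hK⟩ := kpointY (c := c) hR hgg hν' hν1 hg hno
  obtain ⟨T, hT⟩ : ∃ T : Set (Fin d → E),
      T = {x | (∀ i, x i ≠ 0) ∧ ∀ P ∈ I, MvPolynomial.eval x P = 0} := ⟨_, rfl⟩
  have hDT : DI I T := by rw [hT]; exact di_torus hP.prime hP.ne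
  have hTz : ∀ x ∈ T, ∀ j, ∑ m ∈ A j, c j m * mn x m = 0 := by
    intro x hx j
    rw [hT] at hx
    obtain ⟨σ, hσ⟩ := Go_shift (A j)
    have h1 := Go_eval (c := c j) hσ hx.1
    rw [hx.2 _ (hP.eq j σ hσ)] at h1
    rcases mul_eq_zero.1 h1.symm with h2 | h2
    · exact absurd h2 (mn_ne hx.1 σ)
    · exact h2
  obtain ⟨T1, hT1⟩ : ∃ T1 : Set (Fin d → E), T1 = {x ∈ T | (fun j => mn x (e j)) ∈ Ex} := ⟨_, rfl⟩
  obtain ⟨T2, hT2⟩ : ∃ T2 : ((Fin d → ℤ) → E) → Set (Fin d → E),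
      T2 = fun y => {x ∈ T | ∃ q : Fin r → E[X], GCY A c v a g ν y x q} := ⟨_, rfl⟩
  have hcov : DI I (T1 ∪ ⋃ y ∈ Y, T2 y) := by
    refine di_mono ?_ hDT
    intro x hx
    have hx' := hx
    rw [hT] at hx'
    rcases hK x hx'.1 (hTz x hx) with h1 | ⟨y, hy, q, hq⟩
    · left
      rw [hT1]
      exact ⟨hx, h1⟩
    · right
      refine Set.mem_iUnion₂.2 ⟨y, hy, ?_⟩
      rw [hT2]
      exact ⟨hx, q, hq⟩
  rcases di_union hP.prime hcov with h1 | h1
  · have h2 := dim_denseY (hR.full 0) hg hP.prime hP.ne hP.ind (W := T1) (fun x hx => by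
      rw [hT1] at hx
      have := hx.1
      rw [hT] at this
      exact this.1) h1
    have h3 : wdm w ((fun (x : Fin d → E) (j : Fin (N + 1)) => mn x (e j)) '' T1) ≤ wdm w Ex := by
      refine Go_wdm ?_
      rintro _ ⟨x, hx, rfl⟩
      rw [hT1] at hx
      exact hx.2
    have h4 : ((n + 1 : ℕ) : WithBot ℕ∞) ≤ ((3 : ℕ) : WithBot ℕ∞) := h2.trans (h3.trans hE)
    have h5 : n + 1 ≤ 3 := by exact_mod_cast h4
    omega
  · obtain ⟨y, hy, h2⟩ := di_biUnion hP.prime Y T2 h1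
    obtain ⟨K, _, _, x, p, hG, hPx⟩ := exists_genericY (c := c) (v := v) (a := a) (g := g) (ν := ν)
      (A := A) (y := y) hP.prime h2 (fun x hx => by
        rw [hT2] at hx
        have := hx.1
        rw [hT] at this
        exact this.2) (fun x hx => by
        rw [hT2] at hx
        exact hx.2)
    have hG' := gcy_map (K' := AlgebraicClosure K) hG
    have hPx' : ∀ P : MvPolynomial (Fin d) E, MvPolynomial.aeval
        (fun i => algebraMap K (AlgebraicClosure K) (x i)) P = 0 ↔ P ∈ I := by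
      intro P
      rw [← hPx P]
      have h3 : MvPolynomial.aeval (fun i => algebraMap K (AlgebraicClosure K) (x i)) P =
          algebraMap K (AlgebraicClosure K) (MvPolynomial.aeval x P) :=
        MvPolynomial.aeval_algebraMap_apply (AlgebraicClosure K) x P
      rw [h3]
      constructor
      · intro h4
        exact (algebraMap K (AlgebraicClosure K)).injective (by rw [h4, map_zero])
      · intro h4
        rw [h4, map_zero]
    obtain ⟨δ, hδ⟩ := exists_dlogY hP.ind hG'.ne hPx'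
    have : CharZero K := charZero_of_injective_algebraMap (algebraMap E K).injective
    have : CharZero (AlgebraicClosure K) :=
      charZero_of_injective_algebraMap (algebraMap K (AlgebraicClosure K)).injective
    have ee : Fin (n + 1) ⊕ Fin s ≃ Fin d := finSumFinEquiv.trans (finCongr hn)
    exact no_genericY (by omega) ee hc hR hgg hν' hν1 (hY y hy) hG' δ hδ

end Pool.Agent.Lib.MP_1e3e9c_agY
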