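import Pool.Agent.Lib.MP_1e3e9c_agY.Ya
import Pool.Agent.Lib.MP_1e3e9c_agV.V17

/-! LEAF T2 (medium, 2 theorems).  The cones of two polytopes with the same fan at corresponding vertices.

PROOF.  `farkas`: `hμ`: `pr μ w ≥ 0` for all `w` with `Fa B w b1`; `hp`: the vectors `b - b1` have no nontrivial nonnegative relation.  `alt_int` (V17 of agV) for the vectors `b - b1` (`b ∈ B`, `b ≠ b1`), `- μ` and `b = 0`: if there is `w` with `pr (b - b1) w > 0` for all `b ≠ b1` and `pr μ w < 0`: `Fa B w b1` (`hs_min`), against `hμ`.  So there are `e_b`, `q : ℕ`, not all `0`, with `q μ = ∑ e_b (b - b1)`;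
`q > 0` by `hp`.  For `l ≥ l0 = ∑ e_b`: `q (μ + l b1) = ∑ e_b b + (q l - ∑ e_b) b1` is a sum of `q l` points of `B`: `InCone B (μ + l b1) l`.
`same_cone`: (1) `h` (`Fan B B'`) gives `b1' ∈ B'` with `Fa B w b1 → Fa B' w b1'`; `h'` (`Fan B' B`) for `b1'` gives `b'' ∈ B` with `Fa B' w b1' → Fa B w b''`; `w0` (`hw0`): `Fa B w0 b1`, so `Fa B w0 b''`, so `b'' = b1`: `Fa B w b1 ↔ Fa B' w b1'`.  (2) If `InCone B (μ + l b1) l` then for all `w` with `Fa B w b1`: `0 ≤ pr (μ + l b1) w + l hs B w = pr μ w` (the easy direction of the description of the cone: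
`N' (pr u w + N hs B w) = ∑ b_a (pr a w + hs B w) ≥ 0`); the same for `B'`, `b1'`.  (3) `hp` for `B`: a relation `∑ e_b (b - b1) = 0` paired with `w0` gives `e_b = 0` for `b ≠ b1`.  `hp` for `B'`: let `∑ e_b (b - b1') = 0`, `e_b0 > 0`, `b0 ≠ b1'`; for every `w` with `Fa B' w b1'` all `e_b pr (b - b1') w ≥ 0` have sum `0`, so `pr (b0 - b1') w = 0`.  Let `η = b0 - b1'`, `pr (b0 - b1') η > 0`;
for `M` large `Fa B (M w0 + η) b1` (`pr (b - b1) w0 ≥ 1` for `b ≠ b1`), so `Fa B' (M w0 + η) b1'` and `Fa B' w0 b1'`: `pr (b0 - b1') (M w0 + η) = 0 = pr (b0 - b1') w0`: contradiction.  (4) `farkas` in both directions (`hμ` from (2) and (1)). -/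

set_option autoImplicit false

namespace Pool.Agent.Lib.MP_1e3e9c_agY

open Pool.Agent.Lib.MP_1e3e9c_agV

private theorem T2_pr_add {d : ℕ} (m m' u : Fin d → ℤ) : pr (m + m') u = pr m u + pr m' u := by
  unfold pr
  rw [← Finset.sum_add_distrib]
  exact Finset.sum_congr rfl fun j _ => by rw [Pi.add_apply]; ring

private theorem T2_pr_smul {d : ℕ} (l : ℤ) (m u : Fin d → ℤ) : pr (l • m) u = l * pr m u := by
  unfold pr
  rw [Finset.mul_sum]
  exact Finset.sum_congr rfl fun j _ => by rw [Pi.smul_apply, smul_eq_mul]; ring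

/-- The theorem of the alternative for a finite index type and `b = 0`. -/
private theorem T2_alt {ι : Type} [Fintype ι] {d : ℕ} (v : ι → Fin d → ℤ)
    (hb : ∀ u : Fin d → ℤ, ∃ i, pr (v i) u ≤ 0) :
    ∃ e : ι → ℕ, e ≠ 0 ∧ ∀ j, ∑ i, (e i : ℤ) * v i j = 0 := by
  obtain ⟨φ, -⟩ : ∃ φ : ι ≃ Fin (Fintype.card ι), φ = φ := ⟨Fintype.equivFin ι, rfl⟩
  obtain ⟨e, he0, he, -⟩ := alt_int (fun i => v (φ.symm i)) (fun _ => 0) (by
    intro N u _
    obtain ⟨i, hi⟩ := hb u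
    refine ⟨φ i, ?_⟩
    have h1 : ∑ j, u j * v (φ.symm (φ i)) j = pr (v i) u := by
      rw [φ.symm_apply_apply]
      unfold pr
      exact Finset.sum_congr rfl fun j _ => mul_comm _ _
    rw [h1, mul_zero, add_zero]
    exact hi)
  refine ⟨fun i => e (φ i), fun h => he0 ?_, fun j => ?_⟩
  · funext i
    have h1 := congrFun h (φ.symm i)
    simp only [φ.apply_symm_apply] at h1
    exact h1
  · rw [← he j, ← Equiv.sum_comp φ]
    exact Finset.sum_congr rfl fun i _ => by rw [φ.symm_apply_apply]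

private theorem T2_fa {d : ℕ} {B : Finset (Fin d → ℤ)} {b1 w : Fin d → ℤ} (hb1 : b1 ∈ B)
    (h : ∀ b ∈ B, b ≠ b1 → pr b1 w < pr b w) : Fa B w b1 := by
  obtain ⟨m, hm, hm0⟩ := hs_min ⟨b1, hb1⟩ w
  by_cases hmb : m = b1
  · rw [← hmb]
    exact ⟨hm, hm0⟩
  · have h1 := h m hm hmb
    have h2 := hs_ge hb1 w
    exact absurd h2 (by omega)

private theorem T2_nonneg {d : ℕ} {B : Finset (Fin d → ℤ)} {b1 μ w : Fin d → ℤ} {l : ℕ}
    (h : InCone B (μ + (l : ℤ) • b1) l) (hw : Fa B w b1) : 0 ≤ pr μ w := by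
  obtain ⟨N, c, hN, hl, hc⟩ := h
  have h1 : (N : ℤ) * pr (μ + (l : ℤ) • b1) w = ∑ a ∈ B, (c a : ℤ) * pr a w := by
    unfold pr
    simp_rw [Finset.mul_sum]
    rw [Finset.sum_comm]
    refine Finset.sum_congr rfl fun j _ => ?_
    rw [← mul_assoc, ← hc j, Finset.sum_mul]
    exact Finset.sum_congr rfl fun a _ => by ring
  have h2 : (N : ℤ) * l = ∑ a ∈ B, (c a : ℤ) := by
    rw [← Nat.cast_mul, ← hl]
    push_cast
    rfl
  have h3 : (N : ℤ) * pr μ w = ∑ a ∈ B, (c a : ℤ) * (pr a w + hs B w) := by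
    have h4 : ∑ a ∈ B, (c a : ℤ) * (pr a w + hs B w) =
        ∑ a ∈ B, (c a : ℤ) * pr a w + (∑ a ∈ B, (c a : ℤ)) * hs B w := by
      rw [Finset.sum_mul, ← Finset.sum_add_distrib]
      exact Finset.sum_congr rfl fun a _ => by ring
    rw [h4, ← h1, ← h2, T2_pr_add, T2_pr_smul]
    linear_combination (-(N : ℤ) * l) * hw.2
  have h5 : 0 ≤ (N : ℤ) * pr μ w := by
    rw [h3]
    exact Finset.sum_nonneg fun a ha => mul_nonneg (Int.natCast_nonneg _) (hs_ge ha w)
  exact nonneg_of_mul_nonneg_right h5 (by exact_mod_cast hN)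

/-- A relation `∑ e_b (b - b1) = 0`, paired with a vector of the dual cone of `b1`. -/
private theorem T2_rel {d : ℕ} {B : Finset (Fin d → ℤ)} {b1 w : Fin d → ℤ} (hw : Fa B w b1)
    {e : (Fin d → ℤ) → ℕ} (he : ∀ l, ∑ b ∈ B, (e b : ℤ) * (b l - b1 l) = 0) {b : Fin d → ℤ}
    (hb : b ∈ B) (hne : e b ≠ 0) : pr b w = pr b1 w := by
  have h1 : ∑ b ∈ B, (e b : ℤ) * (pr b w - pr b1 w) = 0 := by
    have h2 : ∀ b ∈ B, (e b : ℤ) * (pr b w - pr b1 w) = ∑ j, (e b : ℤ) * (b j - b1 j) * w j := by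
      intro b _
      unfold pr
      rw [← Finset.sum_sub_distrib, Finset.mul_sum]
      exact Finset.sum_congr rfl fun j _ => by ring
    rw [Finset.sum_congr rfl h2, Finset.sum_comm]
    refine Finset.sum_eq_zero fun j _ => ?_
    rw [← Finset.sum_mul, he j, zero_mul]
  have h3 : ∀ b ∈ B, 0 ≤ (e b : ℤ) * (pr b w - pr b1 w) := by
    intro b hb
    refine mul_nonneg (Int.natCast_nonneg _) ?_
    have h4 := hs_ge hb w
    have h5 := hw.2
    omega
  have h6 := (Finset.sum_eq_zero_iff_of_nonneg h3).1 h1 b hb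
  rcases mul_eq_zero.1 h6 with h7 | h7
  · exact absurd (by exact_mod_cast h7) hne
  · exact sub_eq_zero.1 h7

theorem farkas {d : ℕ} {B : Finset (Fin d → ℤ)} {b1 : Fin d → ℤ} (hb1 : b1 ∈ B)
    (hp : ∀ e : (Fin d → ℤ) → ℕ, (∀ l, ∑ b ∈ B, (e b : ℤ) * (b l - b1 l) = 0) →
      ∀ b ∈ B, b ≠ b1 → e b = 0)
    {μ : Fin d → ℤ} (hμ : ∀ w, Fa B w b1 → 0 ≤ pr μ w) :
    ∃ l0 : ℕ, ∀ l, l0 ≤ l → InCone B (μ + (l : ℤ) • b1) l := by
  classical
  obtain ⟨e, he0, he⟩ := T2_alt (ι := Option {b // b ∈ B.erase b1})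
    (fun o => Option.elim o (-μ) fun b => b.1 - b1) (by
      intro u
      by_contra hcon
      push Not at hcon
      have h1 : Fa B u b1 := by
        refine T2_fa hb1 fun b hb hne => ?_
        have h2 := hcon (some ⟨b, Finset.mem_erase.2 ⟨hne, hb⟩⟩)
        simp only [Option.elim_some] at h2
        have h3 : pr (b - b1) u = pr b u - pr b1 u := by
          unfold pr
          rw [← Finset.sum_sub_distrib]
          exact Finset.sum_congr rfl fun j _ => by rw [Pi.sub_apply]; ring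
        rw [h3] at h2
        omega
      have h4 := hcon none
      simp only [Option.elim_none] at h4
      have h5 : pr (-μ) u = - pr μ u := by
        unfold pr
        rw [← Finset.sum_neg_distrib]
        exact Finset.sum_congr rfl fun j _ => by rw [Pi.neg_apply]; ring
      rw [h5] at h4
      have h6 := hμ u h1
      omega)
  obtain ⟨q, hq⟩ : ∃ q : ℕ, q = e none := ⟨_, rfl⟩
  obtain ⟨E, hE⟩ : ∃ E : (Fin d → ℤ) → ℕ, E = fun b => if h : b ∈ B.erase b1 then e (some ⟨b, h⟩) else 0 :=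
    ⟨_, rfl⟩
  have hEs : ∀ b : {b // b ∈ B.erase b1}, e (some b) = E b.1 := by
    intro b
    rw [hE]
    simp only [b.2, dif_pos]
  have hE1 : E b1 = 0 := by
    rw [hE]
    simp
  -- the relation
  have hrel : ∀ j, ∑ b ∈ B, (E b : ℤ) * (b j - b1 j) = q * μ j := by
    intro j
    have h1 := he j
    rw [Fintype.sum_option] at h1
    simp only [Option.elim_none, Option.elim_some, Pi.neg_apply, Pi.sub_apply, hEs] at h1
    rw [Finset.sum_coe_sort (B.erase b1) (fun b => (E b : ℤ) * (b j - b1 j))] at h1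
    rw [← Finset.add_sum_erase B _ hb1, sub_self, mul_zero, zero_add, hq]
    linear_combination h1
  have hq0 : 0 < q := by
    rcases Nat.eq_zero_or_pos q with h0 | h0
    · exfalso
      have h1 := hp E (fun l => by rw [hrel l, h0, Nat.cast_zero, zero_mul])
      apply he0
      funext o
      rcases o with _ | b
      · show e none = 0
        rw [← hq, h0]
      · show e (some b) = 0
        rw [hEs b]
        exact h1 b.1 (Finset.mem_of_mem_erase b.2) (Finset.ne_of_mem_erase b.2)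
    · exact h0
  obtain ⟨l0, hl0⟩ : ∃ l0 : ℕ, l0 = ∑ b ∈ B, E b := ⟨_, rfl⟩
  refine ⟨l0, fun l hl => ⟨q, fun b => E b + if b = b1 then q * l - l0 else 0, hq0, ?_, fun j => ?_⟩⟩
  · rw [Finset.sum_add_distrib, ← hl0, Finset.sum_ite_eq' B b1, if_pos hb1]
    have h1 : l ≤ q * l := Nat.le_mul_of_pos_left l hq0
    omega
  · have h1 : l ≤ q * l := Nat.le_mul_of_pos_left l hq0
    have h2 : ((q * l - l0 : ℕ) : ℤ) = q * l - l0 := by
      rw [Nat.cast_sub (hl.trans h1), Nat.cast_mul]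
    have h3 : ∀ b ∈ B, ((E b + if b = b1 then q * l - l0 else 0 : ℕ) : ℤ) * b j =
        (E b : ℤ) * (b j - b1 j) + (E b : ℤ) * b1 j + if b = b1 then (q * l - l0 : ℤ) * b1 j else 0 := by
      intro b _
      by_cases hb : b = b1
      · rw [if_pos hb, if_pos hb, Nat.cast_add, h2, hb]
        ring
      · rw [if_neg hb, if_neg hb, add_zero, add_zero]
        ring
    rw [Finset.sum_congr rfl h3, Finset.sum_add_distrib, Finset.sum_add_distrib, hrel j,
      Finset.sum_ite_eq' B b1, if_pos hb1, ← Finset.sum_mul]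
    have h4 : (l0 : ℤ) = ∑ b ∈ B, (E b : ℤ) := by
      rw [hl0]
      push_cast
      rfl
    rw [← h4, Pi.add_apply, Pi.smul_apply, smul_eq_mul]
    ring

theorem same_cone {d : ℕ} {B B' : Finset (Fin d → ℤ)} (h : Fan B B') (h' : Fan B' B)
    {b1 : Fin d → ℤ} (hb1 : b1 ∈ B) {w0 : Fin d → ℤ} (hw0 : ∀ b ∈ B, b ≠ b1 → pr b1 w0 < pr b w0) :
    ∃ b1' ∈ B', ∀ μ : Fin d → ℤ,
      ((∃ l : ℕ, InCone B' (μ + (l : ℤ) • b1') l) →
        ∃ l0 : ℕ, ∀ l, l0 ≤ l → InCone B (μ + (l : ℤ) • b1) l) ∧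
      ((∃ l : ℕ, InCone B (μ + (l : ℤ) • b1) l) →
        ∃ l0 : ℕ, ∀ l, l0 ≤ l → InCone B' (μ + (l : ℤ) • b1') l) := by
  classical
  obtain ⟨b1', hb1', hf⟩ := h b1 hb1
  obtain ⟨b'', hb'', hf'⟩ := h' b1' hb1'
  have hF0 : Fa B w0 b1 := T2_fa hb1 hw0
  have hbb : b'' = b1 := by
    by_contra hne
    have h1 := hw0 b'' hb'' hne
    have h2 := (hf' w0 (hf w0 hF0)).2
    have h3 := hF0.2
    omega
  rw [hbb] at hf'
  -- no relations at `b1`
  have hp : ∀ e : (Fin d → ℤ) → ℕ, (∀ l, ∑ b ∈ B, (e b : ℤ) * (b l - b1 l) = 0) →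
      ∀ b ∈ B, b ≠ b1 → e b = 0 := by
    intro e he b hb hne
    by_contra h0
    have h1 := T2_rel hF0 he hb h0
    have h2 := hw0 b hb hne
    omega
  -- no relations at `b1'`
  have hp' : ∀ e : (Fin d → ℤ) → ℕ, (∀ l, ∑ b ∈ B', (e b : ℤ) * (b l - b1' l) = 0) →
      ∀ b ∈ B', b ≠ b1' → e b = 0 := by
    intro e he b hb hne
    by_contra h0
    obtain ⟨η, hη⟩ : ∃ η : Fin d → ℤ, η = b - b1' := ⟨_, rfl⟩
    obtain ⟨M, hM⟩ : ∃ M : ℤ, M = 1 + ∑ c ∈ B, |pr c η - pr b1 η| := ⟨_, rfl⟩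
    have hpr : ∀ x : Fin d → ℤ, pr x (M • w0 + η) = M * pr x w0 + pr x η := by
      intro x
      unfold pr
      rw [Finset.mul_sum, ← Finset.sum_add_distrib]
      exact Finset.sum_congr rfl fun j _ => by rw [Pi.add_apply, Pi.smul_apply, smul_eq_mul]; ring
    have hM0 : 0 ≤ M := by
      rw [hM]
      have : 0 ≤ ∑ c ∈ B, |pr c η - pr b1 η| := Finset.sum_nonneg fun c _ => abs_nonneg _
      omega
    have hF1 : Fa B (M • w0 + η) b1 := by
      refine T2_fa hb1 fun c hc hcne => ?_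
      rw [hpr, hpr]
      have h1 : 1 ≤ pr c w0 - pr b1 w0 := by
        have := hw0 c hc hcne
        omega
      have h2 : |pr c η - pr b1 η| ≤ ∑ c ∈ B, |pr c η - pr b1 η| :=
        Finset.single_le_sum (f := fun c => |pr c η - pr b1 η|) (fun c _ => abs_nonneg _) hc
      have h3 := neg_abs_le (pr c η - pr b1 η)
      have h4 : M * 1 ≤ M * (pr c w0 - pr b1 w0) := mul_le_mul_of_nonneg_left h1 hM0
      rw [mul_sub] at h4
      omega
    have h1 := T2_rel (hf _ hF1) he hb h0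
    have h2 := T2_rel (hf _ hF0) he hb h0
    rw [hpr, hpr, h2] at h1
    have h3 : pr b η = pr b1' η := by omega
    have h4 : ∑ j, (b j - b1' j) * (b j - b1' j) = 0 := by
      have h5 : ∑ j, (b j - b1' j) * (b j - b1' j) = pr b η - pr b1' η := by
        unfold pr
        rw [← Finset.sum_sub_distrib, hη]
        exact Finset.sum_congr rfl fun j _ => by rw [Pi.sub_apply]; ring
      rw [h5, h3, sub_self]
    apply hne
    funext j
    have h6 := (Finset.sum_eq_zero_iff_of_nonneg (fun j _ => mul_self_nonneg (b j - b1' j))).1 h4 j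
      (Finset.mem_univ j)
    exact sub_eq_zero.1 (mul_self_eq_zero.1 h6)
  refine ⟨b1', hb1', fun μ => ⟨?_, ?_⟩⟩
  · rintro ⟨l, hl⟩
    exact farkas hb1 hp fun w hw => T2_nonneg hl (hf w hw)
  · rintro ⟨l, hl⟩
    exact farkas hb1' hp' fun w hw => T2_nonneg hl (hf' w hw)

end Pool.Agent.Lib.MP_1e3e9c_agY
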