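import Pool.Agent.Lib.MP_1e3e9c_agY.T1
import Pool.Agent.Lib.MP_1e3e9c_agY.T2
import Pool.Agent.Lib.MP_1e3e9c_agV.V03a

/-! LEAF T3 (medium).  Transfer of a rational curve to another projective embedding of the same toric variety.

PROOF.  `vertex_ne` (T1): `b1 ∈ B`, `z b1 1 ≠ 0`, `w0`; `same_cone` (T2): `b1' ∈ B'`.  For `μ` with `∃ l, InCone B (μ + l b1) l` put `χ μ = z (μ + l b1) l / (z b1 1)^l` for any such `l`: it does not depend on `l` (`z (m + b1) (l + 1) = z m l * z b1 1`, `cone_one`), and `χ (μ + μ') = χ μ * χ μ'` (add the two; `cone_add`), `χ 0 = 1` (`l = 0`).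
`z' m l = if InCone B' m l then χ (m - l b1') else 0` (classical): for `InCone B' m l` the vector `μ = m - l b1'` has `μ + l b1' = m`, so `∃ l0, ∀ l ≥ l0, InCone B (μ + l b1) l`.  `one`: `χ 0`.  `mul`: `(m + m') - (l + l') b1' = (m - l b1') + (m' - l' b1')`.
`eq j m' l`: for all `m ∈ A j`: `InCone B' (m + m') l`.  Choose `L` so large that `InCone B (m + m' - l b1' + L b1) L` for all `m ∈ A j` (finitely many): `z' (m + m') l = z (m + m'') L / (z b1 1)^L` with `m'' = m' - l b1' + L b1`, and the sum is `0` by `hz.eq j m'' L`.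
`nonconst`: let `m, m', l` be as in `hz.nonconst`, `μ = m - l b1`, `μ' = m' - l b1`; by `same_cone` for `L` large `InCone B' (μ + L b1') L`, `InCone B' (μ' + L b1') L`, and `z' (μ + L b1') L = χ μ = z m l / (z b1 1)^l`, `z' (μ' + L b1') L = z m' l / (z b1 1)^l ≠ 0`: the ratio is the same. -/

set_option autoImplicit false

namespace Pool.Agent.Lib.MP_1e3e9c_agY

open Pool.Agent.Lib.MP_1e3e9c_agV

private theorem T3_zero {d : ℕ} (B : Finset (Fin d → ℤ)) : InCone B 0 0 :=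
  ⟨1, fun _ => 0, one_pos, by simp, fun j => by simp⟩

private theorem T3_step {k : Type} [Field k] {d s : ℕ} {B : Finset (Fin d → ℤ)}
    {A : Fin (s + 1) → Finset (Fin d → ℤ)} {c : Fin (s + 1) → (Fin d → ℤ) → k}
    {z : (Fin d → ℤ) → ℕ → RatFunc k} (hz : IsCv B A c z) {b1 : Fin d → ℤ} (hb1 : b1 ∈ B) {μ : Fin d → ℤ} {l : ℕ}
    (hl : InCone B (μ + (l : ℤ) • b1) l) (j : ℕ) : InCone B (μ + ((l + j : ℕ) : ℤ) • b1) (l + j) ∧
      z (μ + ((l + j : ℕ) : ℤ) • b1) (l + j) = z (μ + (l : ℤ) • b1) l * z b1 1 ^ j := by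
  induction j with
  | zero => exact ⟨hl, by rw [pow_zero, mul_one]; rfl⟩
  | succ j ih =>
    have h1 : μ + ((l + (j + 1) : ℕ) : ℤ) • b1 = (μ + ((l + j : ℕ) : ℤ) • b1) + b1 := by
      have h2 : ((l + (j + 1) : ℕ) : ℤ) = ((l + j : ℕ) : ℤ) + 1 := by push_cast; ring
      rw [h2, add_smul, one_smul, add_assoc]
    rw [h1, ← add_assoc l j 1]
    refine ⟨cone_add ih.1 (cone_one hb1), ?_⟩
    rw [hz.mul _ _ _ _ ih.1 (cone_one hb1), ih.2, pow_succ, mul_assoc]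

/-- the character -/
private theorem T3_char {k : Type} [Field k] {d s : ℕ} {B : Finset (Fin d → ℤ)}
    {A : Fin (s + 1) → Finset (Fin d → ℤ)} {c : Fin (s + 1) → (Fin d → ℤ) → k}
    {z : (Fin d → ℤ) → ℕ → RatFunc k} (hz : IsCv B A c z) {b1 : Fin d → ℤ} (hb1 : b1 ∈ B) (hy : z b1 1 ≠ 0) :
    ∃ χ : (Fin d → ℤ) → RatFunc k, (∀ (μ : Fin d → ℤ) (l : ℕ), InCone B (μ + (l : ℤ) • b1) l →
      χ μ = z (μ + (l : ℤ) • b1) l / z b1 1 ^ l) ∧
      χ 0 = 1 ∧ ∀ (μ μ' : Fin d → ℤ) (l l' : ℕ), InCone B (μ + (l : ℤ) • b1) l → InCone B (μ' + (l' : ℤ) • b1) l' →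
        χ (μ + μ') = χ μ * χ μ' := by
  classical
  have hχ : ∀ μ : Fin d → ℤ, ∃ x : RatFunc k, ∀ l : ℕ, InCone B (μ + (l : ℤ) • b1) l →
      x = z (μ + (l : ℤ) • b1) l / z b1 1 ^ l := by
    intro μ
    by_cases h : ∃ l : ℕ, InCone B (μ + (l : ℤ) • b1) l
    · obtain ⟨l, hl⟩ := h
      refine ⟨z (μ + (l : ℤ) • b1) l / z b1 1 ^ l, fun l' hl' => ?_⟩
      have h1 := (T3_step hz hb1 hl l').2
      have h2 := (T3_step hz hb1 hl' l).2
      rw [add_comm l' l, h1] at h2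
      rw [div_eq_div_iff (pow_ne_zero _ hy) (pow_ne_zero _ hy), h2]
    · exact ⟨0, fun l hl => absurd ⟨l, hl⟩ h⟩
  choose χ hχ using hχ
  refine ⟨χ, hχ, ?_, ?_⟩
  · have h0 : (0 : Fin d → ℤ) + ((0 : ℕ) : ℤ) • b1 = 0 := by
      rw [Nat.cast_zero, zero_smul, add_zero]
    have h1 := hχ 0 0 (by
      rw [h0]
      exact T3_zero B)
    rw [h1, h0, hz.one, pow_zero, div_one]
  · intro μ μ' l l' hl hl'
    have e : μ + μ' + ((l + l' : ℕ) : ℤ) • b1 = (μ + (l : ℤ) • b1) + (μ' + (l' : ℤ) • b1) := by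
      rw [Nat.cast_add, add_smul]
      abel
    have h1 : InCone B (μ + μ' + ((l + l' : ℕ) : ℤ) • b1) (l + l') := by
      rw [e]
      exact cone_add hl hl'
    rw [hχ _ _ h1, hχ _ _ hl, hχ _ _ hl', e, hz.mul _ _ _ _ hl hl', pow_add, div_mul_div_comm]

theorem transfer_fan {k : Type} [Field k] {d s : ℕ} {B B' : Finset (Fin d → ℤ)} (h : Fan B B')
    (h' : Fan B' B) {A : Fin (s + 1) → Finset (Fin d → ℤ)}
    {c : Fin (s + 1) → (Fin d → ℤ) → k} (hz : ∃ z, IsCv B A c z) : ∃ z, IsCv B' A c z := by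
  classical
  obtain ⟨z, hz⟩ := hz
  obtain ⟨b1, hb1, hy, w0, hw0⟩ := vertex_ne hz
  obtain ⟨b1', hb1', hcone⟩ := same_cone h h' hb1 hw0
  obtain ⟨χ, hχ, hχ0, hχa⟩ := T3_char hz hb1 hy
  have hsub : ∀ (m : Fin d → ℤ) (l : ℕ) (b : Fin d → ℤ), m - (l : ℤ) • b + (l : ℤ) • b = m :=
    fun m l b => sub_add_cancel _ _
  have hto : ∀ m l, InCone B' m l → ∃ l0 : ℕ, ∀ l', l0 ≤ l' →
      InCone B (m - (l : ℤ) • b1' + (l' : ℤ) • b1) l' := fun m l hm =>
    (hcone _).1 ⟨l, by rw [hsub]; exact hm⟩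
  refine ⟨fun m l => if InCone B' m l then χ (m - (l : ℤ) • b1') else 0, ?_, ?_, ?_, ?_⟩
  · show (if InCone B' 0 0 then χ (0 - ((0 : ℕ) : ℤ) • b1') else 0) = 1
    rw [if_pos (T3_zero B'), Nat.cast_zero, zero_smul, sub_zero, hχ0]
  · intro m l m' l' hm hm'
    show (if InCone B' (m + m') (l + l') then χ (m + m' - ((l + l' : ℕ) : ℤ) • b1') else 0) =
      (if InCone B' m l then χ (m - (l : ℤ) • b1') else 0) * (if InCone B' m' l' then χ (m' - (l' : ℤ) • b1') else 0)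
    rw [if_pos (cone_add hm hm'), if_pos hm, if_pos hm']
    have e : m + m' - ((l + l' : ℕ) : ℤ) • b1' = (m - (l : ℤ) • b1') + (m' - (l' : ℤ) • b1') := by
      rw [Nat.cast_add, add_smul]
      abel
    obtain ⟨n, hn⟩ := hto m l hm
    obtain ⟨n', hn'⟩ := hto m' l' hm'
    rw [e]
    exact hχa _ _ _ _ (hn n le_rfl) (hn' n' le_rfl)
  · intro j m' l hall
    have h1 : ∀ m ∈ A j, ∃ l0 : ℕ, ∀ l', l0 ≤ l' → InCone B (m + m' - (l : ℤ) • b1' + (l' : ℤ) • b1) l' :=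
      fun m hm => hto _ _ (hall m hm)
    choose! F hF using h1
    obtain ⟨L, hL⟩ : ∃ L : ℕ, L = (A j).sup F := ⟨_, rfl⟩
    have hLF : ∀ m ∈ A j, F m ≤ L := fun m hm => by
      rw [hL]
      exact Finset.le_sup hm
    have e : ∀ m : Fin d → ℤ, m + m' - (l : ℤ) • b1' + (L : ℤ) • b1 = m + (m' - (l : ℤ) • b1' + (L : ℤ) • b1) :=
      fun m => by abel
    have h2 : ∀ m ∈ A j, RatFunc.C (c j m) * (if InCone B' (m + m') l then χ (m + m' - (l : ℤ) • b1') else 0) =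
        RatFunc.C (c j m) * z (m + (m' - (l : ℤ) • b1' + (L : ℤ) • b1)) L / z b1 1 ^ L := by
      intro m hm
      rw [if_pos (hall m hm), hχ _ L (hF m hm L (hLF m hm)), e, mul_div_assoc]
    rw [Finset.sum_congr rfl h2, ← Finset.sum_div, hz.eq j _ L, zero_div]
    intro m hm
    rw [← e]
    exact hF m hm L (hLF m hm)
  · obtain ⟨m, m', l, hm, hm', hne, hcon⟩ := hz.nonconst
    obtain ⟨n, hn⟩ := (hcone (m - (l : ℤ) • b1)).2 ⟨l, by rw [hsub]; exact hm⟩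
    obtain ⟨n', hn'⟩ := (hcone (m' - (l : ℤ) • b1)).2 ⟨l, by rw [hsub]; exact hm'⟩
    obtain ⟨L, hL⟩ : ∃ L : ℕ, L = max n n' := ⟨_, rfl⟩
    have i1 := hn L (by rw [hL]; exact le_max_left _ _)
    have i2 := hn' L (by rw [hL]; exact le_max_right _ _)
    have hyl : z b1 1 ^ l ≠ 0 := pow_ne_zero _ hy
    have e : ∀ {x : Fin d → ℤ}, InCone B x l → InCone B' (x - (l : ℤ) • b1 + (L : ℤ) • b1') L →
        (if InCone B' (x - (l : ℤ) • b1 + (L : ℤ) • b1') L then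
          χ (x - (l : ℤ) • b1 + (L : ℤ) • b1' - (L : ℤ) • b1') else 0) = z x l / z b1 1 ^ l := by
      intro x hx hx'
      rw [if_pos hx', add_sub_cancel_right, hχ _ l (by rw [hsub]; exact hx), hsub]
    refine ⟨_, _, L, i1, i2, ?_, fun b => ?_⟩
    · show (if InCone B' (m' - (l : ℤ) • b1 + (L : ℤ) • b1') L then
          χ (m' - (l : ℤ) • b1 + (L : ℤ) • b1' - (L : ℤ) • b1') else 0) ≠ 0
      rw [e hm' i2]
      exact div_ne_zero hne hyl
    · show (if InCone B' (m - (l : ℤ) • b1 + (L : ℤ) • b1') L then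
          χ (m - (l : ℤ) • b1 + (L : ℤ) • b1' - (L : ℤ) • b1') else 0) ≠ RatFunc.C b *
        (if InCone B' (m' - (l : ℤ) • b1 + (L : ℤ) • b1') L then
          χ (m' - (l : ℤ) • b1 + (L : ℤ) • b1' - (L : ℤ) • b1') else 0)
      rw [e hm i1, e hm' i2, ← mul_div_assoc]
      intro h0
      exact hcon b ((div_left_inj' hyl).1 h0)

end Pool.Agent.Lib.MP_1e3e9c_agY
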