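import Pool.Agent.Lib.MP_1e3e9c_agY.L03

/-! LEAF L04 (medium+).  The explicit system (rational coefficients).

PROOF.  `s = t + 1` (`1 ≤ s`), the indices are `0, ..., t + 1`.  `q i = i`.  `j = t`, `j' = t + 1` in `exists_four`.  For `j < t` (as numbers): choose `p_i ∈ A j` with `ι j (p_i) = i` (`hι.surj`) for `i = j, t, t + 1` and put `u j = 1` at `p_j`, `x` at `p_t`, `y` at `p_(t+1)`, `0` elsewhere, with `1 + x + y = 0`, `j + t x + (t + 1) y = 0` (so `y = t - j`, `x = j - t - 1`).
`u t = 1` at `m0` and `m1`, `-1` at `m0'`, `m1'`, `0` elsewhere (more precisely the sum of the indicator functions: `u t m = [m = m0] - [m = m0'] + [m = m1] - [m = m1']`; the same for `j < t`: `u j m = [m = p_j] + x [m = p_t] + y [m = p_(t+1)]`); `u (t + 1)` in the same way with `m2, m2', m3, m3'`.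
`r0`, `r1`: sums of indicator functions over `A j` (`Finset.sum_ite_eq'`), `ι` is equal at `m0` and `m0'` etc.  Class sums `G j i = ∑ m ∈ A j, if ι j m = i then u j m else 0`: for `j < t`: `[i = j] + x [i = t] + y [i = t + 1]`; for `j ≥ t`: `0`.
`nd`: (1) the first condition at `i < t` is `β i = 0` (only `j = i` contributes).  (2) second condition, paired with `v i'`: `∑_l (m l) (v i' l) = pr m (v i') = [ι j m = i'] - hs (A j) (v i')` (`hι.val`), so `0 = ∑_j ∑_m (α j + β j q(ι j m)) u j m ([ι j m = i'] - hs (A j) (v i')) = ∑_j (α j + β j q i') G j i' - ∑_j hs (A j) (v i') (α j ∑ u j m + β j ∑ q(ι j m) u j m) = ∑_j (α j + β j q i') G j i'`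
(`r0`, `r1`); as `β j = 0` for `j < t` and `G j = 0` for `j ≥ t` this is `∑_(j < t) α j G j i'`, at `i' < t`: `α i' = 0`.  (3) the second condition is now `∑_(j ∈ {t, t+1}) ∑_m (α j + β j q(ι j m)) u j m m_l = 0`: for `j = t`: `(α t + β t q(ι t m0)) (m0 - m0')_l + (α t + β t q(ι t m1)) (m1 - m1')_l`, the same for `t + 1`; independence (`exists_four`): the four coefficients are `0`; `q(ι t m0) ≠ q(ι t m1)`: `β t = 0`, `α t = 0`; the same for `t + 1`. -/

set_option autoImplicit false

namespace Pool.Agent.Lib.MP_1e3e9c_agY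

open Polynomial Pool.Agent.Lib.MP_1e3e9c_agV

private theorem L04_delta {d : ℕ} (A : Finset (Fin d → ℤ)) {p : Fin d → ℤ} (hp : p ∈ A) (F : (Fin d → ℤ) → ℚ) :
    ∑ m ∈ A, (if m = p then (1 : ℚ) else 0) * F m = F p := by
  rw [Finset.sum_eq_single p]
  · rw [if_pos rfl, one_mul]
  · intro m _ hm
    rw [if_neg hm, zero_mul]
  · exact fun h => absurd hp h

private theorem L04_four {d : ℕ} (A : Finset (Fin d → ℤ)) {p0 p0' p1 p1' : Fin d → ℤ} (h0 : p0 ∈ A) (h0' : p0' ∈ A)
    (h1 : p1 ∈ A) (h1' : p1' ∈ A) (F : (Fin d → ℤ) → ℚ) :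
    ∑ m ∈ A, ((if m = p0 then (1 : ℚ) else 0) - (if m = p0' then (1 : ℚ) else 0) + (if m = p1 then (1 : ℚ) else 0) -
      (if m = p1' then (1 : ℚ) else 0)) * F m = F p0 - F p0' + F p1 - F p1' := by
  have h : ∀ m, ((if m = p0 then (1 : ℚ) else 0) - (if m = p0' then (1 : ℚ) else 0) + (if m = p1 then (1 : ℚ) else 0) -
      (if m = p1' then (1 : ℚ) else 0)) * F m = (if m = p0 then (1 : ℚ) else 0) * F m - (if m = p0' then (1 : ℚ) else 0) * F m +
      (if m = p1 then (1 : ℚ) else 0) * F m - (if m = p1' then (1 : ℚ) else 0) * F m := fun m => by ring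
  rw [Finset.sum_congr rfl fun m _ => h m, Finset.sum_sub_distrib, Finset.sum_add_distrib, Finset.sum_sub_distrib,
    L04_delta A h0, L04_delta A h0', L04_delta A h1, L04_delta A h1']

private theorem L04_three {d : ℕ} (A : Finset (Fin d → ℤ)) {p p' p'' : Fin d → ℤ} (h : p ∈ A) (h' : p' ∈ A)
    (h'' : p'' ∈ A) (x y : ℚ) (F : (Fin d → ℤ) → ℚ) :
    ∑ m ∈ A, ((if m = p then (1 : ℚ) else 0) + x * (if m = p' then (1 : ℚ) else 0) + y * (if m = p'' then (1 : ℚ) else 0)) *
      F m = F p + x * F p' + y * F p'' := by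
  have h0 : ∀ m, ((if m = p then (1 : ℚ) else 0) + x * (if m = p' then (1 : ℚ) else 0) +
      y * (if m = p'' then (1 : ℚ) else 0)) * F m = (if m = p then (1 : ℚ) else 0) * F m +
      x * ((if m = p' then (1 : ℚ) else 0) * F m) + y * ((if m = p'' then (1 : ℚ) else 0) * F m) := fun m => by ring
  rw [Finset.sum_congr rfl fun m _ => h0 m, Finset.sum_add_distrib, Finset.sum_add_distrib, ← Finset.mul_sum,
    ← Finset.mul_sum, L04_delta A h, L04_delta A h', L04_delta A h'']

theorem exists_pt {d s : ℕ} {A : Fin (s + 1) → Finset (Fin d → ℤ)}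
    {v : Fin (s + 1) → Fin d → ℤ} {a : Fin (s + 1) → ℕ} (hR : RelY A v a)
    {ι : Fin (s + 1) → (Fin d → ℤ) → Fin (s + 1)} (hι : Cls A v ι) (h1s : 1 ≤ s)
    (hd : s + 4 ≤ d) :
    ∃ (q : Fin (s + 1) → ℚ) (u : Fin (s + 1) → (Fin d → ℤ) → ℚ), Pt A ι q u := by
  classical
  obtain ⟨J, hJ⟩ : ∃ J : Fin (s + 1), (J : ℕ) + 1 = s := ⟨⟨s - 1, by omega⟩, by show s - 1 + 1 = s; omega⟩
  obtain ⟨J', hJ'⟩ : ∃ J' : Fin (s + 1), (J' : ℕ) = s := ⟨⟨s, by omega⟩, rfl⟩
  have hJJ : J ≠ J' := by
    intro h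
    rw [h, hJ'] at hJ
    omega
  obtain ⟨q, hq⟩ : ∃ q : Fin (s + 1) → ℚ, q = fun i : Fin (s + 1) => ((i : ℕ) : ℚ) := ⟨_, rfl⟩
  have hqinj : Function.Injective q := by
    intro i i' h
    rw [hq] at h
    exact Fin.ext (Nat.cast_injective (R := ℚ) h)
  have hqJ : q J' = q J + 1 := by
    rw [hq]
    show ((J' : ℕ) : ℚ) = ((J : ℕ) : ℚ) + 1
    have h5 : (J' : ℕ) = (J : ℕ) + 1 := hJ'.trans hJ.symm
    rw [h5]
    push_cast
    rfl
  obtain ⟨m0, h0, m0', h0', m1, h1, m1', h1', m2, h2, m2', h2', m3, h3, m3', h3', e0, e1, e01, e2, e3, e23, hli⟩ :=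
    exists_four hR hι h1s hd J J'
  choose P hPA hPι using hι.surj
  obtain ⟨u, huJ, huJ', hus⟩ : ∃ u : Fin (s + 1) → (Fin d → ℤ) → ℚ,
      (∀ F : (Fin d → ℤ) → ℚ, ∑ m ∈ A J, u J m * F m = F m0 - F m0' + F m1 - F m1') ∧
      (∀ F : (Fin d → ℤ) → ℚ, ∑ m ∈ A J', u J' m * F m = F m2 - F m2' + F m3 - F m3') ∧
      (∀ j, j ≠ J → j ≠ J' → ∀ F : (Fin d → ℤ) → ℚ, ∑ m ∈ A j, u j m * F m =
        F (P j j) + (q j - q J - 1) * F (P j J) + (q J - q j) * F (P j J')) := by
    refine ⟨fun j m => if j = J then ((if m = m0 then (1 : ℚ) else 0) - (if m = m0' then (1 : ℚ) else 0) +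
        (if m = m1 then (1 : ℚ) else 0) - (if m = m1' then (1 : ℚ) else 0)) else if j = J' then
        ((if m = m2 then (1 : ℚ) else 0) - (if m = m2' then (1 : ℚ) else 0) +
        (if m = m3 then (1 : ℚ) else 0) - (if m = m3' then (1 : ℚ) else 0)) else
        ((if m = P j j then (1 : ℚ) else 0) + (q j - q J - 1) * (if m = P j J then (1 : ℚ) else 0) +
          (q J - q j) * (if m = P j J' then (1 : ℚ) else 0)), fun F => ?_, fun F => ?_, fun j hj hj' F => ?_⟩
    · simp only [if_pos]
      exact L04_four (A J) h0 h0' h1 h1' F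
    · simp only [if_neg hJJ.symm, if_pos]
      exact L04_four (A J') h2 h2' h3 h3' F
    · simp only [if_neg hj, if_neg hj']
      exact L04_three (A j) (hPA j j) (hPA j J) (hPA j J') _ _ F
  have hr0 : ∀ j, ∑ m ∈ A j, u j m = 0 := by
    intro j
    have h5 : ∑ m ∈ A j, u j m = ∑ m ∈ A j, u j m * (fun _ => (1 : ℚ)) m :=
      Finset.sum_congr rfl fun m _ => (mul_one _).symm
    rw [h5]
    by_cases hj : j = J
    · rw [hj, huJ]
      norm_num
    · by_cases hj' : j = J'
      · rw [hj', huJ']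
        norm_num
      · rw [hus j hj hj']
        ring
  have hr1 : ∀ j, ∑ m ∈ A j, q (ι j m) * u j m = 0 := by
    intro j
    have h5 : ∑ m ∈ A j, q (ι j m) * u j m = ∑ m ∈ A j, u j m * (fun m => q (ι j m)) m :=
      Finset.sum_congr rfl fun m _ => mul_comm _ _
    rw [h5]
    by_cases hj : j = J
    · rw [hj, huJ]
      show q (ι J m0) - q (ι J m0') + q (ι J m1) - q (ι J m1') = 0
      rw [e0, e1]
      ring
    · by_cases hj' : j = J'
      · rw [hj', huJ']
        show q (ι J' m2) - q (ι J' m2') + q (ι J' m3) - q (ι J' m3') = 0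
        rw [e2, e3]
        ring
      · rw [hus j hj hj']
        show q (ι j (P j j)) + (q j - q J - 1) * q (ι j (P j J)) + (q J - q j) * q (ι j (P j J')) = 0
        rw [hPι, hPι, hPι, hqJ]
        ring
  -- the class sums
  have hG : ∀ j i (x : Fin (s + 1) → ℚ), i ≠ J → i ≠ J' →
      ∑ m ∈ A j, (if ι j m = i then x (ι j m) * u j m else 0) = if j = i then x i else 0 := by
    intro j i x hi hi'
    have h5 : ∑ m ∈ A j, (if ι j m = i then x (ι j m) * u j m else 0) =
        ∑ m ∈ A j, u j m * (fun m => if ι j m = i then x (ι j m) else 0) m := by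
      refine Finset.sum_congr rfl fun m _ => ?_
      show (if ι j m = i then x (ι j m) * u j m else 0) = u j m * (if ι j m = i then x (ι j m) else 0)
      split_ifs
      · exact mul_comm _ _
      · rw [mul_zero]
    rw [h5]
    by_cases hj : j = J
    · rw [hj, huJ, if_neg (Ne.symm hi)]
      show (if ι J m0 = i then x (ι J m0) else 0) - (if ι J m0' = i then x (ι J m0') else 0) +
        (if ι J m1 = i then x (ι J m1) else 0) - (if ι J m1' = i then x (ι J m1') else 0) = 0
      rw [e0, e1]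
      ring
    · by_cases hj' : j = J'
      · rw [hj', huJ', if_neg (Ne.symm hi')]
        show (if ι J' m2 = i then x (ι J' m2) else 0) - (if ι J' m2' = i then x (ι J' m2') else 0) +
          (if ι J' m3 = i then x (ι J' m3) else 0) - (if ι J' m3' = i then x (ι J' m3') else 0) = 0
        rw [e2, e3]
        ring
      · rw [hus j hj hj']
        show (if ι j (P j j) = i then x (ι j (P j j)) else 0) +
          (q j - q J - 1) * (if ι j (P j J) = i then x (ι j (P j J)) else 0) +
          (q J - q j) * (if ι j (P j J') = i then x (ι j (P j J')) else 0) = if j = i then x i else 0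
        rw [hPι, hPι, hPι, if_neg (Ne.symm hi), if_neg (Ne.symm hi'), mul_zero, mul_zero, add_zero, add_zero]
        by_cases hji : j = i
        · rw [if_pos hji, if_pos hji, hji]
        · rw [if_neg hji, if_neg hji]
  refine ⟨q, u, hqinj, hr0, hr1, fun α β hA1 hA2 => ?_⟩
  have hβ : ∀ i, i ≠ J → i ≠ J' → β i = 0 := by
    intro i hi hi'
    have h5 := hA1 i
    have h6 : ∀ j, β j * ∑ m ∈ A j, (if ι j m = i then u j m else 0) = if j = i then β i else 0 := by
      intro j
      have h7 := hG j i (fun _ => 1) hi hi'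
      simp only [one_mul] at h7
      rw [h7]
      by_cases hji : j = i
      · rw [if_pos hji, if_pos hji, mul_one, hji]
      · rw [if_neg hji, if_neg hji, mul_zero]
    rw [Finset.sum_congr rfl fun j _ => h6 j, Finset.sum_ite_eq', if_pos (Finset.mem_univ i)] at h5
    exact h5
  have hα : ∀ i, i ≠ J → i ≠ J' → α i = 0 := by
    intro i hi hi'
    -- the pairing with `v i`
    have h5 : ∑ j, ∑ m ∈ A j, (α j + β j * q (ι j m)) * u j m * ((pr m (v i) : ℤ) : ℚ) = 0 := by
      have h6 : ∀ j, ∀ m ∈ A j, (α j + β j * q (ι j m)) * u j m * ((pr m (v i) : ℤ) : ℚ) =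
          ∑ l, ((v i l : ℤ) : ℚ) * ((α j + β j * q (ι j m)) * u j m * ((m l : ℤ) : ℚ)) := by
        intro j m _
        unfold pr
        push_cast
        rw [Finset.mul_sum]
        exact Finset.sum_congr rfl fun l _ => by ring
      rw [Finset.sum_congr rfl fun j _ => (Finset.sum_congr rfl fun m hm => h6 j m hm).trans Finset.sum_comm,
        Finset.sum_comm]
      refine Finset.sum_eq_zero fun l _ => ?_
      have h7 : ∀ j, ∑ m ∈ A j, ((v i l : ℤ) : ℚ) * ((α j + β j * q (ι j m)) * u j m * ((m l : ℤ) : ℚ)) =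
          ((v i l : ℤ) : ℚ) * ∑ m ∈ A j, (α j + β j * q (ι j m)) * u j m * ((m l : ℤ) : ℚ) := fun j =>
        (Finset.mul_sum _ _ _).symm
      rw [Finset.sum_congr rfl fun j _ => h7 j, ← Finset.mul_sum, hA2 l, mul_zero]
    have h6 : ∀ j, ∑ m ∈ A j, (α j + β j * q (ι j m)) * u j m * ((pr m (v i) : ℤ) : ℚ) = if j = i then α i else 0 := by
      intro j
      have h7 : ∀ m ∈ A j, (α j + β j * q (ι j m)) * u j m * ((pr m (v i) : ℤ) : ℚ) =
          (if ι j m = i then (fun i' => α j + β j * q i') (ι j m) * u j m else 0) -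
            ((α j * ((hs (A j) (v i) : ℤ) : ℚ)) * u j m + (β j * ((hs (A j) (v i) : ℤ) : ℚ)) * (q (ι j m) * u j m)) := by
        intro m hm
        have h8 := hι.val j m hm i
        have h9 : ((pr m (v i) : ℤ) : ℚ) = (if ι j m = i then 1 else 0) - ((hs (A j) (v i) : ℤ) : ℚ) := by
          have h10 : pr m (v i) = (if ι j m = i then 1 else 0) - hs (A j) (v i) := by
            rw [← h8]
            ring
          rw [h10]
          split_ifs <;> push_cast <;> rfl
        rw [h9]
        show _ = (if ι j m = i then (α j + β j * q (ι j m)) * u j m else 0) - _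
        split_ifs <;> ring
      rw [Finset.sum_congr rfl h7, Finset.sum_sub_distrib, Finset.sum_add_distrib, ← Finset.mul_sum, ← Finset.mul_sum,
        hr0, hr1, hG j i (fun i' => α j + β j * q i') hi hi', mul_zero, mul_zero, add_zero, sub_zero]
      by_cases hji : j = i
      · rw [if_pos hji, if_pos hji, hji]
        show α i + β i * q i = α i
        rw [hβ i hi hi', zero_mul, add_zero]
      · rw [if_neg hji, if_neg hji]
    rw [Finset.sum_congr rfl fun j _ => h6 j, Finset.sum_ite_eq', if_pos (Finset.mem_univ i)] at h5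
    exact h5
  have h4 := hli (α J + β J * q (ι J m0)) (α J + β J * q (ι J m1)) (α J' + β J' * q (ι J' m2)) (α J' + β J' * q (ι J' m3))
    (by
      intro l
      have h5 := hA2 l
      have h6 : ∀ j, ∑ m ∈ A j, (α j + β j * q (ι j m)) * u j m * ((m l : ℤ) : ℚ) =
          ∑ m ∈ A j, u j m * (fun m => (α j + β j * q (ι j m)) * ((m l : ℤ) : ℚ)) m := fun j =>
        Finset.sum_congr rfl fun m _ => by ring
      rw [Finset.sum_congr rfl fun j _ => h6 j, Finset.sum_eq_add J J' hJJ
        (fun j _ hj => by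
          rw [hus j hj.1 hj.2, hα j hj.1 hj.2, hβ j hj.1 hj.2]
          ring)
        (fun h => absurd (Finset.mem_univ _) h) (fun h => absurd (Finset.mem_univ _) h), huJ, huJ'] at h5
      simp only [← e0, ← e1, ← e2, ← e3] at h5
      linear_combination h5)
  obtain ⟨g0, g1, g2, g3⟩ := h4
  have hβJ : β J = 0 := by
    have h5 : β J * (q (ι J m0) - q (ι J m1)) = 0 := by linear_combination g0 - g1
    exact (mul_eq_zero.1 h5).resolve_right (sub_ne_zero.2 fun h => e01 (hqinj h))
  have hβJ' : β J' = 0 := by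
    have h5 : β J' * (q (ι J' m2) - q (ι J' m3)) = 0 := by linear_combination g2 - g3
    exact (mul_eq_zero.1 h5).resolve_right (sub_ne_zero.2 fun h => e23 (hqinj h))
  rw [hβJ, zero_mul, add_zero] at g0
  rw [hβJ', zero_mul, add_zero] at g2
  constructor
  · intro j
    by_cases hj : j = J
    · rw [hj]
      exact g0
    · by_cases hj' : j = J'
      · rw [hj']
        exact g2
      · exact hα j hj hj'
  · intro j
    by_cases hj : j = J
    · rw [hj]
      exact hβJ
    · by_cases hj' : j = J'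
      · rw [hj']
        exact hβJ'
      · exact hβ j hj hj'

end Pool.Agent.Lib.MP_1e3e9c_agY
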