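import Pool.Agent.Lib.MP_1e3e9c_agY.L05

/-! LEAF L06 (medium).  Open mapping: all real systems near `u` have a curve of the family.

PROOF.  `τ = Σ j, {m // m ∈ A j}`, `E = (Fin d → ℝ) × (Fin r → ℝ) × (τ → ℝ)`, `F = (Fin (s + 1) → ℝ) × (Fin (s + 1) → ℝ) × (τ → ℝ)`,
`Φ (y, q', c) = (fun j => ∑ m ∈ (A j).attach, c ⟨j, m⟩ * exp (∑ l, m l * y l), fun j => ∑ m ∈ (A j).attach, c ⟨j, m⟩ * q' (ι j m) * exp (∑ l, m l * y l), c)`, at the point `p0 = (0, q, u)`: `Φ p0 = (0, 0, u)` (`h.r0`, `h.r1`; `Finset.sum_attach`).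
`Φ` is continuously differentiable (`fun_prop` / `contDiff`), so it has a strict derivative (`ContDiffAt.hasStrictFDerivAt`), or build `HasStrictFDerivAt` from the components (`hasStrictFDerivAt_pi`, `HasStrictFDerivAt.prodMk`, `.mul`, `.exp`).  The derivative at `p0`: `(ξ, η, κ) ↦ (fun j => ∑ (κ ⟨j, m⟩ + u j m * ∑ l, m l * ξ l), fun j => ∑ (κ ⟨j, m⟩ * q (ι j m) + u j m * η (ι j m) + u j m * q (ι j m) * ∑ l, m l * ξ l), κ)`.
It is surjective: for `(y', z', κ)` take `ξ, η` from `h.surj` for `y' j - ∑ κ ⟨j, m⟩`, `z' j - ∑ κ ⟨j, m⟩ q (ι j m)`.  `HasStrictFDerivAt.map_nhds_eq_of_surj`: `map Φ (𝓝 p0) = 𝓝 (0, 0, u)`.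
`N = {p | p.2.1 is injective}` is a neighbourhood of `p0` (finitely many conditions `q' i ≠ q' i'`, open), so `Φ '' N ∈ 𝓝 (0, 0, u)`, and `U = {c | (0, 0, c) ∈ Φ '' N}` is a neighbourhood of `u` (continuity of `c ↦ (0, 0, c)`).  For `c ∈ U`: `(y, q', c)`; `x l = exp (y l)`, `mn x m = exp (∑ l, m l * y l)` (`Real.exp_sum`, `Real.exp_int_mul`). -/

set_option autoImplicit false

namespace Pool.Agent.Lib.MP_1e3e9c_agY

open Polynomial Pool.Agent.Lib.MP_1e3e9c_agV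

private theorem L06_one {E : Type} [NormedAddCommGroup E] [NormedSpace ℝ E] (C L : E →L[ℝ] ℝ) (p : E)
    (hL : L p = 0) :
    HasStrictFDerivAt (fun x => C x * Real.exp (L x)) (C + (C p) • L) p := by
  have h := (C.hasStrictFDerivAt (x := p)).mul ((L.hasStrictFDerivAt (x := p)).exp)
  refine h.congr_fderiv ?_
  rw [hL, Real.exp_zero, one_smul, one_smul, add_comm]

private theorem L06_two {E : Type} [NormedAddCommGroup E] [NormedSpace ℝ E] (C Q L : E →L[ℝ] ℝ) (p : E)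
    (hL : L p = 0) :
    HasStrictFDerivAt (fun x => C x * Q x * Real.exp (L x))
      ((Q p) • C + (C p) • Q + (C p * Q p) • L) p := by
  have h := ((C.hasStrictFDerivAt (x := p)).mul (Q.hasStrictFDerivAt (x := p))).mul
    ((L.hasStrictFDerivAt (x := p)).exp)
  refine h.congr_fderiv ?_
  rw [hL, Real.exp_zero, one_smul, one_smul]
  refine ContinuousLinearMap.ext fun v => ?_
  simp only [add_apply, smul_apply, smul_eq_mul, Pi.mul_apply]
  ring

private theorem L06_mn {d : ℕ} (y : Fin d → ℝ) (m : Fin d → ℤ) :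
    mn (fun l => Real.exp (y l)) m = Real.exp (∑ l, (m l : ℝ) * y l) := by
  unfold mn
  rw [Real.exp_sum]
  refine Finset.prod_congr rfl fun l _ => ?_
  rw [mul_comm, Real.exp_mul, Real.rpow_intCast]

theorem Pt.near {d r s : ℕ} {A : Fin (s + 1) → Finset (Fin d → ℤ)}
    {ι : Fin (s + 1) → (Fin d → ℤ) → Fin r} {q : Fin r → ℝ} {u : Fin (s + 1) → (Fin d → ℤ) → ℝ}
    (h : Pt A ι q u) :
    ∃ U ∈ nhds (fun t : (Σ j, {m // m ∈ A j}) => u t.1 t.2.1), ∀ c ∈ U,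
      ∃ (x : Fin d → ℝ) (q' : Fin r → ℝ), (∀ l, 0 < x l) ∧ Function.Injective q' ∧
        ∀ j, ∑ m ∈ (A j).attach, c ⟨j, m⟩ * mn x m.1 = 0 ∧
          ∑ m ∈ (A j).attach, c ⟨j, m⟩ * q' (ι j m.1) * mn x m.1 = 0 := by
  classical
  let τ := Σ j, {m // m ∈ A j}
  let E := (Fin d → ℝ) × (Fin r → ℝ) × (τ → ℝ)
  let F := (Fin (s + 1) → ℝ) × (Fin (s + 1) → ℝ) × (τ → ℝ)
  let u' : τ → ℝ := fun t => u t.1 t.2.1
  let p0 : E := (0, q, u')
  let Cc : τ → E →L[ℝ] ℝ := fun t =>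
    (ContinuousLinearMap.proj (R := ℝ) (φ := fun _ : τ => ℝ) t).comp
      ((ContinuousLinearMap.snd ℝ (Fin r → ℝ) (τ → ℝ)).comp
        (ContinuousLinearMap.snd ℝ (Fin d → ℝ) ((Fin r → ℝ) × (τ → ℝ))))
  let Q : Fin r → E →L[ℝ] ℝ := fun i =>
    (ContinuousLinearMap.proj (R := ℝ) (φ := fun _ : Fin r => ℝ) i).comp
      ((ContinuousLinearMap.fst ℝ (Fin r → ℝ) (τ → ℝ)).comp
        (ContinuousLinearMap.snd ℝ (Fin d → ℝ) ((Fin r → ℝ) × (τ → ℝ))))
  let Y : Fin d → E →L[ℝ] ℝ := fun l =>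
    (ContinuousLinearMap.proj (R := ℝ) (φ := fun _ : Fin d => ℝ) l).comp
      (ContinuousLinearMap.fst ℝ (Fin d → ℝ) ((Fin r → ℝ) × (τ → ℝ)))
  let L : (Fin d → ℤ) → E →L[ℝ] ℝ := fun m => ∑ l, (m l : ℝ) • Y l
  have hCc : ∀ t (x : E), Cc t x = x.2.2 t := fun t x => rfl
  have hQ : ∀ i (x : E), Q i x = x.2.1 i := fun i x => rfl
  have hY : ∀ l (x : E), Y l x = x.1 l := fun l x => rfl
  have hL : ∀ m (x : E), L m x = ∑ l, (m l : ℝ) * x.1 l := by
    intro m x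
    show (∑ l, (m l : ℝ) • Y l) x = _
    rw [sum_apply]
    exact Finset.sum_congr rfl fun l _ => rfl
  have hL0 : ∀ m, L m p0 = 0 := by
    intro m
    rw [hL]
    refine Finset.sum_eq_zero fun l _ => ?_
    show (m l : ℝ) * (0 : ℝ) = 0
    rw [mul_zero]
  let Φ : E → F := fun x =>
    (fun j => ∑ m ∈ (A j).attach, Cc ⟨j, m⟩ x * Real.exp (L m.1 x),
      fun j => ∑ m ∈ (A j).attach, Cc ⟨j, m⟩ x * Q (ι j m.1) x * Real.exp (L m.1 x), x.2.2)
  let Φ' : E →L[ℝ] F :=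
    (ContinuousLinearMap.pi fun j => ∑ m ∈ (A j).attach,
      (Cc ⟨j, m⟩ + (Cc ⟨j, m⟩ p0) • L m.1)).prod
    ((ContinuousLinearMap.pi fun j => ∑ m ∈ (A j).attach,
      ((Q (ι j m.1) p0) • Cc ⟨j, m⟩ + (Cc ⟨j, m⟩ p0) • Q (ι j m.1) +
        (Cc ⟨j, m⟩ p0 * Q (ι j m.1) p0) • L m.1)).prod
      ((ContinuousLinearMap.snd ℝ (Fin r → ℝ) (τ → ℝ)).comp
        (ContinuousLinearMap.snd ℝ (Fin d → ℝ) ((Fin r → ℝ) × (τ → ℝ)))))
  have hd : HasStrictFDerivAt Φ Φ' p0 := by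
    refine HasStrictFDerivAt.prodMk (hasStrictFDerivAt_pi.2 fun j => ?_)
      (HasStrictFDerivAt.prodMk (hasStrictFDerivAt_pi.2 fun j => ?_) ?_)
    · exact HasStrictFDerivAt.fun_sum fun m _ => L06_one (Cc ⟨j, m⟩) (L m.1) p0 (hL0 m.1)
    · exact HasStrictFDerivAt.fun_sum fun m _ =>
        L06_two (Cc ⟨j, m⟩) (Q (ι j m.1)) (L m.1) p0 (hL0 m.1)
    · exact ((ContinuousLinearMap.snd ℝ (Fin r → ℝ) (τ → ℝ)).comp
        (ContinuousLinearMap.snd ℝ (Fin d → ℝ) ((Fin r → ℝ) × (τ → ℝ)))).hasStrictFDerivAt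
  have hsurj : Function.Surjective Φ' := by
    rintro ⟨y, z, κ⟩
    obtain ⟨ξ, η, hξ⟩ := h.surj (fun j => y j - ∑ m ∈ (A j).attach, κ ⟨j, m⟩)
      (fun j => z j - ∑ m ∈ (A j).attach, q (ι j m.1) * κ ⟨j, m⟩)
    refine ⟨(ξ, η, κ), ?_⟩
    refine Prod.ext (funext fun j => ?_) (Prod.ext (funext fun j => ?_) rfl)
    · show (∑ m ∈ (A j).attach, (Cc ⟨j, m⟩ + (Cc ⟨j, m⟩ p0) • L m.1)) (ξ, η, κ) = y j
      rw [sum_apply]
      have h1 : ∀ m ∈ (A j).attach, (Cc ⟨j, m⟩ + (Cc ⟨j, m⟩ p0) • L m.1) ((ξ, η, κ) : E) =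
          κ ⟨j, m⟩ + (fun m : Fin d → ℤ => u j m * ∑ l, (m l : ℝ) * ξ l) m.1 := by
        intro m _
        rw [add_apply, smul_apply, hL, hCc, hCc]
        rfl
      rw [Finset.sum_congr rfl h1, Finset.sum_add_distrib,
        Finset.sum_attach (A j) (fun m : Fin d → ℤ => u j m * ∑ l, (m l : ℝ) * ξ l), (hξ j).1]
      ring
    · show (∑ m ∈ (A j).attach, ((Q (ι j m.1) p0) • Cc ⟨j, m⟩ + (Cc ⟨j, m⟩ p0) • Q (ι j m.1) +
        (Cc ⟨j, m⟩ p0 * Q (ι j m.1) p0) • L m.1)) (ξ, η, κ) = z j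
      rw [sum_apply]
      have h1 : ∀ m ∈ (A j).attach, ((Q (ι j m.1) p0) • Cc ⟨j, m⟩ + (Cc ⟨j, m⟩ p0) • Q (ι j m.1) +
          (Cc ⟨j, m⟩ p0 * Q (ι j m.1) p0) • L m.1) ((ξ, η, κ) : E) =
          q (ι j m.1) * κ ⟨j, m⟩ + (fun m : Fin d → ℤ =>
            u j m * (q (ι j m) * ∑ l, (m l : ℝ) * ξ l + η (ι j m))) m.1 := by
        intro m _
        rw [add_apply, add_apply,
          smul_apply, smul_apply,
          smul_apply, hL, hCc, hCc, hQ, hQ]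
        show q (ι j m.1) * κ ⟨j, m⟩ + u j m.1 * η (ι j m.1) +
          u j m.1 * q (ι j m.1) * ∑ l, (m.1 l : ℝ) * ξ l =
          q (ι j m.1) * κ ⟨j, m⟩ + u j m.1 * (q (ι j m.1) * ∑ l, (m.1 l : ℝ) * ξ l + η (ι j m.1))
        ring
      rw [Finset.sum_congr rfl h1, Finset.sum_add_distrib,
        Finset.sum_attach (A j) (fun m : Fin d → ℤ =>
            u j m * (q (ι j m) * ∑ l, (m l : ℝ) * ξ l + η (ι j m))), (hξ j).2]
      ring
  have hmap := hd.map_nhds_eq_of_surj (LinearMap.range_eq_top.2 hsurj)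
  have hΦ0 : Φ p0 = (0, 0, u') := by
    refine Prod.ext (funext fun j => ?_) (Prod.ext (funext fun j => ?_) rfl)
    · show ∑ m ∈ (A j).attach, Cc ⟨j, m⟩ p0 * Real.exp (L m.1 p0) = 0
      refine Eq.trans ?_ (h.r0 j)
      rw [← Finset.sum_attach (A j) (fun m => u j m)]
      refine Finset.sum_congr rfl fun m _ => ?_
      rw [hL0, Real.exp_zero, mul_one]
      rfl
    · show ∑ m ∈ (A j).attach, Cc ⟨j, m⟩ p0 * Q (ι j m.1) p0 * Real.exp (L m.1 p0) = 0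
      refine Eq.trans ?_ (h.r1 j)
      rw [← Finset.sum_attach (A j) (fun m => q (ι j m) * u j m)]
      refine Finset.sum_congr rfl fun m _ => ?_
      rw [hL0, Real.exp_zero, mul_one, mul_comm]
      rfl
  rw [hΦ0] at hmap
  have hN : {x : E | Function.Injective x.2.1} ∈ nhds p0 := by
    have h1 : ∀ i i' : Fin r, i ≠ i' → ∀ᶠ x : E in nhds p0, x.2.1 i ≠ x.2.1 i' := by
      intro i i' hi
      have hc1 : Continuous fun x : E => x.2.1 i := (Q i).continuous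
      have hc2 : Continuous fun x : E => x.2.1 i' := (Q i').continuous
      exact hc1.continuousAt.ne_iff_eventually_ne hc2.continuousAt |>.1 (fun h2 => hi (h.inj h2))
    have h2 : ∀ᶠ x : E in nhds p0, ∀ i i' : Fin r, i ≠ i' → x.2.1 i ≠ x.2.1 i' := by
      rw [Filter.eventually_all]
      intro i
      rw [Filter.eventually_all]
      intro i'
      by_cases hi : i = i'
      · exact Filter.Eventually.of_forall fun x h3 => absurd hi h3
      · exact (h1 i i' hi).mono fun x hx _ => hx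
    filter_upwards [h2] with x hx i i' hii
    by_contra h3
    exact hx i i' h3 hii
  have himg : Φ '' {x : E | Function.Injective x.2.1} ∈ nhds ((0, 0, u') : F) := by
    rw [← hmap]
    exact Filter.image_mem_map hN
  have hcont : Continuous fun c : τ → ℝ => ((0, 0, c) : F) := by
    exact continuous_const.prodMk (continuous_const.prodMk continuous_id)
  refine ⟨(fun c : τ → ℝ => ((0, 0, c) : F)) ⁻¹' (Φ '' {x : E | Function.Injective x.2.1}),
    hcont.continuousAt.preimage_mem_nhds himg, ?_⟩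
  rintro c ⟨x, hx, hxc⟩
  have hc : x.2.2 = c := congrArg (fun w : F => w.2.2) hxc
  refine ⟨fun l => Real.exp (x.1 l), x.2.1, fun l => Real.exp_pos _, hx, fun j => ⟨?_, ?_⟩⟩
  · have h1 := congrFun (congrArg (fun w : F => w.1) hxc) j
    refine Eq.trans (Finset.sum_congr rfl fun m _ => ?_) h1
    rw [L06_mn, hL, hCc, hc]
  · have h1 := congrFun (congrArg (fun w : F => w.2.1) hxc) j
    refine Eq.trans (Finset.sum_congr rfl fun m _ => ?_) h1
    rw [L06_mn, hL, hCc, hc, hQ]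

end Pool.Agent.Lib.MP_1e3e9c_agY
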