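import Mathlib

/-! LEAF L07 (easy+, independent).  Algebraically independent real families are dense.

PROOF.  For a polynomial `P ≠ 0` in `MvPolynomial τ ℚ` the set `{c : τ → ℝ | aeval c P ≠ 0}` is open (`aeval c P` is continuous in `c`: `MvPolynomial.continuous_eval` for `P.map`) and dense: a nonempty open set contains a product of open intervals (balls of the sup norm, `ball_pi`), infinite sets, on which a polynomial which vanishes is `0` (`MvPolynomial.funext_set` for `P.map (algebraMap ℚ ℝ)`, `map_injective`).
`MvPolynomial τ ℚ` is countable (`τ` finite), so the intersection over all `P ≠ 0` is dense (`dense_iInter_of_isOpen`, Baire; index type `{P // P ≠ 0}`), it meets `U` (`mem_closure_iff_nhds`, `Dense.inter_nhds_nonempty`).  A point `c` of it is algebraically independent (`algebraicIndependent_iff`: `aeval c P = 0 → P = 0`). -/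

set_option autoImplicit false

namespace Pool.Agent.Lib.MP_1e3e9c_agY

theorem exists_indep {τ : Type} [Finite τ] {u : τ → ℝ} {U : Set (τ → ℝ)} (hU : U ∈ nhds u) :
    ∃ c ∈ U, AlgebraicIndependent ℚ c := by
  cases nonempty_fintype τ
  have hev : ∀ (P : MvPolynomial τ ℚ) (c : τ → ℝ), MvPolynomial.aeval c P =
      MvPolynomial.eval c (MvPolynomial.map (algebraMap ℚ ℝ) P) := fun P c => by
    rw [MvPolynomial.eval_map, MvPolynomial.aeval_def]
  let F : {P : MvPolynomial τ ℚ // P ≠ 0} → Set (τ → ℝ) := fun P => {c | MvPolynomial.aeval c P.1 ≠ 0}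
  have ho : ∀ P, IsOpen (F P) := by
    intro P
    have h1 : Continuous fun c : τ → ℝ => MvPolynomial.aeval c P.1 := by
      simp only [hev]
      exact MvPolynomial.continuous_eval _
    exact isOpen_ne_fun h1 continuous_const
  have hd : ∀ P, Dense (F P) := by
    intro P
    rw [dense_iff_inter_open]
    rintro V hV ⟨x, hx⟩
    obtain ⟨ε, hε, hb⟩ := Metric.isOpen_iff.1 hV x hx
    by_contra hne
    have h0 : MvPolynomial.map (algebraMap ℚ ℝ) P.1 = 0 := by
      refine MvPolynomial.funext_set (fun i => Metric.ball (x i) ε) ?_ ?_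
      · intro i
        rw [Real.ball_eq_Ioo]
        exact Set.Ioo_infinite (by linarith)
      · intro c hc
        rw [map_zero, ← hev]
        by_contra h1
        refine hne ⟨c, hb ?_, h1⟩
        rw [ball_pi _ hε]
        exact hc
    refine P.2 (MvPolynomial.map_injective _ (algebraMap ℚ ℝ).injective ?_)
    rw [h0, map_zero]
  have hc0 : Countable (MvPolynomial τ ℚ) := by
    rw [← Cardinal.mk_le_aleph0_iff]
    refine MvPolynomial.cardinalMk_le_max_lift.trans ?_
    simp
  have hD := dense_iInter_of_isOpen ho hd
  obtain ⟨c, hc, hcU⟩ := hD.inter_nhds_nonempty hU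
  refine ⟨c, hcU, algebraicIndependent_iff.2 fun P hP => ?_⟩
  by_contra hne
  exact (Set.mem_iInter.1 hc ⟨P, hne⟩) hP

end Pool.Agent.Lib.MP_1e3e9c_agY
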