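import Pool.Agent.Lib.MP_1e3e9c_agY.L01
import Pool.Agent.Lib.MP_1e3e9c_agY.L04
import Pool.Agent.Lib.MP_1e3e9c_agY.L06
import Pool.Agent.Lib.MP_1e3e9c_agY.L07

/-! BLOCK L (helper6).  The relation with all degrees `1`: the generic system has a curve of the family `x ∏ (1 + q_i t)^(v_i)`. -/

set_option autoImplicit false

namespace Pool.Agent.Lib.MP_1e3e9c_agY

open Polynomial Pool.Agent.Lib.MP_1e3e9c_agV

theorem bad_curve {d r s : ℕ} {A : Fin (s + 1) → Finset (Fin d → ℤ)} {v : Fin r → Fin d → ℤ}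
    {a : Fin r → ℕ} (hR : RelY A v a) (hD : ∀ j, DD A v a j = 1) (hN : ∑ i, a i = s + 1)
    (hd : s + 4 ≤ d) : GenC (A 0) A := by
  classical
  obtain ⟨ha, ι, hι⟩ := exists_cls hR hD
  obtain rfl : r = s + 1 := by
    rw [← hN]
    simp [ha]
  have h1s : 1 ≤ s := by
    by_contra hcon
    obtain rfl : s = 0 := by omega
    refine (hR.fct 0 0).1 (funext fun l => ?_)
    have h1 := hR.rel l
    rw [Fin.sum_univ_one, ha 0] at h1
    simpa using h1
  obtain ⟨q, u, hP⟩ := exists_pt hR hι h1s hd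
  obtain ⟨U, hU, H⟩ := hP.real.near
  obtain ⟨c, hcU, hc⟩ := exists_indep hU
  obtain ⟨x, q', hx, hq', hE⟩ := H c hcU
  let cC : Fin (s + 1) → (Fin d → ℤ) → ℂ := fun j m =>
    if hm : m ∈ A j then ((c ⟨j, m, hm⟩ : ℝ) : ℂ) else 0
  have hcC : ∀ t : (Σ j, {m // m ∈ A j}), cC t.1 t.2.1 = ((c t : ℝ) : ℂ) := fun t =>
    dif_pos t.2.2
  have hG : Gen A cC := by
    have h1 : (fun t : (Σ j, {m // m ∈ A j}) => cC t.1 t.2.1) =
        fun t => (Complex.ofRealAm.restrictScalars ℚ) (c t) := funext fun t => hcC t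
    rw [Gen, h1]
    exact hc.map' (f := Complex.ofRealAm.restrictScalars ℚ) Complex.ofReal_injective
  refine ⟨ℂ, inferInstance, inferInstance, cC, hG, ?_⟩
  have hmn : ∀ m : Fin d → ℤ, mn (fun l => ((x l : ℝ) : ℂ)) m = ((mn x m : ℝ) : ℂ) := by
    intro m
    simp [mn]
  refine of_phi_zeroY (c := cC) (x := fun l => ((x l : ℝ) : ℂ))
    (p := fun i => 1 + C ((q' i : ℝ) : ℂ) * X) hR (fun l => ?_) (fun i => ?_) (fun i => ?_)
    (fun j => ?_) ?_
  · exact_mod_cast (hx l).ne'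
  · rw [ha i]
    refine (natDegree_add_le _ _).trans (max_le (by simp) ?_)
    exact natDegree_C_mul_le _ _ |>.trans natDegree_X_le
  · simp
  · have h1 : ∀ m ∈ A j, C (algebraMap ℂ ℂ (cC j m)) *
        cd v (fun i => hs (A j) (v i)) (fun l => ((x l : ℝ) : ℂ))
          (fun i => 1 + C ((q' i : ℝ) : ℂ) * X) m 1 =
        C (cC j m * mn (fun l => ((x l : ℝ) : ℂ)) m) +
          C (cC j m * ((q' (ι j m) : ℝ) : ℂ) * mn (fun l => ((x l : ℝ) : ℂ)) m) * X := by
      intro m hm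
      have h2 : ∏ i, (1 + C ((q' i : ℝ) : ℂ) * X) ^ ex v (fun i => hs (A j) (v i)) m 1 i =
          1 + C ((q' (ι j m) : ℝ) : ℂ) * (X : ℂ[X]) := by
        rw [Finset.prod_eq_single (ι j m)]
        · have h3 := hι.val j m hm (ι j m)
          rw [if_pos rfl] at h3
          simp [ex, h3]
        · intro i _ hi
          have h3 := hι.val j m hm i
          rw [if_neg (Ne.symm hi)] at h3
          simp [ex, h3]
        · intro h
          exact absurd (Finset.mem_univ _) h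
      rw [cd, h2]
      simp only [Algebra.algebraMap_self, RingHom.id_apply, C_mul]
      ring
    rw [Phi, Finset.sum_congr rfl h1, Finset.sum_add_distrib, ← Finset.sum_mul, ← map_sum,
      ← map_sum]
    obtain ⟨e1, e2⟩ := hE j
    have e1' : ∑ m ∈ A j, cC j m * mn (fun l => ((x l : ℝ) : ℂ)) m = 0 := by
      rw [← Finset.sum_attach]
      have : ∀ m ∈ (A j).attach, cC j m.1 * mn (fun l => ((x l : ℝ) : ℂ)) m.1 =
          ((c ⟨j, m⟩ * mn x m.1 : ℝ) : ℂ) := by
        intro m _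
        rw [hcC ⟨j, m⟩, hmn]
        push_cast
        rfl
      rw [Finset.sum_congr rfl this, ← Complex.ofReal_sum, e1, Complex.ofReal_zero]
    have e2' : ∑ m ∈ A j, cC j m * ((q' (ι j m) : ℝ) : ℂ) *
        mn (fun l => ((x l : ℝ) : ℂ)) m = 0 := by
      rw [← Finset.sum_attach]
      have : ∀ m ∈ (A j).attach, cC j m.1 * ((q' (ι j m.1) : ℝ) : ℂ) *
          mn (fun l => ((x l : ℝ) : ℂ)) m.1 =
          ((c ⟨j, m⟩ * q' (ι j m.1) * mn x m.1 : ℝ) : ℂ) := by
        intro m _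
        rw [hcC ⟨j, m⟩, hmn]
        push_cast
        rfl
      rw [Finset.sum_congr rfl this, ← Complex.ofReal_sum, e2, Complex.ofReal_zero]
    rw [e1', e2', map_zero, zero_mul, add_zero]
  · rintro ⟨b, hb⟩
    have h1 : ∀ i, ((q' i : ℝ) : ℂ) = b := by
      intro i
      have h2 := congrArg (fun p : ℂ[X] => p.coeff 1) (hb i)
      simpa [ha i, coeff_one] using h2
    have h2 : q' ⟨0, by omega⟩ = q' ⟨1, by omega⟩ := by
      have h3 := (h1 ⟨0, by omega⟩).trans (h1 ⟨1, by omega⟩).symm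
      exact_mod_cast h3
    have h3 := congrArg Fin.val (hq' h2)
    simp at h3

end Pool.Agent.Lib.MP_1e3e9c_agY
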