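import Mathlib

/-! LEAF S10 (medium, independent).  A valuation ring with residue field over `k` and algebraically independent elements which specialise to given elements of `k`.

PROOF.  `R0 = MvPolynomial τ k`, `F = FractionRing R0`, `L = AlgebraicClosure F`, `f0 : R0 → L` injective.  `M` = the kernel of `ev : R0 →+* k`, evaluation at `0` (`MvPolynomial.constantCoeff`): a prime (maximal) ideal.  `R = Localization.AtPrime M`, local; `f : R →+* L` the lift of `f0` (`IsLocalization.lift`: elements outside `M` are `≠ 0`, so their images are units of `L`).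
`IsLocalRing.exists_factor_valuationRing f`: `V`, `f R ⊆ V`, local homomorphism `g : R →+* V`.  `c' t = g (algebraMap (C (c0 t) + X t))`.  `φ : k →+* ResidueField V` = `residue ∘ g ∘ algebraMap ∘ C`.  `X t ∈ M`, so its image in `R` is not a unit (`IsLocalization.AtPrime.isUnit_to_map_iff` or `to_map_mem_maximal_iff`), `g` is local, so the image in `V` is not a unit: residue `0` (`IsLocalRing.residue_eq_zero_iff`).  So `residue (c' t) = φ (c0 t)`.
Algebraic independence over `ℚ`: `(c' t : L)` is the image of `C (c0 t) + X t` under the injective `f0`; let `Q : MvPolynomial τ ℚ` with `aeval (fun t => C (c0 t) + X t) Q = 0` in `MvPolynomial τ k`; apply the `k`-algebra automorphism `X t ↦ X t - C (c0 t)` (`aeval`): `aeval (fun t => X t) Q = 0`, that is `MvPolynomial.map (algebraMap ℚ k) Q = 0`, so `Q = 0` (`MvPolynomial.map_injective`). (`AlgebraicIndependent` over `ℚ`: `algebraicIndependent_iff`; `ℚ`-algebra maps: `RingHom.map_rat_algebraMap`, the algebra structures over `ℚ` are unique: `Subsingleton (Algebra ℚ _)` / `RingHom.toRatAlgHom`.)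 -/

set_option autoImplicit false

namespace Pool.Agent.Lib.MP_1e3e9c_agY

private theorem S10_indep {k τ L : Type} [Field k] [CharZero k] [Field L] [CharZero L] (c0 : τ → k)
    (f0 : MvPolynomial τ k →+* L) (hf0 : Function.Injective f0) :
    AlgebraicIndependent ℚ (fun t => f0 (MvPolynomial.C (c0 t) + MvPolynomial.X t)) := by
  rw [algebraicIndependent_iff]
  intro Q hQ
  have h1 : f0 (MvPolynomial.aeval (fun t => MvPolynomial.C (c0 t) + MvPolynomial.X t : τ → MvPolynomial τ k) Q) = 0 := by
    rw [← hQ]
    have h2 : (f0.toRatAlgHom.comp (MvPolynomial.aeval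
        (fun t => MvPolynomial.C (c0 t) + MvPolynomial.X t : τ → MvPolynomial τ k)) :
          MvPolynomial τ ℚ →ₐ[ℚ] L) =
        MvPolynomial.aeval (fun t => f0 (MvPolynomial.C (c0 t) + MvPolynomial.X t)) := by
      refine MvPolynomial.algHom_ext fun t => ?_
      simp
    exact congrArg (fun g : MvPolynomial τ ℚ →ₐ[ℚ] L => g Q) h2
  have h3 : MvPolynomial.aeval (fun t => MvPolynomial.C (c0 t) + MvPolynomial.X t : τ → MvPolynomial τ k) Q = 0 :=
    hf0 (by rw [h1, map_zero])
  have h4 : ((MvPolynomial.aeval (R := k) (fun t => MvPolynomial.X t - MvPolynomial.C (c0 t) :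
      τ → MvPolynomial τ k)).restrictScalars ℚ).comp (MvPolynomial.aeval
        (fun t => MvPolynomial.C (c0 t) + MvPolynomial.X t : τ → MvPolynomial τ k)) =
      MvPolynomial.mapAlgHom (Algebra.ofId ℚ k) := by
    refine MvPolynomial.algHom_ext fun t => ?_
    simp
  have h6 : MvPolynomial.mapAlgHom (Algebra.ofId ℚ k) Q = 0 := by
    rw [← h4, AlgHom.comp_apply, h3, map_zero]
  have h7 : MvPolynomial.map (algebraMap ℚ k) Q = 0 := h6
  exact MvPolynomial.map_injective (algebraMap ℚ k) (algebraMap ℚ k).injective (by rw [h7, map_zero])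

private theorem S10_place {k τ L : Type} [Field k] [Field L] (c0 : τ → k)
    (f0 : MvPolynomial τ k →+* L) (hf0 : Function.Injective f0) :
    ∃ (V : ValuationSubring L) (c' : τ → V) (φ : k →+* IsLocalRing.ResidueField V),
      (∀ t, (c' t : L) = f0 (MvPolynomial.C (c0 t) + MvPolynomial.X t)) ∧
        ∀ t, IsLocalRing.residue V (c' t) = φ (c0 t) := by
  have hM : (RingHom.ker (MvPolynomial.constantCoeff : MvPolynomial τ k →+* k)).IsPrime :=
    RingHom.ker_isPrime _
  have hu : ∀ y : (RingHom.ker (MvPolynomial.constantCoeff : MvPolynomial τ k →+* k)).primeCompl,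
      IsUnit (f0 y) := by
    intro y
    refine isUnit_iff_ne_zero.mpr fun h0 => ?_
    have h1 : (y : MvPolynomial τ k) = 0 := hf0 (by rw [h0, map_zero])
    exact y.2 (by rw [h1]; exact Submodule.zero_mem _)
  obtain ⟨f, hf⟩ : ∃ f : Localization.AtPrime
      (RingHom.ker (MvPolynomial.constantCoeff : MvPolynomial τ k →+* k)) →+* L,
      ∀ x, f (algebraMap (MvPolynomial τ k) _ x) = f0 x :=
    ⟨IsLocalization.lift (M := (RingHom.ker
      (MvPolynomial.constantCoeff : MvPolynomial τ k →+* k)).primeCompl) hu,
      fun x => IsLocalization.lift_eq hu x⟩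
  obtain ⟨V, hV, hloc⟩ := IsLocalRing.exists_factor_valuationRing f
  obtain ⟨g, hg, hgv⟩ : ∃ g : Localization.AtPrime
      (RingHom.ker (MvPolynomial.constantCoeff : MvPolynomial τ k →+* k)) →+* V,
      IsLocalHom g ∧ ∀ x, ((g x : V) : L) = f x := ⟨f.codRestrict V.toSubring hV, hloc, fun x => rfl⟩
  have hX : ∀ t, IsLocalRing.residue V (g (algebraMap (MvPolynomial τ k) _ (MvPolynomial.X t))) = 0 := by
    intro t
    rw [IsLocalRing.residue_eq_zero_iff, IsLocalRing.mem_maximalIdeal]
    intro hun
    have h1 := hg.map_nonunit _ hun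
    rw [IsLocalization.AtPrime.isUnit_to_map_iff _
      (RingHom.ker (MvPolynomial.constantCoeff : MvPolynomial τ k →+* k))] at h1
    refine h1 ?_
    show MvPolynomial.X t ∈ RingHom.ker (MvPolynomial.constantCoeff : MvPolynomial τ k →+* k)
    rw [RingHom.mem_ker, MvPolynomial.constantCoeff_X]
  refine ⟨V, fun t => g (algebraMap (MvPolynomial τ k) _ (MvPolynomial.C (c0 t) + MvPolynomial.X t)),
    (IsLocalRing.residue V).comp (g.comp ((algebraMap (MvPolynomial τ k) _).comp MvPolynomial.C)), ?_, ?_⟩
  · intro t
    rw [hgv, hf]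
  · intro t
    have h1 : IsLocalRing.residue V (g (algebraMap (MvPolynomial τ k) _
        (MvPolynomial.C (c0 t) + MvPolynomial.X t))) =
        IsLocalRing.residue V (g (algebraMap (MvPolynomial τ k) _ (MvPolynomial.C (c0 t)))) := by
      rw [map_add, map_add, map_add, hX t, add_zero]
    exact h1

theorem place {k τ : Type} [Field k] [CharZero k] (c0 : τ → k) :
    ∃ (L : Type) (_ : Field L) (_ : IsAlgClosed L) (_ : CharZero L) (V : ValuationSubring L)
      (c' : τ → V) (φ : k →+* IsLocalRing.ResidueField V),
      AlgebraicIndependent ℚ (fun t => (c' t : L)) ∧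
        ∀ t, IsLocalRing.residue V (c' t) = φ (c0 t) := by
  have hcharF : CharZero (FractionRing (MvPolynomial τ k)) :=
    charZero_of_injective_algebraMap (IsFractionRing.injective (MvPolynomial τ k) _)
  have hcharL : CharZero (AlgebraicClosure (FractionRing (MvPolynomial τ k))) :=
    charZero_of_injective_algebraMap (algebraMap (FractionRing (MvPolynomial τ k)) _).injective
  have hf0 : Function.Injective ((algebraMap (FractionRing (MvPolynomial τ k))
      (AlgebraicClosure (FractionRing (MvPolynomial τ k)))).comp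
      (algebraMap (MvPolynomial τ k) (FractionRing (MvPolynomial τ k)))) :=
    (algebraMap (FractionRing (MvPolynomial τ k)) _).injective.comp
      (IsFractionRing.injective (MvPolynomial τ k) _)
  obtain ⟨V, c', φ, h1, h2⟩ := S10_place c0 _ hf0
  refine ⟨_, inferInstance, inferInstance, hcharL, V, c', φ, ?_, h2⟩
  have h := S10_indep c0 _ hf0
  rw [← (funext h1 : (fun t => (c' t : AlgebraicClosure (FractionRing (MvPolynomial τ k)))) = _)] at h
  exact h

end Pool.Agent.Lib.MP_1e3e9c_agY
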