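import Pool.Agent.Lib.MP_1e3e9c_agY.S01

/-! LEAF S05 (medium).  Descent of a curve to an algebraically closed subfield which contains the coefficients of the equations.

PROOF.  `B` is not empty (`h2`): `exists_gens` (agV, V01): `e, w, o`, `G : Gens B e w o`.  Let `b, b', i, i'` be as in `h2` and `f = (z b 1).coeff i * (z b' 1).coeff i' - (z b 1).coeff i' * (z b' 1).coeff i ≠ 0`.  `R` = the `k`-subalgebra of `κ` generated by the finitely many coefficients of the `z (e j) (w j)`; for `(m, l)` in the cone `z m l = ∏ z (e j) (w j) ^ b j` (`G.gen`, `S_gens`),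
so all coefficients of `z m l` are in `R` (`Polynomial.lifts`, `Subalgebra`: or `z m l ∈ (mapAlgHom R.val).range`).  `f ∈ R`.  `R` is a domain of finite type over `k`, so there is a `k`-algebra map `ψ : R →ₐ[k] k` with `ψ f ≠ 0`: for instance `R = k[X_1..X_N]/P`, `P` prime, `F ∉ P = radical P` a polynomial over `f`, and
`MvPolynomial.vanishingIdeal_zeroLocus_eq_radical` gives a point of the zero locus of `P` with `F ≠ 0`; `ψ` = `Ideal.Quotient.lift` (simplest: avoid `R` as a ring: `R` is the range of `Φ : MvPolynomial (Fin N) k →ₐ[k] κ`, `P = ker Φ` is prime; a point `x` with `P(x) = 0`, `F(x) ≠ 0`; for `y = Φ Q` put `ψ y = Q(x)`, well defined).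
`z' m l` = the image under `ψ` of `z m l` in `R[X]` for `(m, l)` in the cone, `0` otherwise: `one`, `mul` (`S_zero`, `cone_add`), `eq` (`ψ (algebraMap (c j m)) = c j m`), `Two` with `b, b', i, i'` (`cone_one`). -/

set_option autoImplicit false

namespace Pool.Agent.Lib.MP_1e3e9c_agY

open Polynomial Pool.Agent.Lib.MP_1e3e9c_agV

private theorem S05_point (k : Type) [Field k] [IsAlgClosed k] (R : Type) [CommRing R] [Algebra k R]
    [Algebra.FiniteType k R] [Nontrivial R] : Nonempty (R →ₐ[k] k) := by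
  obtain ⟨m, hm⟩ := Ideal.exists_maximal R
  let : Field (R ⧸ m) := Ideal.Quotient.field m
  have : Algebra.FiniteType k (R ⧸ m) :=
    Algebra.FiniteType.of_surjective (Ideal.Quotient.mkₐ k m) (Ideal.Quotient.mkₐ_surjective k m)
  have : Module.Finite k (R ⧸ m) := finite_of_finite_type_of_isJacobsonRing k (R ⧸ m)
  have : Algebra.IsAlgebraic k (R ⧸ m) := inferInstance
  exact ⟨(IsAlgClosed.lift : (R ⧸ m) →ₐ[k] k).comp (Ideal.Quotient.mkₐ k m)⟩

theorem descent {k κ : Type} [Field k] [IsAlgClosed k] [Field κ] [Algebra k κ] {d s : ℕ}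
    {B : Finset (Fin d → ℤ)} {A : Fin (s + 1) → Finset (Fin d → ℤ)}
    {c : Fin (s + 1) → (Fin d → ℤ) → k} {z : (Fin d → ℤ) → ℕ → κ[X]}
    (h : IsP B A (fun j m => algebraMap k κ (c j m)) z) (h2 : Two B z) :
    ∃ z' : (Fin d → ℤ) → ℕ → k[X], IsP B A c z' ∧ Two B z' := by
  classical
  obtain ⟨b, hb, b', hb', i, i', hne⟩ := h2
  obtain ⟨n, e, w, o, G⟩ := exists_gens B ⟨b, hb⟩
  obtain ⟨f, hf⟩ : ∃ f : κ, f = (z b 1).coeff i * (z b' 1).coeff i' -
    (z b 1).coeff i' * (z b' 1).coeff i := ⟨_, rfl⟩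
  have hf0 : f ≠ 0 := by
    rw [hf]
    exact sub_ne_zero.2 hne
  obtain ⟨T, hT⟩ : ∃ T : Finset κ, T = insert f⁻¹ (Finset.univ.biUnion fun j : Fin (n + 1) =>
    (z (e j) (w j)).support.image (z (e j) (w j)).coeff) := ⟨_, rfl⟩
  obtain ⟨R, hR⟩ : ∃ R : Subalgebra k κ, R = Algebra.adjoin k (T : Set κ) := ⟨_, rfl⟩
  have hTR : ∀ y ∈ T, y ∈ R := by
    intro y hy
    rw [hR]
    exact Algebra.subset_adjoin hy
  have : Algebra.FiniteType k R := by
    rw [← Subalgebra.fg_iff_finiteType, hR]
    exact Subalgebra.fg_adjoin_finset T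
  obtain ⟨ψ⟩ := S05_point k R
  have hinj : Function.Injective (algebraMap R κ) := Subtype.val_injective
  have hinj' : Function.Injective (Polynomial.map (algebraMap R κ)) :=
    Polynomial.map_injective _ hinj
  -- the coordinates are defined over `R`
  have hgen : ∀ j, ∃ P : R[X], P.map (algebraMap R κ) = z (e j) (w j) := by
    intro j
    rw [← Polynomial.mem_lifts, Polynomial.lifts_iff_coeff_lifts]
    intro a
    by_cases ha : (z (e j) (w j)).coeff a = 0
    · exact ⟨0, by rw [map_zero, ha]⟩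
    · refine ⟨⟨(z (e j) (w j)).coeff a, hTR _ ?_⟩, rfl⟩
      rw [hT]
      refine Finset.mem_insert_of_mem (Finset.mem_biUnion.2 ⟨j, Finset.mem_univ j, ?_⟩)
      exact Finset.mem_image_of_mem _ (Polynomial.mem_support_iff.2 ha)
  choose Q hQ using hgen
  have hlift : ∀ (m : Fin d → ℤ) (l : ℕ), InCone B m l →
      ∃ P : R[X], P.map (algebraMap R κ) = z m l := by
    intro m l hml
    obtain ⟨a, ha, ha'⟩ := G.gen m l hml
    refine ⟨∏ j, Q j ^ a j, ?_⟩
    rw [S_gens h.one h.mul G ha ha', Polynomial.map_prod]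
    refine Finset.prod_congr rfl fun j _ => ?_
    rw [Polynomial.map_pow, hQ]
  obtain ⟨Z, hZ⟩ : ∃ Z : (Fin d → ℤ) → ℕ → R[X], ∀ m l, InCone B m l →
      (Z m l).map (algebraMap R κ) = z m l := by
    refine ⟨fun m l => if hml : InCone B m l then (hlift m l hml).choose else 0, fun m l hml => ?_⟩
    show Polynomial.map (algebraMap R κ) (if hml : InCone B m l then
      (hlift m l hml).choose else 0) = z m l
    rw [dif_pos hml]
    exact (hlift m l hml).choose_spec
  refine ⟨fun m l => (Z m l).map (ψ : R →+* k), ⟨?_, ?_, ?_⟩, b, hb, b', hb', i, i', ?_⟩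
  · have h1 : Z 0 0 = 1 := by
      apply hinj'
      rw [hZ 0 0 (S_zero B), h.one, Polynomial.map_one]
    show (Z 0 0).map (ψ : R →+* k) = 1
    rw [h1, Polynomial.map_one]
  · intro m l m' l' hm hm'
    have h1 : Z (m + m') (l + l') = Z m l * Z m' l' := by
      apply hinj'
      rw [hZ _ _ (cone_add hm hm'), h.mul m l m' l' hm hm', Polynomial.map_mul, hZ m l hm,
        hZ m' l' hm']
    show (Z (m + m') (l + l')).map (ψ : R →+* k) =
      (Z m l).map (ψ : R →+* k) * (Z m' l').map (ψ : R →+* k)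
    rw [h1, Polynomial.map_mul]
  · intro j m' l hc
    have h1 : ∑ m ∈ A j, C (algebraMap k R (c j m)) * Z (m + m') l = 0 := by
      apply hinj'
      rw [Polynomial.map_sum, Polynomial.map_zero, ← h.eq j m' l hc]
      refine Finset.sum_congr rfl fun m hm => ?_
      rw [Polynomial.map_mul, Polynomial.map_C, hZ _ _ (hc m hm)]
      rfl
    have h2 := congrArg (Polynomial.map (ψ : R →+* k)) h1
    rw [Polynomial.map_sum, Polynomial.map_zero] at h2
    rw [← h2]
    refine Finset.sum_congr rfl fun m _ => ?_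
    rw [Polynomial.map_mul, Polynomial.map_C]
    have h3 : (ψ : R →+* k) (algebraMap k R (c j m)) = c j m := ψ.commutes (c j m)
    rw [h3]
  · have hzc : ∀ a ∈ B, ∀ t, algebraMap R κ ((Z a 1).coeff t) = (z a 1).coeff t := by
      intro a ha t
      rw [← Polynomial.coeff_map, hZ a 1 (cone_one ha)]
    obtain ⟨F, hF⟩ : ∃ F : R, F = (Z b 1).coeff i * (Z b' 1).coeff i' -
      (Z b 1).coeff i' * (Z b' 1).coeff i := ⟨_, rfl⟩
    have hFf : algebraMap R κ F = f := by
      rw [hF, hf, map_sub, map_mul, map_mul, hzc b hb, hzc b hb, hzc b' hb', hzc b' hb']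
    have hfi : f⁻¹ ∈ R := hTR _ (by rw [hT]; exact Finset.mem_insert_self _ _)
    have h1 : F * ⟨f⁻¹, hfi⟩ = 1 := by
      apply hinj
      rw [map_mul, hFf, map_one]
      exact mul_inv_cancel₀ hf0
    have h2 : ψ F ≠ 0 := by
      intro h3
      have h4 := congrArg ψ h1
      rw [map_mul, h3, zero_mul, map_one] at h4
      exact zero_ne_one h4
    have h3 : ψ F = ((Z b 1).map (ψ : R →+* k)).coeff i * ((Z b' 1).map (ψ : R →+* k)).coeff i' -
        ((Z b 1).map (ψ : R →+* k)).coeff i' * ((Z b' 1).map (ψ : R →+* k)).coeff i := by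
      rw [hF, map_sub, map_mul, map_mul, Polynomial.coeff_map, Polynomial.coeff_map,
        Polynomial.coeff_map, Polynomial.coeff_map]
      rfl
    rw [h3] at h2
    exact sub_ne_zero.1 h2

end Pool.Agent.Lib.MP_1e3e9c_agY
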