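import Pool.Agent.Lib.MP_1e3e9c_agY.S03
import Pool.Agent.Lib.MP_1e3e9c_agY.S05

/-! LEAF S11 (medium).  Transfer of a curve on a generic system to another field.

PROOF.  `τ = Σ j, {m // m ∈ A j}`.  `E' = AlgebraicClosure E`; the curve over `E'`: `IsP.map`, `Two.map` (`algebraMap E E'`).  `F = FractionRing (MvPolynomial τ ℚ)`.  `Gen A c` gives `a : F →+* E'` with `a (X t) = c t` (the injective map `MvPolynomial τ ℚ → E → E'`, `IsFractionRing.lift`), `Gen A c'` gives `a' : F →+* L` with `a' (X t) = c' t`.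
With `Algebra F E'` from `a`, `Algebra F L` from `a'` (`letI := a.toAlgebra`): `E0 = algebraicClosure F E'`, an algebraically closed field (`IsAlgClosure F E0`, instance `algebraicClosure.isAlgClosure`), algebraic over `F`, `Algebra E0 E'`.  `c0 j m = if h : m ∈ A j then algebraMap F E0 (X ⟨j, m, h⟩) else 0`: its image in `E'` is the image of `c j m` for `m ∈ A j` (`IsP.congr`).
`descent` (`k = E0`, `κ = E'`): a curve over `E0`.  `ψ = IsAlgClosed.lift : E0 →ₐ[F] L`; `IsP.map ψ`, `Two.map ψ`, `IsP.congr`: `ψ (c0 j m) = c' j m` for `m ∈ A j`. -/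

set_option autoImplicit false

namespace Pool.Agent.Lib.MP_1e3e9c_agY

open Polynomial Pool.Agent.Lib.MP_1e3e9c_agV

private theorem S11_aux {F E' L : Type} [Field F] [Field E'] [IsAlgClosed E'] [Field L]
    [IsAlgClosed L] [Algebra F E'] [Algebra F L] {d s : ℕ} {B : Finset (Fin d → ℤ)}
    {A : Fin (s + 1) → Finset (Fin d → ℤ)} {z : (Fin d → ℤ) → ℕ → E'[X]}
    (c0 : Fin (s + 1) → (Fin d → ℤ) → F)
    (h : IsP B A (fun j m => algebraMap F E' (c0 j m)) z) (h2 : Two B z) :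
    ∃ z' : (Fin d → ℤ) → ℕ → L[X], IsP B A (fun j m => algebraMap F L (c0 j m)) z' ∧ Two B z' := by
  have hcl : IsAlgClosed (algebraicClosure F E') := IsAlgClosure.isAlgClosed F
  have h1 : IsP B A (fun j m => algebraMap (algebraicClosure F E') E'
      (algebraMap F (algebraicClosure F E') (c0 j m))) z := by
    refine h.congr fun j m _ => ?_
    rw [← IsScalarTower.algebraMap_apply]
  obtain ⟨z1, hz1, hz2⟩ := descent (k := algebraicClosure F E') (κ := E')
    (c := fun j m => algebraMap F (algebraicClosure F E') (c0 j m)) h1 h2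
  let ψ : algebraicClosure F E' →ₐ[F] L := IsAlgClosed.lift
  refine ⟨fun m l => (z1 m l).map (ψ : algebraicClosure F E' →+* L),
    (hz1.map (ψ : algebraicClosure F E' →+* L)).congr fun j m _ => ?_,
    hz2.map (ψ : algebraicClosure F E' →+* L)⟩
  exact ψ.commutes (c0 j m)

private theorem S11_gen {K : Type} [Field K] [CharZero K] {d s : ℕ}
    {A : Fin (s + 1) → Finset (Fin d → ℤ)} {c : Fin (s + 1) → (Fin d → ℤ) → K} (hc : Gen A c) :
    ∃ a : FractionRing (MvPolynomial (Σ j, {m // m ∈ A j}) ℚ) →+* K,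
      ∀ t : (Σ j, {m // m ∈ A j}),
        a (algebraMap (MvPolynomial (Σ j, {m // m ∈ A j}) ℚ) _ (MvPolynomial.X t)) = c t.1 t.2.1 := by
  have hg : Function.Injective
      ((MvPolynomial.aeval fun t : (Σ j, {m // m ∈ A j}) => c t.1 t.2.1 :
        MvPolynomial (Σ j, {m // m ∈ A j}) ℚ →ₐ[ℚ] K) :
        MvPolynomial (Σ j, {m // m ∈ A j}) ℚ →+* K) := hc
  refine ⟨IsFractionRing.lift hg, fun t => ?_⟩
  rw [IsFractionRing.lift_algebraMap]
  exact MvPolynomial.aeval_X _ t

theorem transfer {E L : Type} [Field E] [CharZero E] [Field L] [IsAlgClosed L] [CharZero L]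
    {d s : ℕ} {B : Finset (Fin d → ℤ)} {A : Fin (s + 1) → Finset (Fin d → ℤ)}
    {c : Fin (s + 1) → (Fin d → ℤ) → E} (hc : Gen A c) {z : (Fin d → ℤ) → ℕ → E[X]}
    (h : IsP B A c z) (h2 : Two B z) {c' : Fin (s + 1) → (Fin d → ℤ) → L} (hc' : Gen A c') :
    ∃ z' : (Fin d → ℤ) → ℕ → L[X], IsP B A c' z' ∧ Two B z' := by
  classical
  obtain ⟨a, ha⟩ := S11_gen hc
  obtain ⟨a', ha'⟩ := S11_gen hc'
  let _ : Algebra (FractionRing (MvPolynomial (Σ j, {m // m ∈ A j}) ℚ)) (AlgebraicClosure E) :=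
    ((algebraMap E (AlgebraicClosure E)).comp a).toAlgebra
  let _ : Algebra (FractionRing (MvPolynomial (Σ j, {m // m ∈ A j}) ℚ)) L := a'.toAlgebra
  obtain ⟨z', hz', hz2⟩ := S11_aux (F := FractionRing (MvPolynomial (Σ j, {m // m ∈ A j}) ℚ))
    (E' := AlgebraicClosure E) (L := L) (B := B) (A := A)
    (z := fun m l => (z m l).map (algebraMap E (AlgebraicClosure E)))
    (fun j m => if h : m ∈ A j then algebraMap (MvPolynomial (Σ j, {m // m ∈ A j}) ℚ) _
      (MvPolynomial.X ⟨j, ⟨m, h⟩⟩) else 0)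
    ((h.map (algebraMap E (AlgebraicClosure E))).congr fun j m hm => by
      rw [dif_pos hm]
      show _ = algebraMap E (AlgebraicClosure E) (a _)
      rw [ha])
    (h2.map _)
  refine ⟨z', hz'.congr fun j m hm => ?_, hz2⟩
  rw [dif_pos hm]
  exact ha' ⟨j, ⟨m, hm⟩⟩

end Pool.Agent.Lib.MP_1e3e9c_agY
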