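import Pool.Agent.Lib.MP_1e3e9c_agY.S09
import Pool.Agent.Lib.MP_1e3e9c_agY.S10
import Pool.Agent.Lib.MP_1e3e9c_agY.S11

/-! BLOCK S (helper6).  Specialisation: a generic system with a rational curve gives a rational curve for every system over every algebraically closed field of
characteristic `0`. -/

set_option autoImplicit false

namespace Pool.Agent.Lib.MP_1e3e9c_agY

open Polynomial Pool.Agent.Lib.MP_1e3e9c_agV

theorem spec {d s : ℕ} {B : Finset (Fin d → ℤ)} {A : Fin (s + 1) → Finset (Fin d → ℤ)}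
    (h : GenC B A) {k : Type} [Field k] [IsAlgClosed k] [CharZero k]
    (c : Fin (s + 1) → (Fin d → ℤ) → k) : ∃ z, IsCv B A c z := by
  classical
  obtain ⟨E, _, _, cE, hcE, zE, hzE⟩ := h
  obtain ⟨z1, h1, h1', -⟩ := hzE.toP
  obtain ⟨L, _, _, _, V, c', φ, hi, hφ⟩ :=
    place (τ := Σ j, {m // m ∈ A j}) fun t => c t.1 t.2.1
  let cV : Fin (s + 1) → (Fin d → ℤ) → V := fun j m =>
    if hm : m ∈ A j then c' ⟨j, m, hm⟩ else 0
  have hcV : ∀ t : (Σ j, {m // m ∈ A j}), cV t.1 t.2.1 = c' t := fun t => dif_pos t.2.2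
  have hG : Gen A fun j m => (cV j m : L) := by
    have : (fun t : (Σ j, {m // m ∈ A j}) => (cV t.1 t.2.1 : L)) = fun t => (c' t : L) :=
      funext fun t => by rw [hcV]
    rw [Gen, this]
    exact hi
  obtain ⟨z2, h2, h2'⟩ := transfer hcE h1 h1' hG
  obtain ⟨z3, h3⟩ := h2.toCv h2'
  obtain ⟨z4, h4, h4'⟩ := gauss V h3
  letI : Algebra k (IsLocalRing.ResidueField V) := φ.toAlgebra
  have h5 : IsP B A (fun j m => algebraMap k (IsLocalRing.ResidueField V) (c j m)) z4 :=
    h4.congr fun j m hm => by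
      show IsLocalRing.residue V (cV j m) = φ (c j m)
      rw [hcV ⟨j, m, hm⟩, hφ]
  obtain ⟨z5, h6, h7⟩ := descent h5 h4'
  exact h6.toCv h7

end Pool.Agent.Lib.MP_1e3e9c_agY
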