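import Pool.Agent.Lib.MP_1e3e9c_agY.Ye

/-! LEAF Yf (medium-).  Lemma B.

PROOF.  Let `u l = ∑ e_i v_il ≠ 0`, `q`, `b`, `m` as in `comb` (for `A 0`).  `b ≠ 0` as `q u ≠ 0`, so `∑ b_i ≥ 1`.  For every `j` `hF 0 j` gives `m_j ∈ A j` with `Fa (A j) u m_j` and `Fa (A j) (v i) m_j` if `b_i > 0`, so `q hs (A j) u = - q pr m_j u = - ∑ b_i pr m_j (v i) = ∑ b_i hs (A j) (v i)`.
Let `ρ i = b i + q (a i - e i)` (natural numbers, `e ≤ a`): `∑ ρ_i v_i = q u + q (0 - u) = 0`.  `hB ρ`: `∑ b_i + q ∑ a_i - q ∑ e_i ≤ ∑_j (∑ b_i hs + q ∑ a_i hs - q ∑ e_i hs) = ∑_j (q hs (A j) u) + q ∑_j DD A v a j - q ∑_j ∑_i e_i hs (A j) (v i)`; with `∑_j DD A v a j = ∑ a_i`: `∑ b_i - q ∑ e_i ≤ - q ∑_j ph A v e j`.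
So `q (∑ e_i - ∑_j ph A v e j) ≥ ∑ b_i ≥ 1`, so `∑ e_i - ∑_j ph A v e j ≥ 1`. -/

set_option autoImplicit false

namespace Pool.Agent.Lib.MP_1e3e9c_agY

open Pool.Agent.Lib.MP_1e3e9c_agV

private theorem Yf_pr {d r : ℕ} (m w : Fin d → ℤ) (b : Fin r → ℕ) (v : Fin r → Fin d → ℤ) (q : ℤ)
    (h : ∀ l, q * w l = ∑ i, (b i : ℤ) * v i l) : q * pr m w = ∑ i, (b i : ℤ) * pr m (v i) := by
  unfold pr
  calc q * ∑ l, m l * w l = ∑ l, m l * (q * w l) := by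
        rw [Finset.mul_sum]
        exact Finset.sum_congr rfl fun l _ => by ring
    _ = ∑ l, ∑ i, (b i : ℤ) * (m l * v i l) := by
        refine Finset.sum_congr rfl fun l _ => ?_
        rw [h l, Finset.mul_sum]
        exact Finset.sum_congr rfl fun i _ => by ring
    _ = ∑ i, ∑ l, (b i : ℤ) * (m l * v i l) := Finset.sum_comm
    _ = ∑ i, (b i : ℤ) * ∑ l, m l * v i l :=
        Finset.sum_congr rfl fun i _ => (Finset.mul_sum _ _ _).symm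

theorem lemB {d r s : ℕ} {A : Fin (s + 1) → Finset (Fin d → ℤ)} (hA : ∀ j, Full (A j)) (hd : 0 < d)
    (hF : ∀ j j', Fan (A j) (A j')) {v : Fin r → Fin d → ℤ} (hv : ∀ i, v i ≠ 0)
    (hP : Pol (A 0) v)
    (hB : ∀ ρ : Fin r → ℕ, (∀ l, ∑ i, (ρ i : ℤ) * v i l = 0) → ∑ i, (ρ i : ℤ) ≤ ∑ j, DD A v ρ j)
    {a e : Fin r → ℕ} (ha : ∀ l, ∑ i, (a i : ℤ) * v i l = 0)
    (haN : ∑ j, DD A v a j = ∑ i, (a i : ℤ)) (he : ∀ i, e i ≤ a i)
    (hu : ∃ l, ∑ i, (e i : ℤ) * v i l ≠ 0) : 1 + ∑ j, ph A v e j ≤ ∑ i, (e i : ℤ) := by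
  obtain ⟨u, hud⟩ : ∃ u : Fin d → ℤ, u = fun l => ∑ i, (e i : ℤ) * v i l := ⟨_, rfl⟩
  obtain ⟨q, b, m, hq, hqu, hm, hbm⟩ := comb (hA 0) hd hv hP u
  have hul : ∀ l, u l = ∑ i, (e i : ℤ) * v i l := fun l => congrFun hud l
  have hq' : (0 : ℤ) < (q : ℤ) := Int.natCast_pos.2 hq
  -- `b` is not zero
  have hb : (1 : ℤ) ≤ ∑ i, (b i : ℤ) := by
    by_contra hlt
    have h1 : ∑ i, (b i : ℤ) = 0 :=
      le_antisymm (by omega) (Finset.sum_nonneg fun i _ => Int.natCast_nonneg (b i))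
    have h2 : ∀ i, (b i : ℤ) = 0 := fun i =>
      (Finset.sum_eq_zero_iff_of_nonneg fun i _ => Int.natCast_nonneg (b i)).1 h1 i (Finset.mem_univ i)
    obtain ⟨l, hl⟩ := hu
    have h3 := hqu l
    rw [Finset.sum_eq_zero fun i _ => by rw [h2 i, zero_mul], hul l] at h3
    rcases mul_eq_zero.1 h3 with h4 | h4
    · exact hq'.ne' h4
    · exact hl h4
  -- the support functions
  have hj : ∀ j, (q : ℤ) * hs (A j) u = ∑ i, (b i : ℤ) * hs (A j) (v i) := by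
    intro j
    obtain ⟨m', -, h1⟩ := hF 0 j m hm.1
    have h2 : pr m' u + hs (A j) u = 0 := (h1 u hm).2
    have h3 := Yf_pr m' u b v (q : ℤ) hqu
    have h4 : ∑ i, (b i : ℤ) * hs (A j) (v i) = -∑ i, (b i : ℤ) * pr m' (v i) := by
      rw [← Finset.sum_neg_distrib]
      refine Finset.sum_congr rfl fun i _ => ?_
      rcases Nat.eq_zero_or_pos (b i) with h0 | h0
      · rw [h0, Nat.cast_zero, zero_mul, zero_mul, neg_zero]
      · have h5 : pr m' (v i) + hs (A j) (v i) = 0 := (h1 (v i) (hbm i h0)).2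
        rw [eq_neg_of_add_eq_zero_right h5, mul_neg]
    rw [h4, ← h3, eq_neg_of_add_eq_zero_right h2, mul_neg]
  -- the relation
  have hρ : ∀ i, ((b i + q * (a i - e i) : ℕ) : ℤ) = (b i : ℤ) + q * ((a i : ℤ) - e i) := by
    intro i
    rw [Nat.cast_add, Nat.cast_mul, Nat.cast_sub (he i)]
  have h1 := hB (fun i => b i + q * (a i - e i)) (by
    intro l
    have h2 : ∑ i, ((b i + q * (a i - e i) : ℕ) : ℤ) * v i l =
        ∑ i, (b i : ℤ) * v i l + (q * ∑ i, (a i : ℤ) * v i l - q * ∑ i, (e i : ℤ) * v i l) := by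
      rw [Finset.mul_sum, Finset.mul_sum, ← Finset.sum_sub_distrib, ← Finset.sum_add_distrib]
      refine Finset.sum_congr rfl fun i _ => ?_
      rw [hρ i]
      ring
    rw [h2, ha l, ← hqu l, ← hul l]
    ring)
  have h2 : ∑ i, ((b i + q * (a i - e i) : ℕ) : ℤ) =
      ∑ i, (b i : ℤ) + (q * ∑ i, (a i : ℤ) - q * ∑ i, (e i : ℤ)) := by
    rw [Finset.mul_sum, Finset.mul_sum, ← Finset.sum_sub_distrib, ← Finset.sum_add_distrib]
    refine Finset.sum_congr rfl fun i _ => ?_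
    rw [hρ i]
    ring
  have h3 : ∀ j, DD A v (fun i => b i + q * (a i - e i)) j =
      (q : ℤ) * DD A v a j - (q : ℤ) * ph A v e j := by
    intro j
    have h4 : DD A v (fun i => b i + q * (a i - e i)) j =
        ∑ i, (b i : ℤ) * hs (A j) (v i) +
          (q * ∑ i, (a i : ℤ) * hs (A j) (v i) - q * ∑ i, (e i : ℤ) * hs (A j) (v i)) := by
      unfold DD
      rw [Finset.mul_sum, Finset.mul_sum, ← Finset.sum_sub_distrib, ← Finset.sum_add_distrib]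
      refine Finset.sum_congr rfl fun i _ => ?_
      rw [hρ i]
      ring
    rw [h4, ← hj j]
    unfold DD ph
    rw [← hud]
    ring
  have h4 : ∑ j, DD A v (fun i => b i + q * (a i - e i)) j =
      (q : ℤ) * ∑ i, (a i : ℤ) - (q : ℤ) * ∑ j, ph A v e j := by
    rw [← haN, Finset.mul_sum, Finset.mul_sum, ← Finset.sum_sub_distrib]
    exact Finset.sum_congr rfl fun j _ => h3 j
  rw [h4] at h1
  have h5 : ∑ i, ((b i + q * (a i - e i) : ℕ) : ℤ) ≤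
      (q : ℤ) * ∑ i, (a i : ℤ) - (q : ℤ) * ∑ j, ph A v e j := h1
  rw [h2] at h5
  have h6 : (1 : ℤ) ≤ q * (∑ i, (e i : ℤ) - ∑ j, ph A v e j) := by
    rw [mul_sub]
    linarith
  have h7 : 0 < ∑ i, (e i : ℤ) - ∑ j, ph A v e j := pos_of_mul_pos_right (by linarith) hq'.le
  linarith [Int.add_one_le_iff.2 h7]

end Pool.Agent.Lib.MP_1e3e9c_agY
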