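import Mathlib

/-! LEAF Yg (easy+, MATHLIB ONLY).  A minimal relation of nonpositive weight.

PROOF.  Case A: some relation `e` has `∑ e_i κ_i < 0`: take such a relation `a` with `∑ a_i` minimal (`Nat.find`, or `WellFounded.min`); `a ≠ 0`.  If `f ≤ a` is a relation, `f ≠ 0`, `f ≠ a`, then `a - f` is a relation, and one of the two has weight `< 0` (the sum of the weights is the weight of `a`), with a smaller sum: contradiction.
Case B: all relations have weight `≥ 0`: the given one has weight `0`; take a relation `a ≠ 0` of weight `0` with `∑ a_i` minimal: for `f`, `a - f` both weights are `≥ 0` with sum `0`, so both are `0`: contradiction to the minimality if `f ≠ 0`, `f ≠ a`. -/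

set_option autoImplicit false

namespace Pool.Agent.Lib.MP_1e3e9c_agY

private theorem Yg_min {r : ℕ} (P : (Fin r → ℕ) → Prop) (h : ∃ e, P e) :
    ∃ a, P a ∧ ∀ f, P f → ∑ i, a i ≤ ∑ i, f i := by
  obtain ⟨a, ha, hm⟩ := WellFounded.has_min (measure (fun e : Fin r → ℕ => ∑ i, e i)).wf {e | P e} h
  refine ⟨a, ha, fun f hf => ?_⟩
  by_contra hc
  exact hm f hf (not_le.mp hc)

private theorem Yg_sub {r : ℕ} (a f : Fin r → ℕ) (hle : ∀ i, f i ≤ a i) (w : Fin r → ℤ) :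
    ∑ i, ((a i - f i : ℕ) : ℤ) * w i = ∑ i, (a i : ℤ) * w i - ∑ i, (f i : ℤ) * w i := by
  rw [← Finset.sum_sub_distrib]
  refine Finset.sum_congr rfl fun i _ => ?_
  rw [Nat.cast_sub (hle i)]
  ring

private theorem Yg_lt1 {r : ℕ} (a f : Fin r → ℕ) (hle : ∀ i, f i ≤ a i) (hf : f ≠ a) :
    ∑ i, f i < ∑ i, a i := by
  refine Finset.sum_lt_sum (fun i _ => hle i) ?_
  by_contra hc
  push Not at hc
  exact hf (funext fun i => le_antisymm (hle i) (hc i (Finset.mem_univ i)))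

private theorem Yg_lt2 {r : ℕ} (a f : Fin r → ℕ) (hle : ∀ i, f i ≤ a i) (hf : f ≠ 0) :
    ∑ i, (a i - f i) < ∑ i, a i := by
  refine Finset.sum_lt_sum (fun i _ => Nat.sub_le _ _) ?_
  by_contra hc
  push Not at hc
  refine hf (funext fun i => ?_)
  have h1 := hc i (Finset.mem_univ i)
  have h2 := hle i
  show f i = 0
  omega

theorem min_rel {d r : ℕ} (v : Fin r → Fin d → ℤ) (κ : Fin r → ℤ)
    (h : ∃ e : Fin r → ℕ, e ≠ 0 ∧ (∀ l, ∑ i, (e i : ℤ) * v i l = 0) ∧ ∑ i, (e i : ℤ) * κ i ≤ 0) :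
    ∃ a : Fin r → ℕ, a ≠ 0 ∧ (∀ l, ∑ i, (a i : ℤ) * v i l = 0) ∧
      (∀ e : Fin r → ℕ, (∀ i, e i ≤ a i) → (∀ l, ∑ i, (e i : ℤ) * v i l = 0) → e = 0 ∨ e = a) ∧
      (∑ i, (a i : ℤ) * κ i < 0 ∨ (∑ i, (a i : ℤ) * κ i = 0 ∧
        ∀ e : Fin r → ℕ, (∀ l, ∑ i, (e i : ℤ) * v i l = 0) → 0 ≤ ∑ i, (e i : ℤ) * κ i)) := by
  classical
  by_cases hA : ∃ e : Fin r → ℕ, (∀ l, ∑ i, (e i : ℤ) * v i l = 0) ∧ ∑ i, (e i : ℤ) * κ i < 0
  · obtain ⟨a, ⟨ha1, ha2⟩, hmin⟩ := Yg_min _ hA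
    have ha0 : a ≠ 0 := by
      rintro rfl
      simp at ha2
    refine ⟨a, ha0, ha1, fun f hle hf => ?_, Or.inl ha2⟩
    by_contra hc
    push Not at hc
    have hw := Yg_sub a f hle κ
    have hr : ∀ l, ∑ i, ((a i - f i : ℕ) : ℤ) * v i l = 0 := fun l => by
      rw [Yg_sub a f hle (fun i => v i l), ha1 l, hf l, sub_zero]
    rcases lt_or_ge (∑ i, (f i : ℤ) * κ i) 0 with h1 | h1
    · exact absurd (hmin f ⟨hf, h1⟩) (not_le.mpr (Yg_lt1 a f hle hc.2))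
    · have h2 : ∑ i, ((a i - f i : ℕ) : ℤ) * κ i < 0 := by
        rw [hw]
        linarith
      exact absurd (hmin (fun i => a i - f i) ⟨hr, h2⟩) (not_le.mpr (Yg_lt2 a f hle hc.1))
  · have hA' : ∀ e : Fin r → ℕ, (∀ l, ∑ i, (e i : ℤ) * v i l = 0) → 0 ≤ ∑ i, (e i : ℤ) * κ i := by
      intro e he
      by_contra hc
      exact hA ⟨e, he, not_le.mp hc⟩
    have hB : ∃ e : Fin r → ℕ, e ≠ 0 ∧ (∀ l, ∑ i, (e i : ℤ) * v i l = 0) ∧
        ∑ i, (e i : ℤ) * κ i = 0 := by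
      obtain ⟨e, he0, he1, he2⟩ := h
      exact ⟨e, he0, he1, le_antisymm he2 (hA' e he1)⟩
    obtain ⟨a, ⟨ha0, ha1, ha2⟩, hmin⟩ := Yg_min _ hB
    refine ⟨a, ha0, ha1, fun f hle hf => ?_, Or.inr ⟨ha2, hA'⟩⟩
    by_contra hc
    push Not at hc
    have hw := Yg_sub a f hle κ
    have hr : ∀ l, ∑ i, ((a i - f i : ℕ) : ℤ) * v i l = 0 := fun l => by
      rw [Yg_sub a f hle (fun i => v i l), ha1 l, hf l, sub_zero]
    have h1 := hA' f hf
    have h2 := hA' (fun i => a i - f i) hr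
    have h3 : ∑ i, (f i : ℤ) * κ i = 0 := by
      rw [hw] at h2
      linarith
    exact absurd (hmin f ⟨hc.1, hf, h3⟩) (not_le.mpr (Yg_lt1 a f hle hc.2))

end Pool.Agent.Lib.MP_1e3e9c_agY
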