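import Pool.Agent.Lib.MP_1e3e9c_agY.Yd
import Pool.Agent.Lib.MP_1e3e9c_agY.Yf
import Pool.Agent.Lib.MP_1e3e9c_agY.Yg

/-! LEAF Yh (medium-).  If `K_V + ∑ D_j` is not big there is a relation as in `RelY`.

PROOF.  `κ i = ∑_j hs (A j) (v i) - 1`.  `alt_int` (V17 of agV) for `v`, `b = κ` (`hb N u`: `hnb` (negation) gives `i` with `pr u (v i) + N ∑_j hs (A j) (v i) ≤ N`) gives a relation `e ≠ 0` of weight `≤ 0`; `min_rel` (Yg) gives `a`.  Let `I = {i // 0 < a i}`, `σ : Fin r' ≃ I` (`Fintype.equivFin`), `v' = v ∘ σ`, `a' = a ∘ σ`; `0 < r'` as `a ≠ 0`.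
Sums over `Fin r'` of terms with the factor `a' i` are sums over `Fin r` (`Equiv.sum_comp`, `Finset.sum_subtype`, `Finset.sum_subset`; model: V18, V16 of agV).  `full`, `fan`: given.  `fct`: `fct_of_fan` (Yd) for `Fan (A j) (A 0)`.  `mini`: for `f ≤ a'` with a relation extend `f` by `0`: a function `≤ a` on `Fin r` with a relation.
`le`: `∑_j DD A v' a' j - ∑ a' = ∑ a_i κ_i ≤ 0` (`Finset.sum_comm`).  `eqB`: equality means weight `0`, so we are in the second case of `min_rel`, all relations have weight `≥ 0`; for `e ≤ a'` apply `lemB` (Yf) to the extensions by `0` of `a'` (it is `a`) and `e` (`DD`, `ph`, `∑ e_i v_i` do not change). -/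

set_option autoImplicit false

namespace Pool.Agent.Lib.MP_1e3e9c_agY

open Pool.Agent.Lib.MP_1e3e9c_agV

private theorem Yh_sum {r : ℕ} (I : Finset (Fin r)) (F : Fin r → ℤ) (hF : ∀ i, i ∉ I → F i = 0) :
    ∑ l : Fin I.card, F (I.equivFin.symm l) = ∑ i, F i := by
  rw [Equiv.sum_comp I.equivFin.symm (fun x : I => F x), Finset.sum_coe_sort I F]
  exact Finset.sum_subset (Finset.subset_univ I) fun i _ hi => hF i hi

private theorem Yh_wt {d r s : ℕ} (A : Fin (s + 1) → Finset (Fin d → ℤ)) (v : Fin r → Fin d → ℤ)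
    (e : Fin r → ℕ) : ∑ i, (e i : ℤ) * (∑ j, hs (A j) (v i) - 1) =
      ∑ j, DD A v e j - ∑ i, (e i : ℤ) := by
  unfold DD
  rw [Finset.sum_comm, ← Finset.sum_sub_distrib]
  refine Finset.sum_congr rfl fun i _ => ?_
  rw [mul_sub, Finset.mul_sum, mul_one]

theorem exists_relY {d r s : ℕ} {A : Fin (s + 1) → Finset (Fin d → ℤ)} (hA : ∀ j, Full (A j))
    (hd : 0 < d) (hF : ∀ j j', Fan (A j) (A j')) {v : Fin r → Fin d → ℤ}
    (hv : ∀ i, Fct (A 0) (v i)) (hP : Pol (A 0) v)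
    (hnb : ¬ ∃ (N : ℕ) (u : Fin d → ℤ), 0 < N ∧
      ∀ i, (N : ℤ) < pr u (v i) + N * ∑ j, hs (A j) (v i)) :
    ∃ (r' : ℕ) (v' : Fin r' → Fin d → ℤ) (a' : Fin r' → ℕ), RelY A v' a' := by
  classical
  have hne : ∀ j, (A j).Nonempty := fun j => by
    obtain ⟨m, hm, -⟩ := hA j (Pi.single ⟨0, hd⟩ 1) (fun h => by
      have h1 := congrFun h ⟨0, hd⟩
      rw [Pi.single_eq_same] at h1
      exact one_ne_zero h1)
    exact ⟨m, hm⟩
  obtain ⟨a, ha0, harel, hamin, hawt⟩ := min_rel v (fun i => ∑ j, hs (A j) (v i) - 1)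
    (alt_int v (fun i => ∑ j, hs (A j) (v i) - 1) (fun N u hN => by
      by_contra hcon
      refine hnb ⟨N, u, hN, fun i => ?_⟩
      by_contra hi
      refine hcon ⟨i, ?_⟩
      have h1 : pr u (v i) = ∑ j, u j * v i j := rfl
      rw [← h1]
      have h2 : (N : ℤ) * (∑ j, hs (A j) (v i) - 1) = N * ∑ j, hs (A j) (v i) - N := by ring
      linarith))
  obtain ⟨I, hI⟩ : ∃ I : Finset (Fin r), I = Finset.univ.filter fun i => a i ≠ 0 := ⟨_, rfl⟩
  have hmem : ∀ i, i ∈ I ↔ a i ≠ 0 := fun i => by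
    rw [hI, Finset.mem_filter]
    exact ⟨fun h => h.2, fun h => ⟨Finset.mem_univ i, h⟩⟩
  have hout : ∀ i, i ∉ I → a i = 0 := fun i hi => by
    by_contra h
    exact hi ((hmem i).2 h)
  have hIne : I.Nonempty := by
    by_contra h
    rw [Finset.not_nonempty_iff_eq_empty] at h
    refine ha0 (funext fun i => hout i ?_)
    rw [h]
    exact Finset.notMem_empty i
  -- the extension by zero
  have ext : ∀ f' : Fin I.card → ℕ, ∃ f : Fin r → ℕ, (∀ l : Fin I.card, f (I.equivFin.symm l) = f' l) ∧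
      ∀ i, i ∉ I → f i = 0 := by
    intro f'
    refine ⟨fun i => if hi : i ∈ I then f' (I.equivFin ⟨i, hi⟩) else 0, fun l => ?_, fun i hi => ?_⟩
    · simp
    · exact dif_neg hi
  have hφ : ∀ i, i ∈ I → ∃ l : Fin I.card, ((I.equivFin.symm l : I) : Fin r) = i := fun i hi =>
    ⟨I.equivFin ⟨i, hi⟩, by rw [Equiv.symm_apply_apply]⟩
  have hsum : ∀ (f' : Fin I.card → ℕ) (f : Fin r → ℕ), (∀ l : Fin I.card, f (I.equivFin.symm l) = f' l) →
      (∀ i, i ∉ I → f i = 0) → ∀ F : Fin r → ℤ,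
      ∑ l : Fin I.card, (f' l : ℤ) * F (I.equivFin.symm l) = ∑ i, (f i : ℤ) * F i := by
    intro f' f hf hf0 F
    rw [← Yh_sum I (fun i => (f i : ℤ) * F i) fun i hi => by rw [hf0 i hi, Nat.cast_zero, zero_mul]]
    exact Finset.sum_congr rfl fun l _ => by rw [hf]
  have hsum1 : ∀ (f' : Fin I.card → ℕ) (f : Fin r → ℕ), (∀ l : Fin I.card, f (I.equivFin.symm l) = f' l) →
      (∀ i, i ∉ I → f i = 0) → ∑ l : Fin I.card, (f' l : ℤ) = ∑ i, (f i : ℤ) := by
    intro f' f hf hf0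
    have h1 := hsum f' f hf hf0 (fun _ => 1)
    simpa only [mul_one] using h1
  have hle' : ∀ (f' : Fin I.card → ℕ) (f : Fin r → ℕ), (∀ l : Fin I.card, f (I.equivFin.symm l) = f' l) →
      (∀ i, i ∉ I → f i = 0) → (∀ l, f' l ≤ a (I.equivFin.symm l)) → ∀ i, f i ≤ a i := by
    intro f' f hf hf0 hle i
    by_cases hi : i ∈ I
    · obtain ⟨l, rfl⟩ := hφ i hi
      rw [hf]
      exact hle l
    · rw [hf0 i hi]
      exact Nat.zero_le _
  have hDD : ∀ (f' : Fin I.card → ℕ) (f : Fin r → ℕ), (∀ l : Fin I.card, f (I.equivFin.symm l) = f' l) →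
      (∀ i, i ∉ I → f i = 0) → ∀ j,
      DD A (fun l => v (I.equivFin.symm l)) f' j = DD A v f j := by
    intro f' f hf hf0 j
    exact hsum f' f hf hf0 (fun i => hs (A j) (v i))
  have hwa := Yh_wt A v a
  have haa : ∀ l : Fin I.card, a (I.equivFin.symm l) = (fun l : Fin I.card => a (I.equivFin.symm l)) l :=
    fun l => rfl
  refine ⟨I.card, fun l => v (I.equivFin.symm l), fun l => a (I.equivFin.symm l), hA, hF, ?_, ?_, ?_, ?_,
    Finset.card_pos.2 hIne, ?_, ?_⟩
  · intro j l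
    exact fct_of_fan (hne j) (hF j 0) (hv _)
  · intro l
    exact Nat.pos_of_ne_zero ((hmem _).1 (I.equivFin.symm l).2)
  · intro l
    exact (hsum _ a haa hout (fun i => v i l)).trans (harel l)
  · intro f' hf' hf'rel
    obtain ⟨f, hf, hf0⟩ := ext f'
    rcases hamin f (hle' f' f hf hf0 hf') (fun l => (hsum f' f hf hf0 (fun i => v i l)).symm.trans (hf'rel l))
      with h | h
    · left
      funext l
      rw [← hf l, h]
      rfl
    · right
      funext l
      rw [← hf l, h]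
  · rw [Finset.sum_congr rfl fun j _ => hDD _ a haa hout j, hsum1 _ a haa hout]
    rcases hawt with h | ⟨h, -⟩
    · linarith
    · linarith
  · intro heq e' he' hu
    rw [Finset.sum_congr rfl fun j _ => hDD _ a haa hout j, hsum1 _ a haa hout] at heq
    have hB : ∀ ρ : Fin r → ℕ, (∀ l, ∑ i, (ρ i : ℤ) * v i l = 0) →
        ∑ i, (ρ i : ℤ) ≤ ∑ j, DD A v ρ j := by
      intro ρ hρ
      rcases hawt with h | ⟨-, h⟩
      · exfalso
        linarith
      · have h1 := h ρ hρ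
        have h2 := Yh_wt A v ρ
        linarith
    obtain ⟨e, he, he0⟩ := ext e'
    have hr : ∀ l, ∑ i : Fin I.card, (e' i : ℤ) * v (I.equivFin.symm i) l = ∑ i, (e i : ℤ) * v i l :=
      fun l => hsum e' e he he0 (fun i => v i l)
    have h3 := lemB hA hd hF (fun i => (hv i).1) hP hB harel heq (hle' e' e he he0 he')
      (by
        obtain ⟨l, hl⟩ := hu
        exact ⟨l, fun h => hl ((hr l).trans h)⟩)
    rw [hsum1 e' e he he0]
    refine le_trans (le_of_eq ?_) h3
    congr 1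
    refine Finset.sum_congr rfl fun j _ => ?_
    unfold ph
    rw [hsum e' e he he0 (fun i => hs (A j) (v i))]
    congr 2
    funext l
    exact hr l

end Pool.Agent.Lib.MP_1e3e9c_agY
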