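import Pool.Agent.Lib.MP_1e3e9c_agY.YDefs

/-! LEAF Yi (easy+, 2 theorems).  Permutation of the equations.

PROOF.  `relY_perm`: all fields: `DD (A ∘ σ) v a j = DD A v a (σ j)`, `ph (A ∘ σ) v e j = ph A v e (σ j)` by definition, sums over `j`: `Equiv.sum_comp σ`.  `genC_perm`: from `E`, `c'`, `z` take `c j = c' (σ.symm j)`.  `Gen A c`: the family of `Gen (A ∘ σ) c'` composed with the equivalence of the index types
`(j, m) ↦ (σ.symm j, m)` (`AlgebraicIndependent.comp` with an injective map; `Equiv.sigmaCongrLeft` or a direct definition; casts: `σ (σ.symm j) = j`; it may be easier to prove: for every `t` of the one index type `c t.1 t.2.1 = c' (f t).1 (f t).2.1`).  `IsCv`: `eq j` for `A`, `c` is `eq (σ.symm j)` for `A ∘ σ`, `c'`. -/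

set_option autoImplicit false

namespace Pool.Agent.Lib.MP_1e3e9c_agY

open Pool.Agent.Lib.MP_1e3e9c_agV

theorem relY_perm {d r s : ℕ} {A : Fin (s + 1) → Finset (Fin d → ℤ)} {v : Fin r → Fin d → ℤ}
    {a : Fin r → ℕ} (hR : RelY A v a) (σ : Equiv.Perm (Fin (s + 1))) :
    RelY (fun j => A (σ j)) v a := by
  have h1 : ∑ j, DD (fun j => A (σ j)) v a j = ∑ j, DD A v a j := Equiv.sum_comp σ fun j => DD A v a j
  have h2 : ∀ e : Fin r → ℕ, ∑ j, ph (fun j => A (σ j)) v e j = ∑ j, ph A v e j := fun e =>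
    Equiv.sum_comp σ fun j => ph A v e j
  refine
    { full := fun j => hR.full (σ j)
      fan := fun j j' => hR.fan (σ j) (σ j')
      fct := fun j i => hR.fct (σ j) i
      pos := hR.pos
      rel := hR.rel
      mini := hR.mini
      rpos := hR.rpos
      le := ?_
      eqB := ?_ }
  · rw [h1]
    exact hR.le
  · intro h e he hl
    rw [h1] at h
    rw [h2]
    exact hR.eqB h e he hl

theorem genC_perm {d s : ℕ} {B : Finset (Fin d → ℤ)} {A : Fin (s + 1) → Finset (Fin d → ℤ)}
    (σ : Equiv.Perm (Fin (s + 1))) (h : GenC B fun j => A (σ j)) : GenC B A := by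
  obtain ⟨E, hE, hE0, c', hg, z, hz⟩ := h
  refine ⟨E, hE, hE0, fun j => c' (σ.symm j), ?_, z, ?_⟩
  · let f : (Σ j, {m // m ∈ A j}) → Σ j, {m // m ∈ A (σ j)} := fun t =>
      ⟨σ.symm t.1, ⟨t.2.1, by
        rw [σ.apply_symm_apply]
        exact t.2.2⟩⟩
    have hf : Function.Injective f := by
      intro t t' h
      have h1 : t.1 = t'.1 := σ.symm.injective (congrArg Sigma.fst h)
      have h2 : t.2.1 = t'.2.1 := congrArg (fun u : Σ j, {m // m ∈ A (σ j)} => u.2.1) h
      obtain ⟨j, m, hm⟩ := t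
      obtain ⟨j', m', hm'⟩ := t'
      have h3 : j = j' := h1
      have h4 : m = m' := h2
      subst h3
      subst h4
      rfl
    exact AlgebraicIndependent.comp hg f hf
  · refine
      { one := hz.one
        mul := hz.mul
        eq := ?_
        nonconst := hz.nonconst }
    intro j m' l hm
    have h1 := hz.eq (σ.symm j) m' l
    rw [σ.apply_symm_apply] at h1
    exact h1 hm

end Pool.Agent.Lib.MP_1e3e9c_agY
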