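import Pool.Agent.Lib.MP_1e3e9c_agY.Ye

/-! LEAF Yj (easy+).  The facet description passes to every polytope with a coarser fan.

PROOF.  Let `N > 0` and `0 ≤ pr u (v i) + N hs A (v i)` for all `i`.  By `cone_iff'` (Yc; `A` is not empty) it is enough: `0 ≤ pr u w + N hs A w` for every `w`.  `comb` (Ye) for `B` and `w`: `q w = ∑ b_i v_i`, `m`.  `hF m` gives `m' ∈ A` with `Fa A w m'` and `Fa A (v i) m'` for all `i` with `b_i > 0`.
So `q hs A w = - q pr m' w = - ∑ b_i pr m' (v i) = ∑ b_i hs A (v i)` and `q (pr u w + N hs A w) = ∑ b_i (pr u (v i) + N hs A (v i)) ≥ 0`, `q > 0`. -/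

set_option autoImplicit false

namespace Pool.Agent.Lib.MP_1e3e9c_agY

open Pool.Agent.Lib.MP_1e3e9c_agV

private theorem Yj_lin {d r : ℕ} {v : Fin r → Fin d → ℤ} {w : Fin d → ℤ} {q : ℕ} {b : Fin r → ℕ}
    (h : ∀ l, (q : ℤ) * w l = ∑ i, (b i : ℤ) * v i l) (x : Fin d → ℤ) :
    (q : ℤ) * pr x w = ∑ i, (b i : ℤ) * pr x (v i) := by
  unfold pr
  rw [Finset.mul_sum]
  calc ∑ l, (q : ℤ) * (x l * w l) = ∑ l, ∑ i, (b i : ℤ) * (x l * v i l) := by
        refine Finset.sum_congr rfl fun l _ => ?_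
        rw [show (q : ℤ) * (x l * w l) = x l * ((q : ℤ) * w l) by ring, h l, Finset.mul_sum]
        exact Finset.sum_congr rfl fun i _ => by ring
    _ = ∑ i, ∑ l, (b i : ℤ) * (x l * v i l) := Finset.sum_comm
    _ = ∑ i, (b i : ℤ) * ∑ l, x l * v i l := by
        refine Finset.sum_congr rfl fun i _ => ?_
        rw [Finset.mul_sum]

theorem pol_of_fan {d r : ℕ} {A B : Finset (Fin d → ℤ)} (hB : Full B) (hd : 0 < d)
    (hA : A.Nonempty) (hF : Fan B A) {v : Fin r → Fin d → ℤ} (hv : ∀ i, v i ≠ 0) (hP : Pol B v) :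
    Pol A v := by
  intro N u hN h
  rw [cone_iff' hA]
  intro w
  obtain ⟨q, b, m, hq, hsum, hFm, hb⟩ := comb hB hd hv hP w
  obtain ⟨m', hm', hF'⟩ := hF m hFm.1
  have h1 : pr m' w + hs A w = 0 := (hF' w hFm).2
  have h2 : (q : ℤ) * hs A w = ∑ i, (b i : ℤ) * hs A (v i) := by
    have h3 : (q : ℤ) * hs A w = -((q : ℤ) * pr m' w) := by
      rw [eq_neg_of_add_eq_zero_right h1]
      ring
    rw [h3, Yj_lin hsum, ← Finset.sum_neg_distrib]
    refine Finset.sum_congr rfl fun i _ => ?_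
    rcases Nat.eq_zero_or_pos (b i) with h4 | h4
    · rw [h4]
      push_cast
      ring
    · rw [eq_neg_of_add_eq_zero_right (hF' (v i) (hb i h4)).2]
      ring
  have h5 : 0 ≤ (q : ℤ) * (pr u w + N * hs A w) := by
    have h6 : (q : ℤ) * (pr u w + N * hs A w) =
        ∑ i, (b i : ℤ) * (pr u (v i) + N * hs A (v i)) := by
      calc (q : ℤ) * (pr u w + N * hs A w) = (q : ℤ) * pr u w + N * ((q : ℤ) * hs A w) := by ring
        _ = ∑ i, (b i : ℤ) * (pr u (v i) + N * hs A (v i)) := by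
            rw [h2, Yj_lin hsum, Finset.mul_sum, ← Finset.sum_add_distrib]
            exact Finset.sum_congr rfl fun i _ => by ring
    rw [h6]
    exact Finset.sum_nonneg fun i _ => mul_nonneg (Int.natCast_nonneg _) (h i)
  exact nonneg_of_mul_nonneg_right h5 (by exact_mod_cast hq)

end Pool.Agent.Lib.MP_1e3e9c_agY
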