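import Pool.Agent.Lib.MP_1e3e9c_agY.Go
import Pool.Agent.Lib.MP_1e3e9c_agY.Yh
import Pool.Agent.Lib.MP_1e3e9c_agY.Yi
import Pool.Agent.Lib.MP_1e3e9c_agY.Yj
import Pool.Agent.Lib.MP_1e3e9c_agY.YL
import Pool.Agent.Lib.MP_1e3e9c_agY.YS
import Pool.Agent.Lib.MP_1e3e9c_agY.T3

/-! # MP_1e3e9c_ag, project Y: assembly -/

set_option autoImplicit false

namespace Pool.Agent.Lib.MP_1e3e9c_agY

open Polynomial Pool.Agent.Lib.MP_1e3e9c_agV

theorem gen_curve {d r s : ℕ} (hd : s + 4 ≤ d) {A : Fin (s + 1) → Finset (Fin d → ℤ)}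
    {v : Fin r → Fin d → ℤ} {a : Fin r → ℕ} (hR : RelY A v a) : ∃ j, GenC (A j) A := by
  classical
  -- an index with `2 + ∑_(j' ≠ j) D_j' ≤ N`
  by_cases h : ∃ j, 2 + (∑ j', DD A v a j' - DD A v a j) ≤ ∑ i, (a i : ℤ)
  · obtain ⟨j, hj⟩ := h
    refine ⟨j, ?_⟩
    have hR' := relY_perm hR (Equiv.swap 0 j)
    have h1 := gen_curve0 hd hR' (by
      have h3 : ∑ j', DD (fun t => A (Equiv.swap 0 j t)) v a j' = ∑ j', DD A v a j' := by
        have h4 : ∀ t, DD (fun t => A (Equiv.swap 0 j t)) v a t = DD A v a (Equiv.swap 0 j t) :=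
          fun t => rfl
        rw [Finset.sum_congr rfl fun t _ => h4 t]
        exact Equiv.sum_comp (Equiv.swap 0 j) fun t => DD A v a t
      have h5 : DD (fun t => A (Equiv.swap 0 j t)) v a 0 = DD A v a j := by
        show DD A v a (Equiv.swap 0 j 0) = _
        rw [Equiv.swap_apply_left]
      rw [Fin.sum_univ_succ, h5] at h3
      linarith)
    have h6 : A (Equiv.swap 0 j 0) = A j := by rw [Equiv.swap_apply_left]
    exact genC_perm (Equiv.swap 0 j) (by
      have h7 : GenC (A (Equiv.swap 0 j 0)) fun t => A (Equiv.swap 0 j t) := h1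
      rw [h6] at h7
      exact h7)
  · push Not at h
    have h1 : ∀ j, DD A v a j = 1 := by
      intro j
      have h2 := h j
      have h3 := g_pos' hR j
      have h4 := hR.le
      linarith
    have h2 : ∑ i, a i = s + 1 := by
      have h3 := h 0
      have h4 := hR.le
      have h5 : ∑ j, DD A v a j = (s : ℤ) + 1 := by
        rw [Finset.sum_congr rfl fun j _ => h1 j]
        simp
      have h6 : ∑ i, (a i : ℤ) = (s : ℤ) + 1 := by
        rw [h5, h1] at h3
        rw [h5] at h4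
        linarith
      exact_mod_cast h6
    exact ⟨0, bad_curve hR h1 h2 hd⟩

theorem fan_trans {d : ℕ} {A B C : Finset (Fin d → ℤ)} (h : Fan A B) (h' : Fan B C) : Fan A C := by
  intro m hm
  obtain ⟨m', hm', h1⟩ := h m hm
  obtain ⟨m'', hm'', h2⟩ := h' m' hm'
  exact ⟨m'', hm'', fun u hu => h2 u (h1 u hu)⟩

theorem full_of_fan {d : ℕ} {A B : Finset (Fin d → ℤ)} (hA : A.Nonempty) (h : Fan A B)
    (hB : Full B) : Full A := by
  intro w hw
  by_contra hcon
  push Not at hcon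
  obtain ⟨m, hm⟩ := hA
  obtain ⟨m', hm', h1⟩ := h m hm
  have hneg : ∀ n : Fin d → ℤ, pr n (-w) = - pr n w := fun n => by
    unfold pr
    simp
  have h2 : Fa B w m' := by
    refine h1 w ⟨hm, ?_⟩
    obtain ⟨m1, hm1, h3⟩ := hs_min ⟨m, hm⟩ w
    rw [hcon m hm m1 hm1]
    exact h3
  have h3 : Fa B (-w) m' := by
    refine h1 (-w) ⟨hm, ?_⟩
    obtain ⟨m1, hm1, h3⟩ := hs_min ⟨m, hm⟩ (-w)
    rw [hneg, hcon m hm m1 hm1, ← hneg]
    exact h3
  have h4 : ∀ n ∈ B, pr n w = pr m' w := by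
    intro n hn
    have h5 := hs_ge hn w
    have h6 := hs_ge hn (-w)
    have h7 := h2.2
    have h8 := h3.2
    rw [hneg] at h6 h8
    linarith
  obtain ⟨n, hn, n', hn', h5⟩ := hB w hw
  exact h5 ((h4 n hn).trans (h4 n' hn').symm)

/-- If `K_V + ∑ D_j` is not big then the complete intersection contains a rational curve. -/
theorem curve_of {k : Type} [Field k] [IsAlgClosed k] [CharZero k] {d r s : ℕ} (hd : s + 4 ≤ d)
    {B : Finset (Fin d → ℤ)} (hB : Full B) {A : Fin (s + 1) → Finset (Fin d → ℤ)}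
    (hF : ∀ j, Fan B (A j)) (hF' : ∀ j, Fan (A j) B)
    {v : Fin r → Fin d → ℤ} (hv : ∀ i, Fct B (v i)) (hP : Pol B v)
    (hnb : ¬ ∃ (N : ℕ) (u : Fin d → ℤ), 0 < N ∧
      ∀ i, (N : ℤ) < pr u (v i) + N * ∑ j, hs (A j) (v i))
    (c : Fin (s + 1) → (Fin d → ℤ) → k) : ∃ z, IsCv B A c z := by
  have hd0 : 0 < d := by omega
  have hne' : ∀ j, (A j).Nonempty := fun j => by
    obtain ⟨b, hb⟩ := ne_of_full hB hd0
    obtain ⟨m, hm, _⟩ := hF j b hb
    exact ⟨m, hm⟩
  have hA : ∀ j, Full (A j) := fun j => full_of_fan (hne' j) (hF' j) hB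
  have hne := hne' 0
  have hfan : ∀ j j', Fan (A j) (A j') := fun j j' => fan_trans (hF' j) (hF j')
  obtain ⟨r', v', a', hR⟩ := exists_relY hA hd0 hfan (fun i => fct_of_fan hne (hF' 0) (hv i))
    (pol_of_fan hB hd0 hne (hF 0) (fun i => (hv i).1) hP) hnb
  obtain ⟨j, hj⟩ := gen_curve hd hR
  exact transfer_fan (hF' j) (hF j) (spec hj c)

/-- If `K_V + ∑ D_j ≤ 0` then it is not big: the facet normals are not in an open half space. -/
theorem not_big_of_le {d r s : ℕ} (hd : 0 < d) {B : Finset (Fin d → ℤ)} (hB : Full B)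
    {A : Fin (s + 1) → Finset (Fin d → ℤ)} {v : Fin r → Fin d → ℤ} (hP : Pol B v)
    (hv : ∀ i, v i ≠ 0) {u₀ : Fin d → ℤ} (hu₀ : ∀ i, pr u₀ (v i) + ∑ j, hs (A j) (v i) ≤ 1)
    {N : ℕ} {u : Fin d → ℤ}
    (hu : ∀ i, (N : ℤ) < pr u (v i) + N * ∑ j, hs (A j) (v i)) : False := by
  -- `w = u - N u₀` has `0 < pr w (v i)` for all `i`
  obtain ⟨w, hw⟩ : ∃ w : Fin d → ℤ, w = u - (N : ℤ) • u₀ := ⟨_, rfl⟩
  have hpr : ∀ i, 0 < pr w (v i) := by
    intro i
    have h1 : pr w (v i) = pr u (v i) - N * pr u₀ (v i) := by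
      rw [hw]
      unfold pr
      rw [Finset.mul_sum, ← Finset.sum_sub_distrib]
      refine Finset.sum_congr rfl fun l _ => ?_
      simp only [Pi.sub_apply, Pi.smul_apply, smul_eq_mul]
      ring
    have h2 := hu i
    have h3 := hu₀ i
    have h4 : (N : ℤ) * (pr u₀ (v i) + ∑ j, hs (A j) (v i)) ≤ N * 1 :=
      mul_le_mul_of_nonneg_left h3 (Int.natCast_nonneg N)
    nlinarith
  obtain ⟨m, hm⟩ := ne_of_full hB hd
  -- all `m + t w` are in the polytope
  have hin : ∀ t : ℕ, InCone B (m + (t : ℤ) • w) 1 := by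
    intro t
    refine hP 1 _ one_pos fun i => ?_
    have h1 : pr (m + (t : ℤ) • w) (v i) = pr m (v i) + t * pr w (v i) := by
      unfold pr
      rw [Finset.mul_sum, ← Finset.sum_add_distrib]
      refine Finset.sum_congr rfl fun l _ => ?_
      simp only [Pi.add_apply, Pi.smul_apply, smul_eq_mul]
      ring
    have h2 := hs_ge hm (v i)
    have h3 : 0 ≤ (t : ℤ) * pr w (v i) := mul_nonneg (Int.natCast_nonneg t) (hpr i).le
    rw [h1]
    push_cast
    linarith
  -- pair with `w`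
  have hbd : ∀ t : ℕ, 0 ≤ pr (m + (t : ℤ) • w) (-w) + (1 : ℕ) * hs B (-w) :=
    fun t => (cone_iff' ⟨m, hm⟩).1 (hin t) (-w)
  have hww : 0 < pr w w := by
    have hne : w ≠ 0 := by
      intro h0
      rcases Nat.eq_zero_or_pos r with hr | hr
      · subst hr
        -- no facets: the polytope is everything
        have h5 : ∀ t : ℕ, InCone B (m + (t : ℤ) • (fun _ => (1 : ℤ))) 1 := fun t =>
          hP 1 _ one_pos fun i => i.elim0
        have h6 : ∀ t : ℕ, 0 ≤ pr (m + (t : ℤ) • (fun _ => (1 : ℤ))) (-(fun _ => (1 : ℤ))) +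
            (1 : ℕ) * hs B (-(fun _ => (1 : ℤ))) := fun t => (cone_iff' ⟨m, hm⟩).1 (h5 t) _
        have h7 : ∀ t : ℕ, pr (m + (t : ℤ) • (fun _ => (1 : ℤ))) (-(fun _ : Fin d => (1 : ℤ))) =
            pr m (-(fun _ : Fin d => (1 : ℤ))) - t * d := by
          intro t
          unfold pr
          simp only [Pi.add_apply, Pi.smul_apply, Pi.neg_apply, smul_eq_mul, mul_one, mul_neg,
            Finset.sum_neg_distrib, Finset.sum_add_distrib, Finset.sum_const, Finset.card_univ,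
            Fintype.card_fin, nsmul_eq_mul]
          ring
        obtain ⟨t, ht⟩ : ∃ t : ℕ, t = (pr m (-(fun _ : Fin d => (1 : ℤ))) +
            hs B (-(fun _ : Fin d => (1 : ℤ)))).toNat + 1 := ⟨_, rfl⟩
        have h8 := h6 t
        rw [h7] at h8
        have h9 := Int.self_le_toNat (pr m (-(fun _ : Fin d => (1 : ℤ))) +
            hs B (-(fun _ : Fin d => (1 : ℤ))))
        have h10 : (1 : ℤ) ≤ d := by exact_mod_cast hd
        have h11 : (t : ℤ) = ((pr m (-(fun _ : Fin d => (1 : ℤ))) +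
            hs B (-(fun _ : Fin d => (1 : ℤ)))).toNat : ℤ) + 1 := by rw [ht]; push_cast; rfl
        push_cast at h8
        nlinarith
      · have h5 := hpr ⟨0, hr⟩
        rw [h0] at h5
        unfold pr at h5
        simp at h5
    unfold pr
    obtain ⟨l, hl⟩ : ∃ l, w l ≠ 0 := by
      by_contra hcon
      push Not at hcon
      exact hne (funext hcon)
    exact Finset.sum_pos' (fun i _ => mul_self_nonneg _) ⟨l, Finset.mem_univ _,
      mul_self_pos.2 hl⟩
  obtain ⟨t, ht⟩ : ∃ t : ℕ, t = (pr m (-w) + hs B (-w)).toNat + 1 := ⟨_, rfl⟩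
  have h1 := hbd t
  have h2 : pr (m + (t : ℤ) • w) (-w) = pr m (-w) - t * pr w w := by
    unfold pr
    rw [Finset.mul_sum, ← Finset.sum_sub_distrib]
    refine Finset.sum_congr rfl fun l _ => ?_
    simp only [Pi.add_apply, Pi.smul_apply, Pi.neg_apply, smul_eq_mul]
    ring
  rw [h2] at h1
  have h3 := Int.self_le_toNat (pr m (-w) + hs B (-w))
  have h4 : (t : ℤ) = ((pr m (-w) + hs B (-w)).toNat : ℤ) + 1 := by rw [ht]; push_cast; rfl
  push_cast at h1
  nlinarith

end Pool.Agent.Lib.MP_1e3e9c_agY
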