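import Pool.Agent.Lib.MP_1e3e9c_agY.S02
import Pool.Agent.Lib.MP_1e3e9c_agR.RDefs

/-! # MP_1e3e9c_ag, project Y: the image of a curve under a morphism to a weighted projective space -/

set_option autoImplicit false

namespace Pool.Agent.Lib.MP_1e3e9c_agY

open Polynomial Pool.Agent.Lib.MP_1e3e9c_agV

/-- `ζ` is (the coordinates of) a point of the common zero set of the sections `∑ c_(j,m) x^m`. -/
structure IsPt {K : Type} [Field K] {d s : ℕ} (B : Finset (Fin d → ℤ))
    (A : Fin (s + 1) → Finset (Fin d → ℤ))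
    (c : Fin (s + 1) → (Fin d → ℤ) → K) (ζ : (Fin d → ℤ) → ℕ → K) : Prop where
  one : ζ 0 0 = 1
  mul : ∀ m l m' l', InCone B m l → InCone B m' l' → ζ (m + m') (l + l') = ζ m l * ζ m' l'
  eq : ∀ j m' l, (∀ m ∈ A j, InCone B (m + m') l) → ∑ m ∈ A j, c j m * ζ (m + m') l = 0
  ne : ∃ b ∈ B, ζ b 1 ≠ 0

/-- The value of the form `∑ y_m x^m` of degree `l` at the point `ζ`. -/
noncomputable def fv {K : Type} [Field K] {d : ℕ} (y : (Fin d → ℤ) →₀ K) (l : ℕ)
    (ζ : (Fin d → ℤ) → ℕ → K) : K :=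
  y.sum fun m a => a * ζ m l

theorem rat_forms {K : Type} [Field K] [IsAlgClosed K] {d s : ℕ} {B : Finset (Fin d → ℤ)}
    {A : Fin (s + 1) → Finset (Fin d → ℤ)} {c : Fin (s + 1) → (Fin d → ℤ) → K}
    {z : (Fin d → ℤ) → ℕ → K[X]} (hz : IsP B A c z) (h2 : Two B z)
    (hu : ∀ f : K[X], (∀ b ∈ B, f ∣ z b 1) → IsUnit f) {n : ℕ} {w : Fin (n + 1) → ℕ}
    (hw : ∀ i, 0 < w i) {y : Fin (n + 1) → (Fin d → ℤ) →₀ K}
    (hb : ∀ ζ, IsPt B A c ζ → ∃ i, fv (y i) (w i) ζ ≠ 0) :
    MP_1e3e9c_agR.HasRat w {P | ∀ ζ, IsPt B A c ζ →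
      MvPolynomial.eval (fun i => fv (y i) (w i) ζ) P = 0} := by
  classical
  -- the points of the curve
  have hpt : ∀ t : K, IsPt B A c fun m l => (z m l).eval t := by
    intro t
    refine ⟨by rw [hz.one, eval_one], fun m l m' l' h h' => by rw [hz.mul m l m' l' h h', eval_mul],
      fun j m' l h => ?_, ?_⟩
    · have h1 := congrArg (fun P => P.eval t) (hz.eq j m' l h)
      simpa only [eval_finsetSum, eval_mul, eval_C, eval_zero] using h1
    · by_contra hcon
      push Not at hcon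
      exact not_isUnit_X_sub_C t (hu (X - C t) fun b hb => dvd_iff_isRoot.2 (hcon b hb))
  obtain ⟨p, hp⟩ : ∃ p : Fin (n + 1) → K[X], p = fun i => (y i).sum fun m a => C a * z m (w i) :=
    ⟨_, rfl⟩
  have hev : ∀ t i, (p i).eval t = fv (y i) (w i) fun m l => (z m l).eval t := by
    intro t i
    rw [hp]
    unfold fv Finsupp.sum
    simp only [eval_finsetSum, eval_mul, eval_C]
  have hne : ∀ t, MP_1e3e9c_agR.val p t ≠ 0 := by
    intro t h0
    obtain ⟨i, hi⟩ := hb _ (hpt t)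
    apply hi
    rw [← hev]
    exact congrFun h0 i
  -- the degree
  obtain ⟨δ, hδ1, hδ2, hδ3⟩ : ∃ δ, (∀ b ∈ B, (z b 1).natDegree ≤ δ) ∧
      (∃ b ∈ B, (z b 1).coeff δ ≠ 0) ∧ 0 < δ := by
    obtain ⟨b, hb, b', hb', i, j, hij⟩ := h2
    obtain ⟨b0, hb0, hmax⟩ := Finset.exists_max_image B (fun b => (z b 1).natDegree) ⟨b, hb⟩
    have hpos : 0 < (z b0 1).natDegree := by
      by_contra hcon
      have h0 : ∀ x ∈ B, ∀ n, n ≠ 0 → (z x 1).coeff n = 0 := by
        intro x hx n hn
        apply coeff_eq_zero_of_natDegree_lt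
        have := hmax x hx
        omega
      rcases eq_or_ne i 0 with hi | hi
      · rcases eq_or_ne j 0 with hj | hj
        · apply hij
          rw [hi, hj]
        · apply hij
          rw [h0 b' hb' j hj, h0 b hb j hj, mul_zero, zero_mul]
      · apply hij
        rw [h0 b hb i hi, h0 b' hb' i hi, zero_mul, mul_zero]
    refine ⟨(z b0 1).natDegree, hmax, ⟨b0, hb0, ?_⟩, hpos⟩
    rw [coeff_natDegree]
    intro h0
    rw [leadingCoeff_eq_zero.1 h0, natDegree_zero] at hpos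
    exact lt_irrefl _ hpos
  have hdeg : ∀ m l, InCone B m l → (z m l).natDegree ≤ l * δ := by
    intro m l hm
    obtain ⟨N, b, hN, hl, hbm⟩ := hm
    have h1 := S_pow (z := z) hz.one hz.mul hN hl hbm
    have h3 : N * (z m l).natDegree ≤ N * (l * δ) := by
      rw [← natDegree_pow, h1]
      refine (natDegree_prod_le _ _).trans ?_
      have h4 : ∑ a ∈ B, (z a 1 ^ b a).natDegree ≤ ∑ a ∈ B, b a * δ := by
        refine Finset.sum_le_sum fun a ha => ?_
        rw [natDegree_pow]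
        exact Nat.mul_le_mul_left _ (hδ1 a ha)
      refine h4.trans ?_
      rw [← Finset.sum_mul, hl, mul_assoc]
    exact Nat.le_of_mul_le_mul_left h3 hN
  -- the point at infinity
  have hinf : IsPt B A c fun m l => (z m l).coeff (l * δ) := by
    refine ⟨by simp only [hz.one, zero_mul, coeff_one_zero], fun m l m' l' h h' => ?_,
      fun j m' l h => ?_, ?_⟩
    · rw [hz.mul m l m' l' h h', add_mul]
      exact coeff_mul_add_eq_of_natDegree_le (hdeg m l h) (hdeg m' l' h')
    · have h1 := congrArg (fun P => P.coeff (l * δ)) (hz.eq j m' l h)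
      simpa only [finsetSum_coeff, coeff_C_mul, coeff_zero] using h1
    · obtain ⟨b, hb, h1⟩ := hδ2
      refine ⟨b, hb, ?_⟩
      simp only [one_mul]
      exact h1
  obtain ⟨i, hi⟩ := hb _ hinf
  have hco : (p i).coeff (w i * δ) ≠ 0 := by
    intro h0
    apply hi
    rw [← h0, hp]
    unfold fv Finsupp.sum
    simp only [finsetSum_coeff, coeff_C_mul]
  have hdp : 0 < (p i).natDegree :=
    lt_of_lt_of_le (Nat.mul_pos (hw i) hδ3) (le_natDegree_of_ne_zero hco)
  obtain ⟨t0, ht0⟩ := IsAlgClosed.exists_root (p i) (by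
    intro h0
    rw [natDegree_eq_of_degree_eq_some (n := 0) (by rw [h0]; rfl)] at hdp
    exact lt_irrefl _ hdp)
  have hp0 : p i ≠ 0 := by
    intro h0
    rw [h0, natDegree_zero] at hdp
    exact lt_irrefl _ hdp
  have : Infinite K := IsAlgClosed.instInfinite
  obtain ⟨s0, hs0⟩ : ∃ s0, (p i).eval s0 ≠ 0 := by
    by_contra hcon
    push Not at hcon
    exact hp0 (Polynomial.funext fun t => by rw [hcon t, eval_zero])
  refine ⟨p, fun t P hP => ?_, t0, s0, hne t0, hne s0, ?_⟩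
  · have h1 := hP _ (hpt t)
    have h3 : MP_1e3e9c_agR.val p t = fun i => fv (y i) (w i) fun m l => (z m l).eval t :=
      funext fun i => hev t i
    rw [h3]
    exact h1
  · rintro ⟨a, ha, h1⟩
    apply hs0
    have h3 := h1 i
    have h4 : MP_1e3e9c_agR.val p t0 i = 0 := ht0
    rw [h4, mul_zero] at h3
    exact h3

end Pool.Agent.Lib.MP_1e3e9c_agY
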