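import Pool.Agent.Lib.MP_1e3e9c_agY.Gq
import Pool.Agent.Lib.MP_1e3e9c_agF.LG

/-! # MP_1e3e9c_ag, project Y: limits -/

set_option autoImplicit false

namespace Pool.Agent.Lib.MP_1e3e9c_agY

open Polynomial Pool.Agent.Lib.MP_1e3e9c_agV

/-- Every limit of the image of `X` under a morphism to a weighted projective space contains a rational curve if `X` does. -/
theorem limit_forms {L k : Type} [Field L] [IsAlgClosed L] [Field k] {d s : ℕ}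
    {B : Finset (Fin d → ℤ)} {A : Fin (s + 1) → Finset (Fin d → ℤ)}
    {c : Fin (s + 1) → (Fin d → ℤ) → L} (h : ∃ z, IsCv B A c z) {n : ℕ} {w : Fin (n + 1) → ℕ}
    (hw : ∀ i, 0 < w i) {y : Fin (n + 1) → (Fin d → ℤ) →₀ L}
    (hb : ∀ ζ, IsPt B A c ζ → ∃ i, fv (y i) (w i) ζ ≠ 0)
    (R : ValuationSubring L) (φ : R →+* k) (hφ : ∀ a, φ a ≠ 0 → IsUnit a)
    {T : Set (MvPolynomial (Fin (n + 1)) k)}
    (hT : ∀ Q ∈ T, ∃ (P : MvPolynomial (Fin (n + 1)) R) (m : ℕ), P.IsWeightedHomogeneous w m ∧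
      (∀ ζ, IsPt B A c ζ → MvPolynomial.eval (fun i => fv (y i) (w i) ζ)
        (MvPolynomial.map (algebraMap R L) P) = 0) ∧ MvPolynomial.map φ P = Q) :
    MP_1e3e9c_agR.HasRat w T := by
  obtain ⟨z, hz⟩ := h
  obtain ⟨z', hP, h2, hu⟩ := hz.toP
  have h0 := rat_forms hP h2 hu hw hb
  obtain ⟨p, hp, hst⟩ := MP_1e3e9c_agF.limit_rat (S := {P | ∀ ζ, IsPt B A c ζ →
      MvPolynomial.eval (fun i => fv (y i) (w i) ζ) P = 0})
    (T := {P | (∃ m, P.IsWeightedHomogeneous w m) ∧ ∀ ζ, IsPt B A c ζ →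
      MvPolynomial.eval (fun i => fv (y i) (w i) ζ) (MvPolynomial.map (algebraMap R L) P) = 0})
    R φ hφ hw (fun P hP => hP.1) (fun P hP x hx => hx _ hP.2) h0
  refine ⟨p, fun t Q hQ => ?_, hst⟩
  obtain ⟨P, m, hm, hP, rfl⟩ := hT Q hQ
  exact hp t _ ⟨P, ⟨⟨m, hm⟩, hP⟩, rfl⟩

end Pool.Agent.Lib.MP_1e3e9c_agY
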