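import Pool.Agent.Lib.MP_1e3e9c_agY.LDefs

/-! LEAF L01 (easy+).  All degrees are `1`: the classes of the points.

PROOF.  `r ≥ 2` is not needed.  For `m ∈ A j`: `∑_i a_i (pr m (v i) + hs (A j) (v i)) = DD A v a j = 1` (`∑_i a_i pr m (v i) = 0`: exchange the sums, `hR.rel`), all terms are `≥ 0` (`hs_ge`), integers, `a_i ≥ 1` (`hR.pos`): so there is exactly one `i` with `pr m (v i) + hs (A j) (v i) ≠ 0`, and for it `a_i = 1` and the value is `1` (if two terms are `≥ 1` the sum is `≥ 2`; `Finset.add_sum_erase`).  `ι j m` = this `i` (`Classical.choose`, arbitrary outside `A j`; `Fin r` is not empty, `hR.rpos`).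
`surj`: if `pr m (v i) + hs (A j) (v i) = 0` for all `m ∈ A j`, then `pr m (v i)` is constant on `A j`, against `hR.full j` for `v i ≠ 0` (`(hR.fct j i).1`); so some `m ∈ A j` has value `≠ 0` at `i`: `ι j m = i`, `a i = 1`. -/

set_option autoImplicit false

namespace Pool.Agent.Lib.MP_1e3e9c_agY

open Polynomial Pool.Agent.Lib.MP_1e3e9c_agV

private theorem L01_sum {d r : ℕ} {v : Fin r → Fin d → ℤ} {a : Fin r → ℕ}
    (hrel : ∀ l, ∑ i, (a i : ℤ) * v i l = 0) (m : Fin d → ℤ) :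
    ∑ i, (a i : ℤ) * pr m (v i) = 0 := by
  unfold pr
  simp only [Finset.mul_sum]
  rw [Finset.sum_comm]
  refine Finset.sum_eq_zero fun l _ => ?_
  have h1 : ∑ i, (a i : ℤ) * (m l * v i l) = m l * ∑ i, (a i : ℤ) * v i l := by
    rw [Finset.mul_sum]
    exact Finset.sum_congr rfl fun i _ => by ring
  rw [h1, hrel l, mul_zero]

private theorem L01_one {r : ℕ} {a : Fin r → ℕ} {t : Fin r → ℤ} (ha : ∀ i, 0 < a i)
    (ht : ∀ i, 0 ≤ t i) (h : ∑ i, (a i : ℤ) * t i = 1) :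
    ∃ i, a i = 1 ∧ ∀ i', t i' = if i = i' then 1 else 0 := by
  obtain ⟨i, _, hi⟩ := Finset.exists_ne_zero_of_sum_ne_zero
    (by rw [h]; exact one_ne_zero : ∑ i, (a i : ℤ) * t i ≠ 0)
  have hti : 1 ≤ t i := by
    rcases (ht i).lt_or_eq with h1 | h1
    · omega
    · exact absurd (by rw [← h1, mul_zero]) hi
  have hai : (1 : ℤ) ≤ a i := by exact_mod_cast ha i
  have hs : ∑ i' ∈ Finset.univ.erase i, (a i' : ℤ) * t i' + (a i : ℤ) * t i = 1 := by
    rw [Finset.sum_erase_add _ _ (Finset.mem_univ i)]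
    exact h
  have hnn : ∀ i' ∈ Finset.univ.erase i, 0 ≤ (a i' : ℤ) * t i' :=
    fun i' _ => mul_nonneg (Int.natCast_nonneg _) (ht i')
  have h0 := Finset.sum_nonneg hnn
  have h1 : (a i : ℤ) ≤ (a i : ℤ) * t i := le_mul_of_one_le_right (by omega) hti
  have h2 : t i ≤ (a i : ℤ) * t i := le_mul_of_one_le_left (by omega) hai
  have h3 : ∑ i' ∈ Finset.univ.erase i, (a i' : ℤ) * t i' = 0 := by linarith
  have h4 := (Finset.sum_eq_zero_iff_of_nonneg hnn).mp h3
  have h5 : (a i : ℤ) = 1 := by linarith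
  have h6 : t i = 1 := by linarith
  refine ⟨i, by exact_mod_cast h5, fun i' => ?_⟩
  by_cases hii : i = i'
  · rw [if_pos hii, ← hii, h6]
  · rw [if_neg hii]
    rcases mul_eq_zero.mp (h4 i' (Finset.mem_erase.mpr ⟨fun e => hii e.symm, Finset.mem_univ _⟩))
      with h7 | h7
    · have h8 := ha i'
      omega
    · exact h7

theorem exists_cls {d r s : ℕ} {A : Fin (s + 1) → Finset (Fin d → ℤ)} {v : Fin r → Fin d → ℤ}
    {a : Fin r → ℕ} (hR : RelY A v a) (hD : ∀ j, DD A v a j = 1) :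
    (∀ i, a i = 1) ∧ ∃ ι : Fin (s + 1) → (Fin d → ℤ) → Fin r, Cls A v ι := by
  have key : ∀ j, ∀ m ∈ A j, ∃ i, a i = 1 ∧
      ∀ i', pr m (v i') + hs (A j) (v i') = if i = i' then 1 else 0 := by
    intro j m hm
    refine L01_one (t := fun i => pr m (v i) + hs (A j) (v i)) hR.pos
      (fun i => hs_ge hm (v i)) ?_
    have h1 : ∑ i, (a i : ℤ) * (pr m (v i) + hs (A j) (v i)) =
        ∑ i, (a i : ℤ) * pr m (v i) + DD A v a j := by
      unfold DD
      rw [← Finset.sum_add_distrib]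
      exact Finset.sum_congr rfl fun i _ => by ring
    rw [h1, L01_sum hR.rel m, hD j, zero_add]
  have hsurj : ∀ j i, ∃ m ∈ A j, pr m (v i) + hs (A j) (v i) ≠ 0 := by
    intro j i
    by_contra hcon
    push Not at hcon
    obtain ⟨m, hm, m', hm', hne⟩ := hR.full j (v i) (hR.fct j i).1
    have h1 := hcon m hm
    have h2 := hcon m' hm'
    exact hne (by linarith)
  have key2 : ∀ j, ∀ m, ∃ i, m ∈ A j → a i = 1 ∧
      ∀ i', pr m (v i') + hs (A j) (v i') = if i = i' then 1 else 0 := by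
    intro j m
    by_cases hm : m ∈ A j
    · obtain ⟨i, hi⟩ := key j m hm
      exact ⟨i, fun _ => hi⟩
    · exact ⟨⟨0, hR.rpos⟩, fun h => absurd h hm⟩
  choose ι hι using key2
  have hsurj2 : ∀ j i, ∃ m ∈ A j, ι j m = i := by
    intro j i
    obtain ⟨m, hm, hne⟩ := hsurj j i
    refine ⟨m, hm, ?_⟩
    by_contra hcon
    exact hne (by rw [(hι j m hm).2 i, if_neg hcon])
  refine ⟨fun i => ?_, ι, fun j m hm i => (hι j m hm).2 i, hsurj2⟩
  obtain ⟨m, hm, hmi⟩ := hsurj2 0 i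
  rw [← hmi]
  exact (hι 0 m hm).1

end Pool.Agent.Lib.MP_1e3e9c_agY
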