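import Pool.Agent.Lib.MP_1e3e9c_agY.LDefs

/-! LEAF L02 (medium).  Differences of points of one class `≠ i0` are not contained in a space of dimension `3`.

PROOF.  Assume that `(m - m') ∈ S` for all `m, m' ∈ A j` with `ι j m = ι j m' ≠ i0`.  Choose for each `i` a point `p_i ∈ A j` with `ι j (p_i) = i` (`hι.surj`) and an index `i1 ≠ i0` (`1 ≤ s`, so `Fin (s + 1)` has two elements).  Let `T ⊆ ℚ^d` be the span of `S` and the `s - 1` vectors `p_i - p_(i1)`, `i ≠ i0, i1`: dimension `≤ 3 + (s - 1) = s + 2 ≤ d - 2`.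
The `w ∈ ℚ^d` with `∑_l t_l w_l = 0` for all `t ∈ T` form a space of dimension `≥ 2` (for instance: the kernel of a linear map `ℚ^d → ℚ^(s + 2)` whose components are the pairings with `s + 2` vectors spanning `T`; or `Subspace.dualAnnihilator`), so it contains a `w` which is not a multiple of `v i0` (a vector not in the line; `finrank` of a span of one vector `≤ 1`); multiply with a common denominator: `w ∈ ℤ^d` (`IsLocalization.exist_integer_multiples_of_finite` or the product of the denominators).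
For `m` in the facet, `Fa (A j) (v i0) m`: `ι j m ≠ i0` (`hι.val j m _ i0`), `pr m w = pr (p_(ι j m)) w` (`m - p_(ι j m) ∈ S`) `= pr (p_(i1)) w`.  So `pr m w = pr m' w` for all `m, m'` in the facet: `(hR.fct j i0).2` gives `a • w = b • v i0`, `a ≠ 0`, so `w` is a rational multiple of `v i0`, a contradiction. -/

set_option autoImplicit false

namespace Pool.Agent.Lib.MP_1e3e9c_agY

open Polynomial Pool.Agent.Lib.MP_1e3e9c_agV

private theorem L02_orth {d N : ℕ} (T : Submodule ℚ (Fin d → ℚ)) (hT : Module.finrank ℚ T ≤ N)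
    (hN : N + 2 ≤ d) (v : Fin d → ℚ) :
    ∃ w : Fin d → ℚ, (∀ t ∈ T, ∑ l, t l * w l = 0) ∧ ∀ κ : ℚ, w ≠ κ • v := by
  classical
  let φ : (Fin d → ℚ) →ₗ[ℚ] (T →ₗ[ℚ] ℚ) :=
    { toFun := fun w =>
        { toFun := fun t => ∑ l, (t : Fin d → ℚ) l * w l
          map_add' := fun t t' => by
            rw [← Finset.sum_add_distrib]
            exact Finset.sum_congr rfl fun l _ => by
              rw [Submodule.coe_add, Pi.add_apply]; ring
          map_smul' := fun a t => by
            rw [RingHom.id_apply, smul_eq_mul, Finset.mul_sum]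
            exact Finset.sum_congr rfl fun l _ => by
              rw [Submodule.coe_smul, Pi.smul_apply, smul_eq_mul]; ring }
      map_add' := fun w w' => by
        ext t
        change ∑ l, (t : Fin d → ℚ) l * (w + w') l =
          ∑ l, (t : Fin d → ℚ) l * w l + ∑ l, (t : Fin d → ℚ) l * w' l
        rw [← Finset.sum_add_distrib]
        exact Finset.sum_congr rfl fun l _ => by rw [Pi.add_apply]; ring
      map_smul' := fun a w => by
        ext t
        change ∑ l, (t : Fin d → ℚ) l * (a • w) l = a * ∑ l, (t : Fin d → ℚ) l * w l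
        rw [Finset.mul_sum]
        exact Finset.sum_congr rfl fun l _ => by rw [Pi.smul_apply, smul_eq_mul]; ring }
  have h1 := φ.finrank_range_add_finrank_ker
  rw [Module.finrank_fin_fun] at h1
  have h2 : Module.finrank ℚ (LinearMap.range φ) ≤ N := by
    refine (Submodule.finrank_le _).trans ?_
    rw [Module.finrank_linearMap, Module.finrank_self, mul_one]
    exact hT
  have h3 : ¬ LinearMap.ker φ ≤ Submodule.span ℚ {v} := fun h => by
    have h4 := (Submodule.finrank_mono h).trans (finrank_span_le_card ({v} : Set (Fin d → ℚ)))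
    simp only [Set.toFinset_singleton, Finset.card_singleton] at h4
    omega
  obtain ⟨w, hw, hwv⟩ := SetLike.not_le_iff_exists.mp h3
  refine ⟨w, fun t ht => ?_, fun κ hκ => hwv ?_⟩
  · exact congrArg (fun f : T →ₗ[ℚ] ℚ => f ⟨t, ht⟩) hw
  · rw [hκ]
    exact Submodule.smul_mem _ _ (Submodule.mem_span_singleton_self v)

private theorem L02_int {d : ℕ} (w : Fin d → ℚ) :
    ∃ (D : ℚ) (W : Fin d → ℤ), D ≠ 0 ∧ ∀ l, (W l : ℚ) = D * w l := by
  classical
  refine ⟨((∏ l, (w l).den : ℕ) : ℚ), fun l => (w l).num * ((∏ l, (w l).den) / (w l).den : ℕ),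
    ?_, fun l => ?_⟩
  · exact_mod_cast Finset.prod_ne_zero_iff.mpr fun l _ => (w l).den_ne_zero
  · obtain ⟨e, he⟩ := Finset.dvd_prod_of_mem (fun l => (w l).den) (Finset.mem_univ l)
    have hden : 0 < (w l).den := (w l).den_pos
    beta_reduce
    rw [he, Nat.mul_div_cancel_left _ hden]
    have h := Rat.num_div_den (w l)
    have hden' : ((w l).den : ℚ) ≠ 0 := by exact_mod_cast hden.ne'
    push_cast
    rw [div_eq_iff hden'] at h
    rw [h]
    ring

theorem exists_diff {d s : ℕ} {A : Fin (s + 1) → Finset (Fin d → ℤ)}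
    {v : Fin (s + 1) → Fin d → ℤ} {a : Fin (s + 1) → ℕ} (hR : RelY A v a)
    {ι : Fin (s + 1) → (Fin d → ℤ) → Fin (s + 1)} (hι : Cls A v ι) (h1s : 1 ≤ s)
    (hd : s + 4 ≤ d) (j i0 : Fin (s + 1)) (S : Submodule ℚ (Fin d → ℚ))
    (hS : Module.finrank ℚ S ≤ 3) :
    ∃ m ∈ A j, ∃ m' ∈ A j, ι j m = ι j m' ∧ ι j m ≠ i0 ∧
      (fun l => ((m l : ℚ) - (m' l : ℚ))) ∉ S := by
  classical
  by_contra hcon
  push Not at hcon
  choose p hpA hpι using hι.surj j
  have : Nontrivial (Fin (s + 1)) := Fin.nontrivial_iff_two_le.mpr (by omega)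
  obtain ⟨i1, hi1⟩ := exists_ne i0
  set F : Finset (Fin d → ℚ) := ((Finset.univ.erase i0).erase i1).image
    (fun i => (fun l => ((p i l : ℚ) - (p i1 l : ℚ)))) with hF
  have hFc : F.card ≤ s - 1 := by
    refine Finset.card_image_le.trans ?_
    rw [Finset.card_erase_of_mem (Finset.mem_erase.mpr ⟨hi1, Finset.mem_univ _⟩),
      Finset.card_erase_of_mem (Finset.mem_univ _), Finset.card_univ, Fintype.card_fin]
    omega
  set T : Submodule ℚ (Fin d → ℚ) := S ⊔ Submodule.span ℚ (F : Set (Fin d → ℚ)) with hT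
  have hTr : Module.finrank ℚ T ≤ s + 2 := by
    have h1 := Submodule.finrank_add_le_finrank_add_finrank S
      (Submodule.span ℚ (F : Set (Fin d → ℚ)))
    have h2 := finrank_span_finset_le_card (R := ℚ) F
    unfold Set.finrank at h2
    rw [← hT] at h1
    omega
  obtain ⟨w, hwT, hwv⟩ := L02_orth T hTr (by omega) (fun l => (v i0 l : ℚ))
  obtain ⟨D, W, hD, hW⟩ := L02_int w
  have key : ∀ m, Fa (A j) (v i0) m → (fun l => ((m l : ℚ) - (p i1 l : ℚ))) ∈ T := fun m hm => by
    have h1 : ι j m ≠ i0 := fun h => by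
      have h2 := hι.val j m hm.1 i0
      rw [if_pos h, hm.2] at h2
      exact absurd h2 (by norm_num)
    have h2 : (fun l => ((m l : ℚ) - (p (ι j m) l : ℚ))) ∈ T :=
      Submodule.mem_sup_left (hcon m hm.1 _ (hpA _) (hpι _).symm h1)
    have h3 : (fun l => ((p (ι j m) l : ℚ) - (p i1 l : ℚ))) ∈ T := by
      by_cases h4 : ι j m = i1
      · rw [h4]
        simp only [sub_self]
        exact T.zero_mem
      · refine Submodule.mem_sup_right (Submodule.subset_span ?_)
        rw [hF, Finset.mem_coe, Finset.mem_image]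
        exact ⟨ι j m, Finset.mem_erase.mpr ⟨h4, Finset.mem_erase.mpr ⟨h1, Finset.mem_univ _⟩⟩, rfl⟩
    have h4 := T.add_mem h2 h3
    have h5 : (fun l => ((m l : ℚ) - (p (ι j m) l : ℚ))) +
        (fun l => ((p (ι j m) l : ℚ) - (p i1 l : ℚ))) = fun l => ((m l : ℚ) - (p i1 l : ℚ)) := by
      ext l
      rw [Pi.add_apply]
      ring
    rwa [h5] at h4
  have hpr : ∀ m, Fa (A j) (v i0) m → pr m W = pr (p i1) W := fun m hm => by
    have h1 := hwT _ (key m hm)
    have h2 : ((pr m W - pr (p i1) W : ℤ) : ℚ) = D * ∑ l, ((m l : ℚ) - (p i1 l : ℚ)) * w l := by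
      unfold pr
      push_cast
      rw [← Finset.sum_sub_distrib, Finset.mul_sum]
      exact Finset.sum_congr rfl fun l _ => by rw [hW l]; ring
    rw [h1, mul_zero] at h2
    exact sub_eq_zero.mp (by exact_mod_cast h2)
  obtain ⟨a', b', ha', hab⟩ := (hR.fct j i0).2 W fun m m' hm hm' =>
    (hpr m hm).trans (hpr m' hm').symm
  refine hwv ((b' : ℚ) / (a' * D)) (funext fun l => ?_)
  have ha2 : (a' : ℚ) ≠ 0 := by exact_mod_cast ha'
  have h1 := congrFun hab l
  simp only [Pi.smul_apply, smul_eq_mul] at h1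
  have h2 : (a' : ℚ) * (W l : ℚ) = b' * v i0 l := by exact_mod_cast h1
  rw [hW l] at h2
  rw [Pi.smul_apply, smul_eq_mul]
  field_simp
  linarith

end Pool.Agent.Lib.MP_1e3e9c_agY
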