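import Pool.Agent.Lib.MP_1e3e9c_agY.L02

/-! LEAF L03 (easy+).  Four independent differences.

PROOF.  `exists_diff` four times: (0) `j`, `i0 = 0`, `S = ⊥`: `m 0, m' 0`; (1) `j`, `i0 = ι j (m 0)`, `S` = the span of the difference `w 0`; (2) `j'`, `i0 = 0`, `S` = the span of `w 0, w 1`; (3) `j'`, `i0 = ι j' (m 2)`, `S` = the span of `w 0, w 1, w 2` (`finrank ≤ 3`: `finrank_span_le_card` / `finrank_span_finset_le_card`).
Independence: `∑ c n * w n = 0`: if `c 3 ≠ 0` then `w 3` is in the span of the others; then `c 2 = 0`, `c 1 = 0`, `c 0 = 0` (`w 0 ∉ ⊥`). -/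

set_option autoImplicit false

namespace Pool.Agent.Lib.MP_1e3e9c_agY

open Polynomial Pool.Agent.Lib.MP_1e3e9c_agV

private theorem L03_zero {d : ℕ} {S : Submodule ℚ (Fin d → ℚ)} {x w : Fin d → ℚ} (hx : x ∈ S)
    (hw : w ∉ S) {c : ℚ} (h : ∀ l, x l + c * w l = 0) : c = 0 := by
  by_contra hc
  apply hw
  have h1 : w = (-c⁻¹) • x := by
    funext l
    have h2 := h l
    rw [Pi.smul_apply, smul_eq_mul]
    field_simp
    linear_combination h2
  rw [h1]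
  exact S.smul_mem _ hx

theorem exists_four {d s : ℕ} {A : Fin (s + 1) → Finset (Fin d → ℤ)}
    {v : Fin (s + 1) → Fin d → ℤ} {a : Fin (s + 1) → ℕ} (hR : RelY A v a)
    {ι : Fin (s + 1) → (Fin d → ℤ) → Fin (s + 1)} (hι : Cls A v ι) (h1s : 1 ≤ s)
    (hd : s + 4 ≤ d) (j j' : Fin (s + 1)) :
    ∃ m0 ∈ A j, ∃ m0' ∈ A j, ∃ m1 ∈ A j, ∃ m1' ∈ A j, ∃ m2 ∈ A j', ∃ m2' ∈ A j', ∃ m3 ∈ A j',
      ∃ m3' ∈ A j', ι j m0 = ι j m0' ∧ ι j m1 = ι j m1' ∧ ι j m0 ≠ ι j m1 ∧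
        ι j' m2 = ι j' m2' ∧ ι j' m3 = ι j' m3' ∧ ι j' m2 ≠ ι j' m3 ∧
        ∀ c0 c1 c2 c3 : ℚ, (∀ l, c0 * ((m0 l : ℚ) - m0' l) + c1 * ((m1 l : ℚ) - m1' l) +
          c2 * ((m2 l : ℚ) - m2' l) + c3 * ((m3 l : ℚ) - m3' l) = 0) →
            c0 = 0 ∧ c1 = 0 ∧ c2 = 0 ∧ c3 = 0 := by
  classical
  obtain ⟨m0, hm0, m0', hm0', e0, n0, w0⟩ := exists_diff hR hι h1s hd j 0 ⊥ (by
    rw [finrank_bot]
    exact Nat.zero_le _)
  obtain ⟨W0, hW0⟩ : ∃ W : Fin d → ℚ, W = fun l => ((m0 l : ℚ) - (m0' l : ℚ)) := ⟨_, rfl⟩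
  rw [← hW0] at w0
  obtain ⟨m1, hm1, m1', hm1', e1, n1, w1⟩ := exists_diff hR hι h1s hd j (ι j m0)
    (Submodule.span ℚ (({W0} : Finset (Fin d → ℚ)) : Set (Fin d → ℚ))) (by
      refine (finrank_span_finset_le_card _).trans ?_
      rw [Finset.card_singleton]
      exact Nat.le_of_ble_eq_true rfl)
  obtain ⟨W1, hW1⟩ : ∃ W : Fin d → ℚ, W = fun l => ((m1 l : ℚ) - (m1' l : ℚ)) := ⟨_, rfl⟩
  rw [← hW1] at w1
  obtain ⟨m2, hm2, m2', hm2', e2, n2, w2⟩ := exists_diff hR hι h1s hd j' 0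
    (Submodule.span ℚ (({W0, W1} : Finset (Fin d → ℚ)) : Set (Fin d → ℚ))) (by
      exact (finrank_span_finset_le_card _).trans (Finset.card_le_two.trans (Nat.le_of_ble_eq_true rfl)))
  obtain ⟨W2, hW2⟩ : ∃ W : Fin d → ℚ, W = fun l => ((m2 l : ℚ) - (m2' l : ℚ)) := ⟨_, rfl⟩
  rw [← hW2] at w2
  obtain ⟨m3, hm3, m3', hm3', e3, n3, w3⟩ := exists_diff hR hι h1s hd j' (ι j' m2)
    (Submodule.span ℚ (({W0, W1, W2} : Finset (Fin d → ℚ)) : Set (Fin d → ℚ))) (by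
      exact (finrank_span_finset_le_card _).trans Finset.card_le_three)
  obtain ⟨W3, hW3⟩ : ∃ W : Fin d → ℚ, W = fun l => ((m3 l : ℚ) - (m3' l : ℚ)) := ⟨_, rfl⟩
  rw [← hW3] at w3
  refine ⟨m0, hm0, m0', hm0', m1, hm1, m1', hm1', m2, hm2, m2', hm2', m3, hm3, m3', hm3', e0, e1,
    fun h => n1 h.symm, e2, e3, fun h => n3 h.symm, fun c0 c1 c2 c3 h => ?_⟩
  have hh : ∀ l, c0 * W0 l + c1 * W1 l + c2 * W2 l + c3 * W3 l = 0 := by
    intro l
    rw [hW0, hW1, hW2, hW3]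
    exact h l
  have h3 : c3 = 0 := by
    refine L03_zero (x := c0 • W0 + c1 • W1 + c2 • W2) ?_ w3 fun l => ?_
    · refine Submodule.add_mem _ (Submodule.add_mem _ (Submodule.smul_mem _ _ ?_)
        (Submodule.smul_mem _ _ ?_)) (Submodule.smul_mem _ _ ?_)
      · exact Submodule.subset_span (by simp)
      · exact Submodule.subset_span (by simp)
      · exact Submodule.subset_span (by simp)
    · exact hh l
  have h2 : c2 = 0 := by
    refine L03_zero (x := c0 • W0 + c1 • W1) ?_ w2 fun l => ?_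
    · refine Submodule.add_mem _ (Submodule.smul_mem _ _ ?_) (Submodule.smul_mem _ _ ?_)
      · exact Submodule.subset_span (by simp)
      · exact Submodule.subset_span (by simp)
    · have h4 := hh l
      rw [h3, zero_mul, add_zero] at h4
      exact h4
  have h1 : c1 = 0 := by
    refine L03_zero (x := c0 • W0) ?_ w1 fun l => ?_
    · exact Submodule.smul_mem _ _ (Submodule.subset_span (by simp))
    · have h4 := hh l
      rw [h3, h2, zero_mul, zero_mul, add_zero, add_zero] at h4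
      exact h4
  have h0 : c0 = 0 := by
    refine L03_zero (x := 0) (Submodule.zero_mem _) w0 fun l => ?_
    have h4 := hh l
    rw [h3, h2, h1, zero_mul, zero_mul, zero_mul, add_zero, add_zero, add_zero] at h4
    rw [Pi.zero_apply, zero_add]
    exact h4
  exact ⟨h0, h1, h2, h3⟩

end Pool.Agent.Lib.MP_1e3e9c_agY
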