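import Pool.Agent.Lib.MP_1e3e9c_agY.LDefs

/-! LEAF L05 (easy+).  From rational to real numbers; the differential is surjective.

PROOF.  `Pt.real`: `inj`, `r0`, `r1`: casts (`Rat.cast_injective`, `exact_mod_cast`).  `nd`: let `α, β` be real with the two systems of equations (their coefficients are rational) and for instance `α j0 ≠ 0`.  `ℝ` is a vector space over `ℚ`: there is a `ℚ`-linear `f : ℝ →ₗ[ℚ] ℚ` with `f (α j0) ≠ 0` (`Module.forall_dual_apply_eq_zero_iff ℚ`).  Apply `f` to the equations (`f (x * (r : ℝ)) = f x * r` for rational `r`: `map_smul`): `f ∘ α`, `f ∘ β` satisfy them, so `f (α j0) = 0` by `h.nd`, a contradiction.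
`Pt.surj`: otherwise the range of the linear map `T : (ξ, η) ↦ (...)` is a proper subspace, so there is a linear functional `F ≠ 0` on `(Fin (s + 1) → ℝ) × (Fin (s + 1) → ℝ)` which vanishes on it (`Submodule.exists_le_ker_of_lt_top`), `F (y, z) = ∑ α j y j + ∑ β j z j` (`α j = F (Pi.single j 1, 0)`, `β j = F (0, Pi.single j 1)`; `LinearMap.pi_apply_eq_sum_univ`).
`ξ = 0`, `η = Pi.single i 1`: `∑ j, β j ∑_m [ι j m = i] u j m = 0`; `η = 0`, `ξ = Pi.single l 1`: `∑ j ∑_m (α j + β j q(ι j m)) u j m m_l = 0`: `h.nd`: `α = β = 0`, `F = 0`. -/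

set_option autoImplicit false

namespace Pool.Agent.Lib.MP_1e3e9c_agY

open Polynomial Pool.Agent.Lib.MP_1e3e9c_agV

variable {d r s : ℕ} {A : Fin (s + 1) → Finset (Fin d → ℤ)}
  {ι : Fin (s + 1) → (Fin d → ℤ) → Fin r}

private theorem L05_lin (f : ℝ →ₗ[ℚ] ℚ) (x : ℝ) (r : ℚ) : f (x * (r : ℝ)) = f x * r := by
  have h1 : x * (r : ℝ) = r • x := by
    rw [Rat.smul_def, mul_comm]
  rw [h1, map_smul, smul_eq_mul, mul_comm]

theorem Pt.real {q : Fin r → ℚ} {u : Fin (s + 1) → (Fin d → ℤ) → ℚ} (h : Pt A ι q u) :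
    Pt A ι (fun i => (q i : ℝ)) fun j m => (u j m : ℝ) := by
  refine ⟨fun a b hab => h.inj (Rat.cast_injective hab), fun j => ?_, fun j => ?_, ?_⟩
  · have h1 := h.r0 j
    exact_mod_cast h1
  · have h1 := h.r1 j
    exact_mod_cast h1
  · intro α β E1 E2
    have key : ∀ f : ℝ →ₗ[ℚ] ℚ, (∀ j, f (α j) = 0) ∧ ∀ j, f (β j) = 0 := by
      intro f
      refine h.nd (fun j => f (α j)) (fun j => f (β j)) (fun i => ?_) (fun l => ?_)
      · have h1 := congrArg f (E1 i)
        rw [map_zero, map_sum] at h1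
        refine Eq.trans (Finset.sum_congr rfl fun j _ => ?_) h1
        have h2 : ∑ m ∈ A j, (if ι j m = i then (u j m : ℝ) else 0) =
            ((∑ m ∈ A j, (if ι j m = i then u j m else 0) : ℚ) : ℝ) := by
          rw [Rat.cast_sum]
          refine Finset.sum_congr rfl fun m _ => ?_
          split_ifs
          · rfl
          · exact Rat.cast_zero.symm
        rw [h2, L05_lin]
      · have h1 := congrArg f (E2 l)
        rw [map_zero, map_sum] at h1
        refine Eq.trans (Finset.sum_congr rfl fun j _ => ?_) h1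
        rw [map_sum]
        refine Finset.sum_congr rfl fun m _ => ?_
        have h2 : (α j + β j * (q (ι j m) : ℝ)) * (u j m : ℝ) * (m l : ℝ) =
            α j * ((u j m * m l : ℚ) : ℝ) + β j * ((q (ι j m) * u j m * m l : ℚ) : ℝ) := by
          push_cast
          ring
        rw [h2, map_add, L05_lin, L05_lin]
        ring
    exact ⟨fun j => (Module.forall_dual_apply_eq_zero_iff ℚ (α j)).1 fun f => (key f).1 j,
      fun j => (Module.forall_dual_apply_eq_zero_iff ℚ (β j)).1 fun f => (key f).2 j⟩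

theorem Pt.surj {q : Fin r → ℝ} {u : Fin (s + 1) → (Fin d → ℤ) → ℝ} (h : Pt A ι q u)
    (y z : Fin (s + 1) → ℝ) : ∃ (ξ : Fin d → ℝ) (η : Fin r → ℝ), ∀ j,
      ∑ m ∈ A j, u j m * ∑ l, (m l : ℝ) * ξ l = y j ∧
      ∑ m ∈ A j, u j m * (q (ι j m) * ∑ l, (m l : ℝ) * ξ l + η (ι j m)) = z j := by
  classical
  let T : ((Fin d → ℝ) × (Fin r → ℝ)) →ₗ[ℝ] ((Fin (s + 1) → ℝ) × (Fin (s + 1) → ℝ)) :=
    { toFun := fun w => (fun j => ∑ m ∈ A j, u j m * ∑ l, (m l : ℝ) * w.1 l,
        fun j => ∑ m ∈ A j, u j m * (q (ι j m) * ∑ l, (m l : ℝ) * w.1 l + w.2 (ι j m)))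
      map_add' := by
        intro w w'
        refine Prod.ext (funext fun j => ?_) (funext fun j => ?_)
        · show ∑ m ∈ A j, u j m * ∑ l, (m l : ℝ) * (w.1 l + w'.1 l) =
            ∑ m ∈ A j, u j m * ∑ l, (m l : ℝ) * w.1 l + ∑ m ∈ A j, u j m * ∑ l, (m l : ℝ) * w'.1 l
          rw [← Finset.sum_add_distrib]
          refine Finset.sum_congr rfl fun m _ => ?_
          rw [← mul_add, ← Finset.sum_add_distrib]
          congr 1
          exact Finset.sum_congr rfl fun l _ => mul_add _ _ _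
        · show ∑ m ∈ A j, u j m * (q (ι j m) * ∑ l, (m l : ℝ) * (w.1 l + w'.1 l) + (w.2 (ι j m) + w'.2 (ι j m))) =
            ∑ m ∈ A j, u j m * (q (ι j m) * ∑ l, (m l : ℝ) * w.1 l + w.2 (ι j m)) +
            ∑ m ∈ A j, u j m * (q (ι j m) * ∑ l, (m l : ℝ) * w'.1 l + w'.2 (ι j m))
          rw [← Finset.sum_add_distrib]
          refine Finset.sum_congr rfl fun m _ => ?_
          have h1 : ∑ l, (m l : ℝ) * (w.1 l + w'.1 l) =
              ∑ l, (m l : ℝ) * w.1 l + ∑ l, (m l : ℝ) * w'.1 l := by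
            rw [← Finset.sum_add_distrib]
            exact Finset.sum_congr rfl fun l _ => mul_add _ _ _
          rw [h1]
          ring
      map_smul' := by
        intro t w
        refine Prod.ext (funext fun j => ?_) (funext fun j => ?_)
        · show ∑ m ∈ A j, u j m * ∑ l, (m l : ℝ) * (t * w.1 l) =
            t * ∑ m ∈ A j, u j m * ∑ l, (m l : ℝ) * w.1 l
          rw [Finset.mul_sum]
          refine Finset.sum_congr rfl fun m _ => ?_
          have h1 : ∑ l, (m l : ℝ) * (t * w.1 l) = t * ∑ l, (m l : ℝ) * w.1 l := by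
            rw [Finset.mul_sum]
            exact Finset.sum_congr rfl fun l _ => by ring
          rw [h1]
          ring
        · show ∑ m ∈ A j, u j m * (q (ι j m) * ∑ l, (m l : ℝ) * (t * w.1 l) + t * w.2 (ι j m)) =
            t * ∑ m ∈ A j, u j m * (q (ι j m) * ∑ l, (m l : ℝ) * w.1 l + w.2 (ι j m))
          rw [Finset.mul_sum]
          refine Finset.sum_congr rfl fun m _ => ?_
          have h1 : ∑ l, (m l : ℝ) * (t * w.1 l) = t * ∑ l, (m l : ℝ) * w.1 l := by
            rw [Finset.mul_sum]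
            exact Finset.sum_congr rfl fun l _ => by ring
          rw [h1]
          ring }
  have hT1 : ∀ w j, (T w).1 j = ∑ m ∈ A j, u j m * ∑ l, (m l : ℝ) * w.1 l := fun _ _ => rfl
  have hT2 : ∀ w j, (T w).2 j = ∑ m ∈ A j, u j m * (q (ι j m) * ∑ l, (m l : ℝ) * w.1 l + w.2 (ι j m)) :=
    fun _ _ => rfl
  have htop : LinearMap.range T = ⊤ := by
    by_contra hne
    obtain ⟨F, hF0, hF⟩ := Submodule.exists_le_ker_of_lt_top _ (lt_top_iff_ne_top.2 hne)
    have hFT : ∀ w, F (T w) = 0 := fun w => hF ⟨w, rfl⟩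
    obtain ⟨α, hα⟩ : ∃ α : Fin (s + 1) → ℝ, ∀ j, α j = F ((fun i => if j = i then 1 else 0), 0) :=
      ⟨_, fun _ => rfl⟩
    obtain ⟨β, hβ⟩ : ∃ β : Fin (s + 1) → ℝ, ∀ j, β j = F (0, (fun i => if j = i then 1 else 0)) :=
      ⟨_, fun _ => rfl⟩
    have hdec : ∀ w : (Fin (s + 1) → ℝ) × (Fin (s + 1) → ℝ),
        F w = ∑ j, α j * w.1 j + ∑ j, β j * w.2 j := by
      rintro ⟨y, z⟩
      have h1 : F (y, z) = F (y, 0) + F (0, z) := by
        rw [← map_add, Prod.mk_add_mk, add_zero, zero_add]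
      have h2 := LinearMap.pi_apply_eq_sum_univ (F.comp (LinearMap.inl ℝ (Fin (s + 1) → ℝ) (Fin (s + 1) → ℝ))) y
      have h3 := LinearMap.pi_apply_eq_sum_univ (F.comp (LinearMap.inr ℝ (Fin (s + 1) → ℝ) (Fin (s + 1) → ℝ))) z
      have h4 : F (y, 0) = ∑ j, α j * y j := by
        refine Eq.trans h2 (Finset.sum_congr rfl fun j _ => ?_)
        rw [hα, smul_eq_mul, mul_comm]
        rfl
      have h5 : F (0, z) = ∑ j, β j * z j := by
        refine Eq.trans h3 (Finset.sum_congr rfl fun j _ => ?_)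
        rw [hβ, smul_eq_mul, mul_comm]
        rfl
      rw [h1, h4, h5]
    have hnd := h.nd α β (fun i => ?_) (fun l => ?_)
    · refine hF0 (LinearMap.ext fun w => ?_)
      rw [hdec, LinearMap.zero_apply]
      simp only [hnd.1, hnd.2, zero_mul, Finset.sum_const_zero, add_zero]
    · have h1 := hFT (0, fun i' => if i' = i then 1 else 0)
      rw [hdec] at h1
      have h2 : ∀ j, (T (0, fun i' => if i' = i then 1 else 0)).1 j = 0 := by
        intro j
        rw [hT1]
        refine Finset.sum_eq_zero fun m _ => ?_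
        have h3 : ∑ l, (m l : ℝ) * (0 : Fin d → ℝ) l = 0 := Finset.sum_eq_zero fun l _ => mul_zero _
        show u j m * ∑ l, (m l : ℝ) * (0 : Fin d → ℝ) l = 0
        rw [h3, mul_zero]
      have h4 : ∀ j, (T (0, fun i' => if i' = i then 1 else 0)).2 j =
          ∑ m ∈ A j, (if ι j m = i then u j m else 0) := by
        intro j
        rw [hT2]
        refine Finset.sum_congr rfl fun m _ => ?_
        have h3 : ∑ l, (m l : ℝ) * (0 : Fin d → ℝ) l = 0 := Finset.sum_eq_zero fun l _ => mul_zero _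
        show u j m * (q (ι j m) * ∑ l, (m l : ℝ) * (0 : Fin d → ℝ) l + (if ι j m = i then 1 else 0)) = _
        rw [h3, mul_zero, zero_add, mul_ite, mul_one, mul_zero]
      rw [Finset.sum_eq_zero fun j _ => by rw [h2, mul_zero], zero_add] at h1
      exact Eq.trans (Finset.sum_congr rfl fun j _ => by rw [h4]) h1
    · have h1 := hFT ((fun l' => if l' = l then 1 else 0), 0)
      rw [hdec] at h1
      have h3 : ∀ m : Fin d → ℤ, ∑ l', (m l' : ℝ) * (if l' = l then (1 : ℝ) else 0) = m l := by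
        intro m
        rw [Finset.sum_eq_single l]
        · rw [if_pos rfl, mul_one]
        · intro l' _ hne
          rw [if_neg hne, mul_zero]
        · intro hl
          exact absurd (Finset.mem_univ l) hl
      have h2 : ∀ j, (T ((fun l' => if l' = l then 1 else 0), 0)).1 j = ∑ m ∈ A j, u j m * (m l : ℝ) := by
        intro j
        rw [hT1]
        refine Finset.sum_congr rfl fun m _ => ?_
        show u j m * ∑ l', (m l' : ℝ) * (if l' = l then (1 : ℝ) else 0) = _
        rw [h3]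
      have h4 : ∀ j, (T ((fun l' => if l' = l then 1 else 0), 0)).2 j =
          ∑ m ∈ A j, u j m * (q (ι j m) * (m l : ℝ)) := by
        intro j
        rw [hT2]
        refine Finset.sum_congr rfl fun m _ => ?_
        show u j m * (q (ι j m) * ∑ l', (m l' : ℝ) * (if l' = l then (1 : ℝ) else 0) + (0 : ℝ)) = _
        rw [h3, add_zero]
      rw [← Finset.sum_add_distrib] at h1
      refine Eq.trans (Finset.sum_congr rfl fun j _ => ?_) h1
      rw [h2, h4, Finset.mul_sum, Finset.mul_sum, ← Finset.sum_add_distrib]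
      refine Finset.sum_congr rfl fun m _ => ?_
      ring
  obtain ⟨w, hw⟩ := LinearMap.range_eq_top.1 htop (y, z)
  refine ⟨w.1, w.2, fun j => ⟨?_, ?_⟩⟩
  · rw [← hT1, hw]
  · rw [← hT2, hw]

end Pool.Agent.Lib.MP_1e3e9c_agY
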