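import Pool.Agent.Lib.MP_1e3e9c_agY.Yb

/-! BLOCK L: the relation with all degrees `1`. -/

set_option autoImplicit false

namespace Pool.Agent.Lib.MP_1e3e9c_agY

open Polynomial Pool.Agent.Lib.MP_1e3e9c_agV

/-- `ι j m` is the index `i` with `⟨m, v_i⟩ + hs = 1`; for the other indices it is `0`. -/
structure Cls {d r s : ℕ} (A : Fin (s + 1) → Finset (Fin d → ℤ)) (v : Fin r → Fin d → ℤ)
    (ι : Fin (s + 1) → (Fin d → ℤ) → Fin r) : Prop where
  val : ∀ j, ∀ m ∈ A j, ∀ i, pr m (v i) + hs (A j) (v i) = if ι j m = i then 1 else 0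
  surj : ∀ j i, ∃ m ∈ A j, ι j m = i

/-- A system `u` with the curve `∏ (1 + q_i t)^(v_i)` through `(1, ..., 1)`, at which the equations of the curves of this kind have
a surjective differential. -/
structure Pt {K : Type} [Field K] {d r s : ℕ} (A : Fin (s + 1) → Finset (Fin d → ℤ))
    (ι : Fin (s + 1) → (Fin d → ℤ) → Fin r) (q : Fin r → K)
    (u : Fin (s + 1) → (Fin d → ℤ) → K) : Prop where
  inj : Function.Injective q
  r0 : ∀ j, ∑ m ∈ A j, u j m = 0
  r1 : ∀ j, ∑ m ∈ A j, q (ι j m) * u j m = 0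
  nd : ∀ α β : Fin (s + 1) → K,
    (∀ i, ∑ j, β j * ∑ m ∈ A j, (if ι j m = i then u j m else 0) = 0) →
    (∀ l, ∑ j, ∑ m ∈ A j, (α j + β j * q (ι j m)) * u j m * (m l : K) = 0) →
      (∀ j, α j = 0) ∧ ∀ j, β j = 0

end Pool.Agent.Lib.MP_1e3e9c_agY
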