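import Pool.Agent.Lib.MP_1e3e9c_agY.Na

/-! LEAF Nb (medium, adaptation of `det_ne` in M2 of agV, proved there).  The determinant is not `0` if `WY` is not `0`.

PROOF.  Let `w^j` be the row vector of `vecMul_BY` (Na).  Suppose `det B = 0`.  Then there is `ξ ≠ 0` with `B *ᵥ ξ = 0` (`Matrix.exists_mulVec_eq_zero_iff`, an integral domain).  Divide `ξ` by the largest power of `X` which divides all its entries: not all `ξ_c(0)` are `0`.  For `j = t.succ`: `0 = w^j · (B ξ) = ∑_t' (∑_l GY_l C (z t' l)) ξ_(inl (inr t'))` (`hvan`: the other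
entries of `w^j B` are `0`), so (`hW`, `Matrix.eq_zero_of_mulVec_eq_zero`) `ξ_(inl (inr t')) = 0` for all `t'`.  For `j = 0`: `0 = w^0 · (B ξ) = ξ_∂ derivative Ph + ∑ ξ_i Δ_i Ph + ∑ ξ_i h_i Ph` (`Ph = Ph A c v x p 0`).  The rest is the proof of `det_ne` (M2): `Ph = X^μ u`, `u(0) ≠ 0`, `μ ≥ 1`: `X ∣ ξ_∂`; at `X = 0`:
`∑_j ξ_j(0) δ_j x_l / x_l - ∑_i ξ_i(0) v_il = 0` for all `l` and, in the rows `inr i`: `∑_j ξ_j(0) δ_j(p_i(0)) + ξ_i(0) p_i(0) = ξ_i(0) = 0` (`p_i(0) = 1`, `δ_j 1 = 0`).  So `ξ_i(0) = 0`, and by `hind` `ξ_j(0) = 0` for all `j`: contradiction. -/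

set_option autoImplicit false

namespace Pool.Agent.Lib.MP_1e3e9c_agY

open Polynomial Matrix Pool.Agent.Lib.MP_1e3e9c_agV

private theorem Nb_div {K : Type} [Field K] {ι : Type} (ξ : ι → K[X]) (hξ : ξ ≠ 0) :
    ∃ (m : ℕ) (ξ' : ι → K[X]), (∀ c, ξ c = X ^ m * ξ' c) ∧ ∃ c, (ξ' c).coeff 0 ≠ 0 := by
  classical
  obtain ⟨c₀, hc₀⟩ : ∃ c, ξ c ≠ 0 := by
    by_contra hcon
    push Not at hcon
    exact hξ (funext hcon)
  have hex : ∃ m : ℕ, ¬ ∀ c, X ^ m ∣ ξ c := by
    refine ⟨(ξ c₀).natDegree + 1, fun hall => ?_⟩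
    have h1 := Polynomial.natDegree_le_of_dvd (hall c₀) hc₀
    rw [Polynomial.natDegree_X_pow] at h1
    omega
  have hsp := Nat.find_spec hex
  have hm0 : Nat.find hex ≠ 0 := by
    intro h0
    rw [h0] at hsp
    exact hsp fun c => by simp
  obtain ⟨m, hm⟩ := Nat.exists_eq_succ_of_ne_zero hm0
  have hP : ∀ c, X ^ m ∣ ξ c := by
    by_contra hcon
    exact Nat.find_min hex (m := m) (by omega) hcon
  choose ξ' hξ' using hP
  refine ⟨m, ξ', hξ', ?_⟩
  by_contra hcon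
  push Not at hcon
  refine hsp fun c => ?_
  obtain ⟨q, hq⟩ := Polynomial.X_dvd_iff.mpr (hcon c)
  exact ⟨q, by rw [hm, Nat.succ_eq_add_one, pow_succ, hξ' c, hq]; ring⟩

private theorem Nb_dvdΔ {k K : Type} [Field k] [Field K] [Algebra k K] {δj : Derivation k K K}
    {Δj : Derivation k K[X] K[X]} (hΔ : ∀ (q : K[X]) i, (Δj q).coeff i = δj (q.coeff i)) {N : ℕ}
    {q : K[X]} (hq : X ^ N ∣ q) : X ^ N ∣ Δj q := by
  rw [Polynomial.X_pow_dvd_iff] at hq ⊢
  intro d hd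
  rw [hΔ, hq d hd, map_zero]

theorem det_neY {k K : Type} [Field k] [Field K] [CharZero K] [Algebra k K] {d n r s : ℕ}
    {e : Fin (n + 1) ⊕ Fin s ≃ Fin d} {A : Fin (s + 1) → Finset (Fin d → ℤ)}
    {c : Fin (s + 1) → (Fin d → ℤ) → k} {v : Fin r → Fin d → ℤ} {a : Fin r → ℕ}
    (hR : RelY A v a) {δ : Fin n → Derivation k K K}
    {Δ : Fin n → Derivation k K[X] K[X]} (hΔ : ∀ j (q : K[X]) i, (Δ j q).coeff i = δ j (q.coeff i))
    {x : Fin d → K} (hx : ∀ j, x j ≠ 0) {p : Fin r → K[X]} (hp0 : ∀ i, (p i).coeff 0 = 1)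
    (hvan : ∀ j : Fin s, Ph A c v x p j.succ = 0)
    (hdvd : X ∣ Ph A c v x p 0) (hne : Ph A c v x p 0 ≠ 0)
    (hind : LinearIndependent K fun (j : Fin n) (l : Fin d) => δ j (x l) / x l)
    {z : Fin s → Fin d → K} (hW : WY A c v x p z ≠ 0) : (BY e v δ Δ x p z).det ≠ 0 := by
  classical
  set B := BY e v δ Δ x p z with hB
  intro hdet
  obtain ⟨ξ₀, hξ₀, hB0⟩ := Matrix.exists_mulVec_eq_zero_iff.mpr hdet
  obtain ⟨m, ξ, hξ, c₀, hc₀⟩ := Nb_div ξ₀ hξ₀
  have hBξ : B *ᵥ ξ = 0 := by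
    have h1 : ξ₀ = (X ^ m : K[X]) • ξ := by
      funext t
      rw [hξ t, Pi.smul_apply, smul_eq_mul]
    rw [h1, Matrix.mulVec_smul] at hB0
    exact (smul_eq_zero.mp hB0).resolve_left (pow_ne_zero _ Polynomial.X_ne_zero)
  -- the relation for the equation number `j`
  have hrel : ∀ j : Fin (s + 1), derivative (Ph A c v x p j) * ξ (Sum.inl (Sum.inl 0)) +
      ∑ j', Δ j' (Ph A c v x p j) * ξ (Sum.inl (Sum.inl j'.succ)) +
      ∑ t, (∑ l, GY A c v x p j l * C (z t l)) * ξ (Sum.inl (Sum.inr t)) +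
      ∑ i, C ((hs (A j) (v i) : ℤ) : K) * Ph A c v x p j * ξ (Sum.inr i) = 0 := by
    intro j
    have h3 := Matrix.dotProduct_mulVec (Sum.elim (fun b => GY A c v x p j (e b))
      (Psi (A j) (c j) v (fun i => hs (A j) (v i)) x p)) B ξ
    rw [hBξ, dotProduct_zero, hB, vecMul_BY hR hΔ hx p z j] at h3
    rw [dotProduct, Fintype.sum_sum_type, Fintype.sum_sum_type, Fin.sum_univ_succ] at h3
    simp only [Sum.elim_inl, Sum.elim_inr, Fin.cons_zero, Fin.cons_succ] at h3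
    exact h3.symm
  have hz : ∀ t, ξ (Sum.inl (Sum.inr t)) = 0 := by
    have h4 : (Matrix.of fun t t' : Fin s => ∑ l, GY A c v x p t.succ l * C (z t' l)) *ᵥ
        (fun t' => ξ (Sum.inl (Sum.inr t'))) = 0 := by
      funext t
      have h5 := hrel t.succ
      simp only [hvan t, map_zero, zero_mul, mul_zero, Finset.sum_const_zero, add_zero,
        zero_add] at h5
      simp only [Matrix.mulVec, dotProduct, Matrix.of_apply, Pi.zero_apply]
      exact h5
    have h6 := Matrix.eq_zero_of_mulVec_eq_zero hW h4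
    exact fun t => congrFun h6 t
  have h2 : derivative (Ph A c v x p 0) * ξ (Sum.inl (Sum.inl 0)) +
      ∑ j, Δ j (Ph A c v x p 0) * ξ (Sum.inl (Sum.inl j.succ)) +
      ∑ i, C ((hs (A 0) (v i) : ℤ) : K) * Ph A c v x p 0 * ξ (Sum.inr i) = 0 := by
    have h5 := hrel 0
    simp only [hz, mul_zero, Finset.sum_const_zero, add_zero] at h5
    exact h5
  obtain ⟨μ, U, hU, _, hu⟩ := Nb_div (fun _ : Unit => Ph A c v x p 0) (fun h0 => hne (congrFun h0 ()))
  have hu0 := hU ()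
  set u := U () with hudef
  have hμ : μ ≠ 0 := by
    intro h0
    rw [h0, pow_zero, one_mul] at hu0
    rw [hu0] at hdvd
    exact hu (Polynomial.X_dvd_iff.mp hdvd)
  obtain ⟨N, rfl⟩ := Nat.exists_eq_succ_of_ne_zero hμ
  have hX : X ^ (N + 1) ∣ Ph A c v x p 0 := ⟨u, hu0⟩
  have h4 : X ^ (N + 1) ∣ derivative (Ph A c v x p 0) * ξ (Sum.inl (Sum.inl 0)) := by
    have h5 : derivative (Ph A c v x p 0) * ξ (Sum.inl (Sum.inl 0)) =
        -(∑ j, Δ j (Ph A c v x p 0) * ξ (Sum.inl (Sum.inl j.succ)) +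
          ∑ i, C ((hs (A 0) (v i) : ℤ) : K) * Ph A c v x p 0 * ξ (Sum.inr i)) := by
      rw [eq_neg_iff_add_eq_zero, ← add_assoc]
      exact h2
    rw [h5, dvd_neg]
    refine dvd_add (Finset.dvd_sum fun j _ => (Nb_dvdΔ (hΔ j) hX).mul_right _)
      (Finset.dvd_sum fun i _ => (hX.mul_left _).mul_right _)
  have h6 : derivative (Ph A c v x p 0) = X ^ N * (C ((N : K) + 1) * u + X * derivative u) := by
    rw [hu0, derivative_mul, derivative_X_pow]
    push_cast
    rw [Nat.succ_eq_add_one, pow_succ]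
    ring
  have h7 : (ξ (Sum.inl (Sum.inl 0))).coeff 0 = 0 := by
    rw [h6, pow_succ, mul_assoc] at h4
    have h8 := (mul_dvd_mul_iff_left (pow_ne_zero N (Polynomial.X_ne_zero (R := K)))).mp h4
    rw [Polynomial.X_dvd_iff, Polynomial.mul_coeff_zero, Polynomial.coeff_add, Polynomial.coeff_C_mul,
      Polynomial.mul_coeff_zero, Polynomial.coeff_X_zero, zero_mul, add_zero] at h8
    have h9 : ((N : K) + 1) * u.coeff 0 ≠ 0 := mul_ne_zero (Nat.cast_add_one_ne_zero N) hu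
    exact (mul_eq_zero.mp h8).resolve_left h9
  have h10 : ∀ i, (ξ (Sum.inr i)).coeff 0 = 0 := by
    intro i
    have h11 := congrArg (fun q : K[X] => q.coeff 0) (congrFun hBξ (Sum.inr i))
    rw [hB] at h11
    simp only [BY, Matrix.mulVec, dotProduct, Fintype.sum_sum_type, Fin.sum_univ_succ, Matrix.fromBlocks_apply₂₁,
      Matrix.fromBlocks_apply₂₂, Matrix.of_apply, Sum.elim_inl, Sum.elim_inr, Fin.cons_zero, Fin.cons_succ,
      Polynomial.coeff_add, Polynomial.finsetSum_coeff, Polynomial.mul_coeff_zero, h7, mul_zero, zero_add, hΔ, hp0,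
      Derivation.map_one_eq_zero, zero_mul, Finset.sum_const_zero, Pi.zero_apply, Polynomial.coeff_zero,
      add_zero] at h11
    rw [Finset.sum_eq_single i (fun b _ hb => by rw [Matrix.diagonal_apply_ne' _ hb, Polynomial.coeff_zero, zero_mul])
      (fun hb => absurd (Finset.mem_univ i) hb), Matrix.diagonal_apply_eq, hp0, one_mul] at h11
    exact h11
  have h12 : ∀ j : Fin n, (ξ (Sum.inl (Sum.inl j.succ))).coeff 0 = 0 := by
    refine Fintype.linearIndependent_iff.mp hind (fun j => (ξ (Sum.inl (Sum.inl j.succ))).coeff 0) ?_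
    funext l
    have h13 := congrArg (fun q : K[X] => q.coeff 0) (congrFun hBξ (Sum.inl (e.symm l)))
    rw [hB] at h13
    simp only [BY, Matrix.mulVec, dotProduct, Fintype.sum_sum_type, Fin.sum_univ_succ, Matrix.fromBlocks_apply₁₁,
      Matrix.fromBlocks_apply₁₂, Matrix.of_apply, Sum.elim_inl, Sum.elim_inr, Fin.cons_zero, Fin.cons_succ,
      Polynomial.coeff_add, Polynomial.finsetSum_coeff, Polynomial.mul_coeff_zero, zero_mul, zero_add, h10, hz,
      mul_zero, Finset.sum_const_zero, add_zero, Polynomial.coeff_C_zero, Pi.zero_apply, Polynomial.coeff_zero,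
      Equiv.apply_symm_apply] at h13
    rw [Finset.sum_apply]
    simp only [Pi.smul_apply, smul_eq_mul, Pi.zero_apply]
    rw [← h13]
    exact Finset.sum_congr rfl fun j _ => mul_comm _ _
  rcases c₀ with (t | t) | i
  · revert hc₀
    refine Fin.cases (fun h0 => h0 h7) (fun j h0 => h0 (h12 j)) t
  · exact hc₀ (by rw [hz t, Polynomial.coeff_zero])
  · exact hc₀ (h10 i)

end Pool.Agent.Lib.MP_1e3e9c_agY
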