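import Pool.Agent.Lib.MP_1e3e9c_agY.Ga
import Pool.Agent.Lib.MP_1e3e9c_agY.YG

/-! LEAF Nd (medium-, 3 theorems).  Nondegeneracy of the generic system on all faces; dual vectors.

PROOF.  `gen_map`: `algebraMap E K` is injective, `AlgebraicIndependent.map'` (as a `ℚ`-algebra homomorphism: `(algebraMap E K).toRatAlgHom`).  `nd`: suppose `μ j0 ≠ 0`, `j0 ∈ J`, and take `m0 ∈ B j0` (`hBn`).  `exists_der` (Ga) gives a derivation `D` of `K` over `ℚ` with `D (c j0 m0) = 1` and `D (c j m) = 0` for all other `m ∈ A j`, all `j`.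
For `j ∈ J`: `0 = D (∑_(m ∈ B j) c j m mn q m) = ∑_(m ∈ B j) D (c j m) mn q m + ∑_l (∑_(m ∈ B j) c j m mn q m m_l) D(q_l) / q_l` (`D (mn q m) = mn q m ∑_l m_l D(q_l) / q_l`, `q_l ≠ 0`).  Multiply by `μ j` and sum over `j ∈ J`: the second part is `0` by `hμ`, the first is `μ j0 mn q m0 ≠ 0`: contradiction.
`exists_dual`: the matrix with the independent rows `G t` has a right inverse (`Matrix` of full row rank; or: the linear map `K^d → K^s`, `w ↦ (∑ G t l w l)_t` is surjective, otherwise a nonzero linear form on `K^s` kills the image, a relation between the `G t`); `z t'` = a preimage of the unit vector `t'`: the matrix is the identity. -/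

set_option autoImplicit false

namespace Pool.Agent.Lib.MP_1e3e9c_agY

open Pool.Agent.Lib.MP_1e3e9c_agV

theorem gen_map {E K : Type} [Field E] [CharZero E] [Field K] [CharZero K] [Algebra E K] {d s : ℕ}
    {A : Fin (s + 1) → Finset (Fin d → ℤ)} {c : Fin (s + 1) → (Fin d → ℤ) → E} (h : Gen A c) :
    Gen A fun j m => algebraMap E K (c j m) := by
  have h0 : AlgebraicIndependent ℚ fun t : (Σ j, {m // m ∈ A j}) => c t.1 t.2.1 := h
  have h1 := h0.map' (f := (algebraMap E K).toRatAlgHom) (algebraMap E K).injective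
  exact h1

private theorem Nd_prod {K : Type} [Field K] [CharZero K] (D : Derivation ℚ K K) {ι : Type}
    (s : Finset ι) (f : ι → K) (hf : ∀ i, f i ≠ 0) :
    D (∏ i ∈ s, f i) = (∏ i ∈ s, f i) * ∑ i ∈ s, D (f i) / f i := by
  classical
  induction s using Finset.induction_on with
  | empty => simp
  | insert a s ha ih =>
    rw [Finset.prod_insert ha, Finset.sum_insert ha, Derivation.leibniz, ih, smul_eq_mul, smul_eq_mul]
    have := hf a
    field_simp
    ring

private theorem Nd_mn {K : Type} [Field K] [CharZero K] (D : Derivation ℚ K K) {d : ℕ} {q : Fin d → K}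
    (hq : ∀ l, q l ≠ 0) (m : Fin d → ℤ) :
    D (mn q m) = mn q m * ∑ l, (m l : K) * (D (q l) / q l) := by
  unfold mn
  rw [Nd_prod D _ _ fun i => zpow_ne_zero _ (hq i)]
  congr 1
  refine Finset.sum_congr rfl fun l _ => ?_
  have h := hq l
  rw [Derivation.leibniz_zpow, zsmul_eq_mul, smul_eq_mul, zpow_sub_one₀ h]
  have h2 : q l ^ m l ≠ 0 := zpow_ne_zero _ h
  field_simp

theorem nd {K : Type} [Field K] [CharZero K] {d s : ℕ} {A : Fin (s + 1) → Finset (Fin d → ℤ)}
    {c : Fin (s + 1) → (Fin d → ℤ) → K} (hc : Gen A c) {q : Fin d → K} (hq : ∀ l, q l ≠ 0)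
    {B : Fin (s + 1) → Finset (Fin d → ℤ)} (hB : ∀ j, B j ⊆ A j) (hBn : ∀ j, (B j).Nonempty)
    {J : Finset (Fin (s + 1))} (h : ∀ j ∈ J, ∑ m ∈ B j, c j m * mn q m = 0)
    {μ : Fin (s + 1) → K}
    (hμ : ∀ l, ∑ j ∈ J, μ j * ∑ m ∈ B j, c j m * mn q m * (m l : K) = 0) : ∀ j ∈ J, μ j = 0 := by
  classical
  intro j0 hj0
  by_contra hne
  obtain ⟨m0, hm0⟩ := hBn j0
  set t0 : (Σ j, {m // m ∈ A j}) := ⟨j0, m0, hB j0 hm0⟩ with ht0
  obtain ⟨D, hD⟩ := exists_der (fun t : (Σ j, {m // m ∈ A j}) => c t.1 t.2.1) hc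
    fun t => if t = t0 then 1 else 0
  have hDc : ∀ j, ∀ m ∈ B j, D (c j m) = if j = j0 ∧ m = m0 then 1 else 0 := by
    intro j m hm
    have h1 := hD ⟨j, m, hB j hm⟩
    simp only at h1
    rw [h1]
    by_cases h2 : j = j0 ∧ m = m0
    · obtain ⟨rfl, rfl⟩ := h2
      rw [if_pos rfl, if_pos ⟨rfl, rfl⟩]
    · rw [if_neg h2, if_neg]
      rintro h3
      apply h2
      rw [ht0] at h3
      obtain ⟨h4, h5⟩ := Sigma.mk.inj_iff.1 h3
      subst h4
      exact ⟨rfl, congrArg Subtype.val (eq_of_heq h5)⟩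
  have h1 : ∀ j ∈ J, ∑ m ∈ B j, D (c j m) * mn q m +
      ∑ l, (D (q l) / q l) * ∑ m ∈ B j, c j m * mn q m * (m l : K) = 0 := by
    intro j hj
    have h2 := congrArg D (h j hj)
    rw [map_zero, map_sum] at h2
    rw [← h2]
    have e : ∀ m ∈ B j, D (c j m * mn q m) = D (c j m) * mn q m +
        ∑ l, (D (q l) / q l) * (c j m * mn q m * (m l : K)) := by
      intro m _
      rw [Derivation.leibniz, Nd_mn D hq, smul_eq_mul, smul_eq_mul, Finset.mul_sum, Finset.mul_sum,
        add_comm, mul_comm (mn q m)]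
      congr 1
      exact Finset.sum_congr rfl fun l _ => by ring
    rw [Finset.sum_congr rfl e, Finset.sum_add_distrib]
    congr 1
    rw [Finset.sum_comm]
    exact Finset.sum_congr rfl fun l _ => Finset.mul_sum _ _ _
  have h3 : ∑ j ∈ J, μ j * (∑ m ∈ B j, D (c j m) * mn q m +
      ∑ l, (D (q l) / q l) * ∑ m ∈ B j, c j m * mn q m * (m l : K)) = 0 :=
    Finset.sum_eq_zero fun j hj => by rw [h1 j hj, mul_zero]
  have h4 : ∑ j ∈ J, μ j * ∑ l, (D (q l) / q l) * ∑ m ∈ B j, c j m * mn q m * (m l : K) = 0 := by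
    have e : ∀ j ∈ J, μ j * ∑ l, (D (q l) / q l) * ∑ m ∈ B j, c j m * mn q m * (m l : K) =
        ∑ l, (D (q l) / q l) * (μ j * ∑ m ∈ B j, c j m * mn q m * (m l : K)) := by
      intro j _
      rw [Finset.mul_sum]
      exact Finset.sum_congr rfl fun l _ => by ring
    rw [Finset.sum_congr rfl e, Finset.sum_comm]
    refine Finset.sum_eq_zero fun l _ => ?_
    rw [← Finset.mul_sum, hμ l, mul_zero]
  have h5 : ∑ j ∈ J, μ j * ∑ m ∈ B j, D (c j m) * mn q m = μ j0 * mn q m0 := by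
    rw [Finset.sum_eq_single_of_mem j0 hj0]
    · congr 1
      rw [Finset.sum_eq_single_of_mem m0 hm0]
      · rw [hDc j0 m0 hm0, if_pos ⟨rfl, rfl⟩, one_mul]
      · intro m hm hmne
        rw [hDc j0 m hm, if_neg fun h => hmne h.2, zero_mul]
    · intro j hj hjne
      rw [Finset.sum_eq_zero, mul_zero]
      intro m hm
      rw [hDc j m hm, if_neg fun h => hjne h.1, zero_mul]
  have h6 : μ j0 * mn q m0 = 0 := by
    rw [← h5, ← h3]
    conv_rhs => rw [Finset.sum_congr rfl fun j _ => mul_add (μ j) _ _, Finset.sum_add_distrib, h4,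
      add_zero]
  rcases mul_eq_zero.1 h6 with h7 | h7
  · exact hne h7
  · exact Finset.prod_ne_zero_iff.2 (fun l _ => zpow_ne_zero _ (hq l)) h7

theorem exists_dual {K : Type} [Field K] {s d : ℕ} {G : Fin s → Fin d → K}
    (hG : LinearIndependent K G) :
    ∃ z : Fin s → Fin d → K, (Matrix.of fun t t' : Fin s => ∑ l, G t l * z t' l) = 1 := by
  have h1 : (Matrix.of G).rank = s := by
    have := LinearIndependent.rank_matrix (M := Matrix.of G) hG
    rwa [Fintype.card_fin] at this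
  have h2 : LinearMap.range (Matrix.of G).mulVecLin = ⊤ := by
    apply Submodule.eq_top_of_finrank_eq
    rw [Module.finrank_fin_fun]
    exact h1
  have h3 : Function.Surjective (Matrix.of G).mulVec := by
    intro y
    obtain ⟨x, hx⟩ := LinearMap.range_eq_top.1 h2 y
    exact ⟨x, hx⟩
  obtain ⟨B, hB⟩ := Matrix.mulVec_surjective_iff_exists_right_inverse.1 h3
  refine ⟨fun t' l => B l t', ?_⟩
  rw [← hB]
  rfl

end Pool.Agent.Lib.MP_1e3e9c_agY
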