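import Pool.Agent.Lib.MP_1e3e9c_agY.YN
import Pool.Agent.Lib.MP_1e3e9c_agV.M3

/-! LEAF Nk (easy+).  The degree of the determinant, first estimate.

PROOF.  `b i = (p i).natDegree`, `ρ (inl _) = 0`, `ρ (inr i) = b i`: all entries of `B = BY ..` in the row `inl _` are constants, in the row `inr i` they are `derivative (p i)`, `Δ j (p i)` (its coefficients above `b i` are `δ j 0 = 0`: `hΔ`), `0` and `p i`: of degree `≤ b i`.  `det_coeff` (M3 of agV): `deg det B ≤ ∑ b_i` and the coefficient of degree `∑ b_i` is the determinant of the matrix of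
the coefficients, whose column `inl (inl 0)` is `0` (rows `inl`: `0`; rows `inr i`: the coefficient of degree `b i` of `derivative (p i)` is `(b i + 1) (p i).coeff (b i + 1) = 0`): it is `0` (`Matrix.det_eq_zero_of_column_eq_zero`).  So the degree is `< ∑ b_i`: if the degree were `∑ b_i` its leading coefficient would be `0` (this includes the case `∑ b_i = 0`: then `det B` is the constant `0`, against `hd`). -/

set_option autoImplicit false

namespace Pool.Agent.Lib.MP_1e3e9c_agY

open Polynomial Matrix Pool.Agent.Lib.MP_1e3e9c_agV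

theorem deg_one {k K : Type} [Field k] [Field K] [Algebra k K] {d n r s : ℕ}
    {e : Fin (n + 1) ⊕ Fin s ≃ Fin d} {v : Fin r → Fin d → ℤ} {δ : Fin n → Derivation k K K}
    {Δ : Fin n → Derivation k K[X] K[X]} (hΔ : ∀ j (q : K[X]) i, (Δ j q).coeff i = δ j (q.coeff i))
    {x : Fin d → K} {p : Fin r → K[X]} {z : Fin s → Fin d → K}
    (hd : (BY e v δ Δ x p z).det ≠ 0) :
    (BY e v δ Δ x p z).det.natDegree + 1 ≤ ∑ i, (p i).natDegree := by
  have h : ∀ i j, (BY e v δ Δ x p z i j).natDegree ≤
      Sum.elim (fun _ : Fin (n + 1) ⊕ Fin s => 0) (fun i : Fin r => (p i).natDegree) i := by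
    rintro (b | i) ((b' | t) | i')
    · refine Fin.cases ?_ (fun j => ?_) b'
      · simp [BY]
      · simp [BY, natDegree_C]
    · simp [BY, natDegree_C]
    · simp only [BY, fromBlocks_apply₁₂, of_apply, Sum.elim_inl, natDegree_neg, natDegree_C, le_refl]
    · refine Fin.cases ?_ (fun j => ?_) b'
      · simp only [BY, fromBlocks_apply₂₁, of_apply, Sum.elim_inl, Sum.elim_inr, Fin.cons_zero]
        exact (natDegree_derivative_le _).trans (Nat.sub_le _ _)
      · simp only [BY, fromBlocks_apply₂₁, of_apply, Sum.elim_inl, Sum.elim_inr, Fin.cons_succ]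
        rw [natDegree_le_iff_coeff_eq_zero]
        intro N hN
        rw [hΔ, coeff_eq_zero_of_natDegree_lt hN, map_zero]
    · simp [BY]
    · simp only [BY, fromBlocks_apply₂₂, Sum.elim_inr]
      by_cases hi : i = i'
      · rw [hi, diagonal_apply_eq]
      · rw [diagonal_apply_ne _ hi, natDegree_zero]
        exact Nat.zero_le _
  obtain ⟨h1, h2⟩ := det_coeff _ _ h
  rw [Fintype.sum_sum_type] at h1 h2
  simp only [Sum.elim_inl, Sum.elim_inr, Finset.sum_const_zero, zero_add] at h1 h2
  have h3 : (BY e v δ Δ x p z).det.coeff (∑ i, (p i).natDegree) = 0 := by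
    rw [h2]
    refine Matrix.det_eq_zero_of_column_eq_zero (Sum.inl (Sum.inl 0)) fun i => ?_
    rcases i with b | i
    · simp [BY]
    · simp only [of_apply, BY, fromBlocks_apply₂₁, Sum.elim_inl, Sum.elim_inr, Fin.cons_zero]
      rw [coeff_derivative, coeff_eq_zero_of_natDegree_lt (Nat.lt_succ_self _), zero_mul]
  refine Nat.lt_of_le_of_ne h1 fun h4 => ?_
  rw [← h4] at h3
  exact hd (leadingCoeff_eq_zero.1 h3)

end Pool.Agent.Lib.MP_1e3e9c_agY
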