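import Pool.Agent.Lib.MP_1e3e9c_agY.SDefs

/-! LEAF S01 (easy+).  Multiplicative functions on the monoid of the cone.

PROOF.  `S_zero`: `InCone B 0 0` (`N = 1`, `b = 0`).  `S_smul`: `InCone B m l` implies `InCone B (n • m) (n * l)` and `z (n • m) (n * l) = z m l ^ n`: induction on `n` with `cone_add` (agV, V03a) and `hm`; `n = 0`: `h1`.  `S_sum`: for a finset `T` and `(m_t, l_t)` in the cone
`z (∑ t ∈ T, m_t) (∑ t ∈ T, l_t) = ∏ t ∈ T, z (m_t) (l_t)` (and the sum is in the cone): `Finset.induction_on`.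
`S_pow`: `z m l ^ N = z (N • m) (N * l)` and `N • m = ∑ a ∈ B, b a • a` (`funext`, `hb`), `N * l = ∑ a ∈ B, b a * 1`; `cone_one`.  `S_gens`: `S_sum` over `Finset.univ` and `S_smul` (`G.cone`). -/

set_option autoImplicit false

namespace Pool.Agent.Lib.MP_1e3e9c_agY

open Polynomial Pool.Agent.Lib.MP_1e3e9c_agV

variable {M : Type} [CommMonoid M] {d : ℕ} {B : Finset (Fin d → ℤ)} {z : (Fin d → ℤ) → ℕ → M}

theorem S_zero (B : Finset (Fin d → ℤ)) : InCone B 0 0 := by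
  refine ⟨1, fun _ => 0, one_pos, ?_, fun j => ?_⟩
  · simp
  · simp

private theorem S01_smul (h1 : z 0 0 = 1)
    (hm : ∀ m l m' l', InCone B m l → InCone B m' l' → z (m + m') (l + l') = z m l * z m' l')
    {m : Fin d → ℤ} {l : ℕ} (h : InCone B m l) (n : ℕ) :
    InCone B (n • m) (n * l) ∧ z (n • m) (n * l) = z m l ^ n := by
  induction n with
  | zero =>
    rw [zero_smul, zero_mul, pow_zero]
    exact ⟨S_zero B, h1⟩
  | succ n ih =>
    rw [succ_nsmul, Nat.succ_mul, pow_succ]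
    exact ⟨cone_add ih.1 h, by rw [hm _ _ _ _ ih.1 h, ih.2]⟩

private theorem S01_sum (h1 : z 0 0 = 1)
    (hm : ∀ m l m' l', InCone B m l → InCone B m' l' → z (m + m') (l + l') = z m l * z m' l')
    {ι : Type} (T : Finset ι) (f : ι → Fin d → ℤ) (g : ι → ℕ) (h : ∀ t ∈ T, InCone B (f t) (g t)) :
    InCone B (∑ t ∈ T, f t) (∑ t ∈ T, g t) ∧
      z (∑ t ∈ T, f t) (∑ t ∈ T, g t) = ∏ t ∈ T, z (f t) (g t) := by
  classical
  induction T using Finset.induction_on with
  | empty =>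
    rw [Finset.sum_empty, Finset.sum_empty, Finset.prod_empty]
    exact ⟨S_zero B, h1⟩
  | insert t T ht ih =>
    obtain ⟨i1, i2⟩ := ih fun t' ht' => h t' (Finset.mem_insert_of_mem ht')
    have h2 := h t (Finset.mem_insert_self t T)
    rw [Finset.sum_insert ht, Finset.sum_insert ht, Finset.prod_insert ht]
    exact ⟨cone_add h2 i1, by rw [hm _ _ _ _ h2 i1, i2]⟩

theorem S_pow (h1 : z 0 0 = 1)
    (hm : ∀ m l m' l', InCone B m l → InCone B m' l' → z (m + m') (l + l') = z m l * z m' l')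
    {m : Fin d → ℤ} {l N : ℕ} {b : (Fin d → ℤ) → ℕ} (hN : 0 < N) (hl : ∑ a ∈ B, b a = N * l)
    (hb : ∀ j, ∑ a ∈ B, (b a : ℤ) * a j = N * m j) : z m l ^ N = ∏ a ∈ B, z a 1 ^ b a := by
  have hc : InCone B m l := ⟨N, b, hN, hl, hb⟩
  have h2 := (S01_smul h1 hm hc N).2
  have h3 := (S01_sum h1 hm B (fun a => b a • a) (fun a => b a * 1)
    fun a ha => (S01_smul h1 hm (cone_one ha) (b a)).1).2
  have e1 : ∑ a ∈ B, b a • a = N • m := by
    funext j
    rw [Finset.sum_apply]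
    simp only [Pi.smul_apply, nsmul_eq_mul]
    exact hb j
  have e2 : ∑ a ∈ B, b a * 1 = N * l := by
    simp only [mul_one]
    exact hl
  rw [e1, e2] at h3
  rw [← h2, h3]
  refine Finset.prod_congr rfl fun a ha => ?_
  exact (S01_smul h1 hm (cone_one ha) (b a)).2

theorem S_gens (h1 : z 0 0 = 1)
    (hm : ∀ m l m' l', InCone B m l → InCone B m' l' → z (m + m') (l + l') = z m l * z m' l')
    {n : ℕ} {e : Fin (n + 1) → Fin d → ℤ} {w : Fin (n + 1) → ℕ} {o : (Fin d → ℤ) → Fin (n + 1)}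
    (G : Gens B e w o) {m : Fin d → ℤ} {l : ℕ} {b : Fin (n + 1) → ℕ} (hl : ∑ j, b j * w j = l)
    (hb : ∀ i, ∑ j, (b j : ℤ) * e j i = m i) : z m l = ∏ j, z (e j) (w j) ^ b j := by
  have h3 := (S01_sum h1 hm Finset.univ (fun j => b j • e j) (fun j => b j * w j)
    fun j _ => (S01_smul h1 hm (G.cone j) (b j)).1).2
  have e1 : ∑ j, b j • e j = m := by
    funext i
    rw [Finset.sum_apply]
    simp only [Pi.smul_apply, nsmul_eq_mul]
    exact hb i
  rw [e1, hl] at h3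
  rw [h3]
  exact Finset.prod_congr rfl fun j _ => (S01_smul h1 hm (G.cone j) (b j)).2

end Pool.Agent.Lib.MP_1e3e9c_agY
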