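import Pool.Agent.Lib.MP_1e3e9c_agY.S01

/-! LEAF S02 (medium+).  Every rational curve has polynomial coordinates without common factor.

PROOF.  Let `m, m', l` be as in `h.nonconst`, `InCone B m' l` with `N > 0`, `b`.  If `l = 0` then all `b a = 0` (sum `N * 0`), so `N m' j = 0`, `m' = 0`, in the same way `m = 0`, and `z m l = 1 = C 1 * z m' l`, a contradiction.  `z m' l ^ N = ∏ z a 1 ^ b a` (`S_pow` for the monoid `RatFunc K`), not zero, and `∑ b a = N l > 0`: so `z a 1 ≠ 0` for some `a ∈ B`.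
Common denominator: `q ≠ 0` in `K[X]` and polynomials `f a` with `q * z a 1 = f a` for `a ∈ B` (`IsLocalization.exist_integer_multiples_of_finset` or the product of the `RatFunc.denom`), some `f a ≠ 0`.  `Finset.extract_gcd f` (`K[X]` is a Euclidean domain; `classical`, `NormalizedGCDMonoid`: `UniqueFactorizationMonoid.toNormalizedGCDMonoid` or `EuclideanDomain.gcdMonoid`): `f a = g * P a`, `gcd (P a) = 1` (as `f ≠ 0`, `g ≠ 0`).
`λ = g / q ∈ RatFunc K`, `λ ≠ 0`, `z a 1 = λ * P a` for `a ∈ B`.  Put `w m l = z m l / λ ^ l`: `one`, `mul` hold, and the equations too.  For `(m, l)` in the cone `w m l ^ N = ∏ (P a) ^ b a` (`S_pow` for `w`) is the image of a polynomial, so `w m l` is the image of a polynomial (`IsIntegrallyClosed.exists_algebraMap_eq_of_isIntegral_pow`, `K[X]` is integrally closed: a UFD).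
`z' m l` := this polynomial (`Classical.choice`), `0` outside the cone.  `one`, `mul`, `eq`: `RatFunc.algebraMap_injective`, `S_zero`, `cone_add` (in `eq` all `(m + m', l)` are in the cone; `RatFunc.C (c j m) = algebraMap (C (c j m))`: `RatFunc.algebraMap_C`).  `z' a 1 = P a` for `a ∈ B`: no common factor (`Finset.dvd_gcd`).
`Two`: otherwise all 2x2 minors of coefficients of the `P a` vanish; let `P a0 ≠ 0` with coefficient `i0` not zero: `P a = C (β a) * P a0`, `β a = (P a).coeff i0 / (P a0).coeff i0`; so `P a0` divides all `P a`, it is a unit, all `P a` are constants.  For `(m, l)` in the cone `(z' m l) ^ N = ∏ (P a) ^ b a` is a constant, so `z' m l` is a constant (`natDegree_pow`, `N > 0`).  So `z m l = λ ^ l * C α`, `z m' l = λ ^ l * C α'`, `α' ≠ 0`: `z m l = C (α / α') * z m' l`, against `nonconst`. -/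

set_option autoImplicit false

namespace Pool.Agent.Lib.MP_1e3e9c_agY

open Polynomial Pool.Agent.Lib.MP_1e3e9c_agV

private theorem S02_prim {K : Type} [Field K] {ι : Type} (B : Finset ι) (y : ι → RatFunc K)
    (h : ∃ a ∈ B, y a ≠ 0) :
    ∃ (q : RatFunc K) (P : ι → K[X]), q ≠ 0 ∧
      (∀ a ∈ B, y a = q * algebraMap K[X] (RatFunc K) (P a)) ∧
      ∀ f : K[X], (∀ a ∈ B, f ∣ P a) → IsUnit f := by
  classical
  obtain ⟨a₀, ha₀, hya₀⟩ := h
  obtain ⟨b, hb⟩ := IsLocalization.exist_integer_multiples (nonZeroDivisors K[X]) B y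
  have hb' : ∀ a, ∃ f : K[X], a ∈ B → algebraMap K[X] (RatFunc K) f = (b : K[X]) • y a := by
    intro a
    by_cases ha : a ∈ B
    · obtain ⟨f, hf⟩ := hb a ha
      exact ⟨f, fun _ => hf⟩
    · exact ⟨0, fun h => absurd h ha⟩
  choose f hf using hb'
  let _ : NormalizedGCDMonoid K[X] := UniqueFactorizationMonoid.toNormalizedGCDMonoid K[X]
  obtain ⟨P, hP, hP1⟩ := Finset.extract_gcd f ⟨a₀, ha₀⟩
  have hb0 : algebraMap K[X] (RatFunc K) (b : K[X]) ≠ 0 := by
    intro h0
    exact nonZeroDivisors.ne_zero b.2 (RatFunc.algebraMap_injective K (by rw [h0, map_zero]))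
  have hg0 : B.gcd f ≠ 0 := by
    intro h0
    have h1 := hP a₀ ha₀
    rw [h0, zero_mul] at h1
    have h2 := hf a₀ ha₀
    rw [h1, map_zero, Algebra.smul_def] at h2
    exact mul_ne_zero hb0 hya₀ h2.symm
  have hg1 : algebraMap K[X] (RatFunc K) (B.gcd f) ≠ 0 := by
    intro h0
    exact hg0 (RatFunc.algebraMap_injective K (by rw [h0, map_zero]))
  refine ⟨algebraMap K[X] (RatFunc K) (B.gcd f) / algebraMap K[X] (RatFunc K) (b : K[X]), P,
    div_ne_zero hg1 hb0, fun a ha => ?_, fun u hu => ?_⟩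
  · have h2 := hf a ha
    rw [hP a ha, map_mul, Algebra.smul_def] at h2
    rw [div_mul_eq_mul_div, h2]
    field_simp
  · have h3 : u ∣ B.gcd P := Finset.dvd_gcd hu
    rw [hP1] at h3
    exact isUnit_of_dvd_one h3

private theorem S02_const {K : Type} [Field K] {ι : Type} (B : Finset ι) (P : ι → K[X])
    (hex : ∃ a ∈ B, P a ≠ 0) (hu : ∀ f : K[X], (∀ a ∈ B, f ∣ P a) → IsUnit f)
    (hm : ∀ a ∈ B, ∀ b ∈ B, ∀ i j : ℕ,
      (P a).coeff i * (P b).coeff j = (P a).coeff j * (P b).coeff i) :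
    ∀ a ∈ B, P a = C ((P a).coeff 0) := by
  obtain ⟨a₀, ha₀, hPa₀⟩ := hex
  obtain ⟨t, ht⟩ : ∃ t : K, t = (P a₀).coeff (P a₀).natDegree := ⟨_, rfl⟩
  have ht0 : t ≠ 0 := by
    rw [ht]
    exact leadingCoeff_ne_zero.2 hPa₀
  have h1 : ∀ a ∈ B, P a = C ((P a).coeff (P a₀).natDegree / t) * P a₀ := by
    intro a ha
    ext j
    rw [coeff_C_mul]
    have h2 := hm a ha a₀ ha₀ j (P a₀).natDegree
    rw [← ht] at h2
    field_simp
    linear_combination h2
  have h2 : IsUnit (P a₀) := hu _ fun a ha => ⟨C ((P a).coeff (P a₀).natDegree / t), by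
    rw [mul_comm]
    exact h1 a ha⟩
  have h3 : (P a₀).natDegree = 0 := natDegree_eq_zero_of_isUnit h2
  intro a ha
  have h4 : (P a).natDegree = 0 := by
    have h5 := h1 a ha
    have h6 : (P a).natDegree ≤ (P a₀).natDegree := by
      rw [h5]
      exact natDegree_C_mul_le _ _
    omega
  exact eq_C_of_natDegree_eq_zero h4

theorem IsCv.toP {K : Type} [Field K] {d s : ℕ} {B : Finset (Fin d → ℤ)}
    {A : Fin (s + 1) → Finset (Fin d → ℤ)} {c : Fin (s + 1) → (Fin d → ℤ) → K}
    {z : (Fin d → ℤ) → ℕ → RatFunc K} (h : IsCv B A c z) :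
    ∃ z' : (Fin d → ℤ) → ℕ → K[X], IsP B A c z' ∧ Two B z' ∧
      ∀ f : K[X], (∀ b ∈ B, f ∣ z' b 1) → IsUnit f := by
  classical
  obtain ⟨m₀, m₁, l₀, hm₀, hm₁, hne, hnc⟩ := h.nonconst
  have hex : ∃ a ∈ B, z a 1 ≠ 0 := by
    obtain ⟨N, b, hN, hl, hb⟩ := hm₁
    have hpow := S_pow h.one h.mul hN hl hb
    by_contra hc
    push Not at hc
    have hb0 : ∀ a ∈ B, b a = 0 := by
      intro a ha
      by_contra hba
      apply hne
      refine (pow_eq_zero_iff (M₀ := RatFunc K) hN.ne').1 ?_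
      rw [hpow]
      exact Finset.prod_eq_zero ha (by rw [hc a ha, zero_pow hba])
    have hl0 : l₀ = 0 := by
      rw [Finset.sum_eq_zero hb0] at hl
      exact (Nat.mul_eq_zero.1 hl.symm).resolve_left hN.ne'
    subst hl0
    have hm10 : m₁ = 0 := by
      funext j
      have h1 := hb j
      rw [Finset.sum_eq_zero fun a ha => by rw [hb0 a ha, Nat.cast_zero, zero_mul]] at h1
      have hN' : (N : ℤ) ≠ 0 := by exact_mod_cast hN.ne'
      exact (mul_eq_zero.1 h1.symm).resolve_left hN'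
    obtain ⟨N', b', hN', hl', hb'⟩ := hm₀
    rw [Nat.mul_zero] at hl'
    have hm00 : m₀ = 0 := by
      funext j
      have h1 := hb' j
      rw [Finset.sum_eq_zero fun a ha => by
        rw [Finset.sum_eq_zero_iff.1 hl' a ha, Nat.cast_zero, zero_mul]] at h1
      have hN'' : (N' : ℤ) ≠ 0 := by exact_mod_cast hN'.ne'
      exact (mul_eq_zero.1 h1.symm).resolve_left hN''
    exact hnc 1 (by rw [hm00, hm10, map_one, one_mul])
  obtain ⟨q, P, hq, hP, hPu⟩ := S02_prim B (fun a => z a 1) hex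
  have hq' : ∀ l : ℕ, q ^ l ≠ 0 := fun l => pow_ne_zero l hq
  obtain ⟨w, hw⟩ : ∃ w : (Fin d → ℤ) → ℕ → RatFunc K, ∀ m l, w m l = z m l / q ^ l :=
    ⟨_, fun _ _ => rfl⟩
  have hw1 : w 0 0 = 1 := by rw [hw, h.one, pow_zero, div_one]
  have hwm : ∀ m l m' l', InCone B m l → InCone B m' l' →
      w (m + m') (l + l') = w m l * w m' l' := by
    intro m l m' l' h1 h2
    rw [hw, hw, hw, h.mul m l m' l' h1 h2, pow_add, div_mul_div_comm]
  have hwa : ∀ a ∈ B, w a 1 = algebraMap K[X] (RatFunc K) (P a) := by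
    intro a ha
    have h1 : z a 1 = q * algebraMap K[X] (RatFunc K) (P a) := hP a ha
    rw [hw, h1, pow_one, mul_div_cancel_left₀ _ hq]
  have hpow : ∀ m l, InCone B m l → ∃ (N : ℕ) (b : (Fin d → ℤ) → ℕ), 0 < N ∧
      w m l ^ N = algebraMap K[X] (RatFunc K) (∏ a ∈ B, P a ^ b a) := by
    rintro m l ⟨N, b, hN, hl, hb⟩
    refine ⟨N, b, hN, ?_⟩
    rw [S_pow hw1 hwm hN hl hb, map_prod]
    exact Finset.prod_congr rfl fun a ha => by rw [hwa a ha, map_pow]
  have hint : ∀ m l, ∃ y : K[X], InCone B m l → algebraMap K[X] (RatFunc K) y = w m l := by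
    intro m l
    by_cases hc : InCone B m l
    · obtain ⟨N, b, hN, hNb⟩ := hpow m l hc
      obtain ⟨y, hy⟩ := IsIntegrallyClosed.exists_algebraMap_eq_of_isIntegral_pow (R := K[X])
        (x := w m l) hN (by
          rw [hNb]
          exact isIntegral_algebraMap)
      exact ⟨y, fun _ => hy⟩
    · exact ⟨0, fun h => absurd h hc⟩
  choose z' hz' using hint
  have hinj := RatFunc.algebraMap_injective K
  have hz1 : ∀ a ∈ B, z' a 1 = P a := by
    intro a ha
    apply hinj
    rw [hz' a 1 (cone_one ha), hwa a ha]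
  refine ⟨z', ⟨?_, ?_, ?_⟩, ?_, ?_⟩
  · apply hinj
    rw [hz' 0 0 (S_zero B), hw1, map_one]
  · intro m l m' l' h1 h2
    apply hinj
    rw [map_mul, hz' _ _ (cone_add h1 h2), hz' _ _ h1, hz' _ _ h2, hwm m l m' l' h1 h2]
  · intro j m' l hc
    apply hinj
    rw [map_sum, map_zero]
    have h1 := h.eq j m' l hc
    have h2 : ∑ m ∈ A j, algebraMap K[X] (RatFunc K) (C (c j m) * z' (m + m') l) =
        (∑ m ∈ A j, RatFunc.C (c j m) * z (m + m') l) / q ^ l := by
      rw [Finset.sum_div]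
      refine Finset.sum_congr rfl fun m hm => ?_
      rw [map_mul, RatFunc.algebraMap_C, hz' _ _ (hc m hm), hw, mul_div_assoc]
    rw [h2, h1, zero_div]
  · by_contra hT
    have hm : ∀ a ∈ B, ∀ b ∈ B, ∀ i j : ℕ,
        (P a).coeff i * (P b).coeff j = (P a).coeff j * (P b).coeff i := by
      intro a ha b hb i j
      by_contra hne'
      apply hT
      refine ⟨a, ha, b, hb, i, j, ?_⟩
      rw [hz1 a ha, hz1 b hb]
      exact hne'
    have hex' : ∃ a ∈ B, P a ≠ 0 := by
      obtain ⟨a, ha, hza⟩ := hex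
      refine ⟨a, ha, fun h0 => hza ?_⟩
      have h1 : z a 1 = q * algebraMap K[X] (RatFunc K) (P a) := hP a ha
      rw [h1, h0, map_zero, mul_zero]
    have hc := S02_const B P hex' hPu hm
    have hconst : ∀ m l, InCone B m l → ∃ α : K, w m l = RatFunc.C α := by
      intro m l hml
      obtain ⟨N, b, hN, hNb⟩ := hpow m l hml
      have h1 : z' m l ^ N = ∏ a ∈ B, P a ^ b a := by
        apply hinj
        rw [map_pow, hz' m l hml, hNb]
      have h2 : ∏ a ∈ B, P a ^ b a = C (∏ a ∈ B, (P a).coeff 0 ^ b a) := by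
        rw [map_prod]
        exact Finset.prod_congr rfl fun a ha => by
          rw [map_pow, ← hc a ha]
      have h3 : (z' m l).natDegree = 0 := by
        have h4 := congrArg natDegree h1
        rw [h2, natDegree_pow, natDegree_C] at h4
        exact (Nat.mul_eq_zero.1 h4).resolve_left hN.ne'
      refine ⟨(z' m l).coeff 0, ?_⟩
      rw [← hz' m l hml, eq_C_of_natDegree_eq_zero h3, RatFunc.algebraMap_C, coeff_C_zero]
    obtain ⟨α, hα⟩ := hconst m₀ l₀ hm₀
    obtain ⟨β, hβ⟩ := hconst m₁ l₀ hm₁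
    have hzw : ∀ m l, z m l = w m l * q ^ l := by
      intro m l
      rw [hw, div_mul_cancel₀ _ (hq' l)]
    have hβ0 : β ≠ 0 := by
      rintro rfl
      apply hne
      rw [hzw, hβ, map_zero, zero_mul]
    apply hnc (α / β)
    rw [hzw m₀ l₀, hzw m₁ l₀, hα, hβ, ← mul_assoc, ← map_mul, div_mul_cancel₀ _ hβ0]
  · intro f hf
    exact hPu f fun a ha => by
      rw [← hz1 a ha]
      exact hf a ha

end Pool.Agent.Lib.MP_1e3e9c_agY
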