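import Pool.Agent.Lib.MP_1e3e9c_agY.S01

/-! LEAF S03 (easy).  Polynomial curves: they are rational curves; substitution; change of the field; other coefficients outside `A`.

PROOF.  `IsP.toCv`: `z1 m l = algebraMap K[X] (RatFunc K) (z m l)`; `one`, `mul`: `map_one`, `map_mul`; `eq`: the image of `h.eq` (`map_sum`, `RatFunc.algebraMap_C`); `nonconst`: `m = b`, `m' = b'`, `l = 1` (`cone_one`): if `z b' 1 = 0` or `z b 1 = C β * z b' 1` (`RatFunc.algebraMap_injective`) the minor is `0` (`coeff_C_mul`).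
`IsP.subst`: `(m, l) ↦ C (g ^ l) * (z m l).comp p`: `one_comp`, `mul_comp`, `C_comp`, `finset_sum_comp` (or `Polynomial.eval₂RingHom`/`compRingHom p`).  `IsP.map`, `Two.map`: `Polynomial.map_mul`, `coeff_map`, `φ.injective`.  `IsP.congr`: `Finset.sum_congr`. -/

set_option autoImplicit false

namespace Pool.Agent.Lib.MP_1e3e9c_agY

open Polynomial Pool.Agent.Lib.MP_1e3e9c_agV

variable {K : Type} [Field K] {d s : ℕ} {B : Finset (Fin d → ℤ)}
  {A : Fin (s + 1) → Finset (Fin d → ℤ)} {c : Fin (s + 1) → (Fin d → ℤ) → K}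
  {z : (Fin d → ℤ) → ℕ → K[X]}

theorem IsP.toCv (h : IsP B A c z) (h2 : Two B z) : ∃ z1, IsCv B A c z1 := by
  obtain ⟨b, hb, b', hb', i, j, hij⟩ := h2
  refine ⟨fun m l => algebraMap K[X] (RatFunc K) (z m l), ?_, ?_, ?_, ?_⟩
  · show algebraMap K[X] (RatFunc K) (z 0 0) = 1
    rw [h.one, map_one]
  · intro m l m' l' hm hm'
    show algebraMap K[X] (RatFunc K) (z (m + m') (l + l')) = _
    rw [h.mul m l m' l' hm hm', map_mul]
  · intro t m' l hm
    have h1 := congrArg (algebraMap K[X] (RatFunc K)) (h.eq t m' l hm)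
    rw [map_zero, map_sum] at h1
    rw [← h1]
    refine Finset.sum_congr rfl fun m _ => ?_
    rw [map_mul, RatFunc.algebraMap_C]
  · refine ⟨b, b', 1, cone_one hb, cone_one hb', ?_, ?_⟩
    · intro h0
      have h1 : z b' 1 = 0 := (map_eq_zero_iff _ (RatFunc.algebraMap_injective K)).1 h0
      apply hij
      rw [h1, coeff_zero, coeff_zero, mul_zero, mul_zero]
    · intro β h0
      have h1 : z b 1 = C β * z b' 1 := by
        apply RatFunc.algebraMap_injective K
        rw [map_mul, RatFunc.algebraMap_C]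
        exact h0
      apply hij
      rw [h1, coeff_C_mul, coeff_C_mul]
      ring

theorem IsP.subst (h : IsP B A c z) (g : K) (p : K[X]) :
    IsP B A c fun m l => C (g ^ l) * (z m l).comp p := by
  refine ⟨?_, ?_, ?_⟩
  · show C (g ^ 0) * (z 0 0).comp p = 1
    rw [h.one, one_comp, pow_zero, C_1, mul_one]
  · intro m l m' l' hm hm'
    show C (g ^ (l + l')) * (z (m + m') (l + l')).comp p =
      (C (g ^ l) * (z m l).comp p) * (C (g ^ l') * (z m' l').comp p)
    rw [h.mul m l m' l' hm hm', mul_comp, pow_add, C_mul]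
    ring
  · intro t m' l hm
    have h1 := congrArg (fun q : K[X] => C (g ^ l) * q.comp p) (h.eq t m' l hm)
    simp only [zero_comp, mul_zero] at h1
    rw [← h1, Polynomial.sum_comp, Finset.mul_sum]
    refine Finset.sum_congr rfl fun m _ => ?_
    rw [mul_comp, C_comp]
    ring

theorem IsP.map {K' : Type} [Field K'] (φ : K →+* K') (h : IsP B A c z) :
    IsP B A (fun j m => φ (c j m)) fun m l => (z m l).map φ := by
  refine ⟨?_, ?_, ?_⟩
  · show (z 0 0).map φ = 1
    rw [h.one, Polynomial.map_one]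
  · intro m l m' l' hm hm'
    show (z (m + m') (l + l')).map φ = _
    rw [h.mul m l m' l' hm hm', Polynomial.map_mul]
  · intro t m' l hm
    have h1 := congrArg (Polynomial.map φ) (h.eq t m' l hm)
    rw [Polynomial.map_zero, Polynomial.map_sum] at h1
    rw [← h1]
    refine Finset.sum_congr rfl fun m _ => ?_
    rw [Polynomial.map_mul, map_C]

theorem Two.map {K' : Type} [Field K'] (φ : K →+* K') (h : Two B z) :
    Two B fun m l => (z m l).map φ := by
  obtain ⟨b, hb, b', hb', i, j, hij⟩ := h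
  refine ⟨b, hb, b', hb', i, j, ?_⟩
  show ((z b 1).map φ).coeff i * ((z b' 1).map φ).coeff j ≠
    ((z b 1).map φ).coeff j * ((z b' 1).map φ).coeff i
  rw [coeff_map, coeff_map, coeff_map, coeff_map, ← map_mul, ← map_mul]
  exact fun h0 => hij (φ.injective h0)

theorem IsP.congr {c' : Fin (s + 1) → (Fin d → ℤ) → K} (h : IsP B A c z)
    (hc : ∀ j, ∀ m ∈ A j, c j m = c' j m) : IsP B A c' z := by
  refine ⟨h.one, h.mul, fun t m' l hm => ?_⟩
  rw [← h.eq t m' l hm]
  refine Finset.sum_congr rfl fun m hm1 => ?_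
  rw [hc t m hm1]

end Pool.Agent.Lib.MP_1e3e9c_agY
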