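import Mathlib

/-! LEAF S06 (medium+, independent).  Newton polygon: a substitution `X ↦ θ X` after which the reduction has two coordinates which are not proportional.

PROOF.  `|x| = w x`.  `π_i = max_b |(P b).coeff i|` (`Finset.univ.sup'` or choose for each `i` an index `B i` with the largest value), `a_i = (P b0).coeff i`.  Assume that the conclusion is false: (H) for `θ ≠ 0`, `γ ≠ 0` with `|(P b).coeff i * θ^i| ≤ |γ|` for all `b, i` every minor has `|...| ≠ |γ|^2`.
Property `Q i`: `a_i ≠ 0`, `|a_i| = π_i`, and for all `j > i`, `i' < i`, `ρ ∈ L` with `π_(i') = |a_i| * |ρ|^(i - i')`: `π_j * |ρ|^(j - i) ≤ |a_i|`.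
`Q δ`: `h1`, `h2`, and `π_j = 0` for `j > δ` (`hδ`).  Claim: `Q i` implies `Q i'` for some `i' < i`; by induction this gives a contradiction.
`i = 0` is impossible: `a_0 = 0` (`h3`) but `Q 0` says `a_0 ≠ 0`.  Let `i > 0`.  For `i'' < i` with `π_(i'') ≠ 0` let `θ_(i'')` be a root of `θ^(i - i'') = (P (B i'')).coeff i'' / a_i` (`IsAlgClosed.exists_pow_nat_eq`), so `π_(i'') = |a_i| |θ_(i'')|^(i - i'')`, `θ_(i'') ≠ 0`; such `i''` exist: `i'' = 0` (`h4`).  Take the one with `|θ_(i'')|` maximal (`Finset.exists_max_image`): `θ`.  `γ = a_i θ^i`.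
Then `π_j |θ|^j ≤ |γ|` for all `j`: `j = i`: equality; `j > i`: `Q i` with `ρ = θ`; `j < i`, `π_j ≠ 0`: `π_j = |a_i| |θ_j|^(i - j) ≤ |a_i| |θ|^(i - j)`; with equality for the chosen `i''`.  Let `i'` be the least index with `π_(i') |θ|^(i') = |γ|`: `i' ≤ i'' < i`, `π_(i') ≠ 0`; `b' = B i'`.  The minor of `b0, b', i, i'` is `a_i * (P b').coeff i' - a_(i') * (P b').coeff i`, times `θ^(i + i')`.
The first term has value `|γ|^2`.  If `|a_(i') θ^(i')| < |γ|` the second one has value `< |γ|^2` (`|(P b').coeff i * θ^i| ≤ |γ|`, `|γ| > 0`), so the difference has value `|γ|^2` (`Valuation.map_sub_eq_of_lt_right` or similar), against (H).  So `|a_(i') θ^(i')| = |γ|`, `|a_(i')| = π_(i')`, `a_(i') ≠ 0`.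
Last part of `Q i'`: `j > i'`, `n < i'`, `π_n = |a_(i')| |ρ|^(i' - n)`: by the minimality of `i'`: `π_n |θ|^n < |γ| = |a_(i')| |θ|^(i')`, so `|ρ|^(i' - n) < |θ|^(i' - n)`, `|ρ| < |θ|`, and `π_j |ρ|^(j - i') ≤ π_j |θ|^(j - i') ≤ |a_(i')|`. -/

set_option autoImplicit false

namespace Pool.Agent.Lib.MP_1e3e9c_agY

open Polynomial

theorem newton {L Γ β : Type} [Field L] [IsAlgClosed L] [LinearOrderedCommGroupWithZero Γ]
    (w : Valuation L Γ) [Finite β] (P : β → L[X]) (b0 : β) (δ : ℕ)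
    (hδ : ∀ b, (P b).natDegree ≤ δ) (h1 : (P b0).coeff δ ≠ 0)
    (h2 : ∀ b, w ((P b).coeff δ) ≤ w ((P b0).coeff δ)) (h3 : (P b0).coeff 0 = 0)
    (h4 : ∃ b, (P b).coeff 0 ≠ 0) :
    ∃ θ γ : L, θ ≠ 0 ∧ γ ≠ 0 ∧ (∀ b i, w ((P b).coeff i * θ ^ i) ≤ w γ) ∧
      ∃ b b' i i', w (((P b).coeff i * (P b').coeff i' - (P b).coeff i' * (P b').coeff i) *
        θ ^ (i + i')) = w γ ^ 2 := by
  classical
  have hft : Fintype β := Fintype.ofFinite β
  have hne : Nonempty β := ⟨b0⟩
  by_contra hcon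
  have H : ∀ θ γ : L, θ ≠ 0 → γ ≠ 0 → (∀ b i, w ((P b).coeff i * θ ^ i) ≤ w γ) → ∀ b b' i i',
      w (((P b).coeff i * (P b').coeff i' - (P b).coeff i' * (P b').coeff i) * θ ^ (i + i')) ≠ w γ ^ 2 := by
    intro θ γ hθ hγ h b b' i i' he
    exact hcon ⟨θ, γ, hθ, hγ, h, b, b', i, i', he⟩
  have hB : ∀ i : ℕ, ∃ b, ∀ b', w ((P b').coeff i) ≤ w ((P b).coeff i) := by
    intro i
    obtain ⟨b, -, hb⟩ := Finset.exists_max_image (Finset.univ : Finset β) (fun b => w ((P b).coeff i))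
      ⟨b0, Finset.mem_univ _⟩
    exact ⟨b, fun b' => hb b' (Finset.mem_univ _)⟩
  choose B hB using hB
  obtain ⟨π, hπ⟩ : ∃ π : ℕ → Γ, ∀ i, π i = w ((P (B i)).coeff i) := ⟨fun i => w ((P (B i)).coeff i), fun _ => rfl⟩
  obtain ⟨A, hA⟩ : ∃ A : ℕ → L, ∀ i, A i = (P b0).coeff i := ⟨fun i => (P b0).coeff i, fun _ => rfl⟩
  have hle : ∀ b i, w ((P b).coeff i) ≤ π i := fun b i => by
    rw [hπ]
    exact hB i b
  have hAle : ∀ i, w (A i) ≤ π i := fun i => by
    rw [hA]
    exact hle b0 i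
  have hπ0 : π 0 ≠ 0 := by
    obtain ⟨b, hb⟩ := h4
    intro h
    have h5 := hle b 0
    rw [h] at h5
    exact hb ((Valuation.zero_iff w).1 (le_zero_iff.1 h5))
  have step : ∀ i, (A i ≠ 0 ∧ w (A i) = π i ∧ ∀ j > i, ∀ n < i, ∀ ρ : L, π n = w (A i) * w ρ ^ (i - n) →
      π j * w ρ ^ (j - i) ≤ w (A i)) → ∃ i' < i, (A i' ≠ 0 ∧ w (A i') = π i' ∧ ∀ j > i', ∀ n < i', ∀ ρ : L,
      π n = w (A i') * w ρ ^ (i' - n) → π j * w ρ ^ (j - i') ≤ w (A i')) := by
    rintro i ⟨hi0, hi1, hi2⟩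
    have hi : 0 < i := by
      rcases Nat.eq_zero_or_pos i with h | h
      · exfalso
        apply hi0
        rw [hA, h]
        exact h3
      · exact h
    have hwi : w (A i) ≠ 0 := (Valuation.ne_zero_iff w).2 hi0
    have hroot : ∀ n : ℕ, ∃ θ : L, n < i → π n = w (A i) * w θ ^ (i - n) := by
      intro n
      by_cases hn : n < i
      · obtain ⟨θ, hθ⟩ := IsAlgClosed.exists_pow_nat_eq ((P (B n)).coeff n / A i) (Nat.sub_pos_of_lt hn)
        refine ⟨θ, fun _ => ?_⟩
        rw [← map_pow, hθ, map_div₀, hπ, mul_div_cancel₀ _ hwi]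
      · exact ⟨0, fun h => absurd h hn⟩
    choose T hT using hroot
    obtain ⟨m, hm, hmax⟩ := Finset.exists_max_image (Finset.range i) (fun n => w (T n))
      ⟨0, Finset.mem_range.2 hi⟩
    have hm' : m < i := Finset.mem_range.1 hm
    obtain ⟨θ, hθd⟩ : ∃ θ, θ = T m := ⟨_, rfl⟩
    have hmax' : ∀ n < i, w (T n) ≤ w θ := fun n hn => by
      rw [hθd]
      exact hmax n (Finset.mem_range.2 hn)
    have hθm : π m = w (A i) * w θ ^ (i - m) := by
      rw [hθd]
      exact hT m hm'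
    have hwθ : w θ ≠ 0 := by
      intro h
      have h5 := hmax' 0 hi
      rw [h] at h5
      have h6 := hT 0 hi
      rw [le_zero_iff.1 h5, zero_pow (by omega), mul_zero] at h6
      exact hπ0 h6
    have hθ0 : θ ≠ 0 := (Valuation.ne_zero_iff w).1 hwθ
    obtain ⟨γ, hγ⟩ : ∃ γ, γ = A i * θ ^ i := ⟨_, rfl⟩
    have hwγ : w γ = w (A i) * w θ ^ i := by
      rw [hγ, map_mul, map_pow]
    have hγ0 : γ ≠ 0 := by
      rw [hγ]
      exact mul_ne_zero hi0 (pow_ne_zero _ hθ0)
    have hwγ0 : w γ ≠ 0 := (Valuation.ne_zero_iff w).2 hγ0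
    have hbound : ∀ j, π j * w θ ^ j ≤ w γ := by
      intro j
      rw [hwγ]
      rcases lt_trichotomy j i with h | h | h
      · have h5 : w θ ^ i = w θ ^ (i - j) * w θ ^ j := by
          rw [← pow_add]
          congr 1
          omega
        rw [hT j h, h5, ← mul_assoc]
        exact mul_le_mul_left (mul_le_mul_right (pow_le_pow_left' (hmax' j h) _) _) _
      · rw [h, ← hi1]
      · have h5 : w θ ^ j = w θ ^ (j - i) * w θ ^ i := by
          rw [← pow_add]
          congr 1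
          omega
        rw [h5, ← mul_assoc]
        exact mul_le_mul_left (hi2 j h m hm' θ hθm) _
    have hall : ∀ b j, w ((P b).coeff j * θ ^ j) ≤ w γ := by
      intro b j
      rw [map_mul, map_pow]
      exact (mul_le_mul_left (hle b j) _).trans (hbound j)
    have hexm : π m * w θ ^ m = w γ := by
      rw [hθm, hwγ, mul_assoc, ← pow_add]
      congr 2
      omega
    have hex : ∃ n, π n * w θ ^ n = w γ := ⟨m, hexm⟩
    obtain ⟨i', hi'e, hi'm⟩ : ∃ i', π i' * w θ ^ i' = w γ ∧ ∀ n < i', π n * w θ ^ n ≠ w γ :=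
      ⟨Nat.find hex, Nat.find_spec hex, fun n hn => Nat.find_min hex hn⟩
    have hi'i : i' < i := by
      by_contra hlt
      exact hi'm m (by omega) hexm
    have hpow : ∀ n : ℕ, 0 < w θ ^ n := fun n => zero_lt_iff.2 (pow_ne_zero _ hwθ)
    have hkey : w (A i') * w θ ^ i' = w γ := by
      have h5 : w (A i') * w θ ^ i' ≤ w γ := (mul_le_mul_left (hAle i') _).trans (hbound i')
      refine le_antisymm h5 (not_lt.1 fun hlt => ?_)
      apply H θ γ hθ0 hγ0 hall b0 (B i') i i'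
      have h6 : ((P b0).coeff i * (P (B i')).coeff i' - (P b0).coeff i' * (P (B i')).coeff i) * θ ^ (i + i') =
          (A i * θ ^ i) * ((P (B i')).coeff i' * θ ^ i') - (A i' * θ ^ i') * ((P (B i')).coeff i * θ ^ i) := by
        rw [hA, hA, pow_add]
        ring
      have h7 : w ((A i * θ ^ i) * ((P (B i')).coeff i' * θ ^ i')) = w γ ^ 2 := by
        rw [map_mul, ← hγ, map_mul, map_pow, ← hπ, hi'e, sq]
      have h8 : w ((A i' * θ ^ i') * ((P (B i')).coeff i * θ ^ i)) < w γ ^ 2 := by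
        have h9 : w (A i' * θ ^ i') < w γ := by
          rw [map_mul, map_pow]
          exact hlt
        have h10 := hall (B i') i
        rw [map_mul w (A i' * θ ^ i'), sq]
        calc w (A i' * θ ^ i') * w ((P (B i')).coeff i * θ ^ i) ≤ w (A i' * θ ^ i') * w γ :=
              mul_le_mul_right h10 _
          _ < w γ * w γ := mul_lt_mul_of_pos_right h9 (zero_lt_iff.2 hwγ0)
      rw [h6]
      rw [Valuation.map_sub_eq_of_lt_left w (by rw [h7]; exact h8), h7]
    have hAi'0 : A i' ≠ 0 := by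
      intro h
      rw [h, map_zero, zero_mul] at hkey
      exact hwγ0 hkey.symm
    refine ⟨i', hi'i, hAi'0, ?_, ?_⟩
    · refine mul_right_cancel₀ (hpow i').ne' ?_
      rw [hkey, hi'e]
    · intro j hj n hn ρ hρ
      have hwi' : w (A i') ≠ 0 := (Valuation.ne_zero_iff w).2 hAi'0
      have h5 : π n * w θ ^ n < w γ := lt_of_le_of_ne (hbound n) (hi'm n hn)
      have h6 : w θ ^ i' = w θ ^ (i' - n) * w θ ^ n := by
        rw [← pow_add]
        congr 1
        omega
      rw [hρ, ← hkey, h6, ← mul_assoc] at h5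
      have h7 : w (A i') * w ρ ^ (i' - n) < w (A i') * w θ ^ (i' - n) := lt_of_mul_lt_mul_right h5 (hpow n).le
      have h8 : w ρ ^ (i' - n) < w θ ^ (i' - n) := lt_of_mul_lt_mul_left h7 (zero_le)
      have h9 : w ρ < w θ := lt_of_pow_lt_pow_left₀ _ zero_le h8
      have h10 : π j * w θ ^ (j - i') ≤ w (A i') := by
        have h11 := hbound j
        have h12 : w θ ^ j = w θ ^ (j - i') * w θ ^ i' := by
          rw [← pow_add]
          congr 1
          omega
        rw [← hkey, h12, ← mul_assoc] at h11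
        exact le_of_mul_le_mul_right h11 (hpow i')
      exact (mul_le_mul_right (pow_le_pow_left' h9.le _) _).trans h10
  have hno : ∀ i, ¬ (A i ≠ 0 ∧ w (A i) = π i ∧ ∀ j > i, ∀ n < i, ∀ ρ : L, π n = w (A i) * w ρ ^ (i - n) →
      π j * w ρ ^ (j - i) ≤ w (A i)) := by
    intro i
    induction i using Nat.strong_induction_on with
    | _ i ih =>
      intro h
      obtain ⟨i', hi', h'⟩ := step i h
      exact ih i' hi' h'
  refine hno δ ⟨?_, ?_, ?_⟩
  · rw [hA]
    exact h1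
  · refine le_antisymm (hAle δ) ?_
    rw [hπ, hA]
    exact h2 _
  · intro j hj n _ ρ _
    have h5 : π j = 0 := by
      rw [hπ, coeff_eq_zero_of_natDegree_lt (lt_of_le_of_lt (hδ _) hj), map_zero]
    rw [h5, zero_mul]
    exact zero_le

end Pool.Agent.Lib.MP_1e3e9c_agY
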