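import Pool.Agent.Lib.MP_1e3e9c_agY.S01

/-! LEAF S07 (medium).  Integrality of the coordinates and reduction.

PROOF.  `coeff_mem`: let `InCone B m l` with `N > 0`, `b`: `z m l ^ N = ∏ a ∈ B, z a 1 ^ b a` (`S_pow`) is the image of a polynomial with coefficients in `V` (`Polynomial.lifts` is a subring; `lifts_iff_coeff_lifts`), so `z m l` is integral over `V[X]` (`IsIntegral.of_pow`; algebra `V[X] → L[X]`: `Polynomial.polynomialAlgebra`/`Polynomial.algebra`, as in `Polynomial.IsIntegral.coeff`), its coefficients are integral over `V`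
(`Polynomial.IsIntegral.coeff`), so they are in `V` (a valuation ring is integrally closed: `IsIntegrallyClosed.isIntegral_iff`, `IsFractionRing V L` is an instance).
`reduce`: for `(m, l)` in the cone let `y m l : V[X]` be the polynomial with image `z m l` (`lifts`), `z' m l = (y m l).map (residue V)`, `0` outside the cone.  `one`, `mul`, `eq`: the same equations hold for `y` (the map `V[X] → L[X]` is injective: `map_injective _ Subtype.val_injective`), `S_zero`, `cone_add`. -/

set_option autoImplicit false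

namespace Pool.Agent.Lib.MP_1e3e9c_agY

open Polynomial Pool.Agent.Lib.MP_1e3e9c_agV

variable {L : Type} [Field L] (V : ValuationSubring L) {d s : ℕ} {B : Finset (Fin d → ℤ)}
  {A : Fin (s + 1) → Finset (Fin d → ℤ)}

theorem coeff_mem {c : Fin (s + 1) → (Fin d → ℤ) → L} {z : (Fin d → ℤ) → ℕ → L[X]}
    (h : IsP B A c z) (hz : ∀ b ∈ B, ∀ i, (z b 1).coeff i ∈ V) {m : Fin d → ℤ} {l : ℕ}
    (hm : InCone B m l) (i : ℕ) : (z m l).coeff i ∈ V := by
  obtain ⟨N, b, hN, hl, hb⟩ := hm
  let _ : Algebra V[X] L[X] := Polynomial.algebra V L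
  have h1 : ∀ a ∈ B, IsIntegral V[X] (z a 1) := by
    intro a ha
    refine Polynomial.isIntegral_iff_isIntegral_coeff.2 fun n => ?_
    have h2 : (z a 1).coeff n = algebraMap V L ⟨(z a 1).coeff n, hz a ha n⟩ := rfl
    rw [h2]
    exact isIntegral_algebraMap
  have h2 : IsIntegral V[X] (z m l ^ N) := by
    rw [S_pow h.one h.mul hN hl hb]
    exact IsIntegral.prod _ fun a ha => (h1 a ha).pow _
  have h3 : IsIntegral V ((z m l).coeff i) := (h2.of_pow hN).coeff i
  obtain ⟨y, hy⟩ := IsIntegrallyClosed.isIntegral_iff.1 h3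
  rw [← hy]
  exact y.2

theorem reduce {c : Fin (s + 1) → (Fin d → ℤ) → V} {z : (Fin d → ℤ) → ℕ → L[X]}
    (h : IsP B A (fun j m => (c j m : L)) z)
    (hz : ∀ m l, InCone B m l → ∀ i, (z m l).coeff i ∈ V) :
    ∃ z' : (Fin d → ℤ) → ℕ → (IsLocalRing.ResidueField V)[X],
      IsP B A (fun j m => IsLocalRing.residue V (c j m)) z' ∧
      ∀ m l (hm : InCone B m l) i,
        (z' m l).coeff i = IsLocalRing.residue V ⟨(z m l).coeff i, hz m l hm i⟩ := by
  have hex : ∀ m l, ∃ y : V[X], InCone B m l → y.map (algebraMap V L) = z m l := by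
    intro m l
    by_cases hml : InCone B m l
    · have h1 : z m l ∈ Polynomial.lifts (algebraMap V L) := by
        rw [Polynomial.lifts_iff_coeff_lifts]
        intro n
        exact ⟨⟨(z m l).coeff n, hz m l hml n⟩, rfl⟩
      obtain ⟨y, hy⟩ := (Polynomial.mem_lifts _).1 h1
      exact ⟨y, fun _ => hy⟩
    · exact ⟨0, fun h' => absurd h' hml⟩
  choose y hy using hex
  have hinj : Function.Injective (Polynomial.map (algebraMap V L)) :=
    Polynomial.map_injective _ Subtype.val_injective
  refine ⟨fun m l => (y m l).map (IsLocalRing.residue V), ⟨?_, ?_, ?_⟩, ?_⟩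
  · have h1 : y 0 0 = 1 := by
      refine hinj ?_
      rw [hy 0 0 (S_zero B), h.one, Polynomial.map_one]
    show (y 0 0).map (IsLocalRing.residue V) = 1
    rw [h1, Polynomial.map_one]
  · intro m l m' l' hm hm'
    have h1 : y (m + m') (l + l') = y m l * y m' l' := by
      refine hinj ?_
      rw [hy _ _ (cone_add hm hm'), h.mul m l m' l' hm hm', Polynomial.map_mul, hy m l hm, hy m' l' hm']
    show (y (m + m') (l + l')).map (IsLocalRing.residue V) =
      (y m l).map (IsLocalRing.residue V) * (y m' l').map (IsLocalRing.residue V)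
    rw [h1, Polynomial.map_mul]
  · intro j m' l hm
    have h1 : ∑ m ∈ A j, C (c j m) * y (m + m') l = 0 := by
      refine hinj ?_
      rw [Polynomial.map_sum, Polynomial.map_zero, ← h.eq j m' l hm]
      refine Finset.sum_congr rfl fun m hmA => ?_
      rw [Polynomial.map_mul, Polynomial.map_C, hy _ _ (hm m hmA)]
      rfl
    have h2 := congrArg (Polynomial.map (IsLocalRing.residue V)) h1
    rw [Polynomial.map_sum, Polynomial.map_zero] at h2
    rw [← h2]
    refine Finset.sum_congr rfl fun m _ => ?_
    rw [Polynomial.map_mul, Polynomial.map_C]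
  · intro m l hm i
    show ((y m l).map (IsLocalRing.residue V)).coeff i = _
    rw [Polynomial.coeff_map]
    congr 1
    refine Subtype.ext ?_
    show algebraMap V L ((y m l).coeff i) = (z m l).coeff i
    rw [← Polynomial.coeff_map, hy m l hm]

end Pool.Agent.Lib.MP_1e3e9c_agY
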