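import Pool.Agent.Lib.MP_1e3e9c_agY.S02
import Pool.Agent.Lib.MP_1e3e9c_agY.S03
import Pool.Agent.Lib.MP_1e3e9c_agY.S06
import Pool.Agent.Lib.MP_1e3e9c_agY.S07

/-! LEAF S09 (medium).  A curve over the field `L` of a valuation ring `V`, on a system with coefficients in `V`, gives a curve on the reduced system.

PROOF.  `h.toP`: `z1`, `IsP`, `Two`, no common factor.  `δ` = the maximum of the `(z1 b 1).natDegree`, `b ∈ B`; `δ ≥ 1`: `Two` has a minor `≠ 0` with indices `i ≠ i'`.  Let `b0 ∈ B` be such that `w ((z1 b 1).coeff δ)` is maximal (`w = V.valuation`, `Finset.exists_max_image`); some `(z1 b 1).coeff δ ≠ 0`, so the one of `b0` is not `0`, `natDegree = δ ≥ 1`: a root `τ` of `z1 b0 1` (`IsAlgClosed.exists_root`, `degree ≠ 0`).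
`z2 m l = (z1 m l).comp (X + C τ)` (`IsP.subst` with `g = 1`; `simp` for `C (1 ^ l) = 1`): the degree and the coefficient of index `δ` of the `z2 b 1` are the ones of the `z1 b 1` (`natDegree_comp`, `coeff_comp_degree_mul_degree` / `leadingCoeff_comp`, for the polynomials of degree `< δ` both coefficients vanish), `(z2 b 1).coeff 0 = (z1 b 1).eval τ`: `0` for `b0`; some `b ∈ B` with `≠ 0`: otherwise `X - C τ` divides all `z1 b 1` (`dvd_iff_isRoot`) and is not a unit.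
`newton` for `β = {b // b ∈ B}`, `P b = z2 b 1`: `θ, γ`.  `z3 m l = C ((γ⁻¹) ^ l) * (z2 m l).comp (C θ * X)` (`IsP.subst`); `((z2 m l).comp (C θ * X)).coeff i = (z2 m l).coeff i * θ ^ i` (`comp_C_mul_X_coeff`).  `(z3 b 1).coeff i ∈ V`: its value is `≤ 1` (`ValuationSubring.valuation_le_one_iff`, `map_mul`, `map_inv₀`).  `coeff_mem`, `reduce`: `z'`.
`Two B z'` with `b, b', i, i'` of `newton`: the difference of the two sides is the residue of `γ⁻² * minor * θ^(i + i')`, of value `1`, a unit of `V` (`ValuationSubring.valuation_eq_one_iff`), so not `0` in the residue field (`IsLocalRing.residue_ne_zero_iff_isUnit`). -/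

set_option autoImplicit false

namespace Pool.Agent.Lib.MP_1e3e9c_agY

open Polynomial Pool.Agent.Lib.MP_1e3e9c_agV

private theorem S09_nd {L : Type} [Field L] {p : L[X]} {δ : ℕ} (hp : p.natDegree ≤ δ) (τ : L) :
    (p.comp (X + C τ)).natDegree ≤ δ ∧ (p.comp (X + C τ)).coeff δ = p.coeff δ := by
  have h1 : (p.comp (X + C τ)).natDegree = p.natDegree := by
    rw [natDegree_comp, natDegree_X_add_C, mul_one]
  refine ⟨by rw [h1]; exact hp, ?_⟩
  rcases lt_or_eq_of_le hp with h2 | h2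
  · rw [coeff_eq_zero_of_natDegree_lt (by rw [h1]; exact h2), coeff_eq_zero_of_natDegree_lt h2]
  · have h3 : (p.comp (X + C τ)).leadingCoeff = p.leadingCoeff := by
      rw [leadingCoeff_comp (by rw [natDegree_X_add_C]; exact one_ne_zero), leadingCoeff_X_add_C, one_pow,
        mul_one]
    rw [leadingCoeff, leadingCoeff, h1, h2] at h3
    exact h3

private theorem S09_c0 {L : Type} [Field L] (p : L[X]) (τ : L) :
    (p.comp (X + C τ)).coeff 0 = p.eval τ := by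
  rw [coeff_zero_eq_eval_zero, eval_comp]
  simp

private theorem S09_co {L : Type} [Field L] (p : L[X]) (τ θ γ : L) (i : ℕ) :
    (C (γ ^ 1) * (C ((1 : L) ^ 1) * p.comp (X + C τ)).comp (C θ * X)).coeff i =
      γ * ((p.comp (X + C τ)).coeff i * θ ^ i) := by
  rw [one_pow, C_1, one_mul, pow_one, coeff_C_mul, comp_C_mul_X_coeff]

theorem gauss {L : Type} [Field L] [IsAlgClosed L] (V : ValuationSubring L) {d s : ℕ}
    {B : Finset (Fin d → ℤ)} {A : Fin (s + 1) → Finset (Fin d → ℤ)}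
    {c : Fin (s + 1) → (Fin d → ℤ) → V} {z : (Fin d → ℤ) → ℕ → RatFunc L}
    (h : IsCv B A (fun j m => (c j m : L)) z) :
    ∃ z' : (Fin d → ℤ) → ℕ → (IsLocalRing.ResidueField V)[X],
      IsP B A (fun j m => IsLocalRing.residue V (c j m)) z' ∧ Two B z' := by
  classical
  obtain ⟨z1, hz1, h2, hcop⟩ := h.toP
  set δ := B.sup fun b => (z1 b 1).natDegree with hδdef
  have hδ : ∀ b ∈ B, (z1 b 1).natDegree ≤ δ := fun b hb =>
    Finset.le_sup (f := fun b => (z1 b 1).natDegree) hb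
  obtain ⟨b₁, hb₁, b₂, hb₂, i₁, i₂, hmin₀⟩ := h2
  obtain ⟨bm, hbm, hbδ⟩ := Finset.exists_mem_eq_sup B ⟨b₁, hb₁⟩ (fun b => (z1 b 1).natDegree)
  have hδ1 : δ ≠ 0 := by
    intro h0
    have hz : ∀ b ∈ B, ∀ i, i ≠ 0 → (z1 b 1).coeff i = 0 := fun b hb i hi =>
      coeff_eq_zero_of_natDegree_lt (by have := hδ b hb; omega)
    by_cases hi : i₁ = 0
    · by_cases hj : i₂ = 0
      · rw [hi, hj] at hmin₀
        exact hmin₀ rfl
      · exact hmin₀ (by rw [hz b₁ hb₁ i₂ hj, hz b₂ hb₂ i₂ hj, mul_zero, zero_mul])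
    · exact hmin₀ (by rw [hz b₁ hb₁ i₁ hi, hz b₂ hb₂ i₁ hi, mul_zero, zero_mul])
  have hbmne : (z1 bm 1).coeff δ ≠ 0 := by
    have h3 : (z1 bm 1).natDegree = δ := hbδ.symm
    rw [← h3]
    change (z1 bm 1).leadingCoeff ≠ 0
    rw [Ne, leadingCoeff_eq_zero]
    intro h4
    rw [h4, natDegree_zero] at h3
    exact hδ1 h3.symm
  obtain ⟨b0, hb0, hmax⟩ := Finset.exists_max_image B (fun b => V.valuation ((z1 b 1).coeff δ)) ⟨b₁, hb₁⟩
  have hb0ne : (z1 b0 1).coeff δ ≠ 0 := by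
    intro h3
    have h4 := hmax bm hbm
    simp only [h3, map_zero, le_zero_iff, map_eq_zero] at h4
    exact hbmne h4
  have hb0d : (z1 b0 1).natDegree = δ := le_antisymm (hδ b0 hb0) (le_natDegree_of_ne_zero hb0ne)
  obtain ⟨τ, hτ⟩ := IsAlgClosed.exists_root (z1 b0 1)
    (degree_ne_of_natDegree_ne (n := 0) (by rw [hb0d]; exact hδ1))
  have hne : ∃ b ∈ B, (z1 b 1).eval τ ≠ 0 := by
    by_contra hcon
    push Not at hcon
    have h3 := hcop (X - C τ) fun b hb => dvd_iff_isRoot.mpr (hcon b hb)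
    exact not_isUnit_X_sub_C τ h3
  obtain ⟨θ, γ, hθ, hγ, hle, b, b', i, i', hmin⟩ := newton V.valuation
    (fun b : {b // b ∈ B} => (z1 b.1 1).comp (X + C τ)) ⟨b0, hb0⟩ δ
    (fun b => (S09_nd (hδ b.1 b.2) τ).1)
    (by
      change ((z1 b0 1).comp (X + C τ)).coeff δ ≠ 0
      rw [(S09_nd (hδ b0 hb0) τ).2]
      exact hb0ne)
    (by
      intro b
      change V.valuation (((z1 b.1 1).comp (X + C τ)).coeff δ) ≤
        V.valuation (((z1 b0 1).comp (X + C τ)).coeff δ)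
      rw [(S09_nd (hδ b0 hb0) τ).2, (S09_nd (hδ b.1 b.2) τ).2]
      exact hmax b.1 b.2)
    (by
      change ((z1 b0 1).comp (X + C τ)).coeff 0 = 0
      rw [S09_c0]
      exact hτ)
    (by
      obtain ⟨b, hb, hb3⟩ := hne
      exact ⟨⟨b, hb⟩, by
        change ((z1 b 1).comp (X + C τ)).coeff 0 ≠ 0
        rw [S09_c0]
        exact hb3⟩)
  have hz3 := (hz1.subst 1 (X + C τ)).subst γ⁻¹ (C θ * X)
  have hwγ : V.valuation γ ≠ 0 := (_root_.map_ne_zero _).mpr hγ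
  have hmem1 : ∀ b ∈ B, ∀ i, (C (γ⁻¹ ^ 1) * (C ((1 : L) ^ 1) * (z1 b 1).comp (X + C τ)).comp (C θ * X)).coeff i ∈ V := by
    intro b hb i
    rw [S09_co, ← ValuationSubring.valuation_le_one_iff, map_mul, map_inv₀]
    have h3 := hle ⟨b, hb⟩ i
    change V.valuation (((z1 b 1).comp (X + C τ)).coeff i * θ ^ i) ≤ V.valuation γ at h3
    rw [inv_mul_le_one₀ (zero_lt_iff.mpr hwγ)]
    exact h3
  have hmem := fun m l (hm : InCone B m l) => coeff_mem V hz3 hmem1 hm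
  obtain ⟨z', hz', hcoef⟩ := reduce V hz3 hmem
  refine ⟨z', hz', b.1, b.2, b'.1, b'.2, i, i', ?_⟩
  rw [hcoef b.1 1 (cone_one b.2) i, hcoef b'.1 1 (cone_one b'.2) i', hcoef b.1 1 (cone_one b.2) i',
    hcoef b'.1 1 (cone_one b'.2) i, ← map_mul, ← map_mul, Ne, ← sub_eq_zero, ← map_sub]
  have hunit : IsUnit (⟨_, hmem b.1 1 (cone_one b.2) i⟩ * ⟨_, hmem b'.1 1 (cone_one b'.2) i'⟩ -
      ⟨_, hmem b.1 1 (cone_one b.2) i'⟩ * ⟨_, hmem b'.1 1 (cone_one b'.2) i⟩ : V) := by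
    rw [ValuationSubring.valuation_eq_one_iff]
    change V.valuation ((C (γ⁻¹ ^ 1) * (C ((1 : L) ^ 1) * (z1 b.1 1).comp (X + C τ)).comp (C θ * X)).coeff i *
      (C (γ⁻¹ ^ 1) * (C ((1 : L) ^ 1) * (z1 b'.1 1).comp (X + C τ)).comp (C θ * X)).coeff i' -
      (C (γ⁻¹ ^ 1) * (C ((1 : L) ^ 1) * (z1 b.1 1).comp (X + C τ)).comp (C θ * X)).coeff i' *
      (C (γ⁻¹ ^ 1) * (C ((1 : L) ^ 1) * (z1 b'.1 1).comp (X + C τ)).comp (C θ * X)).coeff i) = 1
    rw [S09_co, S09_co, S09_co, S09_co]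
    have h4 : γ⁻¹ * (((z1 b.1 1).comp (X + C τ)).coeff i * θ ^ i) *
        (γ⁻¹ * (((z1 b'.1 1).comp (X + C τ)).coeff i' * θ ^ i')) -
        γ⁻¹ * (((z1 b.1 1).comp (X + C τ)).coeff i' * θ ^ i') *
        (γ⁻¹ * (((z1 b'.1 1).comp (X + C τ)).coeff i * θ ^ i)) =
        (γ ^ 2)⁻¹ * ((((z1 b.1 1).comp (X + C τ)).coeff i * ((z1 b'.1 1).comp (X + C τ)).coeff i' -
          ((z1 b.1 1).comp (X + C τ)).coeff i' * ((z1 b'.1 1).comp (X + C τ)).coeff i) * θ ^ (i + i')) := by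
      rw [pow_add]
      ring
    rw [h4, map_mul, map_inv₀, map_pow]
    change (V.valuation γ ^ 2)⁻¹ * _ = 1
    rw [hmin]
    exact inv_mul_cancel₀ (pow_ne_zero 2 hwγ)
  exact (IsLocalRing.residue_ne_zero_iff_isUnit _).mpr hunit

end Pool.Agent.Lib.MP_1e3e9c_agY
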