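import Pool.Agent.Lib.MP_1e3e9c_agY.YDefs
import Pool.Agent.Lib.MP_1e3e9c_agV.V01
import Pool.Agent.Lib.MP_1e3e9c_agV.V03a

/-! BLOCK S: polynomial curves. -/

set_option autoImplicit false

namespace Pool.Agent.Lib.MP_1e3e9c_agY

open Polynomial Pool.Agent.Lib.MP_1e3e9c_agV

/-- `z` is a curve with polynomial coordinates (it may be constant) on the common zero set of the `∑_(m ∈ A j) c j m x^m`. -/
structure IsP {K : Type} [Field K] {d s : ℕ} (B : Finset (Fin d → ℤ))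
    (A : Fin (s + 1) → Finset (Fin d → ℤ))
    (c : Fin (s + 1) → (Fin d → ℤ) → K) (z : (Fin d → ℤ) → ℕ → K[X]) : Prop where
  one : z 0 0 = 1
  mul : ∀ m l m' l', InCone B m l → InCone B m' l' → z (m + m') (l + l') = z m l * z m' l'
  eq : ∀ j m' l, (∀ m ∈ A j, InCone B (m + m') l) → ∑ m ∈ A j, C (c j m) * z (m + m') l = 0

/-- Two of the coordinates `z b 1`, `b ∈ B`, are not proportional. -/
def Two {K : Type} [Field K] {d : ℕ} (B : Finset (Fin d → ℤ)) (z : (Fin d → ℤ) → ℕ → K[X]) :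
    Prop :=
  ∃ b ∈ B, ∃ b' ∈ B, ∃ i j : ℕ,
    (z b 1).coeff i * (z b' 1).coeff j ≠ (z b 1).coeff j * (z b' 1).coeff i

end Pool.Agent.Lib.MP_1e3e9c_agY
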