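import Pool.Agent.Lib.MP_1e3e9c_agY.Ya
import Pool.Agent.Lib.MP_1e3e9c_agV.V14a
import Pool.Agent.Lib.MP_1e3e9c_agV.V17

/-! LEAF T1 (medium-, 2 theorems).  Vertices; a vertex where the curve does not vanish.

PROOF.  `vertex_of`: suppose `b1 ∈ B` has no nontrivial relation as in `h`.  `alt_int` (V17 of agV) for the vectors `b - b1`, `b ∈ B`, `b ≠ b1`, and `b = 0`: if its hypothesis holds there are `e_b : ℕ`, not all `0`, with `∑ e_b (b - b1) = 0`, so `(∑ e_b) b1 = ∑ e_b b`: against `h` (with `e b1 = 0`).  So there is `w` with `pr (b - b1) w > 0` for all `b ≠ b1`.  (If `B = {b1}`: `w = 0`.)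
`vertex_ne`: `S = {b ∈ B | z b 1 ≠ 0}` is not empty: `hz.nonconst` gives `InCone B m' l`, `z m' l ≠ 0`: `N m' = ∑ b_a a`, `N l = ∑ b_a`; `z m' l ^ N = ∏ (z a 1)^(b_a)` (`hz.mul`, `hz.one`, induction; `cone_one`, `cone_add`), so if `l > 0` some `a` with `b_a > 0` is in `S`; `l = 0` is impossible (`m = m' = 0` (all `b_a = 0`), `z 0 0 = 1`, `z m l = C 1 * z m' l`).
Let `w0` separate the points of `B` (`exists_sep`, V14a of agV, for the differences) and let `b1` be the point of `S` with `pr b1 w0` minimal.  `vertex_of` applies: if `(∑ e_b) b1 = ∑ e_b b`, `e ≠ 0`, then `z b1 1 ^ (∑ e_b) = ∏ (z b 1)^(e_b)` (both sides are `z` of the same point of the cone), so all `b` with `e_b > 0` are in `S`, `(∑ e_b) pr b1 w0 = ∑ e_b pr b w0 ≥ (∑ e_b) pr b1 w0`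
with equality only if `b = b1` for all `b` with `e_b > 0`. -/

set_option autoImplicit false

namespace Pool.Agent.Lib.MP_1e3e9c_agY

open Pool.Agent.Lib.MP_1e3e9c_agV

theorem vertex_of {d : ℕ} {B : Finset (Fin d → ℤ)} {b1 : Fin d → ℤ}
    (h : ∀ e : (Fin d → ℤ) → ℕ, (∀ l, ∑ b ∈ B, (e b : ℤ) * b l = (∑ b ∈ B, (e b : ℤ)) * b1 l) →
      ∀ b ∈ B, b ≠ b1 → e b = 0) :
    ∃ w : Fin d → ℤ, ∀ b ∈ B, b ≠ b1 → pr b1 w < pr b w := by
  classical
  by_contra hcon
  obtain ⟨B', hB'⟩ : ∃ B' : Finset (Fin d → ℤ), B' = B.erase b1 := ⟨_, rfl⟩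
  obtain ⟨s, hs⟩ : ∃ s : Fin B'.card → (Fin d → ℤ), s = fun i => (B'.equivFin.symm i).1 :=
    ⟨_, rfl⟩
  have hsB : ∀ i, s i ∈ B' := by
    intro i
    rw [hs]
    exact (B'.equivFin.symm i).2
  obtain ⟨e, he0, he1, -⟩ := alt_int (fun i j => s i j - b1 j) (fun _ => 0) (by
    intro N u hN
    by_contra hno
    refine hcon ⟨u, fun b hb hne => ?_⟩
    have hbB : b ∈ B' := by
      rw [hB']
      exact Finset.mem_erase.2 ⟨hne, hb⟩
    by_contra hle
    refine hno ⟨B'.equivFin ⟨b, hbB⟩, ?_⟩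
    have e1 : s (B'.equivFin ⟨b, hbB⟩) = b := by
      rw [hs]
      show (B'.equivFin.symm (B'.equivFin ⟨b, hbB⟩)).1 = b
      rw [Equiv.symm_apply_apply]
    have e2 : ∑ j, u j * (s (B'.equivFin ⟨b, hbB⟩) j - b1 j) = pr b u - pr b1 u := by
      rw [e1]
      unfold pr
      rw [← Finset.sum_sub_distrib]
      exact Finset.sum_congr rfl fun j _ => by ring
    show ∑ j, u j * (s (B'.equivFin ⟨b, hbB⟩) j - b1 j) + N * 0 ≤ 0
    rw [e2]
    have := not_lt.1 hle
    linarith)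
  apply he0
  obtain ⟨E, hE⟩ : ∃ E : (Fin d → ℤ) → ℕ,
      E = fun b => if hb : b ∈ B' then e (B'.equivFin ⟨b, hb⟩) else 0 := ⟨_, rfl⟩
  have hEs : ∀ i, E (s i) = e i := by
    intro i
    rw [hE]
    show (if hb : s i ∈ B' then e (B'.equivFin ⟨s i, hb⟩) else 0) = e i
    rw [dif_pos (hsB i)]
    congr 1
    have e3 : (⟨s i, hsB i⟩ : {x // x ∈ B'}) = B'.equivFin.symm i := by
      apply Subtype.ext
      show s i = (B'.equivFin.symm i).1
      rw [hs]
    rw [e3, Equiv.apply_symm_apply]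
  have hE1 : E b1 = 0 := by
    rw [hE]
    show (if hb : b1 ∈ B' then e (B'.equivFin ⟨b1, hb⟩) else 0) = 0
    rw [dif_neg]
    rw [hB']
    exact Finset.notMem_erase b1 B
  have hsum : ∀ F : (Fin d → ℤ) → ℤ, ∑ b ∈ B', F b = ∑ i, F (s i) := by
    intro F
    rw [← Finset.sum_coe_sort B' F, ← Equiv.sum_comp B'.equivFin.symm, hs]
  have key := h E (by
    intro l
    have h1 : ∑ b ∈ B, (E b : ℤ) * (b l - b1 l) = 0 := by
      have h2 : ∑ b ∈ B', (E b : ℤ) * (b l - b1 l) = ∑ b ∈ B, (E b : ℤ) * (b l - b1 l) := by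
        refine Finset.sum_subset ?_ fun b hb hb' => ?_
        · rw [hB']
          exact Finset.erase_subset _ _
        · have h3 : b = b1 := by
            by_contra hne
            apply hb'
            rw [hB']
            exact Finset.mem_erase.2 ⟨hne, hb⟩
          rw [h3, sub_self, mul_zero]
      rw [← h2, hsum fun b => (E b : ℤ) * (b l - b1 l), ← he1 l]
      exact Finset.sum_congr rfl fun i _ => by rw [hEs]
    have h4 : ∑ b ∈ B, (E b : ℤ) * (b l - b1 l) =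
        ∑ b ∈ B, (E b : ℤ) * b l - (∑ b ∈ B, (E b : ℤ)) * b1 l := by
      rw [Finset.sum_mul, ← Finset.sum_sub_distrib]
      exact Finset.sum_congr rfl fun b _ => by ring
    rw [h4] at h1
    linarith)
  funext i
  have h1 := hsB i
  rw [hB', Finset.mem_erase] at h1
  rw [← hEs, key (s i) h1.2 h1.1]
  rfl

private theorem T1_pow {k : Type} [Field k] {d s : ℕ} {B : Finset (Fin d → ℤ)}
    {A : Fin (s + 1) → Finset (Fin d → ℤ)} {c : Fin (s + 1) → (Fin d → ℤ) → k}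
    {z : (Fin d → ℤ) → ℕ → RatFunc k} (hz : IsCv B A c z) {m : Fin d → ℤ} {l : ℕ}
    (hm : InCone B m l) (N : ℕ) : InCone B (fun j => (N : ℤ) * m j) (N * l) ∧
      z (fun j => (N : ℤ) * m j) (N * l) = z m l ^ N := by
  induction N with
  | zero =>
    have e1 : (fun j => ((0 : ℕ) : ℤ) * m j) = (0 : Fin d → ℤ) := by
      funext j
      simp
    rw [e1, zero_mul, pow_zero]
    refine ⟨⟨1, fun _ => 0, one_pos, ?_, fun j => ?_⟩, hz.one⟩
    · simp
    · simp
  | succ N ih =>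
    have e1 : (fun j => ((N + 1 : ℕ) : ℤ) * m j) = (fun j => (N : ℤ) * m j) + m := by
      funext j
      rw [Pi.add_apply]
      push_cast
      ring
    rw [e1, add_mul, one_mul]
    refine ⟨cone_add ih.1 hm, ?_⟩
    rw [hz.mul _ _ _ _ ih.1 hm, ih.2, pow_succ]

private theorem T1_prod {k : Type} [Field k] {d s : ℕ} {B : Finset (Fin d → ℤ)}
    {A : Fin (s + 1) → Finset (Fin d → ℤ)} {c : Fin (s + 1) → (Fin d → ℤ) → k}
    {z : (Fin d → ℤ) → ℕ → RatFunc k} (hz : IsCv B A c z) (e : (Fin d → ℤ) → ℕ)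
    (T : Finset (Fin d → ℤ)) (hT : T ⊆ B) :
    InCone B (fun j => ∑ b ∈ T, (e b : ℤ) * b j) (∑ b ∈ T, e b) ∧
      z (fun j => ∑ b ∈ T, (e b : ℤ) * b j) (∑ b ∈ T, e b) = ∏ b ∈ T, z b 1 ^ e b := by
  classical
  induction T using Finset.induction_on with
  | empty =>
    have e1 : (fun j => ∑ b ∈ (∅ : Finset (Fin d → ℤ)), (e b : ℤ) * b j) = (0 : Fin d → ℤ) := by
      funext j
      simp
    rw [e1, Finset.sum_empty, Finset.prod_empty]
    refine ⟨⟨1, fun _ => 0, one_pos, ?_, fun j => ?_⟩, hz.one⟩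
    · simp
    · simp
  | insert a T ha ih =>
    have haB : a ∈ B := hT (Finset.mem_insert_self a T)
    have ih' := ih ((Finset.subset_insert a T).trans hT)
    have h1 := T1_pow hz (cone_one haB) (e a)
    rw [mul_one] at h1
    have e1 : (fun j => ∑ b ∈ insert a T, (e b : ℤ) * b j) =
        (fun j => (e a : ℤ) * a j) + fun j => ∑ b ∈ T, (e b : ℤ) * b j := by
      funext j
      rw [Pi.add_apply, Finset.sum_insert ha]
    rw [e1, Finset.sum_insert ha, Finset.prod_insert ha]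
    refine ⟨cone_add h1.1 ih'.1, ?_⟩
    rw [hz.mul _ _ _ _ h1.1 ih'.1, h1.2, ih'.2]

private theorem T1_zero {d : ℕ} {B : Finset (Fin d → ℤ)} {m : Fin d → ℤ} (hm : InCone B m 0) :
    m = 0 := by
  obtain ⟨N, b, hN, h1, h2⟩ := hm
  rw [mul_zero, Finset.sum_eq_zero_iff] at h1
  funext j
  have h3 := h2 j
  rw [Finset.sum_eq_zero fun a ha => by rw [h1 a ha, Nat.cast_zero, zero_mul]] at h3
  have hN' : (N : ℤ) ≠ 0 := by exact_mod_cast hN.ne'
  rcases mul_eq_zero.1 h3.symm with h4 | h4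
  · exact absurd h4 hN'
  · exact h4

theorem vertex_ne {k : Type} [Field k] {d s : ℕ} {B : Finset (Fin d → ℤ)}
    {A : Fin (s + 1) → Finset (Fin d → ℤ)} {c : Fin (s + 1) → (Fin d → ℤ) → k}
    {z : (Fin d → ℤ) → ℕ → RatFunc k} (hz : IsCv B A c z) :
    ∃ b1 ∈ B, z b1 1 ≠ 0 ∧ ∃ w : Fin d → ℤ, ∀ b ∈ B, b ≠ b1 → pr b1 w < pr b w := by
  classical
  obtain ⟨S, hS⟩ : ∃ S : Finset (Fin d → ℤ), S = B.filter fun b => z b 1 ≠ 0 := ⟨_, rfl⟩
  have memS : ∀ b, b ∈ S ↔ b ∈ B ∧ z b 1 ≠ 0 := by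
    intro b
    rw [hS, Finset.mem_filter]
  have hne : S.Nonempty := by
    obtain ⟨m, m', l, hm, hm', hz', hnc⟩ := hz.nonconst
    by_contra hemp
    have h0 : ∀ b ∈ B, z b 1 = 0 := by
      intro b hb
      by_contra h1
      exact hemp ⟨b, (memS b).2 ⟨hb, h1⟩⟩
    have hl : l = 0 := by
      obtain ⟨N, b, hN, h1, h2⟩ := hm'
      have h3 := (T1_pow hz (⟨N, b, hN, h1, h2⟩ : InCone B m' l) N).2
      have h4 := (T1_prod hz b B (Finset.Subset.refl B)).2
      have e1 : (fun j => ∑ a ∈ B, (b a : ℤ) * a j) = fun j => (N : ℤ) * m' j := funext h2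
      rw [e1, h1, h3] at h4
      have h5 : ∏ a ∈ B, z a 1 ^ b a ≠ 0 := by
        rw [← h4]
        exact pow_ne_zero N hz'
      rw [Finset.prod_ne_zero_iff] at h5
      have h6 : ∀ a ∈ B, b a = 0 := by
        intro a ha
        by_contra h7
        apply h5 a ha
        rw [h0 a ha]
        exact zero_pow h7
      rw [Finset.sum_eq_zero h6] at h1
      rcases Nat.mul_eq_zero.1 h1.symm with h8 | h8
      · omega
      · exact h8
    subst hl
    have e1 := T1_zero hm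
    have e2 := T1_zero hm'
    subst e1
    subst e2
    apply hnc 1
    rw [map_one, one_mul]
  obtain ⟨w0, hw0⟩ := exists_sep (B.offDiag.image fun x => x.1 - x.2) (by
    intro δ hδ
    rw [Finset.mem_image] at hδ
    obtain ⟨x, hx, rfl⟩ := hδ
    exact sub_ne_zero.2 (Finset.mem_offDiag.1 hx).2.2)
  have hsep : ∀ b ∈ B, ∀ b' ∈ B, pr b w0 = pr b' w0 → b = b' := by
    intro b hb b' hb' h1
    by_contra hne'
    refine hw0 (b - b') (Finset.mem_image.2 ⟨(b, b'), Finset.mem_offDiag.2 ⟨hb, hb', hne'⟩, rfl⟩) ?_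
    have h2 : pr (b - b') w0 = pr b w0 - pr b' w0 := by
      unfold pr
      rw [← Finset.sum_sub_distrib]
      refine Finset.sum_congr rfl fun j _ => ?_
      rw [Pi.sub_apply, sub_mul]
    rw [h2, h1, sub_self]
  obtain ⟨b1, hb1, hmin⟩ := Finset.exists_min_image S (fun b => pr b w0) hne
  have hb1' := (memS b1).1 hb1
  refine ⟨b1, hb1'.1, hb1'.2, vertex_of fun e he b hb hbne => ?_⟩
  have h1 := (T1_pow hz (cone_one hb1'.1) (∑ b ∈ B, e b)).2
  have h2 := (T1_prod hz e B (Finset.Subset.refl B)).2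
  have e1 : (fun j => ∑ b ∈ B, (e b : ℤ) * b j) =
      fun j => ((∑ b ∈ B, e b : ℕ) : ℤ) * b1 j := by
    funext j
    rw [he j]
    push_cast
    rfl
  rw [mul_one] at h1
  rw [e1, h1] at h2
  have h3 : ∏ b ∈ B, z b 1 ^ e b ≠ 0 := by
    rw [← h2]
    exact pow_ne_zero _ hb1'.2
  rw [Finset.prod_ne_zero_iff] at h3
  have h4 : ∀ b ∈ B, e b ≠ 0 → pr b1 w0 ≤ pr b w0 := by
    intro b hb heb
    refine hmin b ((memS b).2 ⟨hb, fun h5 => h3 b hb ?_⟩)
    rw [h5]
    exact zero_pow heb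
  have h5 : ∀ b ∈ B, 0 ≤ (e b : ℤ) * (pr b w0 - pr b1 w0) := by
    intro b hb
    by_cases h6 : e b = 0
    · rw [h6, Nat.cast_zero, zero_mul]
    · have h7 := h4 b hb h6
      exact mul_nonneg (Int.natCast_nonneg _) (by linarith)
  have h6 : ∑ b ∈ B, (e b : ℤ) * (pr b w0 - pr b1 w0) = 0 := by
    have h7 : ∑ b ∈ B, (e b : ℤ) * pr b w0 = (∑ b ∈ B, (e b : ℤ)) * pr b1 w0 := by
      unfold pr
      simp_rw [Finset.mul_sum]
      rw [Finset.sum_comm]
      refine Finset.sum_congr rfl fun j _ => ?_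
      rw [← mul_assoc, ← he j, Finset.sum_mul]
      exact Finset.sum_congr rfl fun b _ => by ring
    have h8 : ∑ b ∈ B, (e b : ℤ) * (pr b w0 - pr b1 w0) =
        ∑ b ∈ B, (e b : ℤ) * pr b w0 - (∑ b ∈ B, (e b : ℤ)) * pr b1 w0 := by
      rw [Finset.sum_mul, ← Finset.sum_sub_distrib]
      exact Finset.sum_congr rfl fun b _ => by ring
    rw [h8, h7, sub_self]
  rw [Finset.sum_eq_zero_iff_of_nonneg h5] at h6
  by_contra h9
  rcases mul_eq_zero.1 (h6 b hb) with h10 | h10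
  · exact h9 (by exact_mod_cast h10)
  · exact hbne (hsep b hb b1 hb1'.1 (by linarith))

end Pool.Agent.Lib.MP_1e3e9c_agY
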