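import Pool.Agent.Lib.MP_1e3e9c_agV.VDefs

/-!
# MP_1e3e9c_ag, project Y (rational curves on complete intersections in toric varieties): definitions

`A 0, ..., A s` are finite sets of points of the lattice `ℤ^d` whose convex hulls `Δ_j` have the same normal fan, `B` is another such set; `V` is the
projective toric variety of the convex hull of `B`, the monomials of `A j` are sections of an ample line bundle `O(D_j)` on `V`. The coefficients are `c j m`,
`m ∈ A j`; `X` is the set of the common zeros of the sections `∑_(m ∈ A j) c j m x^m`.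
-/

set_option autoImplicit false

namespace Pool.Agent.Lib.MP_1e3e9c_agY

open Polynomial Pool.Agent.Lib.MP_1e3e9c_agV

/-- The support function: `- hs A u` is the minimum of `⟨., u⟩` on `A`. -/
noncomputable def hs {d : ℕ} (A : Finset (Fin d → ℤ)) (u : Fin d → ℤ) : ℤ :=
  if h : A.Nonempty then A.sup' h (fun m => - pr m u) else 0

/-- `m` is a point of `A` where `⟨., u⟩` is minimal. -/
def Fa {d : ℕ} (A : Finset (Fin d → ℤ)) (u m : Fin d → ℤ) : Prop :=
  m ∈ A ∧ pr m u + hs A u = 0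

/-- The normal fan of `A` refines the one of `B` (the divisor of `B` is nef on the toric variety of `A`). -/
def Fan {d : ℕ} (A B : Finset (Fin d → ℤ)) : Prop :=
  ∀ m ∈ A, ∃ m' ∈ B, ∀ u, Fa A u m → Fa B u m'

/-- `v` is the normal vector of a facet of the convex hull of `A`. -/
def Fct {d : ℕ} (A : Finset (Fin d → ℤ)) (v : Fin d → ℤ) : Prop :=
  v ≠ 0 ∧ ∀ w : Fin d → ℤ, (∀ m m', Fa A v m → Fa A v m' → pr m w = pr m' w) →
    ∃ a b : ℤ, a ≠ 0 ∧ a • w = b • v

/-- The convex hull of `A` is given by the inequalities `⟨., v_i⟩ + hs A (v_i) ≥ 0`. -/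
def Pol {d r : ℕ} (A : Finset (Fin d → ℤ)) (v : Fin r → Fin d → ℤ) : Prop :=
  ∀ (N : ℕ) (u : Fin d → ℤ), 0 < N → (∀ i, 0 ≤ pr u (v i) + N * hs A (v i)) → InCone A u N

/-- `z` is a nonconstant rational curve on the common zero set of the `∑_(m ∈ A j) c j m x^m` in the toric variety of `B`. -/
structure IsCv {k : Type} [Field k] {d s : ℕ} (B : Finset (Fin d → ℤ))
    (A : Fin (s + 1) → Finset (Fin d → ℤ))
    (c : Fin (s + 1) → (Fin d → ℤ) → k) (z : (Fin d → ℤ) → ℕ → RatFunc k) : Prop where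
  one : z 0 0 = 1
  mul : ∀ m l m' l', InCone B m l → InCone B m' l' → z (m + m') (l + l') = z m l * z m' l'
  eq : ∀ j m' l, (∀ m ∈ A j, InCone B (m + m') l) →
    ∑ m ∈ A j, RatFunc.C (c j m) * z (m + m') l = 0
  nonconst : ∃ m m' l, InCone B m l ∧ InCone B m' l ∧ z m' l ≠ 0 ∧
    ∀ b : k, z m l ≠ RatFunc.C b * z m' l

/-- The coefficients `c j m`, `m ∈ A j`, are algebraically independent over `ℚ`. -/
def Gen {k : Type} [Field k] [CharZero k] {d s : ℕ} (A : Fin (s + 1) → Finset (Fin d → ℤ))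
    (c : Fin (s + 1) → (Fin d → ℤ) → k) : Prop :=
  AlgebraicIndependent ℚ fun t : (Σ j, {m // m ∈ A j}) => c t.1 t.2.1

/-- There is a generic system with a rational curve. -/
def GenC {d s : ℕ} (B : Finset (Fin d → ℤ)) (A : Fin (s + 1) → Finset (Fin d → ℤ)) : Prop :=
  ∃ (E : Type) (_ : Field E) (_ : CharZero E) (c : Fin (s + 1) → (Fin d → ℤ) → E),
    Gen A c ∧ ∃ z, IsCv B A c z

/-- `D_j`, the degree of `O(D_j)` on the curves of the class of the relation `∑ a_i v_i = 0`. -/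
noncomputable def DD {d r s : ℕ} (A : Fin (s + 1) → Finset (Fin d → ℤ)) (v : Fin r → Fin d → ℤ)
    (a : Fin r → ℕ) (j : Fin (s + 1)) : ℤ :=
  ∑ i, (a i : ℤ) * hs (A j) (v i)

/-- `∑ e_i hs (v_i) - hs (∑ e_i v_i) ≥ 0`. -/
noncomputable def ph {d r s : ℕ} (A : Fin (s + 1) → Finset (Fin d → ℤ)) (v : Fin r → Fin d → ℤ)
    (e : Fin r → ℕ) (j : Fin (s + 1)) : ℤ :=
  ∑ i, (e i : ℤ) * hs (A j) (v i) - hs (A j) (fun l => ∑ i, (e i : ℤ) * v i l)

/-- The minimal relation `∑ a_i v_i = 0` between normal vectors of facets, of nonnegative degree with respect to `- K - ∑ D_j`. -/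
structure RelY {d r s : ℕ} (A : Fin (s + 1) → Finset (Fin d → ℤ)) (v : Fin r → Fin d → ℤ)
    (a : Fin r → ℕ) : Prop where
  full : ∀ j, Full (A j)
  fan : ∀ j j', Fan (A j) (A j')
  fct : ∀ j i, Fct (A j) (v i)
  pos : ∀ i, 0 < a i
  rel : ∀ l, ∑ i, (a i : ℤ) * v i l = 0
  mini : Mini v a
  rpos : 0 < r
  le : ∑ j, DD A v a j ≤ ∑ i, (a i : ℤ)
  eqB : ∑ j, DD A v a j = ∑ i, (a i : ℤ) → ∀ e : Fin r → ℕ, (∀ i, e i ≤ a i) →
    (∃ l, ∑ i, (e i : ℤ) * v i l ≠ 0) → 1 + ∑ j, ph A v e j ≤ ∑ i, (e i : ℤ)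

end Pool.Agent.Lib.MP_1e3e9c_agY
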