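import Pool.Agent.Lib.MP_1e3e9c_agY.Ya
import Pool.Agent.Lib.MP_1e3e9c_agV.V05

/-! LEAF Yb (easy+).  A curve of the family in the torus on which all equations vanish.

PROOF (copy of V06 of agV, proved there).  `h j i = hs (A j) (v i)`.  `z m l = algebraMap k[X] (RatFunc k) (cd v (h 0) x p m l)`.  `one`: `mn x 0 = 1`, `ex v _ 0 0 i = 0`.  `mul`: `mn_add`, `ex_add` (`rel0 hR 0`).
`eq`: let `m + m' ∈ cone` of level `l` for all `m ∈ A j`.  `f_i = pr m' (v i) + l * h 0 i - h j i ≥ 0`: for the `m ∈ A j` with `pr m (v i) + h j i = 0` (`hs_min`, `A j` not empty) it is `pr (m + m') (v i) + l * h 0 i ≥ 0` (`cone_nonneg`).  For `m ∈ A j`: `ex v (h 0) (m + m') l i = f_i.toNat + ex v (h j) m 1 i` and `mn x (m + m') = mn x m * mn x m'`, so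
`cd v (h 0) x p (m + m') l = (C (mn x m') * ∏ p_i^(f_i.toNat)) * cd v (h j) x p m 1`, and the sum is the image of `(C (mn x m') * ∏ p_i^(f_i.toNat)) * Phi (A j) (c j) v (h j) x p = 0`.  `nonconst`: as in V06 (`tri_of_const` for `A 0`, `hR.full 0`, `rel0 hR 0`, `hR.mini`). -/

set_option autoImplicit false

namespace Pool.Agent.Lib.MP_1e3e9c_agY

open Polynomial Pool.Agent.Lib.MP_1e3e9c_agV

/-- The pairing is additive. -/
private theorem Yb_pr {d : ℕ} (m m' u : Fin d → ℤ) : pr (m + m') u = pr m u + pr m' u := by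
  unfold pr
  rw [← Finset.sum_add_distrib]
  exact Finset.sum_congr rfl fun j _ => by rw [Pi.add_apply]; ring

/-- The shifted coordinates are multiples of the coordinates for `A j`. -/
private theorem Yb_cd {k : Type} [Field k] {d r s : ℕ}
    {A : Fin (s + 1) → Finset (Fin d → ℤ)} {v : Fin r → Fin d → ℤ} {a : Fin r → ℕ} (hR : RelY A v a)
    {x : Fin d → k} (hx : ∀ l, x l ≠ 0) (p : Fin r → k[X]) (j : Fin (s + 1)) (m' : Fin d → ℤ) (l : ℕ)
    (hm' : ∀ m ∈ A j, InCone (A 0) (m + m') l) {m : Fin d → ℤ} (hm : m ∈ A j) :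
    cd v (fun i => hs (A 0) (v i)) x p (m + m') l =
      (C (mn x m') * ∏ i, p i ^ (pr m' (v i) + l * hs (A 0) (v i) - hs (A j) (v i)).toNat) *
        cd v (fun i => hs (A j) (v i)) x p m 1 := by
  have hF : ∀ i, 0 ≤ pr m' (v i) + l * hs (A 0) (v i) - hs (A j) (v i) := by
    intro i
    obtain ⟨n, hn, hn0⟩ := hs_min (ne_of_full (hR.full j) (d_pos hR)) (v i)
    have h1 := cone_nonneg (rel0 hR 0) (hm' n hn) i
    have h2 : pr (n + m') (v i) = pr n (v i) + pr m' (v i) := Yb_pr _ _ _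
    rw [h2] at h1
    linarith
  have hG : ∀ i, 0 ≤ pr m (v i) + ((1 : ℕ) : ℤ) * hs (A j) (v i) := fun i =>
    cone_nonneg (rel0 hR j) (cone_one hm) i
  have hex : ∀ i, ex v (fun i => hs (A 0) (v i)) (m + m') l i =
      (pr m' (v i) + l * hs (A 0) (v i) - hs (A j) (v i)).toNat +
        ex v (fun i => hs (A j) (v i)) m 1 i := by
    intro i
    unfold ex
    rw [← Int.toNat_add (hF i) (hG i), Yb_pr]
    congr 1
    push_cast
    ring
  have e1 : ∏ i, p i ^ ex v (fun i => hs (A 0) (v i)) (m + m') l i =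
      (∏ i, p i ^ (pr m' (v i) + l * hs (A 0) (v i) - hs (A j) (v i)).toNat) *
        ∏ i, p i ^ ex v (fun i => hs (A j) (v i)) m 1 i := by
    rw [← Finset.prod_mul_distrib]
    refine Finset.prod_congr rfl fun i _ => ?_
    rw [hex i, pow_add]
  rw [cd, cd, mn_add hx, e1, C_mul]
  ring

theorem of_phi_zeroY {k : Type} [Field k] [IsAlgClosed k] {d r s : ℕ}
    {A : Fin (s + 1) → Finset (Fin d → ℤ)} {c : Fin (s + 1) → (Fin d → ℤ) → k}
    {v : Fin r → Fin d → ℤ} {a : Fin r → ℕ} (hR : RelY A v a) {x : Fin d → k}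
    (hx : ∀ l, x l ≠ 0) {p : Fin r → k[X]} (hp : ∀ i, (p i).natDegree ≤ a i)
    (hp0 : ∀ i, (p i).coeff 0 = 1)
    (hPhi : ∀ j, Phi (A j) (c j) v (fun i => hs (A j) (v i)) x p = 0) (ht : ¬ Tri a p) :
    ∃ z, IsCv (A 0) A c z := by
  have hinj := RatFunc.algebraMap_injective k
  have hR0 := rel0 hR 0
  refine ⟨fun m l => algebraMap k[X] (RatFunc k) (cd v (fun i => hs (A 0) (v i)) x p m l),
    ?_, ?_, ?_, ?_⟩
  · have h1 : cd v (fun i => hs (A 0) (v i)) x p 0 0 = 1 := by
      have e1 : Pool.Agent.Lib.MP_1e3e9c_agV.mn x (0 : Fin d → ℤ) = 1 := by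
        simp [Pool.Agent.Lib.MP_1e3e9c_agV.mn]
      have e2 : ∀ i, ex v (fun i => hs (A 0) (v i)) 0 0 i = 0 := by
        intro i
        simp [ex, pr]
      rw [cd, e1]
      simp [e2]
    change algebraMap k[X] (RatFunc k) (cd v (fun i => hs (A 0) (v i)) x p 0 0) = 1
    rw [h1, map_one]
  · intro m l m' l' hm hm'
    rw [← map_mul]
    apply congrArg
    have e1 : ∏ i, p i ^ ex v (fun i => hs (A 0) (v i)) (m + m') (l + l') i
        = (∏ i, p i ^ ex v (fun i => hs (A 0) (v i)) m l i) *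
          ∏ i, p i ^ ex v (fun i => hs (A 0) (v i)) m' l' i := by
      rw [← Finset.prod_mul_distrib]
      refine Finset.prod_congr rfl fun i _ => ?_
      rw [ex_add hR0 hm hm', pow_add]
    rw [cd, cd, cd, mn_add hx, e1, C_mul]
    ring
  · intro j m' l hm'
    have h1 : ∑ m ∈ A j, RatFunc.C (c j m) *
        algebraMap k[X] (RatFunc k) (cd v (fun i => hs (A 0) (v i)) x p (m + m') l)
        = algebraMap k[X] (RatFunc k)
          ((C (mn x m') * ∏ i, p i ^ (pr m' (v i) + l * hs (A 0) (v i) - hs (A j) (v i)).toNat) *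
            Phi (A j) (c j) v (fun i => hs (A j) (v i)) x p) := by
      rw [Phi, Finset.mul_sum, map_sum]
      refine Finset.sum_congr rfl fun m hm => ?_
      rw [Yb_cd hR hx p j m' l hm' hm, ← RatFunc.algebraMap_C, ← map_mul]
      apply congrArg
      change C (c j m) * _ = _ * (C (c j m) * _)
      ring
    change ∑ m ∈ A j, RatFunc.C (c j m) *
        algebraMap k[X] (RatFunc k) (cd v (fun i => hs (A 0) (v i)) x p (m + m') l) = 0
    rw [h1, hPhi j, mul_zero, map_zero]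
  · by_contra hcon
    apply ht
    apply tri_of_const (hR.full 0) hR0 hR.mini hp hp0
    intro m hm m' hm'
    have hp1 : ∀ i, p i ≠ 0 := by
      intro i h0
      have h1 := hp0 i
      rw [h0, coeff_zero] at h1
      exact zero_ne_one h1
    have hcd : cd v (fun i => hs (A 0) (v i)) x p m' 1 ≠ 0 := by
      rw [cd]
      exact mul_ne_zero (C_ne_zero.mpr (mn_ne hx m'))
        (Finset.prod_ne_zero_iff.mpr fun i _ => pow_ne_zero _ (hp1 i))
    have hne : algebraMap k[X] (RatFunc k) (cd v (fun i => hs (A 0) (v i)) x p m' 1) ≠ 0 := by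
      intro h0
      apply hcd
      apply hinj
      rw [h0, map_zero]
    have hb : ∃ b : k, algebraMap k[X] (RatFunc k) (cd v (fun i => hs (A 0) (v i)) x p m 1)
        = RatFunc.C b * algebraMap k[X] (RatFunc k) (cd v (fun i => hs (A 0) (v i)) x p m' 1) := by
      by_contra hb
      exact hcon ⟨m, m', 1, cone_one hm, cone_one hm', hne, fun b hb' => hb ⟨b, hb'⟩⟩
    obtain ⟨b, hb⟩ := hb
    rw [← RatFunc.algebraMap_C, ← map_mul] at hb
    have h2 := hinj hb
    rw [cd, cd] at h2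
    refine ⟨b * mn x m' / mn x m, ?_⟩
    have h3 : (C (mn x m) : k[X]) ≠ 0 := C_ne_zero.mpr (mn_ne hx m)
    apply mul_left_cancel₀ h3
    rw [h2, ← mul_assoc, ← mul_assoc, ← C_mul, ← C_mul, mul_div_cancel₀ _ (mn_ne hx m)]

end Pool.Agent.Lib.MP_1e3e9c_agY
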