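import Pool.Agent.Lib.MP_1e3e9c_agY.Ya

/-! LEAF Yd (medium-, 1 theorem).  Facet normals depend only on the normal fan.

PROOF.  `v ≠ 0` is clear.  Let `w` be constant on the face `{m | Fa B v m}` (which is not empty, `hs_min`).  Let `W` be a bound of all `|pr m w|`, `m ∈ B`, and `M = 2 W + 1`.  (1) If `Fa B v m` then `Fa B (M v + w) m` and `Fa B (M v - w) m`: for `m'' ∈ B`: if `Fa B v m''` then `pr m'' (M v ± w) = pr m (M v ± w)`; otherwise `pr m'' v ≥ pr m v + 1` and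
`pr m'' (M v ± w) ≥ M (pr m v + 1) - W ≥ M pr m v + W ≥ pr m (M v ± w)`.  (`Fa B u m` iff `m ∈ B` and `pr m u ≤ pr m'' u` for all `m'' ∈ B`: `hs_ge`, `hs_min`.)  (2) Fix such an `m` and let `m' ∈ A` be given by `h m`: `m'` is minimal for `v`, `M v + w` and `M v - w` on `A`.  For every `m''` with `Fa A v m''`: `pr m'' v = pr m' v` and
`pr m'' (M v ± w) ≥ pr m' (M v ± w)`, so `pr m'' w = pr m' w`: `w` is constant on the face of `A`, and `hv.2 w` gives `a`, `b`. -/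

set_option autoImplicit false

namespace Pool.Agent.Lib.MP_1e3e9c_agY

open Pool.Agent.Lib.MP_1e3e9c_agV

theorem Yd_pr_add {d : ℕ} (m u w : Fin d → ℤ) : pr m (u + w) = pr m u + pr m w := by
  unfold pr
  rw [← Finset.sum_add_distrib]
  exact Finset.sum_congr rfl fun j _ => by rw [Pi.add_apply, mul_add]

theorem Yd_pr_smul {d : ℕ} (M : ℤ) (m v : Fin d → ℤ) : pr m (M • v) = M * pr m v := by
  unfold pr
  rw [Finset.mul_sum]
  exact Finset.sum_congr rfl fun j _ => by rw [Pi.smul_apply, smul_eq_mul]; ring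

theorem Yd_pr_neg {d : ℕ} (m w : Fin d → ℤ) : pr m (-w) = - pr m w := by
  unfold pr
  rw [← Finset.sum_neg_distrib]
  exact Finset.sum_congr rfl fun j _ => by rw [Pi.neg_apply, mul_neg]

theorem Yd_fa_iff {d : ℕ} {A : Finset (Fin d → ℤ)} (hA : A.Nonempty) (u m : Fin d → ℤ) :
    Fa A u m ↔ m ∈ A ∧ ∀ m' ∈ A, pr m u ≤ pr m' u := by
  constructor
  · rintro ⟨hm, h0⟩
    refine ⟨hm, fun m' hm' => ?_⟩
    have h1 := hs_ge hm' u
    linarith
  · rintro ⟨hm, h0⟩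
    obtain ⟨m0, hm0, h1⟩ := hs_min hA u
    have h2 := h0 m0 hm0
    have h3 := hs_ge hm u
    exact ⟨hm, by linarith⟩

theorem Yd_key {d : ℕ} {B : Finset (Fin d → ℤ)} (hB : B.Nonempty) {v e m : Fin d → ℤ} {W : ℤ}
    (hW : ∀ m' ∈ B, |pr m' e| ≤ W) (hm : Fa B v m)
    (hc : ∀ m1 m2, Fa B v m1 → Fa B v m2 → pr m1 e = pr m2 e) :
    Fa B ((2 * W + 1) • v + e) m := by
  have hm0 := (Yd_fa_iff hB v m).1 hm
  refine (Yd_fa_iff hB _ _).2 ⟨hm.1, fun m' hm' => ?_⟩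
  rw [Yd_pr_add, Yd_pr_add, Yd_pr_smul, Yd_pr_smul]
  have hW0 : 0 ≤ W := le_trans (abs_nonneg _) (hW m hm.1)
  have h1 := abs_le.1 (hW m hm.1)
  have h2 := abs_le.1 (hW m' hm')
  by_cases hf : Fa B v m'
  · have h3 : pr m v = pr m' v := by
      have h4 := hm.2
      have h5 := hf.2
      linarith
    rw [h3, hc m m' hm hf]
  · have h3 : pr m v ≤ pr m' v := hm0.2 m' hm'
    have h4 : pr m v ≠ pr m' v := by
      intro h5
      apply hf
      refine ⟨hm', ?_⟩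
      rw [← h5]
      exact hm.2
    have h5 : pr m v + 1 ≤ pr m' v := by omega
    nlinarith [mul_le_mul_of_nonneg_left h5 (by linarith : (0 : ℤ) ≤ 2 * W + 1)]

theorem fct_of_fan {d : ℕ} {A B : Finset (Fin d → ℤ)} (hB : B.Nonempty) (h : Fan B A)
    {v : Fin d → ℤ} (hv : Fct A v) : Fct B v := by
  refine ⟨hv.1, fun w hw => ?_⟩
  obtain ⟨m, hm⟩ := hs_min hB v
  have hW : ∀ m' ∈ B, |pr m' w| ≤ ∑ m'' ∈ B, |pr m'' w| := fun m' hm' =>
    Finset.single_le_sum (f := fun m'' => |pr m'' w|) (fun _ _ => abs_nonneg _) hm'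
  have k1 := Yd_key hB hW hm hw
  have k2 := Yd_key (e := -w) hB (fun m' hm' => by rw [Yd_pr_neg, abs_neg]; exact hW m' hm') hm
    (fun m1 m2 h1 h2 => by rw [Yd_pr_neg, Yd_pr_neg, hw m1 m2 h1 h2])
  obtain ⟨m', hmA, hm'⟩ := h m hm.1
  have hA : A.Nonempty := ⟨m', hmA⟩
  have f1 := hm' _ hm
  have f2 := (Yd_fa_iff hA _ _).1 (hm' _ k1)
  have f3 := (Yd_fa_iff hA _ _).1 (hm' _ k2)
  have key : ∀ m'', Fa A v m'' → pr m'' w = pr m' w := by
    intro m'' h2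
    have g1 := f2.2 m'' h2.1
    have g2 := f3.2 m'' h2.1
    have g3 : pr m'' v = pr m' v := by
      have g4 := h2.2
      have g5 := f1.2
      linarith
    rw [Yd_pr_add, Yd_pr_add, Yd_pr_smul, Yd_pr_smul, g3] at g1 g2
    rw [Yd_pr_neg, Yd_pr_neg] at g2
    linarith
  exact hv.2 w fun m1 m2 h1 h2 => by rw [key m1 h1, key m2 h2]

end Pool.Agent.Lib.MP_1e3e9c_agY
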