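import Pool.Agent.Lib.MP_1e3e9c_agY.Yc

/-! LEAF Ye (medium).  Every vector is a nonnegative combination of facet normals which are minimal at the same point.

PROOF.  Let `m` be minimal for `u` on `A` (`hs_min`, `ne_of_full`), `I = {i | Fa A (v i) m}`.  Apply `alt_int` (V17 of agV) to the `1 + |I|` vectors `- u`, `v i` (`i ∈ I`) and `b = 0` (number the index type `Option I` by `Fintype.equivFin`).  (hb) Suppose there is a vector `w` with `pr w u < 0` and `pr w (v i) > 0` for all `i ∈ I`.  For `i ∉ I`: `pr m (v i) + hs A (v i) ≥ 1` (`hs_ge`),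
so for `N > 0` large (`N ≥ |pr w (v i)|` for all `i`) `pr (N m + w) (v i) + N hs A (v i) ≥ 0` for all `i`: `hP` gives `InCone A (N m + w) N`, so (`cone_iff'`, `→`) `0 ≤ pr (N m + w) u + N hs A u = pr w u` (`pr m u + hs A u = 0`): contradiction.  So there are `e₀`, `e_i : ℕ` (`i ∈ I`), not all `0`, with `e₀ u = ∑ e_i v_i`.
`e₀ > 0`: otherwise `∑ e_i v_i = 0` and for every `m' ∈ A`: `∑ e_i (pr m' (v i) + hs A (v i)) = ∑ e_i (pr m (v i) + hs A (v i)) = 0`, so for an `i` with `e_i > 0` `pr m' (v i) = - hs A (v i)` for all `m' ∈ A`, against `Full A` and `v i ≠ 0`.  `q = e₀`, `b i = e_i` for `i ∈ I`, `0` otherwise. -/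

set_option autoImplicit false

namespace Pool.Agent.Lib.MP_1e3e9c_agY

open Pool.Agent.Lib.MP_1e3e9c_agV

private theorem Ye_pr_sum {d r : ℕ} (m : Fin d → ℤ) (v : Fin r → Fin d → ℤ) (b : Fin r → ℕ) :
    ∑ i, (b i : ℤ) * pr m (v i) = pr m (fun l => ∑ i, (b i : ℤ) * v i l) := by
  unfold pr
  simp_rw [Finset.mul_sum]
  rw [Finset.sum_comm]
  refine Finset.sum_congr rfl fun j _ => Finset.sum_congr rfl fun i _ => ?_
  ring

private theorem Ye_pr_comb {d : ℕ} (M : ℕ) (m w u : Fin d → ℤ) :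
    pr (fun j => (M : ℤ) * m j + w j) u = M * pr m u + pr w u := by
  unfold pr
  rw [Finset.mul_sum, ← Finset.sum_add_distrib]
  refine Finset.sum_congr rfl fun j _ => ?_
  ring

private theorem Ye_hb {d r : ℕ} {A : Finset (Fin d → ℤ)} (hne : A.Nonempty)
    {v : Fin r → Fin d → ℤ} (hP : Pol A v) {u m : Fin d → ℤ} (hm : Fa A u m) {w : Fin d → ℤ}
    (h1 : pr w u < 0) (h2 : ∀ i, Fa A (v i) m → 0 < pr w (v i)) : False := by
  obtain ⟨M, hM0, hM⟩ : ∃ M : ℕ, 0 < M ∧ ∀ i, -(M : ℤ) ≤ pr w (v i) := by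
    refine ⟨1 + ∑ i, (pr w (v i)).natAbs, by omega, fun i => ?_⟩
    have h3 : (pr w (v i)).natAbs ≤ ∑ i, (pr w (v i)).natAbs :=
      Finset.single_le_sum (f := fun i => (pr w (v i)).natAbs) (fun _ _ => Nat.zero_le _)
        (Finset.mem_univ i)
    omega
  have hin : InCone A (fun j => (M : ℤ) * m j + w j) M := by
    refine hP M _ hM0 fun i => ?_
    rw [Ye_pr_comb]
    by_cases hi : Fa A (v i) m
    · have h4 : (M : ℤ) * (pr m (v i) + hs A (v i)) = 0 := by rw [hi.2, mul_zero]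
      have h5 := h2 i hi
      linarith
    · have h4 : 0 ≤ pr m (v i) + hs A (v i) := hs_ge hm.1 (v i)
      have h5 : pr m (v i) + hs A (v i) ≠ 0 := fun h => hi ⟨hm.1, h⟩
      have h6 : 1 ≤ pr m (v i) + hs A (v i) := by omega
      have h7 : (M : ℤ) * 1 ≤ M * (pr m (v i) + hs A (v i)) :=
        mul_le_mul_of_nonneg_left h6 (Int.natCast_nonneg M)
      have h8 := hM i
      linarith
  have h3 := (cone_iff' hne).1 hin u
  rw [Ye_pr_comb] at h3
  have h4 : (M : ℤ) * (pr m u + hs A u) = 0 := by rw [hm.2, mul_zero]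
  linarith

private theorem Ye_pos {d r : ℕ} {A : Finset (Fin d → ℤ)} (hA : Full A)
    {v : Fin r → Fin d → ℤ} (hv : ∀ i, v i ≠ 0) {m : Fin d → ℤ} {b : Fin r → ℕ}
    (hb : ∀ i, 0 < b i → Fa A (v i) m) (hrel : ∀ l, ∑ i, (b i : ℤ) * v i l = 0) : ∀ i, b i = 0 := by
  intro i
  by_contra hi
  have hi' : 0 < b i := Nat.pos_of_ne_zero hi
  have hz : (fun l => ∑ i, (b i : ℤ) * v i l) = (fun _ => (0 : ℤ)) := funext hrel
  have hp : ∀ m' : Fin d → ℤ, ∑ i, (b i : ℤ) * pr m' (v i) = 0 := by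
    intro m'
    rw [Ye_pr_sum, hz]
    unfold pr
    refine Finset.sum_eq_zero fun j _ => ?_
    ring
  have h0 : ∑ i, (b i : ℤ) * (pr m (v i) + hs A (v i)) = 0 := by
    refine Finset.sum_eq_zero fun j _ => ?_
    rcases Nat.eq_zero_or_pos (b j) with hj | hj
    · rw [hj, Nat.cast_zero, zero_mul]
    · rw [(hb j hj).2, mul_zero]
  have h1 : ∀ m' ∈ A, pr m' (v i) + hs A (v i) = 0 := by
    intro m' hm'
    have h2 : ∑ i, (b i : ℤ) * (pr m' (v i) + hs A (v i)) = 0 := by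
      have h3 : ∑ i, (b i : ℤ) * (pr m' (v i) + hs A (v i)) =
          ∑ i, (b i : ℤ) * (pr m (v i) + hs A (v i)) := by
        simp_rw [mul_add]
        rw [Finset.sum_add_distrib, Finset.sum_add_distrib, hp, hp]
      rw [h3, h0]
    have h3 := (Finset.sum_eq_zero_iff_of_nonneg (fun j _ =>
      mul_nonneg (Int.natCast_nonneg (b j)) (hs_ge hm' (v j)))).1 h2 i (Finset.mem_univ i)
    rcases mul_eq_zero.1 h3 with h4 | h4
    · exact absurd (Int.natCast_eq_zero.1 h4) hi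
    · exact h4
  obtain ⟨m₁, hm₁, m₂, hm₂, hne⟩ := hA (v i) (hv i)
  have h4 := h1 m₁ hm₁
  have h5 := h1 m₂ hm₂
  exact hne (by linarith)

theorem comb {d r : ℕ} {A : Finset (Fin d → ℤ)} (hA : Full A) (hd : 0 < d)
    {v : Fin r → Fin d → ℤ} (hv : ∀ i, v i ≠ 0) (hP : Pol A v) (u : Fin d → ℤ) :
    ∃ (q : ℕ) (b : Fin r → ℕ) (m : Fin d → ℤ), 0 < q ∧ (∀ l, (q : ℤ) * u l = ∑ i, (b i : ℤ) * v i l) ∧
      Fa A u m ∧ ∀ i, 0 < b i → Fa A (v i) m := by
  classical
  have hne : A.Nonempty := ne_of_full hA hd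
  obtain ⟨m, hm⟩ := hs_min hne u
  obtain ⟨e, he, hrel, -⟩ := alt_int
    (Fin.cons (fun l => - u l) fun i => if Fa A (v i) m then v i else fun l => - u l :
      Fin (r + 1) → Fin d → ℤ) (fun _ => 0) (by
    intro N w hN
    by_contra hcon
    push Not at hcon
    refine Ye_hb hne hP hm (w := w) ?_ fun i hi => ?_
    · have h0 := hcon 0
      simp only [Fin.cons_zero, mul_neg, Finset.sum_neg_distrib, mul_zero, add_zero] at h0
      unfold pr
      linarith
    · have h0 := hcon i.succ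
      simp only [Fin.cons_succ, if_pos hi, mul_zero, add_zero] at h0
      exact h0)
  have hb : ∀ i, 0 < (if Fa A (v i) m then e i.succ else 0) → Fa A (v i) m := by
    intro i hi
    by_contra hcon
    rw [if_neg hcon] at hi
    exact absurd hi (lt_irrefl 0)
  have hq : ∀ l, (((e 0 + ∑ i : Fin r, if Fa A (v i) m then 0 else e i.succ) : ℕ) : ℤ) * u l =
      ∑ i, (((if Fa A (v i) m then e i.succ else 0) : ℕ) : ℤ) * v i l := by
    intro l
    have h0 := hrel l
    rw [Fin.sum_univ_succ] at h0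
    simp only [Fin.cons_zero, Fin.cons_succ] at h0
    have h1 : ∑ i : Fin r, (e i.succ : ℤ) * (if Fa A (v i) m then v i else fun l => - u l) l =
        ∑ i, (((if Fa A (v i) m then e i.succ else 0) : ℕ) : ℤ) * v i l -
          (∑ i : Fin r, (((if Fa A (v i) m then 0 else e i.succ) : ℕ) : ℤ)) * u l := by
      rw [Finset.sum_mul, ← Finset.sum_sub_distrib]
      refine Finset.sum_congr rfl fun i _ => ?_
      by_cases hi : Fa A (v i) m
      · rw [if_pos hi, if_pos hi, if_pos hi, Nat.cast_zero, zero_mul, sub_zero]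
      · rw [if_neg hi, if_neg hi, if_neg hi, Nat.cast_zero, zero_mul, zero_sub, mul_neg]
    rw [h1] at h0
    rw [Nat.cast_add, Nat.cast_sum]
    linarith
  refine ⟨e 0 + ∑ i : Fin r, (if Fa A (v i) m then 0 else e i.succ),
    fun i => if Fa A (v i) m then e i.succ else 0, m, ?_, hq, hm, hb⟩
  by_contra hcon
  have hz : e 0 + ∑ i : Fin r, (if Fa A (v i) m then 0 else e i.succ) = 0 := by omega
  have hz1 : e 0 = 0 := by omega
  have hz2 : ∑ i : Fin r, (if Fa A (v i) m then 0 else e i.succ) = 0 := by omega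
  have hz3 := Finset.sum_eq_zero_iff.1 hz2
  have hz4 := Ye_pos hA hv hb (fun l => by
    rw [← hq l, hz, Nat.cast_zero, zero_mul])
  apply he
  funext i
  refine Fin.cases hz1 (fun i => ?_) i
  have h5 := hz3 i (Finset.mem_univ i)
  have h6 := hz4 i
  by_cases hi : Fa A (v i) m
  · rw [if_pos hi] at h6
    exact h6
  · rw [if_neg hi] at h5
    exact h5

end Pool.Agent.Lib.MP_1e3e9c_agY
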